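import Pool.Agent.Lib.MP_5c685b_co.E.Defs2

set_option autoImplicit false

/-! # Row E02: `Dec` and `Balanced`: closure -/

namespace Pool.Agent.Lib.MP_5c685b_co.E

open Finset

variable {U : Type*} [DecidableEq U]

/-! ## E02: `Dec` and `Balanced`: closure -/

theorem Dec.single {r : ℕ} {Q : Finset U} (hQ : Q.card = r) : Dec r (tri Q) := by
  refine ⟨{Q}, ?_, ?_, by simp⟩
  · intro Q' h
    rw [Finset.mem_singleton.1 h, hQ]
  · intro Q1 h1 Q2 h2 hne
    exact absurd ((Finset.mem_singleton.1 h1).trans (Finset.mem_singleton.1 h2).symm) hne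

theorem Dec.triples {r : ℕ} {E : Finset (Finset U)} (h : Dec r E) : Triples E := by
  obtain ⟨F, -, -, rfl⟩ := h
  intro T hT
  obtain ⟨Q, -, hQ⟩ := Finset.mem_biUnion.1 hT
  exact (mem_tri.1 hQ).2

theorem Dec.biUnion {r : ℕ} {ι : Type*} [DecidableEq ι] (s : Finset ι) (E : ι → Finset (Finset U))
    (hE : ∀ i ∈ s, Dec r (E i)) (hd : ∀ i ∈ s, ∀ j ∈ s, i ≠ j → Disjoint (E i) (E j)) :
    Dec r (s.biUnion E) := by
  induction s using Finset.induction_on with
  | empty => simpa using Dec.empty r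
  | insert a s ha ih =>
    rw [Finset.biUnion_insert]
    refine Dec.union ?_ (hE a (Finset.mem_insert_self a s)) (ih ?_ ?_)
    · rw [Finset.disjoint_biUnion_right]
      intro i hi
      exact hd a (Finset.mem_insert_self a s) i (Finset.mem_insert_of_mem hi)
        (fun h => ha (h ▸ hi))
    · exact fun i hi => hE i (Finset.mem_insert_of_mem hi)
    · exact fun i hi j hj => hd i (Finset.mem_insert_of_mem hi) j (Finset.mem_insert_of_mem hj)

lemma subset_supp {E : Finset (Finset U)} {T : Finset U} (hT : T ∈ E) : T ⊆ supp E :=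
  fun _ hx => Finset.mem_biUnion.2 ⟨T, hT, hx⟩

lemma image_inj_of_injOn {U' : Type*} [DecidableEq U'] {f : U → U'} {S : Finset U}
    (hf : Set.InjOn f (S : Set U)) {T T' : Finset U} (hT : T ⊆ S) (hT' : T' ⊆ S)
    (h : T.image f = T'.image f) : T = T' := by
  have key : ∀ T T' : Finset U, T ⊆ S → T' ⊆ S → T.image f = T'.image f → T ⊆ T' := by
    intro T T' hT hT' h x hx
    have h1 : f x ∈ T'.image f := h ▸ Finset.mem_image_of_mem f hx
    obtain ⟨y, hy, hyx⟩ := Finset.mem_image.1 h1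
    have := hf (Finset.mem_coe.2 (hT' hy)) (Finset.mem_coe.2 (hT hx)) hyx
    exact this ▸ hy
  exact Finset.Subset.antisymm (key T T' hT hT' h) (key T' T hT' hT h.symm)

lemma image_subset_image_iff_of_injOn {U' : Type*} [DecidableEq U'] {f : U → U'} {S : Finset U}
    (hf : Set.InjOn f (S : Set U)) {T T' : Finset U} (hT : T ⊆ S) (hT' : T' ⊆ S) :
    T.image f ⊆ T'.image f ↔ T ⊆ T' := by
  refine ⟨fun h x hx => ?_, fun h => Finset.image_subset_image h⟩
  obtain ⟨y, hy, hyx⟩ := Finset.mem_image.1 (h (Finset.mem_image_of_mem f hx))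
  have := hf (Finset.mem_coe.2 (hT' hy)) (Finset.mem_coe.2 (hT hx)) hyx
  exact this ▸ hy

/-- `Dec` is preserved by maps which are injective on the support. -/
theorem Dec.image {r : ℕ} {U' : Type*} [DecidableEq U'] (f : U → U') {E : Finset (Finset U)}
    (hE : Dec r E) (hf : Set.InjOn f (supp E : Set U)) (hr : 3 ≤ r) :
    Dec r (E.image (Finset.image f)) := by
  obtain ⟨F, h1, h2, h3⟩ := hE
  have hsub : ∀ Q ∈ F, Q ⊆ supp E := by
    intro Q hQ x hx
    have hc : ({x} : Finset U).card ≤ 3 := by simp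
    obtain ⟨T, hT1, hT2, hT3⟩ := Finset.exists_subsuperset_card_eq
      (Finset.singleton_subset_iff.2 hx) hc (by rw [h1 Q hQ]; exact hr)
    have hTE : T ∈ E := by
      rw [← h3]
      exact Finset.mem_biUnion.2 ⟨Q, hQ, mem_tri.2 ⟨hT2, hT3⟩⟩
    exact subset_supp hTE (hT1 (Finset.mem_singleton_self x))
  have hcard : ∀ T : Finset U, T ⊆ supp E → (T.image f).card = T.card := by
    intro T hT
    exact Finset.card_image_of_injOn (hf.mono (Finset.coe_subset.2 hT))
  refine ⟨F.image (Finset.image f), ?_, ?_, ?_⟩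
  · intro Q' hQ'
    obtain ⟨Q, hQ, rfl⟩ := Finset.mem_image.1 hQ'
    rw [hcard Q (hsub Q hQ), h1 Q hQ]
  · intro Q1' h1' Q2' h2' hne
    obtain ⟨Q1, hQ1, rfl⟩ := Finset.mem_image.1 h1'
    obtain ⟨Q2, hQ2, rfl⟩ := Finset.mem_image.1 h2'
    have hne' : Q1 ≠ Q2 := fun h => hne (by rw [h])
    have h4 : Q1.image f ∩ Q2.image f = (Q1 ∩ Q2).image f := by
      rw [Finset.image_inter_of_injOn]
      refine hf.mono ?_
      rw [← Finset.coe_union]
      exact Finset.coe_subset.2 (Finset.union_subset (hsub Q1 hQ1) (hsub Q2 hQ2))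
    rw [h4]
    exact Finset.card_image_le.trans (h2 Q1 hQ1 Q2 hQ2 hne')
  · ext T'
    constructor
    · intro hT'
      obtain ⟨Q', hQ', hT2⟩ := Finset.mem_biUnion.1 hT'
      obtain ⟨Q, hQ, rfl⟩ := Finset.mem_image.1 hQ'
      obtain ⟨hT3, hT4⟩ := mem_tri.1 hT2
      obtain ⟨T, hTQ, rfl⟩ := Finset.subset_image_iff.1 hT3
      have hTQ' : T ⊆ Q := by exact_mod_cast hTQ
      refine Finset.mem_image.2 ⟨T, ?_, rfl⟩
      rw [← h3]
      refine Finset.mem_biUnion.2 ⟨Q, hQ, mem_tri.2 ⟨hTQ', ?_⟩⟩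
      rw [← hcard T (hTQ'.trans (hsub Q hQ))]
      exact hT4
    · intro hT'
      obtain ⟨T, hT, rfl⟩ := Finset.mem_image.1 hT'
      have hT' := hT
      rw [← h3] at hT'
      obtain ⟨Q, hQ, hTQ⟩ := Finset.mem_biUnion.1 hT'
      obtain ⟨hT3, hT4⟩ := mem_tri.1 hTQ
      refine Finset.mem_biUnion.2 ⟨Q.image f, Finset.mem_image_of_mem _ hQ, mem_tri.2
        ⟨Finset.image_subset_image hT3, ?_⟩⟩
      rw [hcard T (hT3.trans (hsub Q hQ)), hT4]

theorem dg_biUnion' {ι : Type*} [DecidableEq ι] (s : Finset ι) (E : ι → Finset (Finset U))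
    (hd : ∀ i ∈ s, ∀ j ∈ s, i ≠ j → Disjoint (E i) (E j)) (c : Finset U) :
    dg (s.biUnion E) c = ∑ i ∈ s, dg (E i) c := by
  unfold dg
  rw [Finset.filter_biUnion, Finset.card_biUnion]
  intro i hi j hj hne
  exact Finset.disjoint_filter_filter (hd i hi j hj hne)

/-- Degrees are preserved by maps which are injective on the support. -/
theorem dg_image {U' : Type*} [DecidableEq U'] (f : U → U') {E : Finset (Finset U)}
    (hf : Set.InjOn f (supp E : Set U)) (c : Finset U) (hc : c ⊆ supp E) :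
    dg (E.image (Finset.image f)) (c.image f) = dg E c := by
  unfold dg
  have h1 : (E.image (Finset.image f)).filter (fun T => c.image f ⊆ T) =
      (E.filter (fun T => c ⊆ T)).image (Finset.image f) := by
    ext T'
    simp only [Finset.mem_filter, Finset.mem_image]
    constructor
    · rintro ⟨⟨T, hT, rfl⟩, h⟩
      exact ⟨T, ⟨hT, (image_subset_image_iff_of_injOn hf hc (subset_supp hT)).1 h⟩, rfl⟩
    · rintro ⟨T, ⟨hT, h⟩, rfl⟩
      exact ⟨⟨T, hT, rfl⟩, Finset.image_subset_image h⟩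
  rw [h1, Finset.card_image_of_injOn]
  intro T hT T' hT' h
  exact image_inj_of_injOn hf (subset_supp (Finset.mem_filter.1 hT).1)
    (subset_supp (Finset.mem_filter.1 hT').1) h

/-- `Balanced` is preserved by maps which are injective on the support. -/
theorem Balanced.image {r : ℕ} {U' : Type*} [DecidableEq U'] (f : U → U') {E : Finset (Finset U)}
    (hE : Balanced r E) (hf : Set.InjOn f (supp E : Set U)) :
    Balanced r (E.image (Finset.image f)) := by
  intro c' hc'
  by_cases h : c' ⊆ (supp E).image f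
  · obtain ⟨c, hc, rfl⟩ := Finset.subset_image_iff.1 h
    have hc2 : c ⊆ supp E := by exact_mod_cast hc
    have hcard : (c.image f).card = c.card :=
      Finset.card_image_of_injOn (hf.mono (Finset.coe_subset.2 hc2))
    rw [dg_image f hf c hc2, hcard]
    rw [hcard] at hc'
    exact hE c hc'
  · have h0 : dg (E.image (Finset.image f)) c' = 0 := by
      unfold dg
      rw [Finset.card_eq_zero, Finset.filter_eq_empty_iff]
      intro T' hT' hcT
      obtain ⟨T, hT, rfl⟩ := Finset.mem_image.1 hT'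
      exact h (hcT.trans (Finset.image_subset_image (subset_supp hT)))
    rw [h0]
    exact dvd_zero _

end Pool.Agent.Lib.MP_5c685b_co.E
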