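import Mathlib

/-! Blow-up lemma for MP_5c685b_co (integral threshold), Jensen in each coordinate. -/

namespace MP5cBlow

open Finset

variable {V : Type*} [Fintype V]

/-- the average over all `ψ` of the product over all selections -/
theorem blow_fin (n : ℝ) (hn : n = Fintype.card V) (hn0 : 0 < n) (N : ℕ) :
    ∀ (m : ℕ) (f : (Fin m → V) → ℝ), (∀ x, 0 ≤ f x) →
      ((∑ x, f x) / n ^ m) ^ (N ^ m) ≤
        (∑ ψ : Fin m → Fin N → V, ∏ s : Fin m → Fin N, f (fun i => ψ i (s i))) / n ^ (N * m) := by
  classical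
  intro m
  induction m with
  | zero =>
    intro f _
    simp
    apply le_of_eq
    congr 1
    funext i
    exact i.elim0
  | succ m ih =>
    intro f hf
    -- abbreviations
    set F : (Fin m → Fin N → V) → V → ℝ :=
      fun ψ v => ∏ s : Fin m → Fin N, f (Fin.cons v (fun i => ψ i (s i))) with hF
    have hFnn : ∀ ψ v, 0 ≤ F ψ v := fun ψ v => Finset.prod_nonneg (fun s _ => hf _)
    -- rewrite the big sum
    have hA : (∑ ψ : Fin (m + 1) → Fin N → V, ∏ s : Fin (m + 1) → Fin N, f (fun i => ψ i (s i)))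
        = ∑ ψ : Fin m → Fin N → V, (∑ v, F ψ v) ^ N := by
      rw [← (Fin.consEquiv (fun _ : Fin (m + 1) => Fin N → V)).sum_comp]
      rw [Fintype.sum_prod_type]
      rw [Finset.sum_comm]
      refine Finset.sum_congr rfl (fun ψ _ => ?_)
      rw [Fintype.sum_pow]
      refine Finset.sum_congr rfl (fun g _ => ?_)
      rw [← (Fin.consEquiv (fun _ : Fin (m + 1) => Fin N)).prod_comp]
      rw [Fintype.prod_prod_type]
      refine Finset.prod_congr rfl (fun t _ => ?_)
      rw [hF]
      refine Finset.prod_congr rfl (fun s _ => ?_)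
      congr 1
      funext i
      refine Fin.cases ?_ (fun j => ?_) i
      · simp [Fin.consEquiv]
      · simp [Fin.consEquiv]
    have hS : (∑ x : Fin (m + 1) → V, f x) = ∑ v, ∑ x : Fin m → V, f (Fin.cons v x) := by
      rw [← (Fin.consEquiv (fun _ : Fin (m + 1) => V)).sum_comp, Fintype.sum_prod_type]
      rfl
    set K : ℝ := n ^ (N * m) with hK
    have hK0 : 0 < K := pow_pos hn0 _
    have hKcard : (K : ℝ) = ((Finset.univ : Finset (Fin m → Fin N → V)).card : ℝ) := by
      rw [Finset.card_univ]
      simp only [Fintype.card_fun, Fintype.card_fin, Nat.cast_pow, ← hn, hK]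
      rw [pow_mul]
    -- first Jensen: over psi
    have h1 : ((∑ ψ : Fin m → Fin N → V, (∑ v, F ψ v) / n) / K) ^ N ≤
        (∑ ψ : Fin m → Fin N → V, ((∑ v, F ψ v) / n) ^ N) / K := by
      have := Real.pow_arith_mean_le_arith_mean_pow (s := (Finset.univ : Finset (Fin m → Fin N → V)))
        (w := fun _ => 1 / K) (z := fun ψ => (∑ v, F ψ v) / n)
        (fun _ _ => by positivity)
        (by rw [Finset.sum_const, nsmul_eq_mul, ← hKcard]; field_simp)
        (fun ψ _ => div_nonneg (Finset.sum_nonneg (fun v _ => hFnn ψ v)) hn0.le) N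
      rw [← Finset.mul_sum, ← Finset.mul_sum] at this
      calc _ = (1 / K * ∑ ψ : Fin m → Fin N → V, (∑ v, F ψ v) / n) ^ N := by ring
        _ ≤ _ := this
        _ = _ := by ring
    -- second Jensen: over v
    have h2 : ((∑ v, (∑ x : Fin m → V, f (Fin.cons v x)) / n ^ m) / n) ^ (N ^ m) ≤
        (∑ v, ((∑ x : Fin m → V, f (Fin.cons v x)) / n ^ m) ^ (N ^ m)) / n := by
      have := Real.pow_arith_mean_le_arith_mean_pow (s := (Finset.univ : Finset V))
        (w := fun _ => 1 / n) (z := fun v => (∑ x : Fin m → V, f (Fin.cons v x)) / n ^ m)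
        (fun _ _ => by positivity)
        (by rw [Finset.sum_const, nsmul_eq_mul, Finset.card_univ, ← hn]; field_simp)
        (fun v _ => div_nonneg (Finset.sum_nonneg (fun x _ => hf _)) (by positivity)) (N ^ m)
      rw [← Finset.mul_sum, ← Finset.mul_sum] at this
      calc _ = (1 / n * ∑ v, (∑ x : Fin m → V, f (Fin.cons v x)) / n ^ m) ^ (N ^ m) := by ring
        _ ≤ _ := this
        _ = _ := by ring
    -- induction hypothesis for each v
    have h3 : (∑ v, ((∑ x : Fin m → V, f (Fin.cons v x)) / n ^ m) ^ (N ^ m)) / n ≤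
        (∑ ψ : Fin m → Fin N → V, (∑ v, F ψ v) / n) / K := by
      have : (∑ ψ : Fin m → Fin N → V, (∑ v, F ψ v) / n) / K =
          (∑ v, (∑ ψ : Fin m → Fin N → V, F ψ v) / K) / n := by
        rw [← Finset.sum_div, ← Finset.sum_div, Finset.sum_comm]
        ring
      rw [this]
      apply div_le_div_of_nonneg_right _ hn0.le
      refine Finset.sum_le_sum (fun v _ => ?_)
      exact ih (fun x => f (Fin.cons v x)) (fun x => hf _)
    have h4 : (∑ x : Fin (m + 1) → V, f x) / n ^ (m + 1) =
        (∑ v, (∑ x : Fin m → V, f (Fin.cons v x)) / n ^ m) / n := by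
      rw [hS, ← Finset.sum_div, pow_succ, div_div]
    have h5 : 0 ≤ ((∑ v, (∑ x : Fin m → V, f (Fin.cons v x)) / n ^ m) / n) ^ (N ^ m) := by
      apply pow_nonneg
      apply div_nonneg _ hn0.le
      exact Finset.sum_nonneg (fun v _ => div_nonneg (Finset.sum_nonneg (fun x _ => hf _))
        (by positivity))
    calc ((∑ x : Fin (m + 1) → V, f x) / n ^ (m + 1)) ^ N ^ (m + 1)
        = (((∑ v, (∑ x : Fin m → V, f (Fin.cons v x)) / n ^ m) / n) ^ (N ^ m)) ^ N := by
          rw [h4, ← pow_mul, ← pow_succ]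
      _ ≤ ((∑ ψ : Fin m → Fin N → V, (∑ v, F ψ v) / n) / K) ^ N :=
          pow_le_pow_left₀ h5 (h2.trans h3) N
      _ ≤ (∑ ψ : Fin m → Fin N → V, ((∑ v, F ψ v) / n) ^ N) / K := h1
      _ = (∑ ψ : Fin m → Fin N → V, (∑ v, F ψ v) ^ N) / n ^ (N * (m + 1)) := by
          rw [hK]
          simp only [div_pow]
          rw [← Finset.sum_div, div_div, ← pow_add]
          congr 2
          ring
      _ = _ := by rw [hA]

/-- weighted form, arbitrary index type -/
theorem blow_weight {Y : Type*} [Fintype Y] [DecidableEq Y] [Nonempty V] (N : ℕ)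
    (f : (Y → V) → ℝ) (hf : ∀ x, 0 ≤ f x) :
    ((∑ x, f x) / (Fintype.card V : ℝ) ^ (Fintype.card Y)) ^ (N ^ Fintype.card Y) ≤
      (∑ ψ : Y → Fin N → V, ∏ s : Y → Fin N, f (fun i => ψ i (s i))) /
        (Fintype.card V : ℝ) ^ (N * Fintype.card Y) := by
  classical
  have hn0 : (0 : ℝ) < Fintype.card V := by
    exact_mod_cast Fintype.card_pos
  set m := Fintype.card Y with hm
  let e : Y ≃ Fin m := Fintype.equivFin Y
  have key := blow_fin (V := V) (Fintype.card V : ℝ) rfl hn0 N m (fun x => f (fun y => x (e y)))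
    (fun x => hf _)
  have hs : (∑ x : Fin m → V, f (fun y => x (e y))) = ∑ x : Y → V, f x := by
    rw [← (Equiv.arrowCongr e (Equiv.refl V)).sum_comp]
    refine Finset.sum_congr rfl (fun x _ => ?_)
    congr 1
    funext y
    simp
  have hs2 : (∑ ψ : Fin m → Fin N → V, ∏ s : Fin m → Fin N,
        f (fun y => (fun i => ψ i (s i)) (e y))) =
      ∑ ψ : Y → Fin N → V, ∏ s : Y → Fin N, f (fun i => ψ i (s i)) := by
    rw [← (Equiv.arrowCongr e (Equiv.refl (Fin N → V))).sum_comp]
    refine Finset.sum_congr rfl (fun ψ _ => ?_)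
    rw [← (Equiv.arrowCongr e (Equiv.refl (Fin N))).prod_comp]
    refine Finset.prod_congr rfl (fun s _ => ?_)
    congr 1
    funext y
    simp
  rw [hs, hs2] at key
  exact key

/-- set form -/
theorem blow_card {Y : Type*} [Fintype Y] [DecidableEq Y] [DecidableEq V] (N : ℕ)
    (Om : Finset (Y → V)) (de : ℝ) (hde : 0 ≤ de)
    (hOm : de * (Fintype.card V : ℝ) ^ (Fintype.card Y) ≤ (Om.card : ℝ)) :
    de ^ (N ^ Fintype.card Y) * (Fintype.card V : ℝ) ^ (N * Fintype.card Y) ≤
      ((Finset.univ.filter (fun ψ : Y → Fin N → V =>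
        ∀ s : Y → Fin N, (fun y => ψ y (s y)) ∈ Om)).card : ℝ) := by
  classical
  rcases isEmpty_or_nonempty V with hV | hV
  · -- V empty
    rcases Nat.eq_zero_or_pos (Fintype.card Y) with hY | hY
    · have : IsEmpty Y := Fintype.card_eq_zero_iff.mp hY
      rw [hY] at hOm ⊢
      simp only [pow_zero, mul_one, mul_zero, pow_one] at hOm ⊢
      refine hOm.trans ?_
      have hle : Om.card ≤ (Finset.univ.filter (fun ψ : Y → Fin N → V =>
        ∀ s : Y → Fin N, (fun y => ψ y (s y)) ∈ Om)).card := by
        rcases Om.eq_empty_or_nonempty with h | ⟨x, hx⟩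
        · simp [h]
        · have h1 : Om.card ≤ 1 := by
            rw [Finset.card_le_one]
            intro a _ b _
            exact Subsingleton.elim a b
          refine h1.trans ?_
          rw [Nat.one_le_iff_ne_zero, Finset.card_ne_zero]
          refine ⟨fun y => (this.false y).elim, ?_⟩
          simp only [Finset.mem_filter, Finset.mem_univ, true_and]
          intro s
          have e : x = (fun y => (False.elim (this.false y) : Fin N → V) (s y)) :=
            funext fun y => (this.false y).elim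
          exact e ▸ hx
      exact_mod_cast hle
    · have hc : (Fintype.card V : ℝ) = 0 := by
        rw [Fintype.card_eq_zero]; simp
      rcases Nat.eq_zero_or_pos N with hN | hN
      · subst hN
        have : (0 : ℕ) ^ Fintype.card Y = 0 := Nat.zero_pow hY
        rw [this]
        simp only [pow_zero, zero_mul, mul_one]
        have h1 : 1 ≤ (Finset.univ.filter (fun ψ : Y → Fin 0 → V =>
          ∀ s : Y → Fin 0, (fun y => ψ y (s y)) ∈ Om)).card := by
          rw [Nat.one_le_iff_ne_zero, Finset.card_ne_zero]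
          refine ⟨fun y => Fin.elim0, ?_⟩
          simp only [Finset.mem_filter, Finset.mem_univ, true_and]
          intro s
          obtain ⟨y⟩ : Nonempty Y := Fintype.card_pos_iff.mp hY
          exact (s y).elim0
        exact_mod_cast h1
      · rw [hc, zero_pow (by positivity), mul_zero]
        positivity
  · have hn0 : (0 : ℝ) < Fintype.card V := by
      exact_mod_cast Fintype.card_pos
    have key := blow_weight (V := V) (Y := Y) N (fun x => if x ∈ Om then (1 : ℝ) else 0)
      (fun x => by split_ifs <;> norm_num)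
    have hs : (∑ x : Y → V, (if x ∈ Om then (1 : ℝ) else 0)) = Om.card := by
      simp
    have hs2 : (∑ ψ : Y → Fin N → V, ∏ s : Y → Fin N,
        (if (fun i => ψ i (s i)) ∈ Om then (1 : ℝ) else 0)) =
        ((Finset.univ.filter (fun ψ : Y → Fin N → V =>
        ∀ s : Y → Fin N, (fun y => ψ y (s y)) ∈ Om)).card : ℝ) := by
      rw [Finset.card_filter]
      push_cast
      refine Finset.sum_congr rfl (fun ψ _ => ?_)
      rw [Finset.prod_ite_zero]
      simp
    rw [hs, hs2] at key
    have h1 : de ≤ (Om.card : ℝ) / (Fintype.card V : ℝ) ^ (Fintype.card Y) := by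
      rw [le_div_iff₀ (by positivity)]
      exact hOm
    have h2 : de ^ (N ^ Fintype.card Y) ≤
        ((Om.card : ℝ) / (Fintype.card V : ℝ) ^ (Fintype.card Y)) ^ (N ^ Fintype.card Y) :=
      pow_le_pow_left₀ hde h1 _
    have h3 := h2.trans key
    rwa [le_div_iff₀ (by positivity)] at h3

end MP5cBlow
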