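import Pool.Agent.Lib.MP_5c685b_co.E.Defs2

/-! MP_5c685b_co, exact decomposition for k = 3: section 2 (UNITS). helper14. -/

set_option autoImplicit false
set_option linter.all false

namespace Pool.Agent.Lib.MP_5c685b_co.E

open Finset

namespace Units

variable {U : Type*} [DecidableEq U]

/-- the triple selected by `a` -/
def tr {m : ℕ} (P : Fin 3 → Fin m → U) (a : Fin 3 → Fin m) : Finset U :=
  univ.image fun i => P i (a i)

lemma mem_tr {m : ℕ} {P : Fin 3 → Fin m → U} {a : Fin 3 → Fin m} {x : U} :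
    x ∈ tr P a ↔ ∃ i, P i (a i) = x := by
  simp [tr]

lemma tr_card {m : ℕ} (P : Fin 3 → Fin m → U)
    (hP : ∀ i a i' a', P i a = P i' a' → i = i' ∧ a = a') (a : Fin 3 → Fin m) :
    (tr P a).card = 3 := by
  unfold tr
  rw [Finset.card_image_of_injective, Finset.card_univ, Fintype.card_fin]
  intro i i' h
  exact (hP _ _ _ _ h).1

lemma tr_inj {m : ℕ} (P : Fin 3 → Fin m → U)
    (hP : ∀ i a i' a', P i a = P i' a' → i = i' ∧ a = a') {a a' : Fin 3 → Fin m}
    (h : tr P a = tr P a') : a = a' := by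
  funext i
  have h1 : P i (a i) ∈ tr P a' := by
    rw [← h]; exact mem_tr.2 ⟨i, rfl⟩
  obtain ⟨i', hi'⟩ := mem_tr.1 h1
  obtain ⟨e1, e2⟩ := hP _ _ _ _ hi'
  subst e1
  exact e2.symm

/-- counting: the number of transversals containing a set of at most two points -/
lemma cnt {m : ℕ} (P : Fin 3 → Fin (m + 1) → U)
    (hP : ∀ i a i' a', P i a = P i' a' → i = i' ∧ a = a') (c : Finset U) (hc : c.card ≤ 2) :
    (m + 1) ∣ ((univ : Finset (Fin 3 → Fin (m + 1))).filter fun a => c ⊆ tr P a).card := by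
  classical
  have hex : ∃ i0 : Fin 3, ∀ a, P i0 a ∉ c := by
    by_contra hcon
    push Not at hcon
    choose f hf using hcon
    have h1 : (univ.image fun i => P i (f i)).card ≤ c.card := by
      refine Finset.card_le_card ?_
      intro x hx
      obtain ⟨i, _, rfl⟩ := Finset.mem_image.1 hx
      exact hf i
    rw [Finset.card_image_of_injective, Finset.card_univ, Fintype.card_fin] at h1
    · omega
    · intro i i' h
      exact (hP _ _ _ _ h).1
  obtain ⟨i0, hi0⟩ := hex
  set S := (univ : Finset (Fin 3 → Fin (m + 1))).filter fun a => c ⊆ tr P a with hS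
  have hupd : ∀ a ∈ S, ∀ v, Function.update a i0 v ∈ S := by
    intro a ha v
    have ha' := (Finset.mem_filter.1 ha).2
    refine Finset.mem_filter.2 ⟨Finset.mem_univ _, ?_⟩
    intro x hx
    obtain ⟨i, hi⟩ := mem_tr.1 (ha' hx)
    have hne : i ≠ i0 := by
      rintro rfl
      exact hi0 (a i) (hi ▸ hx)
    refine mem_tr.2 ⟨i, ?_⟩
    rw [Function.update_of_ne hne]
    exact hi
  have h1 : S.card = ∑ v ∈ (univ : Finset (Fin (m + 1))), (S.filter fun a => a i0 = v).card :=
    Finset.card_eq_sum_card_fiberwise (fun a _ => Finset.mem_coe.2 (Finset.mem_univ _))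
  have h2 : ∀ v ∈ (univ : Finset (Fin (m + 1))), (S.filter fun a => a i0 = v).card =
      (S.filter fun a => a i0 = 0).card := by
    intro v _
    refine Finset.card_bij' (fun a _ => Function.update a i0 0) (fun a _ => Function.update a i0 v)
      ?_ ?_ ?_ ?_
    · intro a ha
      exact Finset.mem_filter.2 ⟨hupd a (Finset.mem_filter.1 ha).1 0, by simp⟩
    · intro a ha
      exact Finset.mem_filter.2 ⟨hupd a (Finset.mem_filter.1 ha).1 v, by simp⟩
    · intro a ha
      have := (Finset.mem_filter.1 ha).2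
      simp only [Function.update_idem]
      rw [← this, Function.update_eq_self]
    · intro a ha
      have := (Finset.mem_filter.1 ha).2
      simp only [Function.update_idem]
      rw [← this, Function.update_eq_self]
  rw [h1, Finset.sum_congr rfl h2, Finset.sum_const, Finset.card_univ, Fintype.card_fin,
    smul_eq_mul]
  exact dvd_mul_right _ _

/-- complete tripartite system minus the base triple -/
def gad {m : ℕ} (P : Fin 3 → Fin (m + 1) → U) : Finset (Finset U) :=
  ((univ : Finset (Fin 3 → Fin (m + 1))).filter fun a => a ≠ 0).image (tr P)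

lemma gad_dg {m : ℕ} (P : Fin 3 → Fin (m + 1) → U)
    (hP : ∀ i a i' a', P i a = P i' a' → i = i' ∧ a = a') (c : Finset U) (hc : c.card ≤ 2) :
    (m + 1) ∣ dg (gad P) c + (if c ⊆ tr P 0 then 1 else 0) := by
  classical
  have h := cnt P hP c hc
  have h1 : dg (gad P) c = (((univ : Finset (Fin 3 → Fin (m + 1))).filter fun a => a ≠ 0).filter
      fun a => c ⊆ tr P a).card := by
    unfold dg gad
    rw [Finset.filter_image, Finset.card_image_of_injOn]
    intro a _ a' _ h
    exact tr_inj P hP h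
  have h2 : ((univ : Finset (Fin 3 → Fin (m + 1))).filter fun a => c ⊆ tr P a).card =
      (((univ : Finset (Fin 3 → Fin (m + 1))).filter fun a => a ≠ 0).filter
      fun a => c ⊆ tr P a).card + (if c ⊆ tr P 0 then 1 else 0) := by
    have h3 : ((univ : Finset (Fin 3 → Fin (m + 1))).filter fun a => c ⊆ tr P a) =
        (((univ : Finset (Fin 3 → Fin (m + 1))).filter fun a => a ≠ 0).filter
          fun a => c ⊆ tr P a) ∪ (({0} : Finset (Fin 3 → Fin (m + 1))).filter
          fun a => c ⊆ tr P a) := by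
      ext a
      simp only [Finset.mem_union, Finset.mem_filter, Finset.mem_univ, true_and,
        Finset.mem_singleton]
      tauto
    rw [h3, Finset.card_union_of_disjoint]
    · congr 1
      rw [Finset.filter_singleton]
      split_ifs <;> simp
    · refine Finset.disjoint_left.2 fun a ha ha' => ?_
      have := (Finset.mem_filter.1 ha).1
      have := (Finset.mem_filter.1 this).2
      exact this (Finset.mem_singleton.1 (Finset.mem_filter.1 ha').1)
  rw [h1, ← h2]
  exact h


/-- the parts of the gadget with index `(g, k)` -/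
noncomputable def prt {n m : ℕ} (φ : Fin (n + 1) → U) (col : Fin (n + 1) → Fin 5)
    (z : Fin 5 → ℕ → U) (e : Finset (Fin (n + 1)) → Fin 3 → Fin (n + 1))
    (p : Σ _ : Finset (Fin (n + 1)), ℕ) (i : Fin 3) (a : Fin (m + 1)) : U :=
  if a = 0 then φ (e p.1 i)
  else z (col (e p.1 i)) (Encodable.encode (p.1, p.2, (a : ℕ)) + 1)

lemma core {n : ℕ} (φ : Fin (n + 1) → U) (hφ : Function.Injective φ)
    (col : Fin (n + 1) → Fin 5) (hcol : Function.Injective col) (z : Fin 5 → ℕ → U)
    (hz : ∀ k l k' l', z k l = z k' l' → k = k' ∧ l = l')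
    (hφz : ∀ i, (∀ k l, φ i ≠ z k l) ∨ φ i = z (col i) 0)
    (w : Finset (Fin (n + 1)) → ℕ) (m : ℕ) :
    ∃ E : Finset (Finset U),
      (∀ T ∈ E, T.card = 3 ∧ (∀ x ∈ T, (∃ i, x = φ i) ∨ ∃ k l, x = z k l) ∧
        (∃ k l, z k l ∈ T) ∧ ∀ k l l', z k l ∈ T → z k l' ∈ T → l = l') ∧
      ∀ c : Finset U, c.card ≤ 2 →
        (m + 1) ∣ dg E c + ∑ g ∈ ((univ : Finset (Fin (n + 1))).powersetCard 3).filter
          (fun g => c ⊆ g.image φ), w g := by
  classical
  have hex : ∀ g : Finset (Fin (n + 1)), ∃ e : Fin 3 → Fin (n + 1), g.card = 3 →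
      Function.Injective e ∧ univ.image e = g := by
    intro g
    by_cases hg : g.card = 3
    · refine ⟨fun i => (g.orderEmbOfFin hg) i, fun _ => ⟨(g.orderEmbOfFin hg).injective, ?_⟩⟩
      ext x
      simp only [Finset.mem_image, Finset.mem_univ, true_and]
      have := Finset.range_orderEmbOfFin g hg
      constructor
      · rintro ⟨i, rfl⟩
        exact Finset.orderEmbOfFin_mem g hg i
      · intro hx
        have hx' : x ∈ (g : Set (Fin (n + 1))) := hx
        rw [← this] at hx'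
        exact hx'
    · exact ⟨fun _ => 0, fun h => absurd h hg⟩
  choose e he using hex
  set I : Finset (Σ _ : Finset (Fin (n + 1)), ℕ) :=
    ((univ : Finset (Fin (n + 1))).powersetCard 3).sigma fun g => Finset.range (w g) with hI
  set P : (Σ _ : Finset (Fin (n + 1)), ℕ) → Fin 3 → Fin (m + 1) → U :=
    fun p => prt φ col z e p with hP
  have hIc : ∀ p ∈ I, p.1.card = 3 := by
    intro p hp
    exact (Finset.mem_powersetCard.1 (Finset.mem_sigma.1 hp).1).2
  have hinj : ∀ p ∈ I, ∀ i a i' a', P p i a = P p i' a' → i = i' ∧ a = a' := by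
    intro p hp i a i' a' h
    have hp3 := hIc p hp
    have hei := (he p.1 hp3).1
    simp only [hP, prt] at h
    split_ifs at h with h1 h2 h2
    · exact ⟨hei (hφ h), by rw [h1, h2]⟩
    · exfalso
      rcases hφz (e p.1 i) with h3 | h3
      · exact h3 _ _ h
      · rw [h3] at h
        have := (hz _ _ _ _ h).2
        omega
    · exfalso
      rcases hφz (e p.1 i') with h3 | h3
      · exact h3 _ _ h.symm
      · rw [h3] at h
        have := (hz _ _ _ _ h).2
        omega
    · obtain ⟨h3, h4⟩ := hz _ _ _ _ h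
      have h5 := hei (hcol h3)
      have h6 : Encodable.encode (p.1, p.2, (a : ℕ)) = Encodable.encode (p.1, p.2, (a' : ℕ)) := by
        omega
      have h7 := Encodable.encode_injective h6
      have h8 : (a : ℕ) = (a' : ℕ) := by
        have := congrArg (fun t => t.2.2) h7
        exact this
      exact ⟨h5, Fin.ext h8⟩
  have htr0 : ∀ p ∈ I, tr (P p) 0 = p.1.image φ := by
    intro p hp
    have h1 := (he p.1 (hIc p hp)).2
    conv_rhs => rw [← h1]
    ext x
    simp only [mem_tr, Finset.mem_image, Finset.mem_univ, true_and, hP, prt]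
    constructor
    · rintro ⟨i, hi⟩
      simp only [Pi.zero_apply, if_true] at hi
      exact ⟨_, ⟨i, rfl⟩, hi⟩
    · rintro ⟨_, ⟨i, rfl⟩, hi⟩
      refine ⟨i, ?_⟩
      simp only [Pi.zero_apply, if_true]
      exact hi
  have hdis : ∀ p ∈ I, ∀ p' ∈ I, p ≠ p' → Disjoint (gad (P p)) (gad (P p')) := by
    intro p hp p' hp' hne
    refine Finset.disjoint_left.2 fun T hT hT' => hne ?_
    obtain ⟨a, ha, rfl⟩ := Finset.mem_image.1 hT
    obtain ⟨a', ha', h'⟩ := Finset.mem_image.1 hT'
    have ha0 := (Finset.mem_filter.1 ha).2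
    obtain ⟨i, hi⟩ := Function.ne_iff.1 ha0
    have h1 : P p i (a i) ∈ tr (P p') a' := by
      rw [h']; exact mem_tr.2 ⟨i, rfl⟩
    obtain ⟨i', hi'⟩ := mem_tr.1 h1
    have hi0 : ¬ (a i = 0) := hi
    simp only [hP, prt, if_neg hi0] at hi'
    split_ifs at hi' with h2
    · exfalso
      rcases hφz (e p'.1 i') with h3 | h3
      · exact h3 _ _ hi'
      · rw [h3] at hi'
        have := (hz _ _ _ _ hi').2
        omega
    · obtain ⟨h3, h4⟩ := hz _ _ _ _ hi'
      have h6 : Encodable.encode (p'.1, p'.2, ((a' i' : Fin (m + 1)) : ℕ)) =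
          Encodable.encode (p.1, p.2, ((a i : Fin (m + 1)) : ℕ)) := by
        omega
      have h7 := Encodable.encode_injective h6
      have h8 : p'.1 = p.1 := congrArg (fun t => t.1) h7
      have h9 : p'.2 = p.2 := congrArg (fun t => t.2.1) h7
      exact (Sigma.ext h8 (heq_of_eq h9)).symm
  refine ⟨I.biUnion fun p => gad (P p), ?_, ?_⟩
  · intro T hT
    obtain ⟨p, hp, hT⟩ := Finset.mem_biUnion.1 hT
    obtain ⟨a, ha, rfl⟩ := Finset.mem_image.1 hT
    have ha0 := (Finset.mem_filter.1 ha).2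
    have hei := (he p.1 (hIc p hp)).1
    refine ⟨tr_card _ (hinj p hp) a, ?_, ?_, ?_⟩
    · intro x hx
      obtain ⟨i, rfl⟩ := mem_tr.1 hx
      simp only [hP, prt]
      split_ifs
      · exact Or.inl ⟨_, rfl⟩
      · exact Or.inr ⟨_, _, rfl⟩
    · obtain ⟨i, hi⟩ := Function.ne_iff.1 ha0
      have hi0 : ¬ (a i = 0) := hi
      refine ⟨col (e p.1 i), Encodable.encode (p.1, p.2, ((a i : Fin (m + 1)) : ℕ)) + 1, ?_⟩
      refine mem_tr.2 ⟨i, ?_⟩
      simp only [hP, prt, if_neg hi0]
    · -- colours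
      have key : ∀ k l, z k l ∈ tr (P p) a → ∃ i, P p i (a i) = z k l ∧ col (e p.1 i) = k := by
        intro k l h
        obtain ⟨i, hi⟩ := mem_tr.1 h
        refine ⟨i, hi, ?_⟩
        simp only [hP, prt] at hi
        split_ifs at hi with h1
        · rcases hφz (e p.1 i) with h3 | h3
          · exact absurd hi (h3 _ _)
          · rw [h3] at hi
            exact (hz _ _ _ _ hi).1
        · exact (hz _ _ _ _ hi).1
      intro k l l' h h'
      obtain ⟨i, h1, h2⟩ := key k l h
      obtain ⟨i', h1', h2'⟩ := key k l' h'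
      have : i = i' := hei (hcol (h2.trans h2'.symm))
      subst this
      rw [h1] at h1'
      exact (hz _ _ _ _ h1').2
  · intro c hc
    have h1 : dg (I.biUnion fun p => gad (P p)) c = ∑ p ∈ I, dg (gad (P p)) c := by
      unfold dg
      rw [Finset.filter_biUnion, Finset.card_biUnion]
      intro p hp p' hp' hne
      exact Finset.disjoint_filter_filter (hdis p hp p' hp' hne)
    have h2 : ∑ g ∈ ((univ : Finset (Fin (n + 1))).powersetCard 3).filter
          (fun g => c ⊆ g.image φ), w g = ∑ p ∈ I, (if c ⊆ tr (P p) 0 then 1 else 0) := by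
      rw [hI, Finset.sum_sigma, Finset.sum_filter]
      refine Finset.sum_congr rfl fun g hg => ?_
      have h3 : ∀ k ∈ Finset.range (w g), (if c ⊆ tr (P ⟨g, k⟩) 0 then 1 else 0) =
          (if c ⊆ g.image φ then 1 else 0) := by
        intro k hk
        rw [htr0 ⟨g, k⟩ (Finset.mem_sigma.2 ⟨hg, hk⟩)]
      rw [Finset.sum_congr rfl h3, Finset.sum_const, Finset.card_range]
      split_ifs <;> simp
    rw [h1, h2, ← Finset.sum_add_distrib]
    exact Finset.dvd_sum fun p hp => gad_dg _ (hinj p hp) c hc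


lemma sum_nu {α : Type*} (A : Finset α) (k : α → ℕ) (hk : ∀ a ∈ A, k a < 3) (μ : ℕ → ℤ) :
    ∑ a ∈ A, μ (k a) = ((A.filter fun a => k a = 0).card : ℤ) * μ 0 +
      ((A.filter fun a => k a = 1).card : ℤ) * μ 1 +
      ((A.filter fun a => k a = 2).card : ℤ) * μ 2 := by
  classical
  have h := Finset.sum_fiberwise_of_maps_to (s := A) (t := Finset.range 3) (g := k)
    (fun a ha => Finset.mem_range.2 (hk a ha)) (fun a => μ (k a))
  rw [← h]
  simp only [Finset.sum_range_succ, Finset.sum_range_zero, zero_add]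
  have h2 : ∀ d : ℕ, ∑ a ∈ A with k a = d, μ (k a) = ((A.filter fun a => k a = d).card : ℤ) * μ d := by
    intro d
    rw [Finset.sum_congr rfl (fun a ha => by rw [(Finset.mem_filter.1 ha).2]), Finset.sum_const,
      nsmul_eq_mul]
  rw [h2, h2, h2]

lemma assemble {n : ℕ} (φ : Fin (n + 1) → U) (hφ : Function.Injective φ)
    (col : Fin (n + 1) → Fin 5) (hcol : Function.Injective col) (z : Fin 5 → ℕ → U)
    (hz : ∀ k l k' l', z k l = z k' l' → k = k' ∧ l = l')
    (old : Finset (Fin (n + 1)))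
    (hold : ∀ i, (i ∈ old ∧ ∀ k l, φ i ≠ z k l) ∨ (i ∉ old ∧ φ i = z (col i) 0))
    (r m : ℕ) (hm : 0 < m) (hMo : ∀ l ≤ 2, Mo r l ∣ m) (j : ℤ) (μ : ℕ → ℤ)
    (hμ : ∀ δ, ∀ l ≤ 2, l ≠ old.card → ((Mo r l : ℕ) : ℤ) ∣ μ δ)
    (hsum : ∀ c : Finset (Fin (n + 1)), c.card = old.card →
      ((Mo r old.card : ℕ) : ℤ) ∣ (∑ g ∈ ((univ : Finset (Fin (n + 1))).powersetCard 3).filter
          (fun g => c ⊆ g), μ (g ∩ old).card) + (if c = old then j else 0)) :
    ∃ E : Finset (Finset U),
      (∀ T ∈ E, T.card = 3 ∧ (∀ x ∈ T, x ∈ old.image φ ∨ ∃ k l, x = z k l) ∧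
        (∃ k l, z k l ∈ T) ∧ ∀ k l l', z k l ∈ T → z k l' ∈ T → l = l') ∧
      ∀ c : Finset U, c.card ≤ 2 →
        (dg E c : ℤ) ≡ (if c = old.image φ then j else 0) [ZMOD ((Mo r c.card : ℕ) : ℤ)] := by
  classical
  obtain ⟨m', rfl⟩ : ∃ m', m = m' + 1 := ⟨m - 1, by omega⟩
  set ν : ℕ → ℕ := fun δ => (μ δ % ((m' + 1 : ℕ) : ℤ)).toNat with hν
  have hνμ : ∀ δ, (ν δ : ℤ) ≡ μ δ [ZMOD ((m' + 1 : ℕ) : ℤ)] := by
    intro δ
    have h1 : 0 ≤ μ δ % ((m' + 1 : ℕ) : ℤ) := Int.emod_nonneg _ (by positivity)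
    simp only [hν]
    rw [Int.toNat_of_nonneg h1]
    exact Int.mod_modEq _ _
  obtain ⟨E, hE1, hE2⟩ := core φ hφ col hcol z hz
    (fun i => by
      rcases hold i with ⟨_, h⟩ | ⟨_, h⟩
      · exact Or.inl h
      · exact Or.inr h)
    (fun g => ν (g ∩ old).card) m'
  refine ⟨E, ?_, ?_⟩
  · intro T hT
    obtain ⟨h1, h2, h3, h4⟩ := hE1 T hT
    refine ⟨h1, ?_, h3, h4⟩
    intro x hx
    rcases h2 x hx with ⟨i, rfl⟩ | h
    · rcases hold i with ⟨h5, _⟩ | ⟨_, h5⟩
      · exact Or.inl (Finset.mem_image_of_mem _ h5)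
      · exact Or.inr ⟨_, _, h5⟩
    · exact Or.inr h
  · intro c hc
    have h1 := hE2 c hc
    have hM : Mo r c.card ∣ m' + 1 := hMo _ hc
    have h2 : (((Mo r c.card : ℕ) : ℤ)) ∣ (dg E c : ℤ) +
        ∑ g ∈ ((univ : Finset (Fin (n + 1))).powersetCard 3).filter
          (fun g => c ⊆ g.image φ), (ν (g ∩ old).card : ℤ) := by
      have := Int.natCast_dvd_natCast.2 (hM.trans h1)
      push_cast at this
      exact this
    have h3 : (((Mo r c.card : ℕ) : ℤ)) ∣
        ∑ g ∈ ((univ : Finset (Fin (n + 1))).powersetCard 3).filter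
          (fun g => c ⊆ g.image φ), (ν (g ∩ old).card : ℤ) -
        ∑ g ∈ ((univ : Finset (Fin (n + 1))).powersetCard 3).filter
          (fun g => c ⊆ g.image φ), μ (g ∩ old).card := by
      rw [← Finset.sum_sub_distrib]
      refine Finset.dvd_sum fun g _ => ?_
      have h4 := (hνμ (g ∩ old).card).symm.dvd
      exact (Int.natCast_dvd_natCast.2 hM).trans h4
    have h5 : (((Mo r c.card : ℕ) : ℤ)) ∣ (dg E c : ℤ) +
        ∑ g ∈ ((univ : Finset (Fin (n + 1))).powersetCard 3).filter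
          (fun g => c ⊆ g.image φ), μ (g ∩ old).card := by
      have h5' := dvd_sub h2 h3
      rwa [add_sub_assoc, sub_sub_cancel] at h5'
    -- it remains to evaluate the last sum
    have h6 : (((Mo r c.card : ℕ) : ℤ)) ∣
        (∑ g ∈ ((univ : Finset (Fin (n + 1))).powersetCard 3).filter
          (fun g => c ⊆ g.image φ), μ (g ∩ old).card) + (if c = old.image φ then j else 0) := by
      by_cases hcs : c.card = old.card
      · by_cases hsub : c ⊆ univ.image φ
        · set d : Finset (Fin (n + 1)) := univ.filter fun i => φ i ∈ c with hd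
          have hdi : d.image φ = c := by
            ext x
            simp only [hd, Finset.mem_image, Finset.mem_filter, Finset.mem_univ, true_and]
            constructor
            · rintro ⟨i, h, rfl⟩; exact h
            · intro hx
              obtain ⟨i, _, rfl⟩ := Finset.mem_image.1 (hsub hx)
              exact ⟨i, hx, rfl⟩
          have hdc : d.card = old.card := by
            rw [← hcs, ← hdi, Finset.card_image_of_injective _ hφ]
          have e1 : ((univ : Finset (Fin (n + 1))).powersetCard 3).filter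
              (fun g => c ⊆ g.image φ) = ((univ : Finset (Fin (n + 1))).powersetCard 3).filter
              (fun g => d ⊆ g) := by
            refine Finset.filter_congr fun g _ => ?_
            rw [← hdi]
            exact Finset.image_subset_image_iff hφ
          have e2 : (c = old.image φ) ↔ (d = old) := by
            rw [← hdi]
            exact ⟨fun h => Finset.image_injective hφ h, fun h => by rw [h]⟩
          have := hsum d hdc
          rw [e1, hcs]
          simp only [e2]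
          exact this
        · have e1 : ((univ : Finset (Fin (n + 1))).powersetCard 3).filter
              (fun g => c ⊆ g.image φ) = ∅ := by
            refine Finset.filter_eq_empty_iff.2 fun g _ h => hsub ?_
            exact h.trans (Finset.image_subset_image (Finset.subset_univ _))
          have e2 : c ≠ old.image φ := by
            rintro rfl
            exact hsub (Finset.image_subset_image (Finset.subset_univ _))
          rw [e1, Finset.sum_empty, if_neg e2]
          simp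
      · have e2 : c ≠ old.image φ := by
          rintro rfl
          exact hcs (Finset.card_image_of_injective _ hφ)
        rw [if_neg e2, add_zero]
        exact Finset.dvd_sum fun g _ => hμ _ _ hc hcs
    have h7 := dvd_sub h6 h5
    have h8 : (if c = old.image φ then j else 0) - (dg E c : ℤ) =
        (∑ g ∈ ((univ : Finset (Fin (n + 1))).powersetCard 3).filter
          (fun g => c ⊆ g.image φ), μ (g ∩ old).card) + (if c = old.image φ then j else 0) -
        ((dg E c : ℤ) + ∑ g ∈ ((univ : Finset (Fin (n + 1))).powersetCard 3).filter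
          (fun g => c ⊆ g.image φ), μ (g ∩ old).card) := by ring
    rw [← h8] at h7
    exact (Int.modEq_iff_dvd.2 h7)

lemma unit_aux0 (s : ℕ) (hs : s ≤ 2) (r m : ℕ) (hm : 0 < m) (hMo : ∀ l ≤ 2, Mo r l ∣ m)
    (c : Finset U) (hc : c.card = s) (z : Fin 5 → ℕ → U)
    (hz : ∀ k l k' l', z k l = z k' l' → k = k' ∧ l = l') (hzc : ∀ k l, z k l ∉ c)
    (j : ℤ) (μ : ℕ → ℤ)
    (hμ : ∀ δ, ∀ l ≤ 2, l ≠ s → ((Mo r l : ℕ) : ℤ) ∣ μ δ)
    (hsum : ∀ c' : Finset (Fin (s + 2 + 1)), c'.card = s →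
      ((Mo r s : ℕ) : ℤ) ∣ (∑ g ∈ ((univ : Finset (Fin (s + 2 + 1))).powersetCard 3).filter
          (fun g => c' ⊆ g), μ (g ∩ univ.filter (fun i => i.val < s)).card) +
          (if c' = univ.filter (fun i => i.val < s) then j else 0)) :
    ∃ E : Finset (Finset U),
      (∀ T ∈ E, T.card = 3 ∧ (∀ x ∈ T, x ∈ c ∨ ∃ k l, x = z k l) ∧
        (∃ k l, z k l ∈ T) ∧ ∀ k l l', z k l ∈ T → z k l' ∈ T → l = l') ∧
      ∀ c' : Finset U, c'.card ≤ 2 →
        (dg E c' : ℤ) ≡ (if c' = c then j else 0) [ZMOD ((Mo r c'.card : ℕ) : ℤ)] := by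
  classical
  set e := (c.equivFinOfCardEq hc).symm with he
  set col : Fin (s + 2 + 1) → Fin 5 := fun i =>
    if h : i.val < s then ⟨3 + i.val, by omega⟩ else ⟨i.val - s, by omega⟩ with hcol
  set φ : Fin (s + 2 + 1) → U := fun i =>
    if h : i.val < s then (e ⟨i.val, h⟩ : U) else z (col i) 0 with hφ
  have hec : ∀ i, (e i : U) ∈ c := fun i => (e i).2
  have hcolinj : Function.Injective col := by
    intro i i' h
    simp only [hcol] at h
    split_ifs at h with h1 h2 h2 <;>
    · have := Fin.mk.inj h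
      apply Fin.ext
      omega
  have hφinj : Function.Injective φ := by
    intro i i' h
    simp only [hφ] at h
    split_ifs at h with h1 h2 h2
    · have := e.injective (Subtype.ext h)
      have := Fin.mk.inj this
      exact Fin.ext this
    · exact absurd (h ▸ hec _) (hzc _ _)
    · exact absurd (h ▸ hec _) (hzc _ _)
    · exact hcolinj (hz _ _ _ _ h).1
  have hcard : (univ.filter (fun i : Fin (s + 2 + 1) => i.val < s)).card = s := by
    have : (univ.filter (fun i : Fin (s + 2 + 1) => i.val < s)) =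
        (univ : Finset (Fin s)).image (fun i => (⟨i.val, by omega⟩ : Fin (s + 2 + 1))) := by
      ext i
      simp only [Finset.mem_filter, Finset.mem_univ, true_and, Finset.mem_image]
      constructor
      · intro h
        exact ⟨⟨i.val, h⟩, rfl⟩
      · rintro ⟨k, rfl⟩
        exact k.2
    rw [this, Finset.card_image_of_injective, Finset.card_univ, Fintype.card_fin]
    intro a b h
    exact Fin.ext (Fin.mk.inj h)
  have himg : (univ.filter (fun i : Fin (s + 2 + 1) => i.val < s)).image φ = c := by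
    ext x
    simp only [Finset.mem_image, Finset.mem_filter, Finset.mem_univ, true_and]
    constructor
    · rintro ⟨i, h, rfl⟩
      simp only [hφ, dif_pos h]
      exact hec _
    · intro hx
      refine ⟨⟨((c.equivFinOfCardEq hc) ⟨x, hx⟩).val, by
        have := ((c.equivFinOfCardEq hc) ⟨x, hx⟩).2; omega⟩, ?_, ?_⟩
      · exact ((c.equivFinOfCardEq hc) ⟨x, hx⟩).2
      · have h1 : ((c.equivFinOfCardEq hc) ⟨x, hx⟩).val < s := ((c.equivFinOfCardEq hc) ⟨x, hx⟩).2
        simp only [hφ, dif_pos h1]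
        simp [he]
  have := assemble φ hφinj col hcolinj z hz (univ.filter (fun i : Fin (s + 2 + 1) => i.val < s))
    (by
      intro i
      by_cases h : i.val < s
      · left
        refine ⟨by simp [h], fun k l => ?_⟩
        simp only [hφ, dif_pos h]
        intro h'
        exact hzc k l (h' ▸ hec _)
      · right
        refine ⟨by simp [h], ?_⟩
        simp only [hφ, dif_neg h])
    r m hm hMo j μ (by rw [hcard]; exact hμ) (by rw [hcard]; exact hsum)
  rw [himg] at this
  exact this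


/-- the number of triples through `c'` with `δ` old points -/
def Nn (s : ℕ) (c' : Finset (Fin (s + 2 + 1))) (δ : ℕ) : ℕ :=
  ((((univ : Finset (Fin (s + 2 + 1))).powersetCard 3).filter (fun g => c' ⊆ g)).filter
        fun g => (g ∩ univ.filter (fun i => i.val < s)).card = δ).card

/-- the old points -/
def Old (s : ℕ) : Finset (Fin (s + 2 + 1)) := univ.filter (fun i => i.val < s)

lemma unit_aux (s : ℕ) (hs : s ≤ 2) (r m : ℕ) (hm : 0 < m) (hMo : ∀ l ≤ 2, Mo r l ∣ m)
    (c : Finset U) (hc : c.card = s) (z : Fin 5 → ℕ → U)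
    (hz : ∀ k l k' l', z k l = z k' l' → k = k' ∧ l = l') (hzc : ∀ k l, z k l ∉ c)
    (j : ℤ) (μ : ℕ → ℤ)
    (hμ : ∀ δ, ∀ l ≤ 2, l ≠ s → ((Mo r l : ℕ) : ℤ) ∣ μ δ)
    (hsum : ∀ c' : Finset (Fin (s + 2 + 1)), c'.card = s →
      ((Mo r s : ℕ) : ℤ) ∣ ((Nn s c' 0 : ℤ) * μ 0 + (Nn s c' 1 : ℤ) * μ 1 + (Nn s c' 2 : ℤ) * μ 2)
          + (if c' = Old s then j else 0)) :
    ∃ E : Finset (Finset U),
      (∀ T ∈ E, T.card = 3 ∧ (∀ x ∈ T, x ∈ c ∨ ∃ k l, x = z k l) ∧
        (∃ k l, z k l ∈ T) ∧ ∀ k l l', z k l ∈ T → z k l' ∈ T → l = l') ∧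
      ∀ c' : Finset U, c'.card ≤ 2 →
        (dg E c' : ℤ) ≡ (if c' = c then j else 0) [ZMOD ((Mo r c'.card : ℕ) : ℤ)] := by
  classical
  refine unit_aux0 s hs r m hm hMo c hc z hz hzc j μ hμ ?_
  intro c' hc'
  have hlt : (univ.filter (fun i : Fin (s + 2 + 1) => i.val < s)).card ≤ 2 := by
    calc (univ.filter (fun i : Fin (s + 2 + 1) => i.val < s)).card
        = ((univ.filter (fun i : Fin (s + 2 + 1) => i.val < s)).image Fin.val).card :=
          (Finset.card_image_of_injective _ Fin.val_injective).symm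
      _ ≤ (Finset.range s).card := by
          refine Finset.card_le_card ?_
          intro x hx
          obtain ⟨i, hi, rfl⟩ := Finset.mem_image.1 hx
          exact Finset.mem_range.2 (Finset.mem_filter.1 hi).2
      _ ≤ 2 := by rw [Finset.card_range]; exact hs
  have h1 := sum_nu (((univ : Finset (Fin (s + 2 + 1))).powersetCard 3).filter
    (fun g => c' ⊆ g)) (fun g => (g ∩ univ.filter (fun i => i.val < s)).card) (by
      intro g _
      have := Finset.card_le_card (Finset.inter_subset_right (s₁ := g)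
        (s₂ := univ.filter (fun i : Fin (s + 2 + 1) => i.val < s)))
      show (g ∩ univ.filter (fun i : Fin (s + 2 + 1) => i.val < s)).card < 3
      omega) μ
  rw [h1]
  exact hsum c' hc'

/-- the numbers of triples of each type, `s = 2` -/
lemma num2 : ∀ c' : Finset (Fin (2 + 2 + 1)), c'.card = 2 →
    (c' = Old 2 ∧ Nn 2 c' 0 = 0 ∧ Nn 2 c' 1 = 0 ∧ Nn 2 c' 2 = 3) ∨
    (c' ≠ Old 2 ∧ Nn 2 c' 0 = 0 ∧ Nn 2 c' 1 = 2 ∧ Nn 2 c' 2 = 1) ∨
    (c' ≠ Old 2 ∧ Nn 2 c' 0 = 1 ∧ Nn 2 c' 1 = 2 ∧ Nn 2 c' 2 = 0) := by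
  decide +kernel

/-- the numbers of triples of each type, `s = 1` -/
lemma num1 : ∀ c' : Finset (Fin (1 + 2 + 1)), c'.card = 1 →
    (c' = Old 1 ∧ Nn 1 c' 0 = 0 ∧ Nn 1 c' 1 = 3 ∧ Nn 1 c' 2 = 0) ∨
    (c' ≠ Old 1 ∧ Nn 1 c' 0 = 1 ∧ Nn 1 c' 1 = 2 ∧ Nn 1 c' 2 = 0) := by
  decide +kernel

/-- the numbers of triples of each type, `s = 0` -/
lemma num0 : ∀ c' : Finset (Fin (0 + 2 + 1)), c'.card = 0 →
    (c' = Old 0 ∧ Nn 0 c' 0 = 1 ∧ Nn 0 c' 1 = 0 ∧ Nn 0 c' 2 = 0) := by
  decide +kernel

lemma Mo_vals {r q : ℕ} (hq : r = 6 * q + 3) :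
    Mo r 0 = 2 * q + 1 ∧ Mo r 1 = 3 * q + 1 ∧ Mo r 2 = 6 * q + 1 := by
  subst hq
  unfold Mo
  refine ⟨by simp; omega, by simp; omega, by simp⟩

end Units

/-- UNITS (section 2): a triple system `E` on `c` and the points `z k l`, all of whose degrees
vanish modulo the moduli except that of `c`, which is `j` modulo `Mo r c.card`. -/
theorem units {U : Type*} [DecidableEq U] (r : ℕ) (hr : r % 6 = 3) (c : Finset U)
    (hc : c.card ≤ 2) (z : Fin 5 → ℕ → U)
    (hz : ∀ k l k' l', z k l = z k' l' → k = k' ∧ l = l') (hzc : ∀ k l, z k l ∉ c) (j : ℤ) :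
    ∃ E : Finset (Finset U),
      (∀ T ∈ E, T.card = 3 ∧ (∀ x ∈ T, x ∈ c ∨ ∃ k l, x = z k l) ∧
        (∃ k l, z k l ∈ T) ∧ ∀ k l l', z k l ∈ T → z k l' ∈ T → l = l') ∧
      ∀ c' : Finset U, c'.card ≤ 2 →
        (dg E c' : ℤ) ≡ (if c' = c then j else 0) [ZMOD ((Mo r c'.card : ℕ) : ℤ)] := by
  classical
  obtain ⟨q, hq⟩ : ∃ q, r = 6 * q + 3 := ⟨r / 6, by omega⟩
  obtain ⟨h0, h1, h2⟩ := Units.Mo_vals hq
  have hMo : ∀ l ≤ 2, Mo r l ∣ (2 * q + 1) * (3 * q + 1) * (6 * q + 1) := by
    intro l hl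
    interval_cases l
    · rw [h0, mul_assoc]; exact dvd_mul_right _ _
    · rw [h1, mul_comm (2 * q + 1), mul_assoc]; exact dvd_mul_right _ _
    · rw [h2]; exact dvd_mul_left _ _
  have hm : 0 < (2 * q + 1) * (3 * q + 1) * (6 * q + 1) := by positivity
  obtain ⟨s, hs⟩ : ∃ s, c.card = s := ⟨_, rfl⟩
  have hs2 : s ≤ 2 := hs ▸ hc
  have f0 : (if (0 : ℕ) = 0 then (-2 : ℤ) else if (0 : ℕ) = 1 then 1 else 0) = -2 := by simp
  have f1 : (if (1 : ℕ) = 0 then (-2 : ℤ) else if (1 : ℕ) = 1 then 1 else 0) = 1 := by simp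
  have f2 : (if (2 : ℕ) = 0 then (-2 : ℤ) else if (2 : ℕ) = 1 then 1 else 0) = 0 := by simp
  interval_cases s
  · -- s = 0
    refine Units.unit_aux 0 (by norm_num) r _ hm hMo c hs z hz hzc j
      (fun δ => 2 * (q : ℤ) * (3 * q + 1) * (6 * q + 1) * j) ?_ ?_
    · intro δ l hl hl0
      interval_cases l
      · exact absurd rfl hl0
      · rw [h1]; push_cast
        exact ⟨2 * (q : ℤ) * (6 * q + 1) * j, by ring⟩
      · rw [h2]; push_cast
        exact ⟨2 * (q : ℤ) * (3 * q + 1) * j, by ring⟩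
    · intro c' hc'
      obtain ⟨e0, e1, e2, e3⟩ := Units.num0 c' hc'
      rw [if_pos e0, e1, e2, e3, h0]
      push_cast
      exact ⟨j * (1 + 18 * (q : ℤ) ^ 2), by ring⟩
  · -- s = 1
    refine Units.unit_aux 1 (by norm_num) r _ hm hMo c hs z hz hzc j
      (fun δ => -3 * (2 * (q : ℤ) + 1) * (6 * q + 1) * j * q *
        (if δ = 0 then -2 else if δ = 1 then 1 else 0)) ?_ ?_
    · intro δ l hl hl0
      generalize (if δ = 0 then (-2 : ℤ) else if δ = 1 then 1 else 0) = w
      interval_cases l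
      · rw [h0]; push_cast
        exact ⟨-3 * (6 * (q : ℤ) + 1) * j * q * w, by ring⟩
      · exact absurd rfl hl0
      · rw [h2]; push_cast
        exact ⟨-3 * (2 * (q : ℤ) + 1) * j * q * w, by ring⟩
    · intro c' hc'
      simp only [f0, f1, f2]
      rcases Units.num1 c' hc' with ⟨e0, e1, e2, e3⟩ | ⟨e0, e1, e2, e3⟩
      · rw [if_pos e0, e1, e2, e3, h1]
        push_cast
        exact ⟨j * (1 - 12 * (q : ℤ) * (3 * q + 1)), by ring⟩
      · rw [if_neg e0, e1, e2, e3, h1]
        push_cast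
        exact ⟨0, by ring⟩
  · -- s = 2
    refine Units.unit_aux 2 (by norm_num) r _ hm hMo c hs z hz hzc j
      (fun δ => (1 - 3 * (q : ℤ)) * (2 * q + 1) * (2 * (3 * q + 1)) * j * q *
        (if δ = 0 then 2 else if δ = 1 then -1 else 2)) ?_ ?_
    · intro δ l hl hl0
      generalize (if δ = 0 then (2 : ℤ) else if δ = 1 then -1 else 2) = w
      interval_cases l
      · rw [h0]; push_cast
        exact ⟨(1 - 3 * (q : ℤ)) * (2 * (3 * q + 1)) * j * q * w, by ring⟩
      · rw [h1]; push_cast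
        exact ⟨(1 - 3 * (q : ℤ)) * (2 * q + 1) * 2 * j * q * w, by ring⟩
      · exact absurd rfl hl0
    · intro c' hc'
      have g0 : (if (0 : ℕ) = 0 then (2 : ℤ) else if (0 : ℕ) = 1 then -1 else 2) = 2 := by simp
      have g1 : (if (1 : ℕ) = 0 then (2 : ℤ) else if (1 : ℕ) = 1 then -1 else 2) = -1 := by simp
      have g2 : (if (2 : ℕ) = 0 then (2 : ℤ) else if (2 : ℕ) = 1 then -1 else 2) = 2 := by simp
      simp only [g0, g1, g2]
      rcases Units.num2 c' hc' with ⟨e0, e1, e2, e3⟩ | ⟨e0, e1, e2, e3⟩ | ⟨e0, e1, e2, e3⟩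
      · rw [if_pos e0, e1, e2, e3, h2]
        push_cast
        exact ⟨j * (1 + 6 * (q : ℤ) * (1 - 2 * q - 6 * q ^ 2)), by ring⟩
      · rw [if_neg e0, e1, e2, e3, h2]
        push_cast
        exact ⟨0, by ring⟩
      · rw [if_neg e0, e1, e2, e3, h2]
        push_cast
        exact ⟨0, by ring⟩

/-- E12 (text 2). -/
theorem unit_exists {U : Type*} [DecidableEq U] (r : ℕ) (hr : r % 6 = 3) (h9 : 9 ≤ r)
    (c : Finset U) (hc : c.card ≤ 2)
    (z : Fin 5 → ℕ → U) (hz : ∀ i n j m, z i n = z j m → i = j ∧ n = m) (hzc : ∀ i n, z i n ∉ c)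
    (j : ℤ) :
    ∃ E : Finset (Finset U), Res r E c j ∧ ((Mo r c.card : ℤ) ∣ j → E = ∅) ∧
      ∀ T ∈ E, T.card = 3 ∧ (∀ x ∈ T, x ∈ c ∨ ∃ i n, x = z i n) ∧ (∃ i n, z i n ∈ T) ∧
        ∀ i n m, z i n ∈ T → z i m ∈ T → n = m := by
  classical
  by_cases hj : (Mo r c.card : ℤ) ∣ j
  · refine ⟨∅, ?_, fun _ => rfl, fun T hT => absurd hT (Finset.notMem_empty _)⟩
    intro c' hc'
    have h0 : dg (∅ : Finset (Finset U)) c' = 0 := by simp [dg]
    rw [h0]
    split_ifs with h
    · subst h
      exact (Int.modEq_zero_iff_dvd.2 hj).symm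
    · exact Int.ModEq.refl _
  · obtain ⟨E, h1, h2⟩ := units r hr c hc z hz hzc j
    exact ⟨E, fun c' hc' => h2 c' hc', fun h => absurd h hj, h1⟩

end Pool.Agent.Lib.MP_5c685b_co.E
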