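import Pool.Agent.Lib.MP_5c685b_co.E.Local
import Pool.Agent.Lib.MP_5c685b_co.E.Units

set_option autoImplicit false
set_option linter.all false

/-! # composite absorber, cyclic form: auxiliary lemmas (helper98) -/

namespace Pool.Agent.Lib.MP_5c685b_co.E

open Finset

/-- cyclic numbering of the fibres -/
lemma exists_cyc {X Y : Type*} [Fintype X] [DecidableEq X] [DecidableEq Y] (c : X → Y)
    (M : Y → ℕ) (h : ∀ y, M y ∣ (univ.filter fun x => c x = y).card) :
    ∃ (σ : X ≃ X) (k : X → ℕ), (∀ x, c (σ x) = c x) ∧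
      ∀ x, ((k (σ x) : ℕ) : ℤ) ≡ (k x : ℤ) + 1 [ZMOD (M (c x) : ℤ)] := by
  classical
  have h1 : ∀ y : Y, ∃ (τ : {x // c x = y} ≃ {x // c x = y}) (k : {x // c x = y} → ℕ),
      ∀ a, ((k (τ a) : ℕ) : ℤ) ≡ (k a : ℤ) + 1 [ZMOD (M y : ℤ)] := by
    intro y
    have hc : Fintype.card {x // c x = y} = (univ.filter fun x => c x = y).card :=
      Fintype.card_subtype _
    rcases Nat.eq_zero_or_pos (Fintype.card {x // c x = y}) with h0 | hpos
    · haveI := Fintype.card_eq_zero_iff.1 h0
      exact ⟨Equiv.refl _, fun _ => 0, fun a => isEmptyElim a⟩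
    · obtain ⟨d, hd⟩ : ∃ d, Fintype.card {x // c x = y} = d + 1 :=
        ⟨Fintype.card {x // c x = y} - 1, by omega⟩
      let e := Fintype.equivFinOfCardEq hd
      refine ⟨(e.trans (finRotate (d + 1))).trans e.symm, fun a => (e a).val, ?_⟩
      intro a
      have e1 : e (((e.trans (finRotate (d + 1))).trans e.symm) a) = e a + 1 := by
        simp [finRotate_succ_apply]
      show (((e (((e.trans (finRotate (d + 1))).trans e.symm) a)).val : ℕ) : ℤ) ≡
        ((e a).val : ℤ) + 1 [ZMOD (M y : ℤ)]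
      rw [e1]
      have hM : M y ∣ d + 1 := by rw [← hd, hc]; exact h y
      have h2 : ((e a + 1).val) ≡ (e a).val + 1 [MOD (d + 1)] := by
        rw [Fin.val_add]
        unfold Nat.ModEq
        rw [Nat.mod_mod, Fin.val_one']
        simp [Nat.add_mod]
      have h3 := (Int.natCast_modEq_iff.2 (h2.of_dvd hM))
      push_cast at h3
      exact h3
  choose τ k hk using h1
  refine ⟨((Equiv.sigmaFiberEquiv c).symm.trans (Equiv.sigmaCongrRight τ)).trans
    (Equiv.sigmaFiberEquiv c), fun x => k (c x) ⟨x, rfl⟩, ?_, ?_⟩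
  · intro x
    exact (τ (c x) ⟨x, rfl⟩).2
  · intro x
    have hx := hk (c x) ⟨x, rfl⟩
    have hσ : (((Equiv.sigmaFiberEquiv c).symm.trans (Equiv.sigmaCongrRight τ)).trans
      (Equiv.sigmaFiberEquiv c)) x = (τ (c x) ⟨x, rfl⟩).1 := rfl
    rw [hσ]
    have key : ∀ (y : Y) (a : {x // c x = y}), k (c a.1) ⟨a.1, rfl⟩ = k y a := by
      rintro y ⟨a, rfl⟩; rfl
    show ((k (c (τ (c x) ⟨x, rfl⟩).1) ⟨(τ (c x) ⟨x, rfl⟩).1, rfl⟩ : ℕ) : ℤ) ≡
      (k (c x) ⟨x, rfl⟩ : ℤ) + 1 [ZMOD (M (c x) : ℤ)]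
    rw [key (c x) (τ (c x) ⟨x, rfl⟩)]
    exact hx

/-- the chains of a triple: subsets of `Fin 3` with at most two elements -/
abbrev Ch : Type := {s : Finset (Fin 3) // s.card ≤ 2}

lemma card_Ch5 : Fintype.card (Ch × Fin 5) = 35 := by
  rw [Fintype.card_prod, Fintype.card_fin]
  have : Fintype.card Ch = 7 := by decide
  rw [this]

lemma card_chain {U : Type*} [DecidableEq U] (g : Fin 3 → U) (hg : Function.Injective g)
    (c' : Finset U) (hc : c'.card ≤ 2) :
    (univ.filter fun s : Ch => s.1.image g = c').card =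
      if c' ⊆ univ.image g then 1 else 0 := by
  classical
  split_ifs with h
  · obtain ⟨s, -, rfl⟩ := Finset.subset_image_iff.1 h
    rw [Finset.card_image_of_injective _ hg] at hc
    rw [Finset.card_eq_one]
    refine ⟨⟨s, hc⟩, ?_⟩
    ext u
    simp only [mem_filter, mem_univ, true_and, mem_singleton]
    constructor
    · intro h; exact Subtype.ext (Finset.image_injective hg h)
    · rintro rfl; rfl
  · rw [Finset.card_eq_zero, Finset.filter_eq_empty_iff]
    rintro s - rfl
    exact h (Finset.image_subset_image (subset_univ _))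

end Pool.Agent.Lib.MP_5c685b_co.E
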