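import Pool.Agent.Lib.MP_5c685b_co.E.CompA

set_option autoImplicit false
set_option linter.all false

/-! # Row E13: the composite absorber (cyclic chains, helper98) -/

namespace Pool.Agent.Lib.MP_5c685b_co.E

open Finset

/-- E13 (text 3). -/
theorem composite {r : ℕ} (hr : r % 6 = 3) (h45 : 45 ≤ r) {D : Type} [Fintype D] [DecidableEq D]
    (H : Finset (Finset D)) (hT : Triples H) (hB : Balanced r H) :
    ∃ (P : Plan D (4 * r)) (A : Finset (Finset (PV D P.s (4 * r)))),
      (∀ i, ∃ f ∈ H, ∀ d, Sum.inl d ∈ P.R i → d ∈ f) ∧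
      (∀ T ∈ A, P.Avail T) ∧ Dec r A ∧ Dec r (A ∪ H.image (Finset.image Sum.inl)) := by
  classical
  -- the members of `H`
  let m := H.card
  let fe : Fin m ≃ {x // x ∈ H} := H.equivFin.symm
  let fi : Fin m → Finset D := fun i => (fe i).1
  have fiH : ∀ i, fi i ∈ H := fun i => (fe i).2
  have fi3 : ∀ i, (fi i).card = 3 := fun i => hT _ (fiH i)
  have fisurj : ∀ f ∈ H, ∃ i, fi i = f := by
    intro f hf
    exact ⟨fe.symm ⟨f, hf⟩, by simp [fi]⟩
  have fiinj : Function.Injective fi := by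
    intro i j h
    exact fe.injective (Subtype.ext h)
  have hex : ∀ i, ∃ e : Fin 3 → D, Function.Injective e ∧ univ.image e = fi i := by
    intro i
    let g := Finset.equivFinOfCardEq (fi3 i)
    refine ⟨fun a => (g.symm a).1, fun a b h => g.symm.injective (Subtype.ext h), ?_⟩
    ext x
    simp only [mem_image, mem_univ, true_and]
    constructor
    · rintro ⟨a, rfl⟩; exact (g.symm a).2
    · intro hx; exact ⟨g ⟨x, hx⟩, by simp⟩
  choose e einj eim using hex
  let X := Fin m × Ch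
  let cc : X → Finset D := fun x => x.2.1.image (e x.1)
  have ccc : ∀ x, (cc x).card ≤ 2 := fun x => (Finset.card_image_le).trans x.2.2
  have ccsub : ∀ x : X, cc x ⊆ fi x.1 := by
    intro x
    rw [← eim]
    exact Finset.image_subset_image (subset_univ _)
  have hfib : ∀ y : Finset D, Mo r y.card ∣ (univ.filter fun x => cc x = y).card := by
    intro y
    by_cases hy : y.card ≤ 2
    · have h1 : (univ.filter fun x : X => cc x = y).card = dg H y := by
        have h2 : (univ.filter fun x : X => cc x = y).card =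
            ∑ i : Fin m, (univ.filter fun s : Ch => s.1.image (e i) = y).card := by
          rw [Finset.card_filter, Fintype.sum_prod_type]
          refine Finset.sum_congr rfl fun i _ => ?_
          rw [Finset.card_filter]
        rw [h2]
        have h3 : ∀ i : Fin m, (univ.filter fun s : Ch => s.1.image (e i) = y).card =
            if y ⊆ fi i then 1 else 0 := by
          intro i
          rw [card_chain (e i) (einj i) y hy, eim]
        rw [Finset.sum_congr rfl fun i _ => h3 i]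
        rw [← Finset.card_filter]
        unfold dg
        refine Finset.card_bij (fun i _ => fi i) ?_ ?_ ?_
        · intro i hi
          exact mem_filter.2 ⟨fiH i, (mem_filter.1 hi).2⟩
        · intro i _ j _ h; exact fiinj h
        · intro f hf
          obtain ⟨i, hi⟩ := fisurj f (mem_filter.1 hf).1
          exact ⟨i, mem_filter.2 ⟨mem_univ _, by rw [hi]; exact (mem_filter.1 hf).2⟩, hi⟩
      rw [h1]
      exact hB y hy
    · have : (univ.filter fun x : X => cc x = y) = ∅ := by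
        rw [Finset.filter_eq_empty_iff]
        intro x _ h
        exact hy (h ▸ ccc x)
      rw [this]
      exact dvd_zero _
  obtain ⟨σ, k, hσc, hσk⟩ := exists_cyc cc (fun y => Mo r y.card) hfib
  -- numbering of the points of the plan
  let N := Fintype.card X
  let eX : X ≃ Fin N := Fintype.equivFin X
  let ce : Ch × Fin 5 ≃ Fin 35 := Fintype.equivFinOfCardEq card_Ch5
  let st1 : Fin m → Fin (m + N) := Fin.castAdd N
  let st2 : X → Fin (m + N) := fun x => Fin.natAdd m (eX x)
  let zb : X → Fin 5 → Fin (m + N) × Fin (4 * r) := fun x κ =>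
    (st1 x.1, ⟨(ce (x.2, κ)).val, by have := (ce (x.2, κ)).isLt; omega⟩)
  let n1 : Fin m → Fin (3 * r + 4) → Fin (m + N) × Fin (4 * r) := fun i j =>
    (st1 i, ⟨35 + j.val, by have := j.isLt; omega⟩)
  let n2 : X → Fin (3 * r + 4) → Fin (m + N) × Fin (4 * r) := fun x j =>
    (st2 x, ⟨j.val, by have := j.isLt; omega⟩)
  have st1inj : ∀ i j, st1 i = st1 j → i = j := fun i j h => Fin.castAdd_injective m N h
  have st2inj : ∀ x y, st2 x = st2 y → x = y := fun x y h =>
    eX.injective (Fin.natAdd_injective N m h)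
  have st12 : ∀ i x, st1 i ≠ st2 x := by
    intro i x h
    have h1 := congrArg Fin.val h
    have h2 : (st1 i).val = i.val := rfl
    have h3 : (st2 x).val = m + (eX x).val := rfl
    have := i.isLt
    omega
  have zbinj : ∀ x κ x' κ', zb x κ = zb x' κ' → x = x' ∧ κ = κ' := by
    intro x κ x' κ' h
    simp only [zb, Prod.mk.injEq, Fin.mk.injEq] at h
    have h1 := st1inj _ _ h.1
    have h2 := ce.injective (Fin.ext h.2)
    simp only [Prod.mk.injEq] at h2
    exact ⟨Prod.ext h1 h2.1, h2.2⟩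
  have n1inj : ∀ i j i' j', n1 i j = n1 i' j' → i = i' ∧ j = j' := by
    intro i j i' j' h
    simp only [n1, Prod.mk.injEq, Fin.mk.injEq] at h
    exact ⟨st1inj _ _ h.1, Fin.ext (by omega)⟩
  have n2inj : ∀ x j x' j', n2 x j = n2 x' j' → x = x' ∧ j = j' := by
    intro x j x' j' h
    simp only [n2, Prod.mk.injEq, Fin.mk.injEq] at h
    exact ⟨st2inj _ _ h.1, Fin.ext h.2⟩
  have zb1 : ∀ x κ i j, zb x κ ≠ n1 i j := by
    intro x κ i j h
    simp only [zb, n1, Prod.mk.injEq, Fin.mk.injEq] at h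
    have := (ce (x.2, κ)).isLt
    omega
  have zb2 : ∀ x κ y j, zb x κ ≠ n2 y j := by
    intro x κ y j h
    simp only [zb, n2, Prod.mk.injEq] at h
    exact st12 _ _ h.1
  have n12 : ∀ i j y j', n1 i j ≠ n2 y j' := by
    intro i j y j' h
    simp only [n1, n2, Prod.mk.injEq] at h
    exact st12 _ _ h.1
  -- the plan
  let Rf : Fin (m + N) → Finset (D ⊕ (Fin (m + N) × Fin (4 * r))) := fun j =>
    Fin.addCases (motive := fun _ => Finset (D ⊕ (Fin (m + N) × Fin (4 * r))))
      (fun i => (fi i).image Sum.inl)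
      (fun j => (cc (eX.symm j)).image Sum.inl ∪
        (univ.image (fun κ => Sum.inr (zb (eX.symm j) κ)) ∪
          univ.image (fun κ => Sum.inr (zb (σ (eX.symm j)) κ)))) j
  have R1 : ∀ i, Rf (st1 i) = (fi i).image Sum.inl := by
    intro i; simp only [Rf, st1, Fin.addCases_left]
  have R2 : ∀ x, Rf (st2 x) = (cc x).image Sum.inl ∪
        (univ.image (fun κ => Sum.inr (zb x κ)) ∪
          univ.image (fun κ => Sum.inr (zb (σ x) κ))) := by
    intro x
    simp only [Rf, st2, Fin.addCases_right, Equiv.symm_apply_apply]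
  have steps : ∀ j : Fin (m + N), (∃ i, j = st1 i) ∨ ∃ x, j = st2 x := by
    intro j
    refine Fin.addCases (fun i => Or.inl ⟨i, rfl⟩) (fun j => Or.inr ⟨eX.symm j, ?_⟩) j
    simp only [st2, Equiv.apply_symm_apply]
  let P : Plan D (4 * r) :=
    { s := m + N
      R := Rf
      card_le := by
        intro j
        rcases steps j with ⟨i, rfl⟩ | ⟨x, rfl⟩
        · rw [R1]
          have := Finset.card_image_le (s := fi i) (f := (Sum.inl : D → D ⊕ (Fin (m + N) × Fin (4 * r))))
          have := fi3 i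
          omega
        · rw [R2]
          refine (Finset.card_union_le _ _).trans ?_
          have a1 := (Finset.card_image_le (s := cc x)
            (f := (Sum.inl : D → D ⊕ (Fin (m + N) × Fin (4 * r))))).trans (ccc x)
          have a2 := Finset.card_union_le (univ.image (fun κ : Fin 5 =>
            (Sum.inr (zb x κ) : D ⊕ (Fin (m + N) × Fin (4 * r)))))
            (univ.image (fun κ : Fin 5 => (Sum.inr (zb (σ x) κ) : D ⊕ (Fin (m + N) × Fin (4 * r)))))
          have a3 := Finset.card_image_le (s := (univ : Finset (Fin 5)))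
            (f := fun κ => (Sum.inr (zb x κ) : D ⊕ (Fin (m + N) × Fin (4 * r))))
          have a4 := Finset.card_image_le (s := (univ : Finset (Fin 5)))
            (f := fun κ => (Sum.inr (zb (σ x) κ) : D ⊕ (Fin (m + N) × Fin (4 * r))))
          rw [Finset.card_univ, Fintype.card_fin] at a3 a4
          omega
      lt := by
        intro j i' a h
        rcases steps j with ⟨i, rfl⟩ | ⟨x, rfl⟩
        · rw [R1] at h
          simp at h
        · rw [R2] at h
          have hlt : ∀ y : X, ∀ κ, (i', a) = zb y κ → i' < st2 x := by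
            intro y κ hy
            have h1 : i' = st1 y.1 := congrArg Prod.fst hy
            rw [h1, Fin.lt_def]
            have h2 : (st1 y.1).val = y.1.val := rfl
            have h3 : (st2 x).val = m + (eX x).val := rfl
            have := y.1.isLt
            omega
          simp only [mem_union, mem_image, mem_univ, true_and] at h
          rcases h with ⟨d, -, h⟩ | ⟨κ, h⟩ | ⟨κ, h⟩
          · simp at h
          · exact hlt x κ (Sum.inr.inj h).symm
          · exact hlt (σ x) κ (Sum.inr.inj h).symm }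
  let PVt := PV D (m + N) (4 * r)
  have inrp : ∀ (y y' : Fin (m + N) × Fin (4 * r)) (n n' : ℕ),
      (Sum.inr (y, n) : PVt) = Sum.inr (y', n') → y = y' ∧ n = n' := by
    intro y y' n n' h
    have h' := Sum.inr.inj h
    exact ⟨congrArg Prod.fst h', congrArg Prod.snd h'⟩
  -- the chains in the lifted world
  let cl : X → Finset PVt := fun x => (cc x).image Sum.inl
  have clc : ∀ x, (cl x).card ≤ 2 := fun x => (Finset.card_image_le).trans (ccc x)
  have inlinj : Function.Injective (Sum.inl : D → PVt) := Sum.inl_injective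
  have clcard : ∀ x, (cl x).card = (cc x).card := fun x =>
    Finset.card_image_of_injective _ inlinj
  have clσ : ∀ x, cl (σ x) = cl x := by
    intro x; simp only [cl]; rw [hσc]
  have memcl : ∀ x p, p ∈ cl x → ∃ d ∈ cc x, p = Sum.inl d := by
    intro x p hp
    obtain ⟨d, hd, rfl⟩ := mem_image.1 hp
    exact ⟨d, hd, rfl⟩
  let Ze : X → Fin 5 → ℕ → PVt := fun x κ n => Sum.inr (zb x κ, 2 * n)
  let Zo : X → Fin 5 → ℕ → PVt := fun x κ n => Sum.inr (zb x κ, 2 * n + 1)
  have hIn : ∀ x, ∃ E : Finset (Finset PVt), Res r E (cl x) (k x : ℤ) ∧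
      ∀ T ∈ E, T.card = 3 ∧ (∀ p ∈ T, p ∈ cl x ∨ ∃ κ n, p = Ze x κ n) ∧ (∃ κ n, Ze x κ n ∈ T) ∧
        ∀ κ n n', Ze x κ n ∈ T → Ze x κ n' ∈ T → n = n' := by
    intro x
    obtain ⟨E, h1, -, h2⟩ := unit_exists r hr (by omega) (cl x) (clc x) (Ze x)
      (by
        intro κ n κ' n' h
        replace h := inrp _ _ _ _ h
        exact ⟨(zbinj _ _ _ _ h.1).2, by omega⟩)
      (by
        intro κ n h
        obtain ⟨d, -, hd⟩ := memcl x _ h
        simp [Ze] at hd) (k x : ℤ)
    exact ⟨E, h1, h2⟩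
  choose In hIn1 hIn2 using hIn
  have hOut : ∀ x, ∃ E : Finset (Finset PVt), Res r E (cl x) (-((k x : ℤ) + 1)) ∧
      ∀ T ∈ E, T.card = 3 ∧ (∀ p ∈ T, p ∈ cl x ∨ ∃ κ n, p = Zo x κ n) ∧ (∃ κ n, Zo x κ n ∈ T) ∧
        ∀ κ n n', Zo x κ n ∈ T → Zo x κ n' ∈ T → n = n' := by
    intro x
    obtain ⟨E, h1, -, h2⟩ := unit_exists r hr (by omega) (cl x) (clc x) (Zo x)
      (by
        intro κ n κ' n' h
        replace h := inrp _ _ _ _ h
        exact ⟨(zbinj _ _ _ _ h.1).2, by omega⟩)
      (by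
        intro κ n h
        obtain ⟨d, -, hd⟩ := memcl x _ h
        simp [Zo] at hd) (-((k x : ℤ) + 1))
    exact ⟨E, h1, h2⟩
  choose Out hOut1 hOut2 using hOut
  -- regions
  let Reg1 : X ⊕ X → PVt → Prop := Sum.elim (fun x p => ∃ κ n, p = Ze x κ n)
    (fun x p => ∃ κ n, p = Zo x κ n)
  let Reg2 : Fin m ⊕ X → PVt → Prop := Sum.elim (fun i p => ∃ j n, p = Sum.inr (n1 i j, n))
    (fun x p => ∃ j n, p = Sum.inr (n2 x j, n))
  let B1 : X ⊕ X → Finset (Finset PVt) := Sum.elim In Out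
  let ch : X ⊕ X → X := Sum.elim id id
  have reg1_uniq : ∀ b b' p, Reg1 b p → Reg1 b' p → b = b' := by
    rintro (x | x) (y | y) p ⟨κ, n, rfl⟩ ⟨κ', n', h⟩
    · replace h := inrp _ _ _ _ h
      rw [(zbinj _ _ _ _ h.1).1]
    · replace h := inrp _ _ _ _ h
      omega
    · replace h := inrp _ _ _ _ h
      omega
    · replace h := inrp _ _ _ _ h
      rw [(zbinj _ _ _ _ h.1).1]
  have reg2_uniq : ∀ b b' p, Reg2 b p → Reg2 b' p → b = b' := by
    rintro (x | x) (y | y) p ⟨κ, n, rfl⟩ ⟨κ', n', h⟩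
    · replace h := inrp _ _ _ _ h
      rw [(n1inj _ _ _ _ h.1).1]
    · replace h := inrp _ _ _ _ h
      exact absurd h.1 (n12 _ _ _ _)
    · replace h := inrp _ _ _ _ h
      exact absurd h.1.symm (n12 _ _ _ _)
    · replace h := inrp _ _ _ _ h
      rw [(n2inj _ _ _ _ h.1).1]
  have reg12 : ∀ b b' p, Reg1 b p → ¬ Reg2 b' p := by
    rintro (x | x) (y | y) p ⟨κ, n, rfl⟩ ⟨κ', n', h⟩
    · replace h := inrp _ _ _ _ h
      exact zb1 _ _ _ _ h.1
    · replace h := inrp _ _ _ _ h
      exact zb2 _ _ _ _ h.1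
    · replace h := inrp _ _ _ _ h
      exact zb1 _ _ _ _ h.1
    · replace h := inrp _ _ _ _ h
      exact zb2 _ _ _ _ h.1
  have reg1_inl : ∀ b d, ¬ Reg1 b (Sum.inl d) := by
    rintro (x | x) d ⟨κ, n, h⟩
    · simp [Ze] at h
    · simp [Zo] at h
  have reg2_inl : ∀ b d, ¬ Reg2 b (Sum.inl d) := by
    rintro (x | x) d ⟨κ, n, h⟩
    · simp at h
    · simp at h
  -- points of regions
  have reg1_pr : ∀ b p, Reg1 b p → ∃ κ, pr p = Sum.inr (zb (ch b) κ) := by
    rintro (x | x) p ⟨κ, n, rfl⟩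
    · exact ⟨κ, rfl⟩
    · exact ⟨κ, rfl⟩
  have hB1 : ∀ b, ∀ T ∈ B1 b, T.card = 3 ∧ (∀ p ∈ T, p ∈ cl (ch b) ∨ Reg1 b p) ∧
      (∃ p ∈ T, Reg1 b p) ∧ Set.InjOn (pr : PVt → _) (T : Set PVt) := by
    rintro (x | x) T hT'
    · obtain ⟨h1, h2, ⟨κ, n, h3⟩, h4⟩ := hIn2 x T hT'
      refine ⟨h1, h2, ⟨_, h3, κ, n, rfl⟩, ?_⟩
      intro p hp q hq hpq
      rcases h2 p hp with hp' | ⟨κ1, m1, rfl⟩ <;> rcases h2 q hq with hq' | ⟨κ2, m2, rfl⟩
      · obtain ⟨d, -, rfl⟩ := memcl _ _ hp'
        obtain ⟨d', -, rfl⟩ := memcl _ _ hq'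
        have : (Sum.inl d : D ⊕ (Fin (m + N) × Fin (4 * r))) = Sum.inl d' := hpq
        rw [Sum.inl.inj this]
      · obtain ⟨d, -, rfl⟩ := memcl _ _ hp'
        have : (Sum.inl d : D ⊕ (Fin (m + N) × Fin (4 * r))) = Sum.inr (zb x κ2) := hpq
        simp at this
      · obtain ⟨d, -, rfl⟩ := memcl _ _ hq'
        have : (Sum.inr (zb x κ1) : D ⊕ (Fin (m + N) × Fin (4 * r))) = Sum.inl d := hpq
        simp at this
      · have : (Sum.inr (zb x κ1) : D ⊕ (Fin (m + N) × Fin (4 * r))) = Sum.inr (zb x κ2) := hpq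
        have hκ := (zbinj _ _ _ _ (Sum.inr.inj this)).2
        subst hκ
        rw [h4 κ1 m1 m2 hp hq]
    · obtain ⟨h1, h2, ⟨κ, n, h3⟩, h4⟩ := hOut2 x T hT'
      refine ⟨h1, h2, ⟨_, h3, κ, n, rfl⟩, ?_⟩
      intro p hp q hq hpq
      rcases h2 p hp with hp' | ⟨κ1, m1, rfl⟩ <;> rcases h2 q hq with hq' | ⟨κ2, m2, rfl⟩
      · obtain ⟨d, -, rfl⟩ := memcl _ _ hp'
        obtain ⟨d', -, rfl⟩ := memcl _ _ hq'
        have : (Sum.inl d : D ⊕ (Fin (m + N) × Fin (4 * r))) = Sum.inl d' := hpq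
        rw [Sum.inl.inj this]
      · obtain ⟨d, -, rfl⟩ := memcl _ _ hp'
        have : (Sum.inl d : D ⊕ (Fin (m + N) × Fin (4 * r))) = Sum.inr (zb x κ2) := hpq
        simp at this
      · obtain ⟨d, -, rfl⟩ := memcl _ _ hq'
        have : (Sum.inr (zb x κ1) : D ⊕ (Fin (m + N) × Fin (4 * r))) = Sum.inl d := hpq
        simp at this
      · have : (Sum.inr (zb x κ1) : D ⊕ (Fin (m + N) × Fin (4 * r))) = Sum.inr (zb x κ2) := hpq
        have hκ := (zbinj _ _ _ _ (Sum.inr.inj this)).2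
        subst hκ
        rw [h4 κ1 m1 m2 hp hq]
  have cl_not_reg : ∀ x b p, p ∈ cl x → ¬ Reg1 b p := by
    intro x b p hp h
    obtain ⟨d, -, rfl⟩ := memcl _ _ hp
    exact reg1_inl _ _ h
  have hB1d : ∀ b b', b ≠ b' → Disjoint (B1 b) (B1 b') := by
    intro b b' hne
    refine Finset.disjoint_left.2 fun T h1 h2 => ?_
    obtain ⟨-, -, ⟨p, hp, hr1⟩, -⟩ := hB1 b T h1
    rcases (hB1 b' T h2).2.1 p hp with h | h
    · exact cl_not_reg _ _ _ h hr1
    · exact hne (reg1_uniq _ _ _ hr1 h)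
  let F : Fin m → Finset PVt := fun i => (fi i).image Sum.inl
  have F3 : ∀ i, (F i).card = 3 := fun i => by
    simp only [F]; rw [Finset.card_image_of_injective _ inlinj]; exact fi3 i
  have FB1 : ∀ i b, F i ∉ B1 b := by
    intro i b h
    obtain ⟨-, -, ⟨p, hp, hr1⟩, -⟩ := hB1 b _ h
    obtain ⟨d, -, rfl⟩ := mem_image.1 hp
    exact reg1_inl _ _ hr1
  -- the pieces `P1 i`
  let P1 : Fin m → Finset (Finset PVt) := fun i =>
    {F i} ∪ (univ : Finset (Ch ⊕ Ch)).biUnion
      (fun s => B1 (Sum.map (fun s => (i, s)) (fun s => (i, s)) s))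
  have P1bal : ∀ i, Balanced r (P1 i) := by
    intro i c' hc'
    have hd1 : Disjoint ({F i} : Finset (Finset PVt)) ((univ : Finset (Ch ⊕ Ch)).biUnion
      (fun s => B1 (Sum.map (fun s => (i, s)) (fun s => (i, s)) s))) := by
      rw [Finset.disjoint_singleton_left, mem_biUnion]
      rintro ⟨s, -, h⟩
      exact FB1 _ _ h
    have e1 : dg (P1 i) c' = dg ({F i} : Finset (Finset PVt)) c' +
        ∑ s : Ch ⊕ Ch, dg (B1 (Sum.map (fun s => (i, s)) (fun s => (i, s)) s)) c' := by
      simp only [P1]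
      rw [dg_union hd1]
      congr 1
      unfold dg
      rw [Finset.filter_biUnion, Finset.card_biUnion]
      intro s _ s' _ hne
      refine Finset.disjoint_filter_filter (hB1d _ _ ?_)
      intro h
      rcases s with s | s <;> rcases s' with s' | s'
      · exact hne (congrArg Sum.inl (congrArg Prod.snd (Sum.inl.inj h)))
      · exact Sum.inl_ne_inr h
      · exact Sum.inr_ne_inl h
      · exact hne (congrArg Sum.inr (congrArg Prod.snd (Sum.inr.inj h)))
    have e2 : ((dg (P1 i) c' : ℕ) : ℤ) ≡ 0 [ZMOD (Mo r c'.card : ℤ)] := by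
      rw [e1]
      push_cast
      rw [Fintype.sum_sum_type, ← Finset.sum_add_distrib]
      have e3 : ∀ s : Ch, ((dg (B1 (Sum.map (fun s => (i, s)) (fun s => (i, s)) (Sum.inl s))) c' : ℕ) : ℤ)
          + ((dg (B1 (Sum.map (fun s => (i, s)) (fun s => (i, s)) (Sum.inr s))) c' : ℕ) : ℤ) ≡
          (if s.1.image (fun a => (Sum.inl (e i a) : PVt)) = c' then (-1 : ℤ) else 0)
            [ZMOD (Mo r c'.card : ℤ)] := by
        intro s
        have a1 := hIn1 (i, s) c' hc'
        have a2 := hOut1 (i, s) c' hc'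
        have a3 := a1.add a2
        refine a3.trans ?_
        have hcl : cl (i, s) = s.1.image (fun a => (Sum.inl (e i a) : PVt)) := by
          simp only [cl, cc]
          rw [Finset.image_image]
          rfl
        rw [hcl]
        by_cases h : s.1.image (fun a => (Sum.inl (e i a) : PVt)) = c'
        · rw [if_pos h.symm, if_pos h.symm, if_pos h]
          have : (k (i, s) : ℤ) + -((k (i, s) : ℤ) + 1) = -1 := by ring
          rw [this]
        · rw [if_neg (Ne.symm h), if_neg (Ne.symm h), if_neg h]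
          simp
      have e4 : (∑ s : Ch, (((dg (B1 (Sum.map (fun s => (i, s)) (fun s => (i, s)) (Sum.inl s))) c' : ℕ) : ℤ)
          + ((dg (B1 (Sum.map (fun s => (i, s)) (fun s => (i, s)) (Sum.inr s))) c' : ℕ) : ℤ))) ≡
          ∑ s : Ch, (if s.1.image (fun a => (Sum.inl (e i a) : PVt)) = c' then (-1 : ℤ) else 0)
            [ZMOD (Mo r c'.card : ℤ)] := by
        have : ∀ S : Finset Ch, (∑ s ∈ S, (((dg (B1 (Sum.map (fun s => (i, s)) (fun s => (i, s)) (Sum.inl s))) c' : ℕ) : ℤ)
          + ((dg (B1 (Sum.map (fun s => (i, s)) (fun s => (i, s)) (Sum.inr s))) c' : ℕ) : ℤ))) ≡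
          ∑ s ∈ S, (if s.1.image (fun a => (Sum.inl (e i a) : PVt)) = c' then (-1 : ℤ) else 0)
            [ZMOD (Mo r c'.card : ℤ)] := by
          intro S
          induction S using Finset.induction_on with
          | empty => simp
          | insert a S ha ih =>
            rw [Finset.sum_insert ha, Finset.sum_insert ha]
            exact (e3 a).add ih
        exact this univ
      have e5 : (∑ s : Ch, (if s.1.image (fun a => (Sum.inl (e i a) : PVt)) = c' then (-1 : ℤ) else 0))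
          = -(if c' ⊆ F i then 1 else 0) := by
        have g1 : Function.Injective (fun a => (Sum.inl (e i a) : PVt)) :=
          inlinj.comp (einj i)
        have g2 := card_chain (fun a => (Sum.inl (e i a) : PVt)) g1 c' hc'
        have g3 : univ.image (fun a => (Sum.inl (e i a) : PVt)) = F i := by
          simp only [F]
          rw [← eim i, Finset.image_image]
          rfl
        rw [g3] at g2
        have g4 : (∑ s : Ch, (if s.1.image (fun a => (Sum.inl (e i a) : PVt)) = c' then (-1 : ℤ) else 0))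
            = -(((univ.filter fun s : Ch => s.1.image (fun a => (Sum.inl (e i a) : PVt)) = c').card : ℕ) : ℤ) := by
          rw [Finset.card_filter]
          push_cast
          rw [← Finset.sum_neg_distrib]
          refine Finset.sum_congr rfl fun s _ => ?_
          split_ifs <;> simp
        rw [g4, g2]
        split_ifs <;> simp
      have e6 : ((dg ({F i} : Finset (Finset PVt)) c' : ℕ) : ℤ) = (if c' ⊆ F i then 1 else 0) := by
        unfold dg
        rw [Finset.filter_singleton]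
        split_ifs <;> simp
      rw [e6]
      have e7 := (Int.ModEq.refl (n := (Mo r c'.card : ℤ)) (if c' ⊆ F i then (1 : ℤ) else 0)).add e4
      refine e7.trans ?_
      rw [e5]
      simp
    have := (Int.modEq_zero_iff_dvd.1 e2)
    exact_mod_cast this
  have P1mem : ∀ i f, f ∈ P1 i → f = F i ∨ ∃ b, f ∈ B1 b ∧ (ch b).1 = i := by
    intro i f hf
    rcases mem_union.1 hf with h | h
    · exact Or.inl (mem_singleton.1 h)
    · obtain ⟨s, -, hs⟩ := mem_biUnion.1 h
      rcases s with s | s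
      · exact Or.inr ⟨_, hs, rfl⟩
      · exact Or.inr ⟨_, hs, rfl⟩
  -- properties of the members of `P1 i`
  have P1prop : ∀ i, ∀ f ∈ P1 i, f.card = 3 ∧ Set.InjOn (pr : PVt → _) (f : Set PVt) ∧
      ∀ p ∈ f, (∃ d, p = Sum.inl d ∧ d ∈ fi i) ∨ ∃ b, Reg1 b p ∧ (ch b).1 = i := by
    intro i f hf
    rcases P1mem i f hf with rfl | ⟨b, hb, hbi⟩
    · refine ⟨F3 i, ?_, ?_⟩
      · intro p hp q hq hpq
        obtain ⟨d, -, rfl⟩ := mem_image.1 hp
        obtain ⟨d', -, rfl⟩ := mem_image.1 hq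
        have : (Sum.inl d : D ⊕ (Fin (m + N) × Fin (4 * r))) = Sum.inl d' := hpq
        rw [Sum.inl.inj this]
      · intro p hp
        obtain ⟨d, hd, rfl⟩ := mem_image.1 hp
        exact Or.inl ⟨d, rfl, hd⟩
    · obtain ⟨h1, h2, h3, h4⟩ := hB1 b f hb
      refine ⟨h1, h4, ?_⟩
      intro p hp
      rcases h2 p hp with h | h
      · obtain ⟨d, hd, rfl⟩ := memcl _ _ h
        exact Or.inl ⟨d, rfl, hbi ▸ ccsub _ hd⟩
      · exact Or.inr ⟨b, h, hbi⟩
  have hA1 : ∀ i, ∃ A : Finset (Finset PVt), (∀ T ∈ A, T.card = 3) ∧ Dec r A ∧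
      Dec r (A ∪ P1 i) ∧ Disjoint A (P1 i) ∧
      ∀ T ∈ A, (∃ j n, (Sum.inr (n1 i j, n) : PVt) ∈ T) ∧
        (∀ x ∈ T, (∃ f ∈ P1 i, x ∈ f) ∨ ∃ j n, x = Sum.inr (n1 i j, n)) ∧
        (∀ j n n', (Sum.inr (n1 i j, n) : PVt) ∈ T → (Sum.inr (n1 i j, n') : PVt) ∈ T → n = n') ∧
        ∃ f ∈ P1 i, ∀ x ∈ T, x ∈ f ∨ ∃ j n, x = Sum.inr (n1 i j, n) := by
    intro i
    refine local_absorber r hr (by omega) (P1 i) (fun f hf => (P1prop i f hf).1) (P1bal i)
      (fun j n => Sum.inr (n1 i j, n)) ?_ ?_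
    · intro j n j' n' h
      replace h := inrp _ _ _ _ h
      exact ⟨(n1inj _ _ _ _ h.1).2, h.2⟩
    · intro f hf j n h
      rcases (P1prop i f hf).2.2 _ h with ⟨d, hd, -⟩ | ⟨b, hb, -⟩
      · simp at hd
      · exact reg12 b (Sum.inl i) _ hb ⟨j, n, rfl⟩
  choose A1 a11 a12 a13 a14 a15 using hA1
  -- the pieces `P2 x`
  let P2 : X → Finset (Finset PVt) := fun x => B1 (Sum.inr x) ∪ B1 (Sum.inl (σ x))
  have P2bal : ∀ x, Balanced r (P2 x) := by
    intro x c' hc'
    have hd1 : Disjoint (B1 (Sum.inr x)) (B1 (Sum.inl (σ x))) := hB1d _ _ (by simp)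
    have e1 : dg (P2 x) c' = dg (B1 (Sum.inr x)) c' + dg (B1 (Sum.inl (σ x))) c' := by
      simp only [P2]; rw [dg_union hd1]
    have a1 : ((dg (B1 (Sum.inr x)) c' : ℕ) : ℤ) ≡ (if c' = cl x then (-((k x : ℤ) + 1)) else 0)
      [ZMOD (Mo r c'.card : ℤ)] := hOut1 x c' hc'
    have a2 : ((dg (B1 (Sum.inl (σ x))) c' : ℕ) : ℤ) ≡ (if c' = cl (σ x) then (k (σ x) : ℤ) else 0)
      [ZMOD (Mo r c'.card : ℤ)] := hIn1 (σ x) c' hc'
    have a3 := a1.add a2
    have e2 : ((dg (P2 x) c' : ℕ) : ℤ) ≡ 0 [ZMOD (Mo r c'.card : ℤ)] := by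
      rw [e1]
      push_cast
      refine a3.trans ?_
      rw [clσ]
      by_cases h : c' = cl x
      · rw [if_pos h, if_pos h]
        have hM := hσk x
        have hcard : c'.card = (cc x).card := by rw [h, clcard]
        rw [← hcard] at hM
        have := (Int.ModEq.refl (n := (Mo r c'.card : ℤ)) (-((k x : ℤ) + 1))).add hM
        refine this.trans ?_
        have h0 : -((k x : ℤ) + 1) + ((k x : ℤ) + 1) = 0 := by ring
        rw [h0]
      · rw [if_neg h, if_neg h]
        simp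
    have := (Int.modEq_zero_iff_dvd.1 e2)
    exact_mod_cast this
  have P2prop : ∀ x, ∀ f ∈ P2 x, f.card = 3 ∧ Set.InjOn (pr : PVt → _) (f : Set PVt) ∧
      ∀ p ∈ f, (∃ d, p = Sum.inl d ∧ d ∈ cc x) ∨
        ∃ b, Reg1 b p ∧ (ch b = x ∨ ch b = σ x) := by
    intro x f hf
    rcases mem_union.1 hf with h | h
    · obtain ⟨h1, h2, h3, h4⟩ := hB1 _ f h
      refine ⟨h1, h4, ?_⟩
      intro p hp
      rcases h2 p hp with h | h
      · obtain ⟨d, hd, rfl⟩ := memcl _ _ h
        exact Or.inl ⟨d, rfl, hd⟩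
      · exact Or.inr ⟨_, h, Or.inl rfl⟩
    · obtain ⟨h1, h2, h3, h4⟩ := hB1 _ f h
      refine ⟨h1, h4, ?_⟩
      intro p hp
      rcases h2 p hp with h | h
      · obtain ⟨d, hd, rfl⟩ := memcl _ _ h
        refine Or.inl ⟨d, rfl, ?_⟩
        have hd' : d ∈ cc (σ x) := hd
        rwa [hσc] at hd'
      · exact Or.inr ⟨_, h, Or.inr rfl⟩
  have hA2 : ∀ x, ∃ A : Finset (Finset PVt), (∀ T ∈ A, T.card = 3) ∧ Dec r A ∧
      Dec r (A ∪ P2 x) ∧ Disjoint A (P2 x) ∧
      ∀ T ∈ A, (∃ j n, (Sum.inr (n2 x j, n) : PVt) ∈ T) ∧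
        (∀ y ∈ T, (∃ f ∈ P2 x, y ∈ f) ∨ ∃ j n, y = Sum.inr (n2 x j, n)) ∧
        (∀ j n n', (Sum.inr (n2 x j, n) : PVt) ∈ T → (Sum.inr (n2 x j, n') : PVt) ∈ T → n = n') ∧
        ∃ f ∈ P2 x, ∀ y ∈ T, y ∈ f ∨ ∃ j n, y = Sum.inr (n2 x j, n) := by
    intro x
    refine local_absorber r hr (by omega) (P2 x) (fun f hf => (P2prop x f hf).1) (P2bal x)
      (fun j n => Sum.inr (n2 x j, n)) ?_ ?_
    · intro j n j' n' h
      replace h := inrp _ _ _ _ h
      exact ⟨(n2inj _ _ _ _ h.1).2, h.2⟩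
    · intro f hf j n h
      rcases (P2prop x f hf).2.2 _ h with ⟨d, hd, -⟩ | ⟨b, hb, -⟩
      · simp at hd
      · exact reg12 b (Sum.inr x) _ hb ⟨j, n, rfl⟩
  choose A2 a21 a22 a23 a24 a25 using hA2
  let B2 : Fin m ⊕ X → Finset (Finset PVt) := Sum.elim A1 A2
  have hB2 : ∀ b, ∀ T ∈ B2 b, (∃ p ∈ T, Reg2 b p) ∧
      ∀ p ∈ T, (∃ d, p = Sum.inl d) ∨ (∃ b', Reg1 b' p) ∨ Reg2 b p := by
    rintro (i | x) T hT'
    · obtain ⟨⟨j, n, h1⟩, h2, -, -⟩ := a15 i T hT'
      refine ⟨⟨_, h1, j, n, rfl⟩, ?_⟩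
      intro p hp
      rcases h2 p hp with ⟨f, hf, h⟩ | h
      · rcases (P1prop i f hf).2.2 p h with ⟨d, hd, -⟩ | ⟨b, hb, -⟩
        · exact Or.inl ⟨d, hd⟩
        · exact Or.inr (Or.inl ⟨b, hb⟩)
      · exact Or.inr (Or.inr h)
    · obtain ⟨⟨j, n, h1⟩, h2, -, -⟩ := a25 x T hT'
      refine ⟨⟨_, h1, j, n, rfl⟩, ?_⟩
      intro p hp
      rcases h2 p hp with ⟨f, hf, h⟩ | h
      · rcases (P2prop x f hf).2.2 p h with ⟨d, hd, -⟩ | ⟨b, hb, -⟩
        · exact Or.inl ⟨d, hd⟩
        · exact Or.inr (Or.inl ⟨b, hb⟩)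
      · exact Or.inr (Or.inr h)
  let blk1 : (X ⊕ X) ⊕ (Fin m ⊕ X) → Finset (Finset PVt) := Sum.elim B1 B2
  have B12 : ∀ b b', Disjoint (B1 b) (B2 b') := by
    intro b b'
    refine Finset.disjoint_left.2 fun T h1 h2 => ?_
    obtain ⟨⟨p, hp, hp2⟩, -⟩ := hB2 b' T h2
    rcases (hB1 b T h1).2.1 p hp with h | h
    · obtain ⟨d, -, rfl⟩ := memcl _ _ h
      exact reg2_inl _ _ hp2
    · exact reg12 _ _ _ h hp2
  have hblk1 : ∀ x y, x ≠ y → Disjoint (blk1 x) (blk1 y) := by
    rintro (b | b) (b' | b') hne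
    · exact hB1d _ _ (fun h => hne (by rw [h]))
    · exact B12 _ _
    · exact (B12 _ _).symm
    · refine Finset.disjoint_left.2 fun T h1 h2 => ?_
      obtain ⟨⟨p, hp, hp2⟩, -⟩ := hB2 b T h1
      rcases (hB2 b' T h2).2 p hp with ⟨d, rfl⟩ | ⟨b'', h⟩ | h
      · exact reg2_inl _ _ hp2
      · exact reg12 _ _ _ h hp2
      · exact hne (by rw [reg2_uniq _ _ _ hp2 h])
  have FB2 : ∀ i b, F i ∉ B2 b := by
    intro i b h
    obtain ⟨⟨p, hp, hp2⟩, -⟩ := hB2 b _ h
    obtain ⟨d, -, rfl⟩ := mem_image.1 hp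
    exact reg2_inl _ _ hp2
  let blk2 : ((X ⊕ X) ⊕ (Fin m ⊕ X)) ⊕ Fin m → Finset (Finset PVt) :=
    Sum.elim blk1 (fun i => {F i})
  have Finj : Function.Injective F := by
    intro i j h
    exact fiinj (Finset.image_injective inlinj h)
  have hblk2 : ∀ x y, x ≠ y → Disjoint (blk2 x) (blk2 y) := by
    rintro (x | i) (y | j) hne
    · exact hblk1 _ _ (fun h => hne (by rw [h]))
    · refine Finset.disjoint_singleton_right.2 ?_
      rcases x with b | b
      · exact FB1 _ _
      · exact FB2 _ _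
    · refine Finset.disjoint_singleton_left.2 ?_
      rcases y with b | b
      · exact FB1 _ _
      · exact FB2 _ _
    · refine Finset.disjoint_singleton.2 ?_
      intro h
      exact hne (by rw [Finj h])
  -- the two decompositions
  let κ1 : (X ⊕ X) ⊕ (Fin m ⊕ X) → Fin m ⊕ X :=
    Sum.elim (Sum.elim (fun x => Sum.inr (σ.symm x)) Sum.inr) id
  let κ2 : ((X ⊕ X) ⊕ (Fin m ⊕ X)) ⊕ Fin m → Fin m ⊕ X :=
    Sum.elim (Sum.elim (Sum.elim (fun x => Sum.inl x.1) (fun x => Sum.inl x.1)) id) Sum.inl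
  have D1 : Dec r ((univ : Finset ((X ⊕ X) ⊕ (Fin m ⊕ X))).biUnion blk1) := by
    refine Dec.group blk1 hblk1 κ1 ?_
    rintro (i | x)
    · have : (univ.filter fun b => κ1 b = Sum.inl i).biUnion blk1 = A1 i := by
        ext T
        simp only [mem_biUnion, mem_filter, mem_univ, true_and]
        constructor
        · rintro ⟨(x | x) | b, h1, h2⟩
          · have h1' : (Sum.inr (σ.symm x) : Fin m ⊕ X) = Sum.inl i := h1
            simp at h1'
          · have h1' : (Sum.inr x : Fin m ⊕ X) = Sum.inl i := h1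
            simp at h1'
          · have h1' : b = Sum.inl i := h1
            subst h1'
            exact h2
        · intro h
          exact ⟨Sum.inr (Sum.inl i), rfl, h⟩
      rw [this]
      exact a12 i
    · have : (univ.filter fun b => κ1 b = Sum.inr x).biUnion blk1 = A2 x ∪ P2 x := by
        ext T
        simp only [mem_biUnion, mem_filter, mem_univ, true_and, mem_union]
        constructor
        · rintro ⟨(y | y) | b, h1, h2⟩
          · have h1' : (Sum.inr (σ.symm y) : Fin m ⊕ X) = Sum.inr x := h1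
            have h3 : σ.symm y = x := Sum.inr.inj h1'
            have h4 : y = σ x := by rw [← h3, Equiv.apply_symm_apply]
            subst h4
            exact Or.inr (mem_union_right _ h2)
          · have h1' : (Sum.inr y : Fin m ⊕ X) = Sum.inr x := h1
            have h3 : y = x := Sum.inr.inj h1'
            subst h3
            exact Or.inr (mem_union_left _ h2)
          · have h1' : b = Sum.inr x := h1
            subst h1'
            exact Or.inl h2
        · rintro (h | h)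
          · exact ⟨Sum.inr (Sum.inr x), rfl, h⟩
          · rcases mem_union.1 h with h | h
            · exact ⟨Sum.inl (Sum.inr x), rfl, h⟩
            · refine ⟨Sum.inl (Sum.inl (σ x)), ?_, h⟩
              show (Sum.inr (σ.symm (σ x)) : Fin m ⊕ X) = Sum.inr x
              rw [Equiv.symm_apply_apply]
      rw [this]
      exact a23 x
  have D2 : Dec r ((univ : Finset (((X ⊕ X) ⊕ (Fin m ⊕ X)) ⊕ Fin m)).biUnion blk2) := by
    refine Dec.group blk2 hblk2 κ2 ?_
    rintro (i | x)
    · have : (univ.filter fun b => κ2 b = Sum.inl i).biUnion blk2 = A1 i ∪ P1 i := by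
        ext T
        simp only [mem_biUnion, mem_filter, mem_univ, true_and, mem_union]
        constructor
        · rintro ⟨((x | x) | b) | j, h1, h2⟩
          · have h1' : (Sum.inl x.1 : Fin m ⊕ X) = Sum.inl i := h1
            have h3 : x.1 = i := Sum.inl.inj h1'
            obtain ⟨i', s⟩ := x
            have h3' : i' = i := h3
            subst h3'
            exact Or.inr (mem_union_right _ (mem_biUnion.2 ⟨Sum.inl s, mem_univ _, h2⟩))
          · have h1' : (Sum.inl x.1 : Fin m ⊕ X) = Sum.inl i := h1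
            have h3 : x.1 = i := Sum.inl.inj h1'
            obtain ⟨i', s⟩ := x
            have h3' : i' = i := h3
            subst h3'
            exact Or.inr (mem_union_right _ (mem_biUnion.2 ⟨Sum.inr s, mem_univ _, h2⟩))
          · have h1' : b = Sum.inl i := h1
            subst h1'
            exact Or.inl h2
          · have h1' : (Sum.inl j : Fin m ⊕ X) = Sum.inl i := h1
            have h3 : j = i := Sum.inl.inj h1'
            subst h3
            exact Or.inr (mem_union_left _ h2)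
        · rintro (h | h)
          · exact ⟨Sum.inl (Sum.inr (Sum.inl i)), rfl, h⟩
          · rcases mem_union.1 h with h | h
            · exact ⟨Sum.inr i, rfl, h⟩
            · obtain ⟨s, -, hs⟩ := mem_biUnion.1 h
              rcases s with s | s
              · exact ⟨Sum.inl (Sum.inl (Sum.inl (i, s))), rfl, hs⟩
              · exact ⟨Sum.inl (Sum.inl (Sum.inr (i, s))), rfl, hs⟩
      rw [this]
      exact a13 i
    · have : (univ.filter fun b => κ2 b = Sum.inr x).biUnion blk2 = A2 x := by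
        ext T
        simp only [mem_biUnion, mem_filter, mem_univ, true_and]
        constructor
        · rintro ⟨((y | y) | b) | j, h1, h2⟩
          · have h1' : (Sum.inl y.1 : Fin m ⊕ X) = Sum.inr x := h1
            simp at h1'
          · have h1' : (Sum.inl y.1 : Fin m ⊕ X) = Sum.inr x := h1
            simp at h1'
          · have h1' : b = Sum.inr x := h1
            subst h1'
            exact h2
          · have h1' : (Sum.inl j : Fin m ⊕ X) = Sum.inr x := h1
            simp at h1'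
        · intro h
          exact ⟨Sum.inl (Sum.inr (Sum.inr x)), rfl, h⟩
      rw [this]
      exact a22 x
  -- availability
  have injcomb : ∀ (f T : Finset PVt) (g : PVt → Prop), Set.InjOn (pr : PVt → _) (f : Set PVt) →
      (∀ p ∈ T, p ∈ f ∨ g p) →
      (∀ p ∈ T, ∀ q ∈ T, g p → g q → pr p = pr q → p = q) →
      (∀ p ∈ T, ∀ q ∈ T, p ∈ f → g q → pr p ≠ pr q) →
      Set.InjOn (pr : PVt → _) (T : Set PVt) := by
    intro f T g h1 h2 h3 h4 p hp q hq hpq
    rcases h2 p hp with hp' | hp' <;> rcases h2 q hq with hq' | hq'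
    · exact h1 hp' hq' hpq
    · exact absurd hpq (h4 p hp q hq hp' hq')
    · exact absurd hpq.symm (h4 q hq p hp hq' hp')
    · exact h3 p hp q hq hp' hq' hpq
  have W1 : ∀ i, P.W (st1 i) = (fi i).image Sum.inl ∪
      univ.image (fun a : Fin (4 * r) => Sum.inr (st1 i, a)) := by
    intro i
    show Rf (st1 i) ∪ _ = _
    rw [R1]
  have W2 : ∀ x, P.W (st2 x) = ((cc x).image Sum.inl ∪
        (univ.image (fun κ => Sum.inr (zb x κ)) ∪
          univ.image (fun κ => Sum.inr (zb (σ x) κ)))) ∪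
      univ.image (fun a : Fin (4 * r) => Sum.inr (st2 x, a)) := by
    intro x
    show Rf (st2 x) ∪ _ = _
    rw [R2]
  have hAvail : ∀ b, ∀ T ∈ blk1 b, P.Avail T := by
    rintro (b | (i | x)) T hT'
    · obtain ⟨h1, h2, ⟨p, hp, hp1⟩, h4⟩ := hB1 b T hT'
      refine ⟨h1, h4, st1 (ch b).1, ?_, ?_⟩
      · rw [W1]
        intro y hy
        obtain ⟨q, hq, rfl⟩ := mem_image.1 hy
        rcases h2 q hq with h | h
        · obtain ⟨d, hd, rfl⟩ := memcl _ _ h
          exact mem_union_left _ (mem_image_of_mem _ (ccsub _ hd))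
        · obtain ⟨κ, hκ⟩ := reg1_pr b q h
          rw [hκ]
          exact mem_union_right _ (mem_image.2 ⟨_, mem_univ _, rfl⟩)
      · intro hsub
        have h5 := hsub (mem_image_of_mem _ hp)
        obtain ⟨κ, hκ⟩ := reg1_pr b p hp1
        rw [hκ] at h5
        have h6 : (Sum.inr (zb (ch b) κ) : D ⊕ (Fin (m + N) × Fin (4 * r))) ∈ Rf (st1 (ch b).1) := h5
        rw [R1] at h6
        obtain ⟨d, -, hd⟩ := mem_image.1 h6
        simp at hd
    · obtain ⟨⟨j, n, h1⟩, h2, h3, ⟨f, hf, h4⟩⟩ := a15 i T hT'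
      have hfp := (P1prop i f hf).2.2
      refine ⟨a11 i T hT', ?_, st1 i, ?_, ?_⟩
      · refine injcomb f T (fun p => ∃ j n, p = Sum.inr (n1 i j, n)) (P1prop i f hf).2.1 h4 ?_ ?_
        · rintro p hp q hq ⟨j1, m1, rfl⟩ ⟨j2, m2, rfl⟩ hpq
          have : (Sum.inr (n1 i j1) : D ⊕ (Fin (m + N) × Fin (4 * r))) = Sum.inr (n1 i j2) := hpq
          have hj := (n1inj _ _ _ _ (Sum.inr.inj this)).2
          subst hj
          rw [h3 j1 m1 m2 hp hq]
        · rintro p hp q hq hpf ⟨j2, m2, rfl⟩ hpq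
          rcases hfp p hpf with ⟨d, rfl, -⟩ | ⟨b, hb, -⟩
          · have : (Sum.inl d : D ⊕ (Fin (m + N) × Fin (4 * r))) = Sum.inr (n1 i j2) := hpq
            simp at this
          · obtain ⟨κ, hκ⟩ := reg1_pr b p hb
            rw [hκ] at hpq
            have : (Sum.inr (zb (ch b) κ) : D ⊕ (Fin (m + N) × Fin (4 * r))) =
              Sum.inr (n1 i j2) := hpq
            exact zb1 _ _ _ _ (Sum.inr.inj this)
      · rw [W1]
        intro y hy
        obtain ⟨q, hq, rfl⟩ := mem_image.1 hy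
        rcases h4 q hq with h | ⟨j, n, rfl⟩
        · rcases hfp q h with ⟨d, rfl, hd⟩ | ⟨b, hb, hbi⟩
          · exact mem_union_left _ (mem_image_of_mem _ hd)
          · obtain ⟨κ, hκ⟩ := reg1_pr b q hb
            rw [hκ]
            refine mem_union_right _ (mem_image.2 ⟨(zb (ch b) κ).2, mem_univ _, ?_⟩)
            have : (zb (ch b) κ).1 = st1 i := by
              show st1 (ch b).1 = st1 i
              rw [hbi]
            rw [← this]
        · exact mem_union_right _ (mem_image.2 ⟨(n1 i j).2, mem_univ _, rfl⟩)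
      · intro hsub
        have h5 := hsub (mem_image_of_mem _ h1)
        have h6 : (Sum.inr (n1 i j) : D ⊕ (Fin (m + N) × Fin (4 * r))) ∈ Rf (st1 i) := h5
        rw [R1] at h6
        obtain ⟨d, -, hd⟩ := mem_image.1 h6
        simp at hd
    · obtain ⟨⟨j, n, h1⟩, h2, h3, ⟨f, hf, h4⟩⟩ := a25 x T hT'
      have hfp := (P2prop x f hf).2.2
      refine ⟨a21 x T hT', ?_, st2 x, ?_, ?_⟩
      · refine injcomb f T (fun p => ∃ j n, p = Sum.inr (n2 x j, n)) (P2prop x f hf).2.1 h4 ?_ ?_
        · rintro p hp q hq ⟨j1, m1, rfl⟩ ⟨j2, m2, rfl⟩ hpq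
          have : (Sum.inr (n2 x j1) : D ⊕ (Fin (m + N) × Fin (4 * r))) = Sum.inr (n2 x j2) := hpq
          have hj := (n2inj _ _ _ _ (Sum.inr.inj this)).2
          subst hj
          rw [h3 j1 m1 m2 hp hq]
        · rintro p hp q hq hpf ⟨j2, m2, rfl⟩ hpq
          rcases hfp p hpf with ⟨d, rfl, -⟩ | ⟨b, hb, -⟩
          · have : (Sum.inl d : D ⊕ (Fin (m + N) × Fin (4 * r))) = Sum.inr (n2 x j2) := hpq
            simp at this
          · obtain ⟨κ, hκ⟩ := reg1_pr b p hb
            rw [hκ] at hpq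
            have : (Sum.inr (zb (ch b) κ) : D ⊕ (Fin (m + N) × Fin (4 * r))) =
              Sum.inr (n2 x j2) := hpq
            exact zb2 _ _ _ _ (Sum.inr.inj this)
      · rw [W2]
        intro y hy
        obtain ⟨q, hq, rfl⟩ := mem_image.1 hy
        rcases h4 q hq with h | ⟨j, n, rfl⟩
        · rcases hfp q h with ⟨d, rfl, hd⟩ | ⟨b, hb, hbi⟩
          · exact mem_union_left _ (mem_union_left _ (mem_image_of_mem _ hd))
          · obtain ⟨κ, hκ⟩ := reg1_pr b q hb
            rw [hκ]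
            refine mem_union_left _ (mem_union_right _ ?_)
            rcases hbi with hbi | hbi
            · rw [hbi]
              exact mem_union_left _ (mem_image.2 ⟨κ, mem_univ _, rfl⟩)
            · rw [hbi]
              exact mem_union_right _ (mem_image.2 ⟨κ, mem_univ _, rfl⟩)
        · exact mem_union_right _ (mem_image.2 ⟨(n2 x j).2, mem_univ _, rfl⟩)
      · intro hsub
        have h5 := hsub (mem_image_of_mem _ h1)
        have h6 : (Sum.inr (n2 x j) : D ⊕ (Fin (m + N) × Fin (4 * r))) ∈ Rf (st2 x) := h5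
        rw [R2] at h6
        simp only [mem_union, mem_image, mem_univ, true_and] at h6
        rcases h6 with ⟨d, -, h⟩ | ⟨κ, h⟩ | ⟨κ, h⟩
        · simp at h
        · exact zb2 _ _ _ _ (Sum.inr.inj h)
        · exact zb2 _ _ _ _ (Sum.inr.inj h)
  refine ⟨P, (univ : Finset ((X ⊕ X) ⊕ (Fin m ⊕ X))).biUnion blk1, ?_, ?_, D1, ?_⟩
  · intro j
    rcases steps j with ⟨i, rfl⟩ | ⟨x, rfl⟩
    · refine ⟨fi i, fiH i, ?_⟩
      intro d hd
      have hd' : (Sum.inl d : D ⊕ (Fin (m + N) × Fin (4 * r))) ∈ Rf (st1 i) := hd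
      rw [R1] at hd'
      obtain ⟨d', hd1, hd2⟩ := mem_image.1 hd'
      rw [← Sum.inl.inj hd2]; exact hd1
    · refine ⟨fi x.1, fiH x.1, ?_⟩
      intro d hd
      have hd' : (Sum.inl d : D ⊕ (Fin (m + N) × Fin (4 * r))) ∈ Rf (st2 x) := hd
      rw [R2] at hd'
      simp only [mem_union, mem_image, mem_univ, true_and] at hd'
      rcases hd' with ⟨d', hd1, hd2⟩ | ⟨κ, h⟩ | ⟨κ, h⟩
      · rw [← Sum.inl.inj hd2]; exact ccsub _ hd1
      · simp at h
      · simp at h
  · intro T hT'
    obtain ⟨b, -, hb⟩ := mem_biUnion.1 hT'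
    exact hAvail b T hb
  · have : (univ : Finset ((X ⊕ X) ⊕ (Fin m ⊕ X))).biUnion blk1 ∪
        H.image (Finset.image (Sum.inl : D → PVt)) =
        (univ : Finset (((X ⊕ X) ⊕ (Fin m ⊕ X)) ⊕ Fin m)).biUnion blk2 := by
      ext T
      simp only [mem_union, mem_biUnion, mem_univ, true_and, mem_image]
      constructor
      · rintro (⟨b, hb⟩ | ⟨f, hf, rfl⟩)
        · exact ⟨Sum.inl b, hb⟩
        · obtain ⟨i, rfl⟩ := fisurj f hf
          exact ⟨Sum.inr i, mem_singleton_self _⟩
      · rintro ⟨b | i, h⟩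
        · exact Or.inl ⟨b, h⟩
        · have h' : T ∈ ({F i} : Finset (Finset PVt)) := h
          rw [mem_singleton] at h'
          exact Or.inr ⟨fi i, fiH i, h'.symm⟩
    exact this ▸ D2

end Pool.Agent.Lib.MP_5c685b_co.E
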