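import Pool.Agent.Lib.MP_5c685b_co.E.Defs2
import Pool.Agent.Lib.MP_5c685b_co.E.Blow

set_option autoImplicit false

/-! # Rows E16, E17: counting embeddings of plans -/

namespace Pool.Agent.Lib.MP_5c685b_co.E

open Finset

/-- E16: blow-up (Jensen). If `Ω` has density `δ` in `Y → V` then the maps `Y × Fin N → V` all of whose
selections are in `Ω` have density at least `δ ^ (N ^ |Y|)`. -/
theorem blowup {Y V : Type} [Fintype Y] [DecidableEq Y] [Fintype V] [DecidableEq V] (N : ℕ)
    (hN : 1 ≤ N) (Ω : Finset (Y → V)) (δ : ℝ) (hδ : 0 ≤ δ)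
    (h : δ * (Fintype.card V : ℝ) ^ (Fintype.card Y) ≤ (Ω.card : ℝ)) :
    δ ^ (N ^ Fintype.card Y) * (Fintype.card V : ℝ) ^ (Fintype.card Y * N) ≤
      (Nat.card {ψ : Y × Fin N → V // ∀ s : Y → Fin N, (fun y => ψ (y, s y)) ∈ Ω} : ℝ) := by
  classical
  have h1 := MP5cBlow.blow_card N Ω δ hδ h
  have e : Nat.card {ψ : Y × Fin N → V // ∀ s : Y → Fin N, (fun y => ψ (y, s y)) ∈ Ω} =
      ((Finset.univ.filter (fun ψ : Y → Fin N → V =>
        ∀ s : Y → Fin N, (fun y => ψ y (s y)) ∈ Ω)).card) := by
    rw [← Fintype.card_subtype, ← Nat.card_eq_fintype_card]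
    exact Nat.card_congr (Equiv.subtypeEquiv (Equiv.curry Y (Fin N) V) (fun ψ => Iff.rfl))
  rw [e, Nat.mul_comm (Fintype.card Y) N]
  exact h1

/-- The map of points with lifts below `N` induced by `ι` on old points and `ψ` on new points
(lifts are taken modulo `N`). -/
def ext {D : Type} {s t n : ℕ} (N : ℕ) [NeZero N] (ι : D → Fin n)
    (ψ : (Fin s × Fin t) × Fin N → Fin n) : PV D s t → Fin n
  | Sum.inl d => ι d
  | Sum.inr (y, l) => ψ (y, Fin.ofNat N l)

/-- a family of functions in which the value at `x` is determined by the other values is small -/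
theorem E17_det {X V : Type} [Fintype X] [DecidableEq X] [Fintype V] [DecidableEq V] (x : X)
    (A : Finset (X → V))
    (hA : ∀ ψ ∈ A, ∀ ψ' ∈ A, (∀ y, y ≠ x → ψ y = ψ' y) → ψ = ψ') :
    A.card * Fintype.card V ≤ Fintype.card V ^ Fintype.card X := by
  classical
  have h : (A ×ˢ (univ : Finset V)).card ≤ (univ : Finset (X → V)).card := by
    apply Finset.card_le_card_of_injOn (fun p => Function.update p.1 x p.2)
    · intro p _
      exact mem_coe.2 (mem_univ _)
    · rintro ⟨ψ, v⟩ h1 ⟨ψ', v'⟩ h2 heq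
      have m1 : ψ ∈ A := (mem_product.1 (mem_coe.1 h1)).1
      have m2 : ψ' ∈ A := (mem_product.1 (mem_coe.1 h2)).1
      have heq' : Function.update ψ x v = Function.update ψ' x v' := heq
      have hv : v = v' := by
        have := congrFun heq' x
        simpa using this
      have hψ : ψ = ψ' := by
        apply hA ψ m1 ψ' m2
        intro y hy
        have := congrFun heq' y
        simpa [Function.update_of_ne hy] using this
      rw [hv, hψ]
  rw [card_product, card_univ, card_univ, Fintype.card_fun] at h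
  exact h

/-- real form -/
theorem E17_det' {X V : Type} [Fintype X] [DecidableEq X] [Fintype V] [DecidableEq V] (x : X)
    (hV : 0 < Fintype.card V) (A : Finset (X → V))
    (hA : ∀ ψ ∈ A, ∀ ψ' ∈ A, (∀ y, y ≠ x → ψ y = ψ' y) → ψ = ψ') :
    (A.card : ℝ) ≤ (Fintype.card V : ℝ) ^ Fintype.card X / (Fintype.card V : ℝ) := by
  have h := E17_det x A hA
  have hV' : (0 : ℝ) < Fintype.card V := by exact_mod_cast hV
  rw [le_div_iff₀ hV']
  exact_mod_cast h

/-- sequential choices -/
theorem E17_step {s : ℕ} {A : Type} [Fintype A] [DecidableEq A] (C : Fin s → (Fin s → A) → Prop)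
    (hC : ∀ k φ φ', (∀ i, i ≤ k → φ i = φ' i) → (C k φ → C k φ')) (g : ℝ) (hg : 0 ≤ g)
    (hcount : ∀ k φ, g * (Fintype.card A : ℝ) ≤
      (Nat.card {w : A // C k (Function.update φ k w)} : ℝ))
    (hA : 0 < Fintype.card A) :
    ∀ K : ℕ, K ≤ s → g ^ K * (Fintype.card A : ℝ) ^ s ≤
      (Nat.card {φ : Fin s → A // ∀ k : Fin s, (k : ℕ) < K → C k φ} : ℝ) := by
  classical
  intro K
  induction K with
  | zero =>
    intro _
    rw [Nat.card_eq_fintype_card, Fintype.card_subtype]
    simp
  | succ K ih =>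
    intro hK
    have ih' := ih (by omega)
    set k : Fin s := ⟨K, by omega⟩ with hk
    set Ω : Finset (Fin s → A) := univ.filter (fun φ => ∀ j : Fin s, (j : ℕ) < K → C j φ) with hΩ
    set Ω' : Finset (Fin s → A) := univ.filter (fun φ => ∀ j : Fin s, (j : ℕ) < K + 1 → C j φ) with hΩ'
    have e1 : Nat.card {φ : Fin s → A // ∀ k : Fin s, (k : ℕ) < K → C k φ} = Ω.card := by
      rw [Nat.card_eq_fintype_card, Fintype.card_subtype]
    have e2 : Nat.card {φ : Fin s → A // ∀ k : Fin s, (k : ℕ) < K + 1 → C k φ} = Ω'.card := by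
      rw [Nat.card_eq_fintype_card, Fintype.card_subtype]
    rw [e1] at ih'
    rw [e2]
    set Z : Finset ((Fin s → A) × A) :=
      (Ω ×ˢ (univ : Finset A)).filter (fun p => C k (Function.update p.1 k p.2)) with hZ
    have hZc : (Z.card : ℝ) = ∑ φ ∈ Ω, (Nat.card {w : A // C k (Function.update φ k w)} : ℝ) := by
      have : Z.card = ∑ φ ∈ Ω, (univ.filter (fun w : A => C k (Function.update φ k w))).card := by
        rw [hZ, Finset.card_filter, Finset.sum_product]
        refine Finset.sum_congr rfl fun φ _ => ?_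
        rw [Finset.card_filter]
      rw [this]
      push_cast
      refine Finset.sum_congr rfl fun φ _ => ?_
      rw [Nat.card_eq_fintype_card, Fintype.card_subtype]
    have hle : Z.card ≤ (Ω' ×ˢ (univ : Finset A)).card := by
      apply Finset.card_le_card_of_injOn (fun p => (Function.update p.1 k p.2, p.1 k))
      · rintro ⟨φ, w⟩ hp
        have hp' := mem_filter.1 (mem_coe.1 hp)
        have hφ : φ ∈ Ω := (mem_product.1 hp'.1).1
        have hφ' := (mem_filter.1 hφ).2
        refine mem_coe.2 (mem_product.2 ⟨?_, mem_univ _⟩)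
        refine mem_filter.2 ⟨mem_univ _, fun j hj => ?_⟩
        rcases Nat.lt_succ_iff_lt_or_eq.1 hj with h | h
        · refine hC j φ _ (fun i hi => ?_) (hφ' j h)
          have hne : i ≠ k := by
            rintro rfl
            have := Fin.le_def.1 hi
            rw [hk] at this
            simp only at this
            omega
          exact (Function.update_of_ne hne _ _).symm
        · have : j = k := Fin.ext h
          rw [this]
          exact hp'.2
      · rintro ⟨φ, w⟩ _ ⟨φ', w'⟩ _ heq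
        have h1 : Function.update φ k w = Function.update φ' k w' := congrArg Prod.fst heq
        have h2 : φ k = φ' k := congrArg Prod.snd heq
        have hw : w = w' := by simpa using congrFun h1 k
        have hφ : φ = φ' := by
          funext i
          by_cases hi : i = k
          · rw [hi]; exact h2
          · have := congrFun h1 i
            simpa [Function.update_of_ne hi] using this
        rw [hw, hφ]
    have hA' : (0 : ℝ) < Fintype.card A := by exact_mod_cast hA
    have h3 : g * (Fintype.card A : ℝ) * Ω.card ≤ (Ω'.card : ℝ) * Fintype.card A := by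
      calc g * (Fintype.card A : ℝ) * Ω.card = ∑ φ ∈ Ω, g * (Fintype.card A : ℝ) := by
            rw [Finset.sum_const, nsmul_eq_mul]; ring
        _ ≤ ∑ φ ∈ Ω, (Nat.card {w : A // C k (Function.update φ k w)} : ℝ) :=
            Finset.sum_le_sum fun φ _ => hcount k φ
        _ = (Z.card : ℝ) := hZc.symm
        _ ≤ ((Ω' ×ˢ (univ : Finset A)).card : ℝ) := by exact_mod_cast hle
        _ = (Ω'.card : ℝ) * Fintype.card A := by
            rw [card_product, card_univ]; push_cast; ring
    have h4 : g * (Ω.card : ℝ) ≤ Ω'.card := by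
      have : g * (Ω.card : ℝ) * Fintype.card A ≤ (Ω'.card : ℝ) * Fintype.card A := by linarith
      exact le_of_mul_le_mul_right this hA'
    calc g ^ (K + 1) * (Fintype.card A : ℝ) ^ s = g * (g ^ K * (Fintype.card A : ℝ) ^ s) := by ring
      _ ≤ g * Ω.card := mul_le_mul_of_nonneg_left ih' hg
      _ ≤ _ := h4

/-- base map of a plan -/
def E17_bm {D : Type} {s t n : ℕ} (ι : D → Fin n) (φ : Fin s → Fin t → Fin n) :
    D ⊕ (Fin s × Fin t) → Fin n :=
  Sum.elim ι (fun y => φ y.1 y.2)

/-- the condition at step `k` -/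
def E17_C {D : Type} [Fintype D] [DecidableEq D] {t : ℕ} (P : Plan D t) {n : ℕ}
    (G : Finset (Finset (Fin n))) (ι : D → Fin n) (k : Fin P.s) (φ : Fin P.s → Fin t → Fin n) : Prop :=
  Joined G ((P.R k).image (E17_bm ι φ)) (φ k) ∧ (∀ a d, φ k a ≠ ι d) ∧
    ∀ i, i < k → ∀ a a', φ k a ≠ φ i a'

theorem E17_root {D : Type} [Fintype D] [DecidableEq D] {t : ℕ} (P : Plan D t) {n : ℕ}
    (ι : D → Fin n) (k : Fin P.s) (φ φ' : Fin P.s → Fin t → Fin n) (h : ∀ i, i < k → φ i = φ' i) :
    (P.R k).image (E17_bm ι φ) = (P.R k).image (E17_bm ι φ') := by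
  apply Finset.image_congr
  intro p hp
  rcases p with d | ⟨i, a⟩
  · rfl
  · have := P.lt k i a hp
    simp only [E17_bm, Sum.elim_inr]
    rw [h i this]

theorem E17_C_local {D : Type} [Fintype D] [DecidableEq D] {t : ℕ} (P : Plan D t) {n : ℕ}
    (G : Finset (Finset (Fin n))) (ι : D → Fin n) (k : Fin P.s) (φ φ' : Fin P.s → Fin t → Fin n)
    (h : ∀ i, i ≤ k → φ i = φ' i) (hC : E17_C P G ι k φ) : E17_C P G ι k φ' := by
  obtain ⟨h1, h2, h3⟩ := hC
  rw [E17_root P ι k φ φ' (fun i hi => h i hi.le), h k le_rfl] at h1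
  refine ⟨h1, ?_, ?_⟩
  · intro a d
    rw [← h k le_rfl]
    exact h2 a d
  · intro i hi a a'
    rw [← h k le_rfl, ← h i hi.le]
    exact h3 i hi a a'

theorem E17_count {D : Type} [Fintype D] [DecidableEq D] {t : ℕ} (P : Plan D t)
    {c0 : ℝ} {n : ℕ} (hn : 0 < n)
    (hn2 : (t : ℝ) * ((Fintype.card D : ℝ) + (P.s : ℝ) * t) ≤ c0 / 2 * n)
    (G : Finset (Finset (Fin n))) (hG : Host t c0 G) (ι : D → Fin n) (k : Fin P.s)
    (φ : Fin P.s → Fin t → Fin n) :
    c0 / 2 * (Fintype.card (Fin t → Fin n) : ℝ) ≤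
      (Nat.card {w : Fin t → Fin n // E17_C P G ι k (Function.update φ k w)} : ℝ) := by
  classical
  have hn' : (0 : ℝ) < n := by exact_mod_cast hn
  set S := (P.R k).image (E17_bm ι φ) with hS
  have hSc : S.card ≤ 12 := Finset.card_image_le.trans (P.card_le k)
  have hH := hG S hSc
  rw [Nat.card_eq_fintype_card, Fintype.card_subtype] at hH
  rw [Nat.card_eq_fintype_card, Fintype.card_subtype]
  set B : Finset (Fin n) := univ.image ι ∪ univ.image (fun y : Fin P.s × Fin t => φ y.1 y.2) with hB
  have hBc : (B.card : ℝ) ≤ (Fintype.card D : ℝ) + (P.s : ℝ) * t := by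
    have h1 : B.card ≤ Fintype.card D + P.s * t := by
      refine (Finset.card_union_le _ _).trans (Nat.add_le_add ?_ ?_)
      · exact Finset.card_image_le.trans (by rw [card_univ])
      · refine Finset.card_image_le.trans ?_
        rw [card_univ, Fintype.card_prod, Fintype.card_fin, Fintype.card_fin]
    exact_mod_cast h1
  have hsub : univ.filter (fun w : Fin t → Fin n => Joined G S w) ⊆
      univ.filter (fun w : Fin t → Fin n => E17_C P G ι k (Function.update φ k w)) ∪
      (univ : Finset (Fin t)).biUnion (fun a => B.biUnion (fun b => univ.filter (fun w : Fin t → Fin n => w a = b))) := by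
    intro w hw
    have hJ := (mem_filter.1 hw).2
    rw [mem_union]
    by_cases hb : ∃ a, w a ∈ B
    · right
      obtain ⟨a, ha⟩ := hb
      exact mem_biUnion.2 ⟨a, mem_univ _, mem_biUnion.2 ⟨w a, ha, mem_filter.2 ⟨mem_univ _, rfl⟩⟩⟩
    · left
      push Not at hb
      refine mem_filter.2 ⟨mem_univ _, ?_, ?_, ?_⟩
      · have e : (P.R k).image (E17_bm ι (Function.update φ k w)) = S := by
          rw [hS]
          apply E17_root
          intro i hi
          exact Function.update_of_ne hi.ne _ _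
        rw [e, Function.update_self]
        exact hJ
      · intro a d
        rw [Function.update_self]
        intro h
        apply hb a
        rw [h]
        exact mem_union_left _ (mem_image_of_mem _ (mem_univ _))
      · intro i hi a a'
        rw [Function.update_self, Function.update_of_ne hi.ne]
        intro h
        apply hb a
        rw [h]
        exact mem_union_right _ (mem_image.2 ⟨(i, a'), mem_univ _, rfl⟩)
  have hcard := Finset.card_le_card hsub
  have hcard2 := hcard.trans (Finset.card_union_le _ _)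
  have hbad : (((univ : Finset (Fin t)).biUnion (fun a => B.biUnion (fun b =>
      univ.filter (fun w : Fin t → Fin n => w a = b)))).card : ℝ) ≤
      (t : ℝ) * (((Fintype.card D : ℝ) + (P.s : ℝ) * t) * ((n : ℝ) ^ t / n)) := by
    have h1 : ((univ : Finset (Fin t)).biUnion (fun a => B.biUnion (fun b =>
      univ.filter (fun w : Fin t → Fin n => w a = b)))).card ≤
      ∑ a : Fin t, ∑ b ∈ B, (univ.filter (fun w : Fin t → Fin n => w a = b)).card :=
      Finset.card_biUnion_le.trans (Finset.sum_le_sum fun a _ => Finset.card_biUnion_le)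
    have h2 : ∀ (a : Fin t) (b : Fin n), ((univ.filter (fun w : Fin t → Fin n => w a = b)).card : ℝ) ≤
        (n : ℝ) ^ t / n := by
      intro a b
      have := E17_det' (X := Fin t) (V := Fin n) a (by rw [Fintype.card_fin]; exact hn)
        (univ.filter (fun w : Fin t → Fin n => w a = b)) (by
          intro ψ h ψ' h' heq
          funext y
          by_cases hy : y = a
          · rw [hy, (mem_filter.1 h).2, (mem_filter.1 h').2]
          · exact heq y hy)
      simpa using this
    calc _ ≤ ((∑ a : Fin t, ∑ b ∈ B, (univ.filter (fun w : Fin t → Fin n => w a = b)).card : ℕ) : ℝ) := by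
          exact_mod_cast h1
      _ = ∑ a : Fin t, ∑ b ∈ B, ((univ.filter (fun w : Fin t → Fin n => w a = b)).card : ℝ) := by
          push_cast; rfl
      _ ≤ ∑ _a : Fin t, ∑ _b ∈ B, (n : ℝ) ^ t / n :=
          Finset.sum_le_sum fun a _ => Finset.sum_le_sum fun b _ => h2 a b
      _ = (t : ℝ) * ((B.card : ℝ) * ((n : ℝ) ^ t / n)) := by
          rw [Finset.sum_const, Finset.sum_const, card_univ, Fintype.card_fin, nsmul_eq_mul, nsmul_eq_mul]
      _ ≤ _ := by
          apply mul_le_mul_of_nonneg_left _ (by positivity)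
          exact mul_le_mul_of_nonneg_right hBc (by positivity)
  have hcR : (((univ.filter (fun w : Fin t → Fin n => Joined G S w)).card : ℕ) : ℝ) ≤
      ((univ.filter (fun w : Fin t → Fin n => E17_C P G ι k (Function.update φ k w))).card : ℝ) +
      (((univ : Finset (Fin t)).biUnion (fun a => B.biUnion (fun b =>
      univ.filter (fun w : Fin t → Fin n => w a = b)))).card : ℝ) := by
    exact_mod_cast hcard2
  have hkey : (t : ℝ) * (((Fintype.card D : ℝ) + (P.s : ℝ) * t) * ((n : ℝ) ^ t / n)) ≤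
      c0 / 2 * (n : ℝ) ^ t := by
    calc (t : ℝ) * (((Fintype.card D : ℝ) + (P.s : ℝ) * t) * ((n : ℝ) ^ t / n))
        = ((t : ℝ) * ((Fintype.card D : ℝ) + (P.s : ℝ) * t)) * ((n : ℝ) ^ t / n) := by ring
      _ ≤ (c0 / 2 * n) * ((n : ℝ) ^ t / n) := mul_le_mul_of_nonneg_right hn2 (by positivity)
      _ = c0 / 2 * (n : ℝ) ^ t := by field_simp
  have hcardA : (Fintype.card (Fin t → Fin n) : ℝ) = (n : ℝ) ^ t := by
    rw [Fintype.card_fun, Fintype.card_fin, Fintype.card_fin]; push_cast; rfl
  rw [hcardA]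
  linarith

theorem E17_inj {D : Type} [Fintype D] [DecidableEq D] {t : ℕ} (P : Plan D t) {n : ℕ}
    (G : Finset (Finset (Fin n))) (ι : D → Fin n) (hι : Function.Injective ι)
    (φ : Fin P.s → Fin t → Fin n) (hC : ∀ k, E17_C P G ι k φ) :
    Function.Injective (E17_bm ι φ) := by
  intro p p' h
  rcases p with d | ⟨i, a⟩ <;> rcases p' with d' | ⟨i', a'⟩
  · exact congrArg _ (hι h)
  · exact absurd h.symm ((hC i').2.1 a' d)
  · exact absurd h ((hC i).2.1 a d')
  · have h' : φ i a = φ i' a' := h
    rcases lt_trichotomy i i' with hlt | heq | hgt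
    · exact absurd h'.symm ((hC i').2.2 i hlt a' a)
    · subst heq
      have := (hC i).1.1 h'
      rw [this]
    · exact absurd h' ((hC i).2.2 i' hgt a a')

theorem E17_mem {D : Type} [Fintype D] [DecidableEq D] {t : ℕ} (P : Plan D t) {n : ℕ}
    (G : Finset (Finset (Fin n))) (ι : D → Fin n) (hι : Function.Injective ι)
    (φ : Fin P.s → Fin t → Fin n) (hC : ∀ k, E17_C P G ι k φ) (i : Fin P.s)
    (T : Finset (D ⊕ (Fin P.s × Fin t))) (hT : T.card = 3) (h1 : T ⊆ P.W i) (h2 : ¬ T ⊆ P.R i) :
    T.image (E17_bm ι φ) ∈ G := by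
  have hinj := E17_inj P G ι hι φ hC
  apply (hC i).1.2.2
  · intro x hx
    obtain ⟨p, hp, rfl⟩ := mem_image.1 hx
    rcases mem_union.1 (h1 hp) with h | h
    · exact mem_union_left _ (mem_image_of_mem _ h)
    · obtain ⟨a, _, rfl⟩ := mem_image.1 h
      exact mem_union_right _ (mem_image.2 ⟨a, mem_univ _, rfl⟩)
  · rw [Finset.card_image_of_injective _ hinj, hT]
  · intro h
    exact h2 ((Finset.image_subset_image_iff hinj).1 h)

theorem E17_sel {D : Type} [Fintype D] [DecidableEq D] {t : ℕ} (P : Plan D t) (N : ℕ) [NeZero N]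
    {n : ℕ} (G : Finset (Finset (Fin n))) (ι : D → Fin n) (hι : Function.Injective ι)
    (ψ : (Fin P.s × Fin t) × Fin N → Fin n)
    (hψ : ∀ s : Fin P.s × Fin t → Fin N, ∀ k, E17_C P G ι k (fun i a => ψ ((i, a), s (i, a))))
    (T : Finset (PV D P.s t)) (hT : P.Avail T) : T.image (ext N ι ψ) ∈ G := by
  classical
  obtain ⟨hT3, hinj, i, hW, hR⟩ := hT
  set sel : Fin P.s × Fin t → Fin N := fun y =>
    if h : ∃ l, (Sum.inr (y, l) : PV D P.s t) ∈ T then Fin.ofNat N h.choose else Fin.ofNat N 0 with hsel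
  have hp : ∀ p ∈ T, ext N ι ψ p =
      E17_bm ι (fun i a => ψ ((i, a), sel (i, a))) (pr p) := by
    intro p hp
    rcases p with d | ⟨y, l⟩
    · rfl
    · have hex : ∃ l, (Sum.inr (y, l) : PV D P.s t) ∈ T := ⟨l, hp⟩
      have hch := hex.choose_spec
      have heq : (Sum.inr (y, l) : PV D P.s t) = Sum.inr (y, hex.choose) := hinj hp hch rfl
      have hl : l = hex.choose := by
        have := Sum.inr.inj heq
        exact (Prod.mk.inj this).2
      have hs : sel y = Fin.ofNat N l := by
        rw [hsel]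
        simp only [dif_pos hex]
        rw [← hl]
      show ψ (y, Fin.ofNat N l) = ψ ((y.1, y.2), sel (y.1, y.2))
      rw [← hs]
  have e : T.image (ext N ι ψ) =
      (T.image pr).image (E17_bm ι (fun i a => ψ ((i, a), sel (i, a)))) := by
    rw [Finset.image_image]
    exact Finset.image_congr (fun p hp' => hp p hp')
  rw [e]
  exact E17_mem P G ι hι _ (hψ sel) i _ (by rw [Finset.card_image_of_injOn hinj, hT3]) hW hR

/-- E17 (text 4.1): the number of embeddings of a plan with `N` lifts. -/
theorem plan_count {D : Type} [Fintype D] [DecidableEq D] {t : ℕ} (P : Plan D t) (N : ℕ) [NeZero N]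
    {c0 : ℝ} (hc0 : 0 < c0) :
    ∃ c : ℝ, 0 < c ∧ ∃ n0 : ℕ, ∀ n : ℕ, n0 ≤ n → ∀ G : Finset (Finset (Fin n)), Host t c0 G →
      ∀ ι : D → Fin n, Function.Injective ι →
        c * (n : ℝ) ^ (P.s * t * N) ≤
          (Nat.card {ψ : (Fin P.s × Fin t) × Fin N → Fin n //
            Function.Injective (Sum.elim ι ψ) ∧
            ∀ T : Finset (PV D P.s t), P.Avail T → (∀ y l, Sum.inr (y, l) ∈ T → l < N) →
              T.image (ext N ι ψ) ∈ G} : ℝ) := by
  classical
  set de : ℝ := (c0 / 2) ^ P.s with hde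
  have hde0 : 0 < de := by positivity
  set c1 : ℝ := de ^ (N ^ (P.s * t)) with hc1
  have hc10 : 0 < c1 := by positivity
  set K1 : ℝ := (t : ℝ) * ((Fintype.card D : ℝ) + (P.s : ℝ) * t) with hK1
  set K2 : ℝ := ((P.s * t : ℕ) : ℝ) * ((N : ℝ) * N) with hK2
  refine ⟨c1 / 2, by positivity, ⌈K1 / (c0 / 2)⌉₊ + ⌈K2 / (c1 / 2)⌉₊ + 1, ?_⟩
  intro n hn G hG ι hι
  have hn0 : 0 < n := by omega
  have hn' : (0 : ℝ) < n := by exact_mod_cast hn0
  have hb1 : K1 ≤ c0 / 2 * n := by
    have h1 : K1 / (c0 / 2) ≤ n := (Nat.le_ceil _).trans (by exact_mod_cast (by omega))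
    rw [div_le_iff₀ (by positivity)] at h1
    linarith
  have hb2 : K2 ≤ c1 / 2 * n := by
    have h1 : K2 / (c1 / 2) ≤ n := (Nat.le_ceil _).trans (by exact_mod_cast (by omega))
    rw [div_le_iff₀ (by positivity)] at h1
    linarith
  -- base maps
  have hcardA : (Fintype.card (Fin t → Fin n) : ℝ) = (n : ℝ) ^ t := by
    rw [Fintype.card_fun, Fintype.card_fin, Fintype.card_fin]; push_cast; rfl
  have hbase := E17_step (A := Fin t → Fin n) (E17_C P G ι)
    (fun k φ φ' h hC => E17_C_local P G ι k φ φ' h hC) (c0 / 2) (by positivity)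
    (fun k φ => E17_count P hn0 hb1 G hG ι k φ)
    (by rw [Fintype.card_fun, Fintype.card_fin, Fintype.card_fin]; positivity) P.s le_rfl
  rw [hcardA, ← pow_mul] at hbase
  set Ω : Finset (Fin P.s × Fin t → Fin n) :=
    univ.filter (fun f => ∀ k, E17_C P G ι k (fun i a => f (i, a))) with hΩ
  have hΩc : Nat.card {φ : Fin P.s → Fin t → Fin n // ∀ k : Fin P.s, (k : ℕ) < P.s → E17_C P G ι k φ} =
      Ω.card := by
    rw [hΩ, ← Fintype.card_subtype, ← Nat.card_eq_fintype_card]
    refine (Nat.card_congr (Equiv.subtypeEquiv (Equiv.curry (Fin P.s) (Fin t) (Fin n)) (fun f => ?_))).symm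
    constructor
    · intro h k _
      exact h k
    · intro h k
      exact h k k.2
  rw [hΩc] at hbase
  have hYc : Fintype.card (Fin P.s × Fin t) = P.s * t := by
    rw [Fintype.card_prod, Fintype.card_fin, Fintype.card_fin]
  have hblow := blowup (Y := Fin P.s × Fin t) (V := Fin n) N (Nat.one_le_iff_ne_zero.2 (NeZero.ne N)) Ω de
    hde0.le (by
      rw [hYc, Fintype.card_fin, hde, Nat.mul_comm P.s t]
      exact hbase)
  rw [hYc, Fintype.card_fin, ← hc1, Nat.card_eq_fintype_card, Fintype.card_subtype] at hblow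
  rw [Nat.card_eq_fintype_card, Fintype.card_subtype]
  set bad : Finset ((Fin P.s × Fin t) × Fin N → Fin n) :=
    (univ : Finset (Fin P.s × Fin t)).biUnion (fun y =>
      ((univ : Finset (Fin N × Fin N)).filter (fun p => p.1 ≠ p.2)).biUnion (fun p =>
        univ.filter (fun ψ => ψ (y, p.1) = ψ (y, p.2)))) with hbad
  have hsub : univ.filter (fun ψ : (Fin P.s × Fin t) × Fin N → Fin n =>
        ∀ s : Fin P.s × Fin t → Fin N, (fun y => ψ (y, s y)) ∈ Ω) ⊆
      univ.filter (fun ψ : (Fin P.s × Fin t) × Fin N → Fin n =>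
        Function.Injective (Sum.elim ι ψ) ∧
            ∀ T : Finset (PV D P.s t), P.Avail T → (∀ y l, Sum.inr (y, l) ∈ T → l < N) →
              T.image (ext N ι ψ) ∈ G) ∪ bad := by
    intro ψ hψ
    have hψ' := (mem_filter.1 hψ).2
    have hψ2 : ∀ s : Fin P.s × Fin t → Fin N, ∀ k,
        E17_C P G ι k (fun i a => ψ ((i, a), s (i, a))) := fun s => (mem_filter.1 (hψ' s)).2
    rw [mem_union]
    by_cases hb : ψ ∈ bad
    · exact Or.inr hb
    · left
      refine mem_filter.2 ⟨mem_univ _, ?_, fun T hT _ => E17_sel P N G ι hι ψ hψ2 T hT⟩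
      intro p p' h
      rcases p with d | ⟨y, l⟩ <;> rcases p' with d' | ⟨y', l'⟩
      · exact congrArg _ (hι h)
      · have := E17_inj P G ι hι _ (hψ2 (fun _ => l')) (a₁ := Sum.inl d) (a₂ := Sum.inr y') h
        exact absurd this (by simp)
      · have := E17_inj P G ι hι _ (hψ2 (fun _ => l)) (a₁ := Sum.inr y) (a₂ := Sum.inl d') h
        exact absurd this (by simp)
      · by_cases hy : y = y'
        · subst hy
          by_cases hl : l = l'
          · rw [hl]
          · exfalso
            apply hb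
            rw [hbad]
            refine mem_biUnion.2 ⟨y, mem_univ _, mem_biUnion.2 ⟨(l, l'), ?_, ?_⟩⟩
            · exact mem_filter.2 ⟨mem_univ _, hl⟩
            · exact mem_filter.2 ⟨mem_univ _, h⟩
        · exfalso
          have h1 := E17_inj P G ι hι _ (hψ2 (fun z => if z = y then l else l'))
            (a₁ := Sum.inr y) (a₂ := Sum.inr y')
          have h2 : (Sum.inr y : D ⊕ (Fin P.s × Fin t)) = Sum.inr y' := by
            apply h1
            show ψ ((y.1, y.2), if (y.1, y.2) = y then l else l') =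
              ψ ((y'.1, y'.2), if (y'.1, y'.2) = y then l else l')
            rw [if_pos rfl, if_neg (fun h => hy h.symm)]
            exact h
          exact hy (Sum.inr.inj h2)
  have hcard := (Finset.card_le_card hsub).trans (Finset.card_union_le _ _)
  have hXc : Fintype.card ((Fin P.s × Fin t) × Fin N) = P.s * t * N := by
    rw [Fintype.card_prod, hYc, Fintype.card_fin]
  have hbadc : (bad.card : ℝ) ≤ K2 * ((n : ℝ) ^ (P.s * t * N) / n) := by
    have h1 : bad.card ≤ ∑ y : Fin P.s × Fin t,
        ∑ p ∈ (univ : Finset (Fin N × Fin N)).filter (fun p => p.1 ≠ p.2),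
        (univ.filter (fun ψ : (Fin P.s × Fin t) × Fin N → Fin n => ψ (y, p.1) = ψ (y, p.2))).card :=
      Finset.card_biUnion_le.trans (Finset.sum_le_sum fun a _ => Finset.card_biUnion_le)
    have h2 : ∀ (y : Fin P.s × Fin t), ∀ p ∈ (univ : Finset (Fin N × Fin N)).filter (fun p => p.1 ≠ p.2),
        ((univ.filter (fun ψ : (Fin P.s × Fin t) × Fin N → Fin n => ψ (y, p.1) = ψ (y, p.2))).card : ℝ) ≤
        (n : ℝ) ^ (P.s * t * N) / n := by
      intro y p hp
      have hpne := (mem_filter.1 hp).2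
      have := E17_det' (X := (Fin P.s × Fin t) × Fin N) (V := Fin n) (y, p.1)
        (by rw [Fintype.card_fin]; exact hn0)
        (univ.filter (fun ψ : (Fin P.s × Fin t) × Fin N → Fin n => ψ (y, p.1) = ψ (y, p.2))) (by
          intro ψ h ψ' h' heq
          have e2 : ψ (y, p.2) = ψ' (y, p.2) := heq _ (fun h => hpne (congrArg Prod.snd h).symm)
          funext z
          by_cases hz : z = (y, p.1)
          · rw [hz, (mem_filter.1 h).2, (mem_filter.1 h').2, e2]
          · exact heq z hz)
      rw [hXc, Fintype.card_fin] at this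
      exact this
    have h3 : (((univ : Finset (Fin N × Fin N)).filter (fun p => p.1 ≠ p.2)).card : ℝ) ≤ (N : ℝ) * N := by
      have : ((univ : Finset (Fin N × Fin N)).filter (fun p => p.1 ≠ p.2)).card ≤ N * N := by
        refine (Finset.card_filter_le _ _).trans ?_
        rw [card_univ, Fintype.card_prod, Fintype.card_fin]
      exact_mod_cast this
    calc (bad.card : ℝ) ≤ ((∑ y : Fin P.s × Fin t,
        ∑ p ∈ (univ : Finset (Fin N × Fin N)).filter (fun p => p.1 ≠ p.2),
        (univ.filter (fun ψ : (Fin P.s × Fin t) × Fin N → Fin n => ψ (y, p.1) = ψ (y, p.2))).card : ℕ) : ℝ) := by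
          exact_mod_cast h1
      _ = ∑ y : Fin P.s × Fin t,
        ∑ p ∈ (univ : Finset (Fin N × Fin N)).filter (fun p => p.1 ≠ p.2),
        ((univ.filter (fun ψ : (Fin P.s × Fin t) × Fin N → Fin n => ψ (y, p.1) = ψ (y, p.2))).card : ℝ) := by
          push_cast; rfl
      _ ≤ ∑ _y : Fin P.s × Fin t,
        ∑ _p ∈ (univ : Finset (Fin N × Fin N)).filter (fun p => p.1 ≠ p.2),
        (n : ℝ) ^ (P.s * t * N) / n :=
          Finset.sum_le_sum fun y _ => Finset.sum_le_sum fun p hp => h2 y p hp
      _ = ((P.s * t : ℕ) : ℝ) * ((((univ : Finset (Fin N × Fin N)).filter (fun p => p.1 ≠ p.2)).card : ℝ) *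
          ((n : ℝ) ^ (P.s * t * N) / n)) := by
          rw [Finset.sum_const, Finset.sum_const, card_univ, hYc, nsmul_eq_mul, nsmul_eq_mul]
      _ ≤ ((P.s * t : ℕ) : ℝ) * (((N : ℝ) * N) * ((n : ℝ) ^ (P.s * t * N) / n)) := by
          apply mul_le_mul_of_nonneg_left _ (by positivity)
          exact mul_le_mul_of_nonneg_right h3 (by positivity)
      _ = K2 * ((n : ℝ) ^ (P.s * t * N) / n) := by rw [hK2]; ring
  have hbadc2 : (bad.card : ℝ) ≤ c1 / 2 * (n : ℝ) ^ (P.s * t * N) := by
    calc (bad.card : ℝ) ≤ K2 * ((n : ℝ) ^ (P.s * t * N) / n) := hbadc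
      _ ≤ (c1 / 2 * n) * ((n : ℝ) ^ (P.s * t * N) / n) := mul_le_mul_of_nonneg_right hb2 (by positivity)
      _ = c1 / 2 * (n : ℝ) ^ (P.s * t * N) := by field_simp
  have hcR : ((univ.filter (fun ψ : (Fin P.s × Fin t) × Fin N → Fin n =>
        ∀ s : Fin P.s × Fin t → Fin N, (fun y => ψ (y, s y)) ∈ Ω)).card : ℝ) ≤
      ((univ.filter (fun ψ : (Fin P.s × Fin t) × Fin N → Fin n =>
        Function.Injective (Sum.elim ι ψ) ∧
            ∀ T : Finset (PV D P.s t), P.Avail T → (∀ y l, Sum.inr (y, l) ∈ T → l < N) →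
              T.image (ext N ι ψ) ∈ G)).card : ℝ) + (bad.card : ℝ) := by
    exact_mod_cast hcard
  linarith

end Pool.Agent.Lib.MP_5c685b_co.E
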