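import Pool.Agent.Lib.MP_5c685b_co.E.Composite
import Pool.Agent.Lib.MP_5c685b_co.E.PlanCount

set_option autoImplicit false

namespace Pool.Agent.Lib.MP_5c685b_co.E

open Finset

private lemma E19_img_inj {U V : Type*} [DecidableEq V] (f : U → V) {Dom T T' : Finset U}
    (hf : Set.InjOn f (Dom : Set U)) (hT : T ⊆ Dom) (hT' : T' ⊆ Dom)
    (h : T.image f = T'.image f) : T = T' := by
  ext x
  constructor
  · intro hx
    have h1 : f x ∈ T'.image f := h ▸ mem_image_of_mem f hx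
    obtain ⟨y, hy, hxy⟩ := mem_image.1 h1
    have := hf (hT' hy) (hT hx) hxy
    exact this ▸ hy
  · intro hx
    have h1 : f x ∈ T.image f := h ▸ mem_image_of_mem f hx
    obtain ⟨y, hy, hxy⟩ := mem_image.1 h1
    have := hf (hT hy) (hT' hx) hxy
    exact this ▸ hy

private lemma E19_dg_image {U V : Type*} [DecidableEq U] [DecidableEq V] (f : U → V)
    {Dom : Finset U} {E : Finset (Finset U)} (hE : ∀ T ∈ E, T ⊆ Dom)
    (hf : Set.InjOn f (Dom : Set U)) {c : Finset U} (hc : c ⊆ Dom) :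
    dg (E.image (Finset.image f)) (c.image f) = dg E c := by
  unfold dg
  have h1 : (E.image (Finset.image f)).filter (fun T => c.image f ⊆ T) =
      (E.filter (fun T => c ⊆ T)).image (Finset.image f) := by
    ext T
    simp only [mem_filter, mem_image]
    constructor
    · rintro ⟨⟨T0, h0, rfl⟩, h1⟩
      refine ⟨T0, ⟨h0, ?_⟩, rfl⟩
      intro x hx
      obtain ⟨y, hy, hxy⟩ := mem_image.1 (h1 (mem_image_of_mem f hx))
      have := hf (hE T0 h0 hy) (hc hx) hxy
      exact this ▸ hy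
    · rintro ⟨T0, ⟨h0, h1⟩, rfl⟩
      exact ⟨⟨T0, h0, rfl⟩, image_subset_image h1⟩
  rw [h1, card_image_of_injOn]
  intro T hT T' hT' h
  exact E19_img_inj f hf (hE T (mem_filter.1 hT).1) (hE T' (mem_filter.1 hT').1) h

private lemma E19_res {U V : Type*} [DecidableEq U] [DecidableEq V] (r : ℕ) (f : U → V)
    {Dom : Finset U} {E : Finset (Finset U)} (hE : ∀ T ∈ E, T ⊆ Dom)
    (hf : Set.InjOn f (Dom : Set U)) {c : Finset U} (hc : c ⊆ Dom) {j : ℤ} (h : Res r E c j) :
    Res r (E.image (Finset.image f)) (c.image f) j := by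
  intro c' hc'
  by_cases hsub : c' ⊆ Dom.image f
  · obtain ⟨c'', h1, rfl⟩ := Finset.subset_image_iff.1 hsub
    have h1' : c'' ⊆ Dom := by exact_mod_cast h1
    rw [E19_dg_image f hE hf h1']
    have hcard : (c''.image f).card = c''.card :=
      card_image_of_injOn (hf.mono (by exact_mod_cast h1'))
    have h2 := h c'' (by omega)
    rw [hcard]
    have heq : (c''.image f = c.image f) ↔ c'' = c :=
      ⟨fun hh => E19_img_inj f hf h1' hc hh, fun hh => by rw [hh]⟩
    simp only [heq]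
    exact h2
  · have h0 : dg (E.image (Finset.image f)) c' = 0 := by
      unfold dg
      rw [Finset.card_eq_zero, Finset.filter_eq_empty_iff]
      intro T hT hcT
      obtain ⟨T0, h0, rfl⟩ := mem_image.1 hT
      exact hsub (hcT.trans (image_subset_image (hE T0 h0)))
    have hne : c' ≠ c.image f := by
      rintro rfl
      exact hsub (image_subset_image hc)
    simp [h0, hne]

private def uPlan (d t : ℕ) (hd : d ≤ 2) : Plan (Fin d) t where
  s := 1
  R := fun _ => univ.image Sum.inl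
  card_le := by
    intro i
    refine card_image_le.trans ?_
    simp
    omega
  lt := by
    intro i i' a h
    simp at h

private lemma E19_bound {D : Type} [DecidableEq D] {s t : ℕ} (S : Finset (PV D s t)) :
    ∃ N : ℕ, ∀ y l, (Sum.inr (y, l) : PV D s t) ∈ S → l < N := by
  classical
  refine ⟨S.sup (fun x => match x with
    | Sum.inl _ => 0
    | Sum.inr (_, l) => l) + 1, ?_⟩
  intro y l hl
  have := Finset.le_sup (f := fun x : PV D s t => match x with
    | Sum.inl _ => 0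
    | Sum.inr (_, l) => l) hl
  exact Nat.lt_succ_of_le this

private lemma E19_family {r : ℕ} (hr : r % 6 = 3) (h45 : 45 ≤ r) (d : ℕ) (hd : d ≤ 2) :
    ∃ (E E' : ℕ → Finset (Finset (PV (Fin d) 1 (4 * r)))) (N : ℕ),
      E 0 = ∅ ∧ E' 0 = ∅ ∧
      (∀ j < Mo r d, ∀ T ∈ E j ∪ E' j, (uPlan d (4 * r) hd).Avail T ∧
        (∃ y l, (Sum.inr (y, l) : PV (Fin d) 1 (4 * r)) ∈ T) ∧
        ∀ y l, (Sum.inr (y, l) : PV (Fin d) 1 (4 * r)) ∈ T → l < N) ∧
      (∀ j j', Disjoint (E j) (E' j')) ∧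
      (∀ j j', j ≠ j' → Disjoint (E j) (E j')) ∧
      (∀ j j', j ≠ j' → Disjoint (E' j) (E' j')) ∧
      (∀ j, Res r (E j) (univ.image Sum.inl) j ∧ Res r (E' j) (univ.image Sum.inl) (-j)) := by
  classical
  have h5 : 5 ≤ 4 * r := by omega
  let z : ℕ → Fin 5 → ℕ → PV (Fin d) 1 (4 * r) := fun k i n =>
    Sum.inr ((0, Fin.castLE h5 i), Nat.pair k n)
  let cD : Finset (PV (Fin d) 1 (4 * r)) := univ.image Sum.inl
  have hcD : cD.card ≤ 2 := by
    refine card_image_le.trans ?_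
    simp
    omega
  have hcDc : cD.card = d := by
    rw [card_image_of_injective _ Sum.inl_injective]
    simp
  have hz : ∀ k i n j m, z k i n = z k j m → i = j ∧ n = m := by
    intro k i n j m h
    simp only [z, Sum.inr.injEq, Prod.mk.injEq, true_and] at h
    refine ⟨?_, ?_⟩
    · exact Fin.castLE_injective h5 h.1
    · exact (Nat.pair_eq_pair.1 h.2).2
  have hzz : ∀ k i n k' j m, z k i n = z k' j m → k = k' := by
    intro k i n k' j m h
    simp only [z, Sum.inr.injEq, Prod.mk.injEq, true_and] at h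
    exact (Nat.pair_eq_pair.1 h.2).1
  have hzc : ∀ k i n, z k i n ∉ cD := by
    intro k i n h
    simp [z, cD] at h
  have hu := fun (k : ℕ) (j : ℤ) => unit_exists r hr (by omega) cD hcD (z k) (hz k) (hzc k) j
  choose F hF1 hF2 hF3 using hu
  -- disjointness of different classes
  have hdis : ∀ k k' j j', k ≠ k' → Disjoint (F k j) (F k' j') := by
    intro k k' j j' hkk
    refine Finset.disjoint_left.2 fun T hT hT' => ?_
    obtain ⟨_, _, ⟨i, n, hin⟩, _⟩ := hF3 k j T hT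
    obtain ⟨_, hb, _, _⟩ := hF3 k' j' T hT'
    rcases hb _ hin with h | ⟨i', n', h⟩
    · exact hzc k i n h
    · exact hkk (hzz _ _ _ _ _ _ h)
  -- availability
  have hav : ∀ k j, ∀ T ∈ F k j, (uPlan d (4 * r) hd).Avail T ∧
        (∃ y l, (Sum.inr (y, l) : PV (Fin d) 1 (4 * r)) ∈ T) := by
    intro k j T hT
    obtain ⟨h3, hb, ⟨i, n, hin⟩, huniq⟩ := hF3 k j T hT
    refine ⟨⟨h3, ?_, ⟨(0 : Fin 1), ?_, ?_⟩⟩, ⟨_, _, hin⟩⟩
    · intro x hx y hy hxy
      rcases hb x hx with hx' | ⟨i1, n1, rfl⟩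
      · rcases hb y hy with hy' | ⟨i2, n2, rfl⟩
        · obtain ⟨x', _, rfl⟩ := mem_image.1 hx'
          obtain ⟨y', _, rfl⟩ := mem_image.1 hy'
          have hxy' : x' = y' := by simpa [pr] using hxy
          rw [hxy']
        · obtain ⟨x', _, rfl⟩ := mem_image.1 hx'
          simp [pr, z] at hxy
      · rcases hb y hy with hy' | ⟨i2, n2, rfl⟩
        · obtain ⟨y', _, rfl⟩ := mem_image.1 hy'
          simp [pr, z] at hxy
        · have h1 : i1 = i2 := by
            have h2 : ((0 : Fin 1), Fin.castLE h5 i1) = ((0 : Fin 1), Fin.castLE h5 i2) :=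
              Sum.inr_injective hxy
            exact Fin.castLE_injective h5 (Prod.ext_iff.1 h2).2
          subst h1
          rw [huniq i1 n1 n2 hx hy]
    · intro x hx
      obtain ⟨x0, hx0, rfl⟩ := mem_image.1 hx
      rcases hb x0 hx0 with h | ⟨i1, n1, rfl⟩
      · obtain ⟨x', _, rfl⟩ := mem_image.1 h
        exact mem_union_left _ (mem_image.2 ⟨x', mem_univ _, rfl⟩)
      · exact mem_union_right _ (mem_image.2 ⟨Fin.castLE h5 i1, mem_univ _, rfl⟩)
    · intro hsub
      have h1 := hsub (mem_image_of_mem pr hin)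
      obtain ⟨x', _, hx'⟩ := mem_image.1 h1
      simp [pr, z] at hx'
  obtain ⟨N, hN⟩ := E19_bound ((range (Mo r d)).biUnion
    (fun j => (F (2 * j) (j : ℤ) ∪ F (2 * j + 1) (-(j : ℤ))).biUnion id))
  refine ⟨fun j => F (2 * j) (j : ℤ), fun j => F (2 * j + 1) (-(j : ℤ)), N, ?_, ?_, ?_, ?_, ?_, ?_, ?_⟩
  · exact hF2 _ _ (by simp)
  · exact hF2 _ _ (by simp)
  · intro j hj T hT
    have h1 : (uPlan d (4 * r) hd).Avail T ∧
        (∃ y l, (Sum.inr (y, l) : PV (Fin d) 1 (4 * r)) ∈ T) := by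
      rcases mem_union.1 hT with h | h
      · exact hav _ _ T h
      · exact hav _ _ T h
    refine ⟨h1.1, h1.2, ?_⟩
    intro y l hl
    refine hN y l ?_
    exact mem_biUnion.2 ⟨j, mem_range.2 hj, mem_biUnion.2 ⟨T, hT, hl⟩⟩
  · intro j j'
    exact hdis _ _ _ _ (by omega)
  · intro j j' hjj
    exact hdis _ _ _ _ (by omega)
  · intro j j' hjj
    exact hdis _ _ _ _ (by omega)
  · intro j
    exact ⟨hF1 _ _, hF1 _ _⟩

private lemma E19_ext_inj {D : Type} {s t n : ℕ} (N : ℕ) [NeZero N] (ι : D → Fin n)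
    (ψ : (Fin s × Fin t) × Fin N → Fin n) (h : Function.Injective (Sum.elim ι ψ))
    (Dom : Finset (PV D s t))
    (hD : ∀ y l, (Sum.inr (y, l) : PV D s t) ∈ Dom → l < N) :
    Set.InjOn (ext N ι ψ) (Dom : Set (PV D s t)) := by
  have key : ∀ x : PV D s t, ext N ι ψ x = Sum.elim ι ψ (match x with
    | Sum.inl d => Sum.inl d
    | Sum.inr (y, l) => Sum.inr (y, Fin.ofNat N l)) := by
    rintro (d | ⟨y, l⟩) <;> rfl
  intro x hx x' hx' hxx
  rw [key, key] at hxx
  have h2 := h hxx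
  rcases x with d | ⟨y, l⟩ <;> rcases x' with d' | ⟨y', l'⟩
  · simp only [Sum.inl.injEq] at h2
    rw [h2]
  · simp at h2
  · simp at h2
  · simp only [Sum.inr.injEq, Prod.mk.injEq] at h2
    obtain ⟨h3, h4⟩ := h2
    have a1 := hD y l hx
    have a2 := hD y' l' hx'
    have h5 := congrArg Fin.val h4
    simp only [Fin.ofNat, Nat.mod_eq_of_lt a1, Nat.mod_eq_of_lt a2] at h5
    rw [h3, h5]

private lemma E19_one {r : ℕ} (d : ℕ) (hd : d ≤ 2) (N : ℕ) [NeZero N]
    (E E' : ℕ → Finset (Finset (PV (Fin d) 1 (4 * r))))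
    (h0 : E 0 = ∅) (h0' : E' 0 = ∅)
    (hav : ∀ j < Mo r d, ∀ T ∈ E j ∪ E' j, (uPlan d (4 * r) hd).Avail T ∧
        (∃ y l, (Sum.inr (y, l) : PV (Fin d) 1 (4 * r)) ∈ T) ∧
        ∀ y l, (Sum.inr (y, l) : PV (Fin d) 1 (4 * r)) ∈ T → l < N)
    (hd1 : ∀ j j', Disjoint (E j) (E' j'))
    (hd2 : ∀ j j', j ≠ j' → Disjoint (E j) (E j'))
    (hd3 : ∀ j j', j ≠ j' → Disjoint (E' j) (E' j'))
    (hres : ∀ j : ℕ, Res r (E j) (univ.image Sum.inl) j ∧ Res r (E' j) (univ.image Sum.inl) (-j))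
    {n M : ℕ} (e : ((Fin 1 × Fin (4 * r)) × Fin N) ≃ Fin M)
    (G : Finset (Finset (Fin n))) (c : Finset (Fin n)) (hc : c.card = d) (ι : Fin d → Fin n)
    (hιc : univ.image ι = c) :
    ∃ (Om : Finset (Fin M → Fin n)) (J J' : (Fin M → Fin n) → ℕ → Finset (Finset (Fin n))),
      (Nat.card {ψ : (Fin 1 × Fin (4 * r)) × Fin N → Fin n //
            Function.Injective (Sum.elim ι ψ) ∧
            ∀ T : Finset (PV (Fin d) 1 (4 * r)), (uPlan d (4 * r) hd).Avail T →
              (∀ y l, Sum.inr (y, l) ∈ T → l < N) →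
              T.image (ext N ι ψ) ∈ G}) ≤ Om.card ∧
          Cand M c (c.powersetCard 2) Om (fun w => (range (Mo r c.card)).biUnion (fun j => J w j ∪ J' w j)) ∧
          ∀ w ∈ Om, J w 0 = ∅ ∧ J' w 0 = ∅ ∧
            (∀ j < Mo r c.card, J w j ⊆ G ∧ J' w j ⊆ G) ∧
            (∀ j < Mo r c.card, ∀ j' < Mo r c.card, Disjoint (J w j) (J' w j')) ∧
            (∀ j < Mo r c.card, ∀ j' < Mo r c.card, j ≠ j' → Disjoint (J w j) (J w j')) ∧
            (∀ j < Mo r c.card, ∀ j' < Mo r c.card, j ≠ j' → Disjoint (J' w j) (J' w j')) ∧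
            (∀ j < Mo r c.card, Res r (J w j) c j ∧ Res r (J' w j) c (-j)) := by
  classical
  rw [hc]
  let Good : ((Fin 1 × Fin (4 * r)) × Fin N → Fin n) → Prop := fun ψ =>
    Function.Injective (Sum.elim ι ψ) ∧
            ∀ T : Finset (PV (Fin d) 1 (4 * r)), (uPlan d (4 * r) hd).Avail T →
              (∀ y l, Sum.inr (y, l) ∈ T → l < N) →
              T.image (ext N ι ψ) ∈ G
  let Dom : Finset (PV (Fin d) 1 (4 * r)) := univ.image Sum.inl ∪
    (range (Mo r d)).biUnion (fun j => (E j ∪ E' j).biUnion id)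
  have hDom : ∀ y l, (Sum.inr (y, l) : PV (Fin d) 1 (4 * r)) ∈ Dom → l < N := by
    intro y l h
    rcases mem_union.1 h with h | h
    · simp at h
    · obtain ⟨j, hj, h1⟩ := mem_biUnion.1 h
      obtain ⟨T, hT, h2⟩ := mem_biUnion.1 h1
      exact (hav j (mem_range.1 hj) T hT).2.2 y l h2
  have hsubD : ∀ j < Mo r d, ∀ T ∈ E j ∪ E' j, T ⊆ Dom := by
    intro j hj T hT x hx
    exact mem_union_right _ (mem_biUnion.2 ⟨j, mem_range.2 hj, mem_biUnion.2 ⟨T, hT, hx⟩⟩)
  have hcD : (univ.image Sum.inl : Finset (PV (Fin d) 1 (4 * r))) ⊆ Dom := subset_union_left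
  let Om : Finset (Fin M → Fin n) := univ.filter (fun w => Good (w ∘ e))
  have hOm : ∀ w ∈ Om, Good (w ∘ e) := fun w hw => (mem_filter.1 hw).2
  have hinj : ∀ w ∈ Om, Set.InjOn (ext N ι (w ∘ e)) (Dom : Set (PV (Fin d) 1 (4 * r))) :=
    fun w hw => E19_ext_inj N ι _ (hOm w hw).1 Dom hDom
  have hci : ∀ w : Fin M → Fin n,
      (univ.image Sum.inl : Finset (PV (Fin d) 1 (4 * r))).image (ext N ι (w ∘ e)) = c := by
    intro w
    rw [Finset.image_image, ← hιc]
    rfl
  refine ⟨Om, fun w j => (E j).image (Finset.image (ext N ι (w ∘ e))),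
    fun w j => (E' j).image (Finset.image (ext N ι (w ∘ e))), ?_, ?_, ?_⟩
  · have h1 : Om.card = Nat.card {w : Fin M → Fin n // Good (w ∘ e)} := by
      rw [Nat.card_eq_fintype_card, Fintype.card_subtype]
    rw [h1]
    refine Nat.card_le_card_of_injective
      (fun ψ => (⟨ψ.1 ∘ e.symm, ?_⟩ : {w : Fin M → Fin n // Good (w ∘ e)})) ?_
    · have h2 : (ψ.1 ∘ e.symm) ∘ e = ψ.1 := by
        funext x
        simp
      rw [h2]
      exact ψ.2
    · intro ψ ψ' h
      have h2 := congrArg Subtype.val h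
      have h3 : ψ.1 ∘ e.symm = ψ'.1 ∘ e.symm := h2
      refine Subtype.ext ?_
      funext x
      have h4 := congrFun h3 (e x)
      simpa using h4
  · intro w hw
    have hG := hOm w hw
    have hwi : Function.Injective w := by
      intro a b hab
      have h1 : Sum.elim ι (w ∘ e) (Sum.inr (e.symm a)) = Sum.elim ι (w ∘ e) (Sum.inr (e.symm b)) := by
        simpa using hab
      have h2 := hG.1 h1
      simpa using h2
    refine ⟨hwi, ?_, ?_⟩
    · intro k hk
      rw [← hιc] at hk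
      obtain ⟨x, _, hx⟩ := mem_image.1 hk
      have h1 : Sum.elim ι (w ∘ e) (Sum.inl x) = Sum.elim ι (w ∘ e) (Sum.inr (e.symm k)) := by
        simpa using hx
      have h2 := hG.1 h1
      simp at h2
    · intro T' hT'
      obtain ⟨j, hj, h1⟩ := mem_biUnion.1 hT'
      have hj' := mem_range.1 hj
      obtain ⟨T, hT, rfl⟩ : ∃ T ∈ E j ∪ E' j, T.image (ext N ι (w ∘ e)) = T' := by
        rcases mem_union.1 h1 with h | h
        · obtain ⟨T, hT, rfl⟩ := mem_image.1 h
          exact ⟨T, mem_union_left _ hT, rfl⟩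
        · obtain ⟨T, hT, rfl⟩ := mem_image.1 h
          exact ⟨T, mem_union_right _ hT, rfl⟩
      obtain ⟨ha, ⟨y, l, hyl⟩, hlt⟩ := hav j hj' T hT
      refine ⟨?_, ?_, ?_, ?_⟩
      · rw [card_image_of_injOn ((hinj w hw).mono (by exact_mod_cast hsubD j hj' T hT))]
        exact ha.1
      · intro x hx
        obtain ⟨x0, hx0, rfl⟩ := mem_image.1 hx
        rcases x0 with x1 | ⟨y1, l1⟩
        · refine mem_union_left _ ?_
          rw [← hιc]
          exact mem_image_of_mem ι (mem_univ x1)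
        · refine mem_union_right _ ?_
          exact mem_image_of_mem w (mem_univ (e (y1, Fin.ofNat N l1)))
      · exact ⟨e (y, Fin.ofNat N l), mem_image_of_mem (ext N ι (w ∘ e)) hyl⟩
      · intro x hx y' hy' hxy hxc hyc
        rw [mem_powersetCard]
        refine ⟨?_, card_pair hxy⟩
        intro u hu
        rcases mem_insert.1 hu with rfl | hu
        · exact hxc
        · rw [mem_singleton.1 hu]
          exact hyc
  · intro w hw
    have hG := hOm w hw
    have hi := hinj w hw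
    have hdd : ∀ (F F' : Finset (Finset (PV (Fin d) 1 (4 * r)))), (∀ T ∈ F, T ⊆ Dom) →
        (∀ T ∈ F', T ⊆ Dom) → Disjoint F F' →
        Disjoint (F.image (Finset.image (ext N ι (w ∘ e))))
          (F'.image (Finset.image (ext N ι (w ∘ e)))) := by
      intro F F' hF hF' hdis
      refine Finset.disjoint_left.2 fun T hT hT' => ?_
      obtain ⟨T1, h1, rfl⟩ := mem_image.1 hT
      obtain ⟨T2, h2, h3⟩ := mem_image.1 hT'
      have h4 := E19_img_inj _ hi (hF' T2 h2) (hF T1 h1) h3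
      rw [h4] at h2
      exact Finset.disjoint_left.1 hdis h1 h2
    have hE : ∀ j < Mo r d, ∀ T ∈ E j, T ⊆ Dom := fun j hj T hT =>
      hsubD j hj T (mem_union_left _ hT)
    have hE' : ∀ j < Mo r d, ∀ T ∈ E' j, T ⊆ Dom := fun j hj T hT =>
      hsubD j hj T (mem_union_right _ hT)
    refine ⟨?_, ?_, ?_, ?_, ?_, ?_, ?_⟩
    · show (E 0).image _ = ∅
      rw [h0, image_empty]
    · show (E' 0).image _ = ∅
      rw [h0', image_empty]
    · intro j hj
      constructor
      · intro T' hT'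
        obtain ⟨T, hT, rfl⟩ := mem_image.1 hT'
        obtain ⟨ha, _, hlt⟩ := hav j hj T (mem_union_left _ hT)
        exact hG.2 T ha hlt
      · intro T' hT'
        obtain ⟨T, hT, rfl⟩ := mem_image.1 hT'
        obtain ⟨ha, _, hlt⟩ := hav j hj T (mem_union_right _ hT)
        exact hG.2 T ha hlt
    · intro j hj j' hj'
      exact hdd _ _ (hE j hj) (hE' j' hj') (hd1 j j')
    · intro j hj j' hj' hne
      exact hdd _ _ (hE j hj) (hE j' hj') (hd2 j j' hne)
    · intro j hj j' hj' hne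
      exact hdd _ _ (hE' j hj) (hE' j' hj') (hd3 j j' hne)
    · intro j hj
      have h1 := E19_res r (ext N ι (w ∘ e)) (hE j hj) hi hcD (hres j).1
      have h2 := E19_res r (ext N ι (w ∘ e)) (hE' j hj) hi hcD (hres j).2
      rw [hci w] at h1 h2
      exact ⟨h1, h2⟩

/-- E19 (text 4.3): units. -/
theorem unit_count {r : ℕ} (hr : r % 6 = 3) (h45 : 45 ≤ r) {c0 : ℝ} (hc0 : 0 < c0) :
    ∃ M : ℕ, ∃ c' : ℝ, 0 < c' ∧ ∃ n0 : ℕ, ∀ n : ℕ, n0 ≤ n → ∀ G : Finset (Finset (Fin n)),
      Host (4 * r) c0 G → ∀ c : Finset (Fin n), c.card ≤ 2 →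
        ∃ (Om : Finset (Fin M → Fin n)) (J J' : (Fin M → Fin n) → ℕ → Finset (Finset (Fin n))),
          c' * (n : ℝ) ^ M ≤ (Om.card : ℝ) ∧
          Cand M c (c.powersetCard 2) Om (fun w => (range (Mo r c.card)).biUnion (fun j => J w j ∪ J' w j)) ∧
          ∀ w ∈ Om, J w 0 = ∅ ∧ J' w 0 = ∅ ∧
            (∀ j < Mo r c.card, J w j ⊆ G ∧ J' w j ⊆ G) ∧
            (∀ j < Mo r c.card, ∀ j' < Mo r c.card, Disjoint (J w j) (J' w j')) ∧
            (∀ j < Mo r c.card, ∀ j' < Mo r c.card, j ≠ j' → Disjoint (J w j) (J w j')) ∧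
            (∀ j < Mo r c.card, ∀ j' < Mo r c.card, j ≠ j' → Disjoint (J' w j) (J' w j')) ∧
            (∀ j < Mo r c.card, Res r (J w j) c j ∧ Res r (J' w j) c (-j)) := by
  classical
  have hfam := fun (d : ℕ) (hd : d ≤ 2) => E19_family hr h45 d hd
  choose E E' Nf g1 g2 g3 g4 g5 g6 g7 using hfam
  obtain ⟨N, hN0, hN⟩ : ∃ N : ℕ, N ≠ 0 ∧ ∀ d (hd : d ≤ 2), Nf d hd ≤ N := by
    refine ⟨Nf 0 (by norm_num) + Nf 1 (by norm_num) + Nf 2 (by norm_num) + 1, by omega, ?_⟩
    intro d hd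
    interval_cases d <;> omega
  haveI : NeZero N := ⟨hN0⟩
  have hpc := fun (d : ℕ) (hd : d ≤ 2) => plan_count (uPlan d (4 * r) hd) N hc0
  choose cc hcc nn hcount using hpc
  let M := 1 * (4 * r) * N
  have e : ((Fin 1 × Fin (4 * r)) × Fin N) ≃ Fin M :=
    Fintype.equivFinOfCardEq (by simp [M])
  have b0 : (0 : ℕ) ≤ 2 := by norm_num
  have b1 : (1 : ℕ) ≤ 2 := by norm_num
  have b2 : (2 : ℕ) ≤ 2 := by norm_num
  refine ⟨M, min (cc 0 b0) (min (cc 1 b1) (cc 2 b2)), ?_, nn 0 b0 + nn 1 b1 + nn 2 b2, ?_⟩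
  · exact lt_min (hcc _ _) (lt_min (hcc _ _) (hcc _ _))
  intro n hn G hG c hc
  have key : ∀ d (hd : d ≤ 2), c.card = d →
      min (cc 0 b0) (min (cc 1 b1) (cc 2 b2)) ≤ cc d hd ∧ nn d hd ≤ n := by
    intro d hd _
    interval_cases d
    · exact ⟨min_le_left _ _, by omega⟩
    · exact ⟨(min_le_right _ _).trans (min_le_left _ _), by omega⟩
    · exact ⟨(min_le_right _ _).trans (min_le_right _ _), by omega⟩
  obtain ⟨k1, k2⟩ := key c.card hc rfl
  let ι : Fin c.card → Fin n := c.orderEmbOfFin rfl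
  have hι : Function.Injective ι := (c.orderEmbOfFin rfl).injective
  have hιc : univ.image ι = c := by
    ext x
    simp only [mem_image, mem_univ, true_and]
    have := Finset.range_orderEmbOfFin c rfl
    constructor
    · rintro ⟨a, rfl⟩
      exact Finset.orderEmbOfFin_mem c rfl a
    · intro hx
      have h1 : x ∈ Set.range (c.orderEmbOfFin rfl) := by
        rw [this]
        exact_mod_cast hx
      exact h1
  obtain ⟨Om, J, J', w1, w2, w3⟩ := E19_one c.card hc N (E c.card hc) (E' c.card hc)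
    (g1 _ _) (g2 _ _)
    (fun j hj T hT => ⟨(g3 c.card hc j hj T hT).1, (g3 c.card hc j hj T hT).2.1,
      fun y l hl => lt_of_lt_of_le ((g3 c.card hc j hj T hT).2.2 y l hl) (hN _ _)⟩)
    (g4 _ _) (g5 _ _) (g6 _ _) (g7 _ _) e G c rfl ι hιc
  refine ⟨Om, J, J', ?_, w2, w3⟩
  have hcnt := hcount c.card hc n k2 G hG ι hι
  have w1' : ((Nat.card {ψ : (Fin 1 × Fin (4 * r)) × Fin N → Fin n //
            Function.Injective (Sum.elim ι ψ) ∧
            ∀ T : Finset (PV (Fin c.card) 1 (4 * r)), (uPlan c.card (4 * r) hc).Avail T →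
              (∀ y l, Sum.inr (y, l) ∈ T → l < N) →
              T.image (ext N ι ψ) ∈ G} : ℕ) : ℝ) ≤ (Om.card : ℝ) := by exact_mod_cast w1
  refine le_trans ?_ (le_trans hcnt w1')
  exact mul_le_mul_of_nonneg_right k1 (by positivity)

end Pool.Agent.Lib.MP_5c685b_co.E
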