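import Pool.Agent.Lib.MP_5c685b_co.E.Composite
import Pool.Agent.Lib.MP_5c685b_co.E.PlanCount

set_option autoImplicit false

namespace Pool.Agent.Lib.MP_5c685b_co.E

open Finset

/-! ### padding -/

private lemma pad_one (s M : ℕ) {c : ℝ} (hc : 0 < c) :
    ∃ c' : ℝ, 0 < c' ∧ ∃ n0 : ℕ, ∀ n : ℕ, n0 ≤ n → ∀ (S : Finset (Fin n)) (Pi : Finset (Finset (Fin n)))
      (Om : Finset (Fin M → Fin n)) (E : (Fin M → Fin n) → Finset (Finset (Fin n))), S.card ≤ s →
      Cand M S Pi Om E → c * (n : ℝ) ^ M ≤ (Om.card : ℝ) →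
      ∃ (Om' : Finset (Fin (M + 1) → Fin n)) (E' : (Fin (M + 1) → Fin n) → Finset (Finset (Fin n))),
        c' * (n : ℝ) ^ (M + 1) ≤ (Om'.card : ℝ) ∧ Cand (M + 1) S Pi Om' E' ∧
        ∀ w' ∈ Om', ∃ w ∈ Om, E' w' = E w := by
  classical
  refine ⟨c / 2, by positivity, 2 * (s + M), fun n hn S Pi Om E hS hC hcard => ?_⟩
  let f : (Σ _ : Fin M → Fin n, Fin n) → (Fin (M + 1) → Fin n) :=
    fun p => Fin.snoc (α := fun _ => Fin n) p.1 p.2
  have hinit : ∀ w x, Fin.init (α := fun _ => Fin n) (f ⟨w, x⟩) = w := fun w x => Fin.init_snoc _ _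
  have hlast : ∀ w x, f ⟨w, x⟩ (Fin.last M) = x := fun w x => Fin.snoc_last _ _
  have hcs : ∀ w x (k : Fin M), f ⟨w, x⟩ k.castSucc = w k := fun w x k => Fin.snoc_castSucc _ _ _
  have hf : Function.Injective f := by
    rintro ⟨w, x⟩ ⟨w', x'⟩ h
    have h1 : w = w' := by rw [← hinit w x, h, hinit]
    have h2 : x = x' := by rw [← hlast w x, h, hlast]
    rw [h1, h2]
  refine ⟨(Om.sigma fun w => univ \ (S ∪ rg w)).image f, fun w' => E (Fin.init w'), ?_, ?_, ?_⟩
  · rw [Finset.card_image_of_injective _ hf, Finset.card_sigma]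
    push_cast
    have h1 : ∀ w ∈ Om, (n : ℝ) / 2 ≤ ((univ \ (S ∪ rg w)).card : ℝ) := by
      intro w _
      have h2 : (S ∪ rg w).card ≤ s + M := by
        refine (Finset.card_union_le _ _).trans (add_le_add hS ?_)
        refine Finset.card_image_le.trans ?_
        simp
      have h3 : (univ \ (S ∪ rg w)).card + (S ∪ rg w).card = n := by
        rw [Finset.card_sdiff_add_card_eq_card (Finset.subset_univ _)]; simp
      have h4 : ((univ \ (S ∪ rg w)).card : ℝ) + ((S ∪ rg w).card : ℝ) = n := by exact_mod_cast h3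
      have h5 : ((S ∪ rg w).card : ℝ) ≤ s + M := by exact_mod_cast h2
      have h6 : (2 : ℝ) * (s + M) ≤ n := by exact_mod_cast hn
      linarith
    calc c / 2 * (n : ℝ) ^ (M + 1) = (c * (n : ℝ) ^ M) * ((n : ℝ) / 2) := by ring
      _ ≤ (Om.card : ℝ) * ((n : ℝ) / 2) := by gcongr
      _ = ∑ w ∈ Om, (n : ℝ) / 2 := by rw [Finset.sum_const, nsmul_eq_mul]
      _ ≤ _ := Finset.sum_le_sum h1
  · intro w' hw'
    obtain ⟨⟨w, x⟩, hp, rfl⟩ := Finset.mem_image.1 hw'
    obtain ⟨hw, hx⟩ := Finset.mem_sigma.1 hp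
    simp only [Finset.mem_sdiff, Finset.mem_univ, true_and, Finset.mem_union, not_or] at hx
    obtain ⟨h1, h2, h3⟩ := hC w hw
    have hxr : ∀ k, w k ≠ x := by
      intro k hk
      exact hx.2 (Finset.mem_image.2 ⟨k, Finset.mem_univ _, hk⟩)
    refine ⟨?_, ?_, ?_⟩
    · intro k k' hkk
      induction k using Fin.lastCases with
      | last =>
        induction k' using Fin.lastCases with
        | last => rfl
        | cast k' => rw [hlast, hcs] at hkk; exact absurd hkk.symm (hxr k')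
      | cast k =>
        induction k' using Fin.lastCases with
        | last => rw [hlast, hcs] at hkk; exact absurd hkk (hxr k)
        | cast k' => rw [hcs, hcs] at hkk; rw [h1 hkk]
    · intro k
      induction k using Fin.lastCases with
      | last => rw [hlast]; exact hx.1
      | cast k => rw [hcs]; exact h2 k
    · intro T hT
      simp only [hinit] at hT
      obtain ⟨t1, t2, ⟨k, hk⟩, t4⟩ := h3 T hT
      refine ⟨t1, ?_, ⟨k.castSucc, by rw [hcs]; exact hk⟩, t4⟩
      refine t2.trans (Finset.union_subset_union (Finset.Subset.refl _) ?_)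
      intro y hy
      obtain ⟨k, _, rfl⟩ := Finset.mem_image.1 hy
      exact Finset.mem_image.2 ⟨k.castSucc, Finset.mem_univ _, hcs w x k⟩
  · intro w' hw'
    obtain ⟨⟨w, x⟩, hp, rfl⟩ := Finset.mem_image.1 hw'
    refine ⟨w, (Finset.mem_sigma.1 hp).1, ?_⟩
    simp only [hinit]

/-- the statement for one isomorphism type `H0` with exactly `M` points -/
private def GoodT (r : ℕ) (c0 : ℝ) (m : ℕ) (H0 : Finset (Finset (Fin m))) (M : ℕ) : Prop :=
  ∃ c : ℝ, 0 < c ∧ ∃ n0 : ℕ, ∀ n : ℕ, n0 ≤ n → ∀ G : Finset (Finset (Fin n)), Host (4 * r) c0 G →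
    ∀ ι : Fin m → Fin n, Function.Injective ι → ∀ H : Finset (Finset (Fin n)),
      H = H0.image (Finset.image ι) → supp H = univ.image ι →
        ∃ (Om : Finset (Fin M → Fin n)) (A : (Fin M → Fin n) → Finset (Finset (Fin n))),
          c * (n : ℝ) ^ M ≤ (Om.card : ℝ) ∧ Cand M (supp H) (pairsOf H) Om A ∧
          ∀ w ∈ Om, A w ⊆ G ∧ Dec r (A w) ∧ Dec r (A w ∪ H)

private lemma GoodT.succ {r : ℕ} {c0 : ℝ} {m : ℕ} {H0 : Finset (Finset (Fin m))} {M : ℕ}
    (h : GoodT r c0 m H0 M) : GoodT r c0 m H0 (M + 1) := by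
  obtain ⟨c, hc, n0, h⟩ := h
  obtain ⟨c', hc', n1, hp⟩ := pad_one m M hc
  refine ⟨c', hc', max n0 n1, fun n hn G hG ι hι H hH hs => ?_⟩
  obtain ⟨Om, A, h1, h2, h3⟩ := h n ((le_max_left _ _).trans hn) G hG ι hι H hH hs
  have hcard : (supp H).card ≤ m := by
    rw [hs]; exact Finset.card_image_le.trans (by simp)
  obtain ⟨Om', A', g1, g2, g3⟩ := hp n ((le_max_right _ _).trans hn) _ _ Om A hcard h2 h1
  refine ⟨Om', A', g1, g2, fun w' hw' => ?_⟩
  obtain ⟨w, hw, he⟩ := g3 w' hw'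
  rw [he]
  exact h3 w hw

private lemma GoodT.mono {r : ℕ} {c0 : ℝ} {m : ℕ} {H0 : Finset (Finset (Fin m))} {M M' : ℕ}
    (h : GoodT r c0 m H0 M) (hM : M ≤ M') : GoodT r c0 m H0 M' := by
  induction M', hM using Nat.le_induction with
  | base => exact h
  | succ M' _ ih => exact ih.succ

/-- points with lift number below `N` -/
private def Low {D : Type} {s t : ℕ} (N : ℕ) (p : PV D s t) : Prop := ∀ y l, p = Sum.inr (y, l) → l < N

private lemma ext_injOn {D : Type} {s t n : ℕ} (N : ℕ) [NeZero N] (ι : D → Fin n)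
    (ψ : (Fin s × Fin t) × Fin N → Fin n) (hinj : Function.Injective (Sum.elim ι ψ)) :
    Set.InjOn (ext N ι ψ : PV D s t → Fin n) {p | Low N p} := by
  rintro (d | ⟨y, l⟩) hp (d' | ⟨y', l'⟩) hq h
  · have : (Sum.inl d : D ⊕ _) = Sum.inl d' := hinj h
    rw [Sum.inl.inj this]
  · have : (Sum.inl d : D ⊕ ((Fin s × Fin t) × Fin N)) = Sum.inr (y', Fin.ofNat N l') := hinj h
    exact absurd this (by simp)
  · have : (Sum.inr (y, Fin.ofNat N l) : D ⊕ ((Fin s × Fin t) × Fin N)) = Sum.inl d' := hinj h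
    exact absurd this (by simp)
  · have h1 : (Sum.inr (y, Fin.ofNat N l) : D ⊕ ((Fin s × Fin t) × Fin N)) =
        Sum.inr (y', Fin.ofNat N l') := hinj h
    have h2 := Prod.ext_iff.1 (Sum.inr.inj h1)
    have hl : l < N := hp y l rfl
    have hl' : l' < N := hq y' l' rfl
    have h3 : l = l' := by
      have := congrArg Fin.val h2.2
      simp only [Fin.ofNat, Nat.mod_eq_of_lt hl, Nat.mod_eq_of_lt hl'] at this
      exact this
    have h4 : y = y' := h2.1
    rw [h3, h4]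

private lemma exists_N {D : Type} {s t : ℕ} [DecidableEq D] (A : Finset (Finset (PV D s t))) :
    ∃ N : ℕ, 1 ≤ N ∧ ∀ T ∈ A, ∀ p ∈ T, Low N p := by
  classical
  let lift : PV D s t → ℕ := fun p => Sum.elim (fun _ => 0) (fun q => q.2) p
  refine ⟨(supp A).sup lift + 1, by omega, ?_⟩
  intro T hT p hp y l hpe
  have hps : p ∈ supp A := Finset.mem_biUnion.2 ⟨T, hT, hp⟩
  have h1 : lift p ≤ (supp A).sup lift := Finset.le_sup hps
  have h2 : lift p = l := by rw [hpe]; rfl
  omega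

private lemma good_exists {r : ℕ} (hr : r % 6 = 3) (h45 : 45 ≤ r) {c0 : ℝ} (hc0 : 0 < c0) (m : ℕ)
    (H0 : Finset (Finset (Fin m))) (hT : Triples H0) (hB : Balanced r H0) :
    ∃ M : ℕ, GoodT r c0 m H0 M := by
  classical
  obtain ⟨P, A0, hroot, hav, hD1, hD2⟩ := composite hr h45 H0 hT hB
  obtain ⟨N, hN, hlow⟩ := exists_N A0
  have : NeZero N := ⟨by omega⟩
  obtain ⟨c, hc, n0, hcount⟩ := plan_count P N hc0
  let e : (Fin P.s × Fin (4 * r)) × Fin N ≃ Fin (P.s * (4 * r) * N) :=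
    (finProdFinEquiv.prodCongr (Equiv.refl _)).trans finProdFinEquiv
  refine ⟨P.s * (4 * r) * N, c, hc, n0, fun n hn G hG ι hι H hH hs => ?_⟩
  let Q : ((Fin P.s × Fin (4 * r)) × Fin N → Fin n) → Prop := fun ψ =>
    Function.Injective (Sum.elim ι ψ) ∧
      ∀ T : Finset (PV (Fin m) P.s (4 * r)), P.Avail T → (∀ y l, Sum.inr (y, l) ∈ T → l < N) →
        T.image (ext N ι ψ) ∈ G
  have hcnt : c * (n : ℝ) ^ (P.s * (4 * r) * N) ≤ (Nat.card {ψ // Q ψ} : ℝ) := hcount n hn G hG ι hι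
  let Om : Finset (Fin (P.s * (4 * r) * N) → Fin n) := univ.filter fun w => Q (w ∘ e)
  have hOm : Nat.card {ψ // Q ψ} = Om.card := by
    rw [Nat.card_congr (β := {w // w ∈ Om}), Nat.card_eq_fintype_card, Fintype.card_coe]
    refine ⟨fun ψ => ⟨ψ.1 ∘ e.symm, ?_⟩, fun w => ⟨w.1 ∘ e, ?_⟩, ?_, ?_⟩
    · rw [Finset.mem_filter]
      refine ⟨Finset.mem_univ _, ?_⟩
      have : (ψ.1 ∘ e.symm) ∘ e = ψ.1 := by
        funext x; simp
      rw [this]; exact ψ.2
    · exact (Finset.mem_filter.1 w.2).2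
    · intro ψ
      apply Subtype.ext
      funext x; simp
    · intro w
      apply Subtype.ext
      funext x; simp
  have hInjOn : ∀ ψ, Q ψ → ∀ E : Finset (Finset (PV (Fin m) P.s (4 * r))), (∀ T ∈ E, ∀ p ∈ T, Low N p) →
      Set.InjOn (ext N ι ψ) (supp E : Set (PV (Fin m) P.s (4 * r))) := by
    intro ψ hψ E hE
    refine (ext_injOn N ι ψ hψ.1).mono ?_
    intro p hp
    obtain ⟨T, hT, hpT⟩ := Finset.mem_biUnion.1 (Finset.mem_coe.1 hp)
    exact hE T hT p hpT
  have hlow2 : ∀ T ∈ A0 ∪ H0.image (Finset.image Sum.inl), ∀ p ∈ T, Low N p := by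
    intro T hT p hp
    rcases Finset.mem_union.1 hT with hT | hT
    · exact hlow T hT p hp
    · obtain ⟨f, _, rfl⟩ := Finset.mem_image.1 hT
      obtain ⟨d, _, rfl⟩ := Finset.mem_image.1 hp
      intro y l hh
      exact absurd hh (by simp)
  have hr3 : 3 ≤ r := by omega
  have hsupp : ∀ x, x ∈ supp H ↔ ∃ d, ι d = x := by
    intro x; rw [hs]; simp
  refine ⟨Om, fun w => A0.image (Finset.image (ext N ι (w ∘ e))), ?_, ?_, ?_⟩
  · rw [← hOm]; exact hcnt
  · intro w hw
    have hQ : Q (w ∘ e) := (Finset.mem_filter.1 hw).2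
    have hψi : ∀ z d, (w ∘ e) z ≠ ι d := by
      intro z d hzd
      have : (Sum.inr z : Fin m ⊕ _) = Sum.inl d := hQ.1 (by simpa using hzd)
      exact absurd this (by simp)
    refine ⟨?_, ?_, ?_⟩
    · intro k k' hkk
      have h1 : (Sum.inr (e.symm k) : Fin m ⊕ _) = Sum.inr (e.symm k') := hQ.1 (by simpa using hkk)
      exact e.symm.injective (Sum.inr.inj h1)
    · intro k hk
      obtain ⟨d, hd⟩ := (hsupp _).1 hk
      exact hψi (e.symm k) d (by simpa using hd.symm)
    · intro T hT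
      obtain ⟨T0, hT0, rfl⟩ := Finset.mem_image.1 hT
      obtain ⟨hc3, hinjT, i, hW, hR⟩ := hav T0 hT0
      have hTinj : Set.InjOn (ext N ι (w ∘ e)) (T0 : Set (PV (Fin m) P.s (4 * r))) :=
        (ext_injOn N ι _ hQ.1).mono fun p hp => hlow T0 hT0 p hp
      refine ⟨?_, ?_, ?_, ?_⟩
      · rw [Finset.card_image_of_injOn hTinj, hc3]
      · intro x hx
        obtain ⟨p, hp, rfl⟩ := Finset.mem_image.1 hx
        rcases p with d | ⟨y, l⟩
        · exact Finset.mem_union_left _ ((hsupp _).2 ⟨d, rfl⟩)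
        · exact Finset.mem_union_right _ (Finset.mem_image.2 ⟨e (y, Fin.ofNat N l), Finset.mem_univ _, rfl⟩)
      · obtain ⟨q, hq, hqR⟩ := Finset.not_subset.1 hR
        obtain ⟨p, hp, rfl⟩ := Finset.mem_image.1 hq
        have h1 := hW hq
        rcases Finset.mem_union.1 h1 with h1 | h1
        · exact absurd h1 hqR
        · obtain ⟨a, _, ha⟩ := Finset.mem_image.1 h1
          rcases p with d | ⟨y, l⟩
          · exact absurd ha (by simp [pr])
          · exact ⟨e (y, Fin.ofNat N l), Finset.mem_image.2 ⟨_, hp, rfl⟩⟩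
      · intro x hx y hy hxy hxs hys
        obtain ⟨p, hp, rfl⟩ := Finset.mem_image.1 hx
        obtain ⟨q, hq, rfl⟩ := Finset.mem_image.1 hy
        have hold : ∀ p ∈ T0, ext N ι (w ∘ e) p ∈ supp H → ∃ d, p = Sum.inl d ∧ Sum.inl d ∈ P.R i := by
          intro p hp hps
          rcases p with d | ⟨y, l⟩
          · refine ⟨d, rfl, ?_⟩
            have h1 : pr (Sum.inl d : PV (Fin m) P.s (4 * r)) ∈ P.W i :=
              hW (Finset.mem_image.2 ⟨_, hp, rfl⟩)
            rcases Finset.mem_union.1 h1 with h1 | h1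
            · exact h1
            · obtain ⟨a, _, ha⟩ := Finset.mem_image.1 h1
              exact absurd ha (by simp [pr])
          · obtain ⟨d, hd⟩ := (hsupp _).1 hps
            exact absurd hd.symm (hψi (y, Fin.ofNat N l) d)
        obtain ⟨d, rfl, hd⟩ := hold p hp hxs
        obtain ⟨d', rfl, hd'⟩ := hold q hq hys
        obtain ⟨f, hf, hfd⟩ := hroot i
        have hHf : f.image ι ∈ H := by rw [hH]; exact Finset.mem_image.2 ⟨f, hf, rfl⟩
        refine Finset.mem_biUnion.2 ⟨f.image ι, hHf, Finset.mem_powersetCard.2 ⟨?_, ?_⟩⟩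
        · intro z hz
          simp only [Finset.mem_insert, Finset.mem_singleton] at hz
          rcases hz with rfl | rfl
          · exact Finset.mem_image.2 ⟨d, hfd d hd, rfl⟩
          · exact Finset.mem_image.2 ⟨d', hfd d' hd', rfl⟩
        · exact Finset.card_pair hxy
  · intro w hw
    have hQ : Q (w ∘ e) := (Finset.mem_filter.1 hw).2
    refine ⟨?_, ?_, ?_⟩
    · intro T hT
      obtain ⟨T0, hT0, rfl⟩ := Finset.mem_image.1 hT
      exact hQ.2 T0 (hav T0 hT0) fun y l hyl => hlow T0 hT0 _ hyl y l rfl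
    · exact Dec.image _ hD1 (hInjOn _ hQ _ hlow) hr3
    · have h1 := Dec.image _ hD2 (hInjOn _ hQ _ hlow2) hr3
      have h2 : (A0 ∪ H0.image (Finset.image Sum.inl)).image (Finset.image (ext N ι (w ∘ e))) =
          A0.image (Finset.image (ext N ι (w ∘ e))) ∪ H := by
        rw [Finset.image_union, Finset.image_image, hH]
        congr 1
        apply Finset.image_congr
        intro f _
        simp only [Function.comp, Finset.image_image]
        rfl
      rw [h2] at h1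
      exact h1

private lemma dg_image_inj {m n : ℕ} (ι : Fin m → Fin n) (hι : Function.Injective ι)
    (H0 : Finset (Finset (Fin m))) (c : Finset (Fin m)) :
    dg (H0.image (Finset.image ι)) (c.image ι) = dg H0 c := by
  unfold dg
  rw [Finset.filter_image, Finset.card_image_of_injective _ (Finset.image_injective hι)]
  congr 1
  apply Finset.filter_congr
  intro f _
  exact Finset.image_subset_image_iff hι

/-- E18 (text 4.2): absorbers. -/
theorem absorber_count {r : ℕ} (hr : r % 6 = 3) (h45 : 45 ≤ r) {c0 : ℝ} (hc0 : 0 < c0) (s : ℕ) :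
    ∃ M : ℕ, ∃ c : ℝ, 0 < c ∧ ∃ n0 : ℕ, ∀ n : ℕ, n0 ≤ n → ∀ G : Finset (Finset (Fin n)),
      Host (4 * r) c0 G → ∀ H : Finset (Finset (Fin n)), Triples H → Balanced r H → (supp H).card ≤ s →
        ∃ (Om : Finset (Fin M → Fin n)) (A : (Fin M → Fin n) → Finset (Finset (Fin n))),
          c * (n : ℝ) ^ M ≤ (Om.card : ℝ) ∧ Cand M (supp H) (pairsOf H) Om A ∧
          ∀ w ∈ Om, A w ⊆ G ∧ Dec r (A w) ∧ Dec r (A w ∪ H) := by
  classical
  -- one `M` for every type
  have h1 : ∀ τ : (Σ m : Fin (s + 1), Finset (Finset (Fin m.1))), ∃ M : ℕ,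
      Triples τ.2 → Balanced r τ.2 → GoodT r c0 τ.1.1 τ.2 M := by
    intro τ
    by_cases h : Triples τ.2 ∧ Balanced r τ.2
    · obtain ⟨M, hM⟩ := good_exists hr h45 hc0 τ.1.1 τ.2 h.1 h.2
      exact ⟨M, fun _ _ => hM⟩
    · exact ⟨0, fun a b => absurd ⟨a, b⟩ h⟩
  choose M hM using h1
  let M' : ℕ := univ.sup M
  have h2 : ∀ τ : (Σ m : Fin (s + 1), Finset (Finset (Fin m.1))), ∃ c : ℝ, 0 < c ∧ ∃ n0 : ℕ,
      Triples τ.2 → Balanced r τ.2 → ∀ n : ℕ, n0 ≤ n → ∀ G : Finset (Finset (Fin n)), Host (4 * r) c0 G →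
      ∀ ι : Fin τ.1.1 → Fin n, Function.Injective ι → ∀ H : Finset (Finset (Fin n)),
      H = τ.2.image (Finset.image ι) → supp H = univ.image ι →
        ∃ (Om : Finset (Fin M' → Fin n)) (A : (Fin M' → Fin n) → Finset (Finset (Fin n))),
          c * (n : ℝ) ^ M' ≤ (Om.card : ℝ) ∧ Cand M' (supp H) (pairsOf H) Om A ∧
          ∀ w ∈ Om, A w ⊆ G ∧ Dec r (A w) ∧ Dec r (A w ∪ H) := by
    intro τ
    by_cases h : Triples τ.2 ∧ Balanced r τ.2
    · obtain ⟨c, hc, n0, hh⟩ := (hM τ h.1 h.2).mono (Finset.le_sup (Finset.mem_univ τ) : M τ ≤ M')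
      exact ⟨c, hc, n0, fun _ _ => hh⟩
    · exact ⟨1, one_pos, 0, fun a b => absurd ⟨a, b⟩ h⟩
  choose c hc n0 hn0 using h2
  have hne : (univ : Finset (Σ m : Fin (s + 1), Finset (Finset (Fin m.1)))).Nonempty :=
    ⟨⟨0, ∅⟩, Finset.mem_univ _⟩
  refine ⟨M', univ.inf' hne c, (Finset.lt_inf'_iff _).2 fun τ _ => hc τ, univ.sup n0,
    fun n hn G hG H hHT hHB hHs => ?_⟩
  let ι : Fin (supp H).card → Fin n := (supp H).orderEmbOfFin rfl
  have hι : Function.Injective ι := ((supp H).orderEmbOfFin rfl).injective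
  have hrange : univ.image ι = supp H := by
    ext x
    have := Finset.range_orderEmbOfFin (supp H) rfl
    simp only [Finset.mem_image, Finset.mem_univ, true_and]
    rw [← Finset.mem_coe, ← this]
    rfl
  let H0 : Finset (Finset (Fin (supp H).card)) := univ.filter fun f => f.image ι ∈ H
  have hH : H = H0.image (Finset.image ι) := by
    ext f
    constructor
    · intro hf
      have hfs : f ⊆ univ.image ι := by
        rw [hrange]
        intro x hx
        exact Finset.mem_biUnion.2 ⟨f, hf, hx⟩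
      obtain ⟨f0, _, hf0⟩ := Finset.subset_image_iff.1 hfs
      exact Finset.mem_image.2 ⟨f0, Finset.mem_filter.2 ⟨Finset.mem_univ _, by rw [hf0]; exact hf⟩, hf0⟩
    · intro hf
      obtain ⟨f0, hf0, rfl⟩ := Finset.mem_image.1 hf
      exact (Finset.mem_filter.1 hf0).2
  have hT0 : Triples H0 := by
    intro f0 hf0
    have := hHT _ (Finset.mem_filter.1 hf0).2
    rwa [Finset.card_image_of_injective _ hι] at this
  have hB0 : Balanced r H0 := by
    intro c hcc
    have h1 := hHB (c.image ι) (by rwa [Finset.card_image_of_injective _ hι])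
    have h2 : dg H (c.image ι) = dg H0 c := (congrArg (fun E => dg E (c.image ι)) hH).trans (dg_image_inj ι hι H0 c)
    rwa [Finset.card_image_of_injective _ hι, h2] at h1
  let τ : (Σ m : Fin (s + 1), Finset (Finset (Fin m.1))) := ⟨⟨(supp H).card, by omega⟩, H0⟩
  obtain ⟨Om, A, g1, g2, g3⟩ := hn0 τ hT0 hB0 n ((Finset.le_sup (Finset.mem_univ τ)).trans hn) G hG ι hι H hH
    hrange.symm
  refine ⟨Om, A, le_trans ?_ g1, g2, g3⟩
  gcongr
  exact Finset.inf'_le _ (Finset.mem_univ τ)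

end Pool.Agent.Lib.MP_5c685b_co.E
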