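import Mathlib

/-! MP_5c685b_co, exact decomposition for k = 3: basic notions (text: 5c685b_E_helper15.md, section 0). -/

set_option autoImplicit false
set_option linter.all false

namespace Pool.Agent.Lib.MP_5c685b_co.E

open Finset

section base

variable {U : Type*} [DecidableEq U]

/-- the triples inside `Q` -/
def tri (Q : Finset U) : Finset (Finset U) := Q.powersetCard 3

/-- number of members of `E` containing `c` -/
def dg (E : Finset (Finset U)) (c : Finset U) : ℕ := (E.filter (fun T => c ⊆ T)).card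

/-- the moduli `M₀ = r/3`, `M₁ = (r-1)/2`, `M₂ = r-2` -/
def Mo (r i : ℕ) : ℕ := if i = 0 then r / 3 else if i = 1 then (r - 1) / 2 else r - 2

/-- `E` is balanced: all chain degrees are divisible by the moduli -/
def Balanced (r : ℕ) (E : Finset (Finset U)) : Prop :=
  ∀ c : Finset U, c.card ≤ 2 → Mo r c.card ∣ dg E c

/-- `E` is the edge-disjoint union of the triple systems of some `r`-sets -/
def Dec (r : ℕ) (E : Finset (Finset U)) : Prop :=
  ∃ F : Finset (Finset U), (∀ Q ∈ F, Q.card = r) ∧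
    (∀ Q ∈ F, ∀ Q' ∈ F, Q ≠ Q' → (Q ∩ Q').card ≤ 2) ∧ F.biUnion tri = E

lemma mem_tri {Q T : Finset U} : T ∈ tri Q ↔ T ⊆ Q ∧ T.card = 3 := Finset.mem_powersetCard

lemma dg_union {E E' : Finset (Finset U)} (h : Disjoint E E') (c : Finset U) :
    dg (E ∪ E') c = dg E c + dg E' c := by
  unfold dg
  rw [Finset.filter_union, Finset.card_union_of_disjoint (Finset.disjoint_filter_filter h)]

lemma dg_mono {E E' : Finset (Finset U)} (h : E ⊆ E') (c : Finset U) : dg E c ≤ dg E' c :=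
  Finset.card_le_card (Finset.filter_subset_filter _ h)

lemma dg_sdiff {E E' : Finset (Finset U)} (h : E' ⊆ E) (c : Finset U) :
    dg (E \ E') c + dg E' c = dg E c := by
  rw [← dg_union Finset.sdiff_disjoint, Finset.sdiff_union_of_subset h]

lemma Balanced.union {r : ℕ} {E E' : Finset (Finset U)} (h : Disjoint E E')
    (hE : Balanced r E) (hE' : Balanced r E') : Balanced r (E ∪ E') := by
  intro c hc
  rw [dg_union h]
  exact dvd_add (hE c hc) (hE' c hc)

lemma Balanced.sdiff {r : ℕ} {E E' : Finset (Finset U)} (h : E' ⊆ E)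
    (hE : Balanced r E) (hE' : Balanced r E') : Balanced r (E \ E') := by
  intro c hc
  have h1 := dg_sdiff h c
  have h2 := hE c hc
  rw [← h1] at h2
  exact (Nat.dvd_add_left (hE' c hc)).1 h2

lemma Balanced.empty (r : ℕ) : Balanced r (∅ : Finset (Finset U)) := by
  intro c _
  simp [dg]

lemma Dec.empty (r : ℕ) : Dec r (∅ : Finset (Finset U)) :=
  ⟨∅, by simp, by simp, by simp⟩

/-- the disjoint union of decomposable graphs is decomposable -/
lemma Dec.union {r : ℕ} {E E' : Finset (Finset U)} (h : Disjoint E E')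
    (hE : Dec r E) (hE' : Dec r E') : Dec r (E ∪ E') := by
  obtain ⟨F, h1, h2, h3⟩ := hE
  obtain ⟨F', h1', h2', h3'⟩ := hE'
  have cross : ∀ Q ∈ F, ∀ Q' ∈ F', (Q ∩ Q').card ≤ 2 := by
    intro Q hQ Q' hQ'
    by_contra hcon
    push Not at hcon
    obtain ⟨T, hT, hT3⟩ := Finset.exists_subset_card_eq (show 3 ≤ (Q ∩ Q').card by omega)
    have a1 : T ∈ E := by
      rw [← h3]
      exact Finset.mem_biUnion.2 ⟨Q, hQ, mem_tri.2 ⟨hT.trans Finset.inter_subset_left, hT3⟩⟩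
    have a2 : T ∈ E' := by
      rw [← h3']
      exact Finset.mem_biUnion.2 ⟨Q', hQ', mem_tri.2 ⟨hT.trans Finset.inter_subset_right, hT3⟩⟩
    exact (Finset.disjoint_left.1 h a1) a2
  refine ⟨F ∪ F', ?_, ?_, ?_⟩
  · intro Q hQ
    rcases Finset.mem_union.1 hQ with hQ | hQ
    · exact h1 Q hQ
    · exact h1' Q hQ
  · intro Q hQ Q' hQ' hne
    rcases Finset.mem_union.1 hQ with hQ | hQ <;> rcases Finset.mem_union.1 hQ' with hQ' | hQ'
    · exact h2 Q hQ Q' hQ' hne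
    · exact cross Q hQ Q' hQ'
    · rw [Finset.inter_comm]; exact cross Q' hQ' Q hQ
    · exact h2' Q hQ Q' hQ' hne
  · rw [Finset.union_biUnion, h3, h3']

/-- degrees of a clique -/
lemma dg_tri (Q c : Finset U) (hc : c.card ≤ 2) :
    dg (tri Q) c = if c ⊆ Q then (Q.card - c.card).choose (3 - c.card) else 0 := by
  unfold dg tri
  split_ifs with h
  · have : (Q.powersetCard 3).filter (fun T => c ⊆ T) =
        ((Q \ c).powersetCard (3 - c.card)).image (fun T => c ∪ T) := by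
      ext T
      simp only [mem_filter, mem_powersetCard, mem_image]
      constructor
      · rintro ⟨⟨h1, h2⟩, h3⟩
        refine ⟨T \ c, ⟨Finset.sdiff_subset_sdiff h1 (le_refl c), ?_⟩, ?_⟩
        · rw [Finset.card_sdiff_of_subset h3, h2]
        · rw [Finset.union_sdiff_of_subset h3]
      · rintro ⟨T', ⟨h1, h2⟩, rfl⟩
        have hdis : Disjoint c T' := by
          refine Finset.disjoint_left.2 fun x hx hx' => ?_
          exact (Finset.mem_sdiff.1 (h1 hx')).2 hx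
        refine ⟨⟨Finset.union_subset h (h1.trans Finset.sdiff_subset), ?_⟩,
          Finset.subset_union_left⟩
        rw [Finset.card_union_of_disjoint hdis, h2]
        omega
    rw [this, Finset.card_image_of_injOn, Finset.card_powersetCard,
      Finset.card_sdiff_of_subset h]
    intro T hT T' hT' heq
    have hd : ∀ T ∈ ((Q \ c).powersetCard (3 - c.card) : Finset (Finset U)),
        (c ∪ T) \ c = T := by
      intro T hT
      have h1 := (Finset.mem_powersetCard.1 hT).1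
      have hdis : Disjoint T c := by
        refine Finset.disjoint_left.2 fun x hx hx' => ?_
        exact (Finset.mem_sdiff.1 (h1 hx)).2 hx'
      rw [Finset.union_sdiff_left, Finset.sdiff_eq_self_of_disjoint hdis]
    have heq' : c ∪ T = c ∪ T' := heq
    rw [← hd T hT, ← hd T' hT', heq']
  · rw [Finset.card_eq_zero, Finset.filter_eq_empty_iff]
    intro T hT hcT
    exact h (hcT.trans (Finset.mem_powersetCard.1 hT).1)

lemma Mo_dvd_choose {r : ℕ} (hr : r % 6 = 3) {i : ℕ} (hi : i ≤ 2) :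
    Mo r i ∣ (r - i).choose (3 - i) := by
  obtain ⟨s, rfl⟩ : ∃ s, r = 6 * s + 3 := ⟨r / 6, by omega⟩
  interval_cases i
  · -- r choose 3 = (2s+1)(3s+1)(6s+1)
    have h0 : Mo (6 * s + 3) 0 = 2 * s + 1 := by unfold Mo; simp; omega
    have h1 : (6 * s + 3).choose 3 = (2 * s + 1) * ((3 * s + 1) * (6 * s + 1)) := by
      have h := Nat.add_one_mul_choose_eq (6 * s + 2) 2
      have h' := Nat.add_one_mul_choose_eq (6 * s + 1) 1
      simp only [Nat.choose_one_right] at h'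
      norm_num at h h'
      have h'' : (6 * s + 2).choose 2 = (3 * s + 1) * (6 * s + 1) := by
        have : (6 * s + 2).choose 2 * 2 = (3 * s + 1) * (6 * s + 1) * 2 := by
          rw [← h']; ring
        omega
      rw [h''] at h
      have : (6 * s + 3).choose 3 * 3 = (2 * s + 1) * ((3 * s + 1) * (6 * s + 1)) * 3 := by
        rw [← h]; ring
      omega
    rw [h0]
    simp only [Nat.sub_zero]
    rw [h1]
    exact dvd_mul_right _ _
  · have h0 : Mo (6 * s + 3) 1 = 3 * s + 1 := by unfold Mo; simp; omega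
    have h'' : (6 * s + 2).choose 2 = (3 * s + 1) * (6 * s + 1) := by
      have h' := Nat.add_one_mul_choose_eq (6 * s + 1) 1
      simp only [Nat.choose_one_right] at h'
      norm_num at h'
      have : (6 * s + 2).choose 2 * 2 = (3 * s + 1) * (6 * s + 1) * 2 := by
        rw [← h']; ring
      omega
    rw [h0]
    have e1 : 6 * s + 3 - 1 = 6 * s + 2 := by omega
    have e2 : (3 : ℕ) - 1 = 2 := rfl
    rw [e1, e2, h'']
    exact dvd_mul_right _ _
  · have h0 : Mo (6 * s + 3) 2 = 6 * s + 1 := by unfold Mo; simp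
    rw [h0]
    have e1 : 6 * s + 3 - 2 = 6 * s + 1 := by omega
    have e2 : (3 : ℕ) - 2 = 1 := rfl
    rw [e1, e2, Nat.choose_one_right]

lemma dg_biUnion {F : Finset (Finset U)} (hF : ∀ Q ∈ F, ∀ Q' ∈ F, Q ≠ Q' → (Q ∩ Q').card ≤ 2)
    (c : Finset U) : dg (F.biUnion tri) c = ∑ Q ∈ F, dg (tri Q) c := by
  unfold dg
  rw [Finset.filter_biUnion, Finset.card_biUnion]
  intro Q hQ Q' hQ' hne
  refine Finset.disjoint_left.2 fun T hT hT' => ?_
  have h1 := mem_tri.1 (Finset.mem_filter.1 hT).1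
  have h2 := mem_tri.1 (Finset.mem_filter.1 hT').1
  have h3 := Finset.card_le_card (Finset.subset_inter h1.1 h2.1)
  have h4 := hF Q hQ Q' hQ' hne
  omega

lemma Dec.balanced {r : ℕ} (hr : r % 6 = 3) {E : Finset (Finset U)} (h : Dec r E) :
    Balanced r E := by
  obtain ⟨F, h1, h2, rfl⟩ := h
  intro c hc
  rw [dg_biUnion h2]
  refine Finset.dvd_sum fun Q hQ => ?_
  rw [dg_tri Q c hc, h1 Q hQ]
  split_ifs
  · exact Mo_dvd_choose hr hc
  · exact dvd_zero _

/-- the usual divisibility conditions imply balancedness -/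
lemma balanced_of_divisible {r : ℕ} (hr : r % 6 = 3) {E : Finset (Finset U)}
    (h : ∀ A : Finset U, A.card < 3 →
      Nat.choose (r - A.card) (3 - A.card) ∣ (E.filter (fun e => A ⊆ e)).card) :
    Balanced r E := fun c hc =>
  (Mo_dvd_choose hr hc).trans (h c (by omega))

end base

/-- 3-graph on `Fin n` with all codegrees at least `(1 - ρ) n` -/
def Cod (n : ℕ) (ρ : ℝ) (G : Finset (Finset (Fin n))) : Prop :=
  (∀ T ∈ G, T.card = 3) ∧ ∀ P : Finset (Fin n), P.card = 2 → (1 - ρ) * (n : ℝ) ≤ (dg G P : ℝ)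

/-- all codegrees at most `γ n` -/
def Sm (n : ℕ) (γ : ℝ) (X : Finset (Finset (Fin n))) : Prop :=
  ∀ P : Finset (Fin n), P.card = 2 → (dg X P : ℝ) ≤ γ * (n : ℝ)

/-- the range of a tuple as a finset -/
def rg {n M : ℕ} (w : Fin M → Fin n) : Finset (Fin n) := Finset.univ.image w

/-- section 5: EMBEDDING LEMMA -/
def EmbStmt : Prop :=
  ∀ (s M : ℕ) (c η : ℝ), 0 < c → 0 < η → ∃ lam : ℝ, 0 < lam ∧ ∃ n0 : ℕ, ∀ n : ℕ, n0 ≤ n →
    ∀ (ι : Type) [Fintype ι] [DecidableEq ι]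
      (S : ι → Finset (Fin n)) (Pi : ι → Finset (Finset (Fin n)))
      (Om : ι → Finset (Fin M → Fin n)) (E : ι → (Fin M → Fin n) → Finset (Finset (Fin n)))
      (F : Finset (Finset (Fin n))),
      ((Fintype.card ι : ℝ) ≤ lam * (n : ℝ) ^ 3) →
      (∀ i, (S i).card ≤ s) →
      (∀ i, ∀ P ∈ Pi i, P.card = 2 ∧ P ⊆ S i) →
      (∀ i, c * (n : ℝ) ^ M ≤ ((Om i).card : ℝ)) →
      (∀ i, ∀ w ∈ Om i, Function.Injective w ∧ (∀ k, w k ∉ S i) ∧
        ∀ T ∈ E i w, T.card = 3 ∧ T ⊆ S i ∪ rg w ∧ (∃ k, w k ∈ T) ∧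
          ∀ x ∈ T, ∀ y ∈ T, x ≠ y → x ∈ S i → y ∈ S i → ({x, y} : Finset (Fin n)) ∈ Pi i) →
      (∀ v : Fin n, ((univ.filter fun i => v ∈ S i).card : ℝ) ≤ lam * (n : ℝ) ^ 2) →
      (∀ P : Finset (Fin n), P.card = 2 →
        ((univ.filter fun i => P ∈ Pi i).card : ℝ) ≤ lam * (n : ℝ)) →
      Sm n lam F →
      ∃ w : ι → Fin M → Fin n, (∀ i, w i ∈ Om i) ∧
        (∀ i j, i ≠ j → Disjoint (E i (w i)) (E j (w j))) ∧
        (∀ i, Disjoint (E i (w i)) F) ∧
        Sm n η (univ.biUnion fun i => E i (w i)) ∧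
        (∀ P : Finset (Fin n), P.card = 2 →
          ((univ.filter fun i => P ⊆ S i ∪ rg (w i) ∧ ¬ P ⊆ S i).card : ℝ) ≤ η * (n : ℝ)) ∧
        (∀ v : Fin n, ((univ.filter fun i => ∃ k, w i k = v).card : ℝ) ≤ η * (n : ℝ) ^ 2)

/-- section 6: OMNI-ABSORBER -/
def OmniStmt (r : ℕ) (ρ : ℝ) : Prop :=
  ∀ η : ℝ, 0 < η → ∃ p : ℝ, 0 < p ∧ ∃ n0 : ℕ, ∀ n : ℕ, n0 ≤ n →
    ∀ G : Finset (Finset (Fin n)), Cod n ρ G → ∀ X : Finset (Finset (Fin n)), X ⊆ G → Sm n p X →
      ∃ A : Finset (Finset (Fin n)), A ⊆ G ∧ Disjoint A X ∧ Sm n η A ∧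
        ∀ L : Finset (Finset (Fin n)), L ⊆ X → Balanced r L → Dec r (A ∪ L)

/-- section 7: RESERVE -/
def ResStmt (r : ℕ) (ρ : ℝ) : Prop :=
  ∀ p : ℝ, 0 < p → ∃ c : ℝ, 0 < c ∧ ∃ n0 : ℕ, ∀ n : ℕ, n0 ≤ n →
    ∀ G : Finset (Finset (Fin n)), Cod n ρ G →
      ∃ X : Finset (Finset (Fin n)), X ⊆ G ∧ Sm n p X ∧
        ∀ e ∈ G, c * (n : ℝ) ^ (r - 3) ≤
          ((univ.filter fun w : Fin (r - 3) → Fin n => Function.Injective w ∧
            (∀ k, w k ∉ e) ∧ (tri (e ∪ rg w)).erase e ⊆ X).card : ℝ)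

/-- section 8: NIBBLE -/
def NibStmt (r : ℕ) (ρ : ℝ) : Prop :=
  ∀ γ : ℝ, 0 < γ → ∃ n0 : ℕ, ∀ n : ℕ, n0 ≤ n →
    ∀ G : Finset (Finset (Fin n)), Cod n ρ G →
      ∃ F : Finset (Finset (Fin n)), (∀ Q ∈ F, Q.card = r ∧ tri Q ⊆ G) ∧
        (∀ Q ∈ F, ∀ Q' ∈ F, Q ≠ Q' → (Q ∩ Q').card ≤ 2) ∧ Sm n γ (G \ F.biUnion tri)

/-- the set of S08990 for `k = 3` -/
def AdmI (r : ℕ) : Set ℝ :=
  {δ : ℝ | 0 ≤ δ ∧ δ ≤ 1 ∧ ∃ n0 : ℕ, ∀ n : ℕ, n0 ≤ n →
      ∀ G : Finset (Finset (Fin n)),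
        (∀ e ∈ G, e.card = 3) →
        (∀ A : Finset (Fin n), A.card < 3 →
          Nat.choose (r - A.card) (3 - A.card) ∣ (G.filter (fun e => A ⊆ e)).card) →
        (∀ A : Finset (Fin n), A.card = 3 - 1 →
          δ * (n : ℝ) ≤ ((G.filter (fun e => A ⊆ e)).card : ℝ)) →
        ∃ 𝒮 : Finset (Finset (Fin n)),
          (∀ S ∈ 𝒮, S.card = r ∧ ∀ e : Finset (Fin n), e ⊆ S → e.card = 3 → e ∈ G) ∧
          ∀ e ∈ G, ∃! S : Finset (Fin n), S ∈ 𝒮 ∧ e ⊆ S}

end Pool.Agent.Lib.MP_5c685b_co.E
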