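import Pool.Agent.Lib.MP_5c685b_co.E.Defs

set_option autoImplicit false

/-!
# MP_5c685b_co, exact decomposition (k = 3): further definitions

Text: 5c685b_E_helper15.md. `r` is always `3 mod 6`. `Mo r i` is the modulus of a chain root of size `i`.
-/

namespace Pool.Agent.Lib.MP_5c685b_co.E

open Finset

section defs

variable {U : Type*} [DecidableEq U]

/-- All members are triples. -/
def Triples (E : Finset (Finset U)) : Prop := ∀ T ∈ E, T.card = 3

/-- The vertices covered by `E`. -/
def supp (E : Finset (Finset U)) : Finset U := E.biUnion id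

/-- `E` has residue `j` at the chain root `c` and `0` at all other roots. -/
def Res (r : ℕ) (E : Finset (Finset U)) (c : Finset U) (j : ℤ) : Prop :=
  ∀ c' : Finset U, c'.card ≤ 2 →
    (dg E c' : ℤ) ≡ (if c' = c then j else 0) [ZMOD (Mo r c'.card : ℤ)]

end defs

/-! Hosts. `G` is always a set of triples of `Fin n`. -/

/-- `w` is joined to `S` in `G`: every triple of `S ∪ range w` which is not inside `S` is in `G`. -/
def Joined {n t : ℕ} (G : Finset (Finset (Fin n))) (S : Finset (Fin n)) (w : Fin t → Fin n) : Prop :=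
  Function.Injective w ∧ (∀ a, w a ∉ S) ∧
    ∀ T : Finset (Fin n), T ⊆ S ∪ rg w → T.card = 3 → ¬ T ⊆ S → T ∈ G

/-- The host property: every set of at most 12 vertices has a positive density of joined `t`-tuples. -/
def Host {n : ℕ} (t : ℕ) (c0 : ℝ) (G : Finset (Finset (Fin n))) : Prop :=
  ∀ S : Finset (Fin n), S.card ≤ 12 →
    c0 * (n : ℝ) ^ t ≤ (Nat.card {w : Fin t → Fin n // Joined G S w} : ℝ)

/-! Plans: the base structure of a composite absorber. -/

/-- A plan over a set `D` of old points: `s` steps; step `i` has a root set of at most 12 points among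
the old points and the new points of earlier steps, and `t` new points `Sum.inr (i, a)`. -/
structure Plan (D : Type) (t : ℕ) where
  s : ℕ
  R : Fin s → Finset (D ⊕ (Fin s × Fin t))
  card_le : ∀ i, (R i).card ≤ 12
  lt : ∀ i, ∀ i' a, Sum.inr (i', a) ∈ R i → i' < i

/-- The type of points of a plan with lifts: old points, and new points with a lift number. -/
abbrev PV (D : Type) (s t : ℕ) : Type := D ⊕ ((Fin s × Fin t) × ℕ)

/-- Forget the lift number. -/
def pr {D : Type} {s t : ℕ} : PV D s t → D ⊕ (Fin s × Fin t)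
  | Sum.inl d => Sum.inl d
  | Sum.inr (y, _) => Sum.inr y

/-- The points of the host of step `i`: roots and new points. -/
def Plan.W {D : Type} [DecidableEq D] {t : ℕ} (P : Plan D t) (i : Fin P.s) :
    Finset (D ⊕ (Fin P.s × Fin t)) :=
  P.R i ∪ univ.image (fun a : Fin t => Sum.inr (i, a))

/-- A triple of points with lifts is available if its projection is injective on it and is a triple of
the host of some step which is not inside the root set of that step. -/
def Plan.Avail {D : Type} [DecidableEq D] {t : ℕ} (P : Plan D t) (T : Finset (PV D P.s t)) : Prop :=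
  T.card = 3 ∧ Set.InjOn (pr : PV D P.s t → _) (T : Set (PV D P.s t)) ∧
    ∃ i : Fin P.s, T.image pr ⊆ P.W i ∧ ¬ T.image pr ⊆ P.R i

/-! Candidates for the embedding lemma. -/

/-- A candidate family for a task with old set `S` and set of old pairs `Pi`: a set `Om` of maps
`w : Fin M → Fin n` and for every `w` a set `E w` of triples (exactly the hypothesis of `EmbStmt`). -/
def Cand {n : ℕ} (M : ℕ) (S : Finset (Fin n)) (Pi : Finset (Finset (Fin n)))
    (Om : Finset (Fin M → Fin n)) (E : (Fin M → Fin n) → Finset (Finset (Fin n))) : Prop :=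
  ∀ w ∈ Om, Function.Injective w ∧ (∀ k, w k ∉ S) ∧
    ∀ T ∈ E w, T.card = 3 ∧ T ⊆ S ∪ rg w ∧ (∃ k, w k ∈ T) ∧
      ∀ x ∈ T, ∀ y ∈ T, x ≠ y → x ∈ S → y ∈ S → ({x, y} : Finset (Fin n)) ∈ Pi

/-- The pairs inside members of `H`. -/
def pairsOf {n : ℕ} (H : Finset (Finset (Fin n))) : Finset (Finset (Fin n)) :=
  H.biUnion (fun f => f.powersetCard 2)

/-- Fractional decomposition of a set of triples on a finite type. -/
def HasFr (r : ℕ) {V : Type} [Fintype V] [DecidableEq V] (G : Finset (Finset V)) : Prop :=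
  ∃ x : Finset V → ℝ, (∀ Q, 0 ≤ x Q) ∧ (∀ Q, x Q ≠ 0 → Q.card = r ∧ tri Q ⊆ G) ∧
    ∀ T ∈ G, ∑ Q ∈ univ.filter (fun Q : Finset V => T ⊆ Q), x Q = 1

/-- The finished fractional theorem (from the master). -/
def FracThm (cb : ℝ) : Prop :=
  ∃ r0 : ℕ, ∀ r : ℕ, r0 ≤ r → ∃ n0 : ℕ, ∀ n : ℕ, n0 ≤ n → ∀ G : Finset (Finset (Fin n)),
    Cod n (cb * Real.log r / (r : ℝ) ^ 2) G → HasFr r G

end Pool.Agent.Lib.MP_5c685b_co.E
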