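import Pool.Agent.Lib.MP_5c685b_co.E.Defs2

set_option autoImplicit false

/-! # Row E01: arithmetic of the moduli -/

namespace Pool.Agent.Lib.MP_5c685b_co.E

open Finset

variable {U : Type*} [DecidableEq U]

theorem Mo_facts {r : ℕ} (hr : r % 6 = 3) (h9 : 9 ≤ r) :
    Nat.Coprime (Mo r 0) (Mo r 1) ∧ Nat.Coprime (Mo r 0) (Mo r 2) ∧ Nat.Coprime (Mo r 1) (Mo r 2) ∧
    Nat.Coprime 6 (Mo r 2) ∧ Nat.Coprime 3 (Mo r 1) ∧
    Mo r 0 * Mo r 1 * Mo r 2 = r.choose 3 ∧ Mo r 1 * Mo r 2 = (r - 1).choose 2 ∧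
    0 < Mo r 0 ∧ 0 < Mo r 1 ∧ 0 < Mo r 2 := by
  obtain ⟨s, rfl⟩ : ∃ s, r = 6 * s + 3 := ⟨r / 6, by omega⟩
  have m0 : Mo (6 * s + 3) 0 = 2 * s + 1 := by unfold Mo; simp; omega
  have m1 : Mo (6 * s + 3) 1 = 3 * s + 1 := by unfold Mo; simp; omega
  have m2 : Mo (6 * s + 3) 2 = 6 * s + 1 := by unfold Mo; simp
  have c2 : (6 * s + 2).choose 2 = (3 * s + 1) * (6 * s + 1) := by
    have h' := Nat.add_one_mul_choose_eq (6 * s + 1) 1
    simp only [Nat.choose_one_right] at h'
    norm_num at h'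
    have : (6 * s + 2).choose 2 * 2 = (3 * s + 1) * (6 * s + 1) * 2 := by
      rw [← h']; ring
    omega
  have c3 : (6 * s + 3).choose 3 = (2 * s + 1) * ((3 * s + 1) * (6 * s + 1)) := by
    have h := Nat.add_one_mul_choose_eq (6 * s + 2) 2
    norm_num at h
    rw [c2] at h
    have : (6 * s + 3).choose 3 * 3 = (2 * s + 1) * ((3 * s + 1) * (6 * s + 1)) * 3 := by
      rw [← h]; ring
    omega
  rw [m0, m1, m2, c3]
  have e1 : 6 * s + 3 - 1 = 6 * s + 2 := by omega
  rw [e1, c2]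
  have cop : ∀ a b x y : ℤ, x * a + y * b = 1 → IsCoprime a b := fun a b x y h => ⟨x, y, h⟩
  refine ⟨?_, ?_, ?_, ?_, ?_, by ring, rfl, by omega, by omega, by omega⟩
  · rw [← Nat.isCoprime_iff_coprime]
    refine ⟨3, -2, ?_⟩
    push_cast
    ring
  · -- gcd divides 2 and is odd
    rw [← Nat.isCoprime_iff_coprime]
    refine ⟨3 * (-3 * (s : ℤ)), 1 + 3 * (s : ℤ), ?_⟩
    push_cast
    ring
  · rw [← Nat.isCoprime_iff_coprime]
    refine ⟨2, -1, ?_⟩
    push_cast
    ring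
  · rw [← Nat.isCoprime_iff_coprime]
    refine ⟨-(s : ℤ), 1, ?_⟩
    push_cast
    ring
  · rw [← Nat.isCoprime_iff_coprime]
    refine ⟨-(s : ℤ), 1, ?_⟩
    push_cast
    ring

theorem sum_dg_insert {E : Finset (Finset U)} (hT : Triples E) (c : Finset U) :
    ∑ u ∈ supp E \ c, dg E (insert u c) = (3 - c.card) * dg E c := by
  have h1 : ∀ u, dg E (insert u c) = ((E.filter (fun T => c ⊆ T)).filter (fun T => u ∈ T)).card := by
    intro u
    unfold dg
    rw [Finset.filter_filter]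
    congr 1
    ext T
    simp only [Finset.mem_filter, Finset.insert_subset_iff]
    tauto
  simp_rw [h1]
  have h2 := Finset.sum_card_bipartiteAbove_eq_sum_card_bipartiteBelow
    (s := supp E \ c) (t := E.filter (fun T => c ⊆ T)) (fun (u : U) (T : Finset U) => u ∈ T)
  unfold Finset.bipartiteAbove Finset.bipartiteBelow at h2
  rw [h2]
  have h3 : ∀ T ∈ E.filter (fun T => c ⊆ T), ((supp E \ c).filter (fun u => u ∈ T)).card =
      3 - c.card := by
    intro T hTm
    obtain ⟨hTE, hcT⟩ := Finset.mem_filter.1 hTm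
    have h4 : (supp E \ c).filter (fun u => u ∈ T) = T \ c := by
      ext u
      simp only [Finset.mem_filter, Finset.mem_sdiff]
      constructor
      · rintro ⟨⟨_, h⟩, h'⟩
        exact ⟨h', h⟩
      · rintro ⟨h', h⟩
        refine ⟨⟨?_, h⟩, h'⟩
        exact Finset.mem_biUnion.2 ⟨T, hTE, h'⟩
    rw [h4, Finset.card_sdiff_of_subset hcT, hT T hTE]
  rw [Finset.sum_congr rfl h3, Finset.sum_const, smul_eq_mul, mul_comm]
  rfl

/-- Balanced sets of triples satisfy the usual divisibility conditions. -/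
theorem Balanced.choose_dvd {r : ℕ} (hr : r % 6 = 3) (h9 : 9 ≤ r) {E : Finset (Finset U)}
    (hT : Triples E) (hB : Balanced r E) (c : Finset U) (hc : c.card ≤ 2) :
    (r - c.card).choose (3 - c.card) ∣ dg E c := by
  obtain ⟨h01, h02, h12, h62, h31, hc3, hc2, -, -, -⟩ := Mo_facts hr h9
  have cop2 : Nat.Coprime 2 (Mo r 2) := Nat.Coprime.coprime_dvd_left (by norm_num) h62
  have cop3 : Nat.Coprime 3 (Mo r 2) := Nat.Coprime.coprime_dvd_left (by norm_num) h62
  -- pairs
  have P2 : ∀ c : Finset U, c.card = 2 → Mo r 2 ∣ dg E c := by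
    intro c h2
    have := hB c h2.le
    rwa [h2] at this
  -- vertices
  have V : ∀ c : Finset U, c.card = 1 → Mo r 1 * Mo r 2 ∣ dg E c := by
    intro c h1
    have a := hB c (by omega)
    rw [h1] at a
    have b := sum_dg_insert hT c
    rw [h1] at b
    have b' : Mo r 2 ∣ (3 - 1) * dg E c := by
      rw [← b]
      refine Finset.dvd_sum fun u hu => P2 _ ?_
      rw [Finset.card_insert_of_notMem (Finset.mem_sdiff.1 hu).2, h1]
    exact Nat.Coprime.mul_dvd_of_dvd_of_dvd h12 a (cop2.symm.dvd_of_dvd_mul_left b')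
  have hcases : c.card = 0 ∨ c.card = 1 ∨ c.card = 2 := by omega
  rcases hcases with h0 | h1 | h2
  · have a := hB c hc
    rw [h0] at a
    have b := sum_dg_insert hT c
    rw [h0] at b
    have b' : Mo r 1 * Mo r 2 ∣ (3 - 0) * dg E c := by
      rw [← b]
      refine Finset.dvd_sum fun u hu => V _ ?_
      rw [Finset.card_insert_of_notMem (Finset.mem_sdiff.1 hu).2, h0]
    have c3 : Nat.Coprime (Mo r 1 * Mo r 2) 3 := (Nat.Coprime.mul_right h31 cop3).symm
    have b'' : Mo r 1 * Mo r 2 ∣ dg E c := c3.dvd_of_dvd_mul_left b'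
    rw [h0]
    simp only [Nat.sub_zero]
    rw [← hc3, mul_assoc]
    exact Nat.Coprime.mul_dvd_of_dvd_of_dvd (Nat.Coprime.mul_right h01 h02) a b''
  · rw [h1, show (3 : ℕ) - 1 = 2 from rfl, ← hc2]
    exact V c h1
  · rw [h2, show (3 : ℕ) - 2 = 1 from rfl, Nat.choose_one_right]
    have := P2 c h2
    unfold Mo at this
    simpa using this

end Pool.Agent.Lib.MP_5c685b_co.E
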