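import Pool.Agent.Lib.MP_5c685b_co.E.Pieces

set_option autoImplicit false

/-! # Row E21: the links exist (first application of the embedding lemma) -/

namespace Pool.Agent.Lib.MP_5c685b_co.E

open Finset

/-- number of the links whose first component has a property -/
private lemma e21_links_card {n : ℕ} {X : Finset (Finset (Fin n))} (hX : Triples X)
    (P : Finset (Fin n) → Prop) [DecidablePred P] :
    ((linksOf X).filter (fun p => P p.1)).card ≤ (X.filter P).card * 8 := by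
  have h1 : (linksOf X).filter (fun p => P p.1) ⊆
      (X.filter P).biUnion (fun e => e.powerset.image (fun c => (e, c))) := by
    rintro ⟨e, c⟩ h
    rw [mem_filter, linksOf, mem_filter, mem_product] at h
    obtain ⟨⟨⟨h1, _⟩, h2, _⟩, h3⟩ := h
    rw [mem_biUnion]
    refine ⟨e, mem_filter.2 ⟨h1, h3⟩, ?_⟩
    rw [mem_image]
    exact ⟨c, mem_powerset.2 h2, rfl⟩
  refine (card_le_card h1).trans (card_biUnion_le_card_mul _ _ _ fun e he => ?_)
  refine card_image_le.trans ?_
  rw [card_powerset, hX e (mem_filter.1 he).1]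
  norm_num

private lemma e21_deg {n : ℕ} {X : Finset (Finset (Fin n))} (hX : Triples X) {p : ℝ} (hp : 0 ≤ p)
    (hS : Sm n p X) (v : Fin n) :
    ((X.filter (fun e => v ∈ e)).card : ℝ) ≤ p * (n : ℝ) ^ 2 := by
  have h1 : X.filter (fun e => v ∈ e) ⊆
      (univ.filter (fun u : Fin n => u ≠ v)).biUnion
        (fun u => X.filter (fun e => ({v, u} : Finset (Fin n)) ⊆ e)) := by
    intro e he
    rw [mem_filter] at he
    obtain ⟨heX, hve⟩ := he
    have h3 := hX e heX
    obtain ⟨u, hu, huv⟩ := exists_mem_notMem_of_card_lt_card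
      (s := ({v} : Finset (Fin n))) (t := e) (by rw [card_singleton, h3]; norm_num)
    rw [mem_singleton] at huv
    rw [mem_biUnion]
    refine ⟨u, mem_filter.2 ⟨mem_univ _, huv⟩, mem_filter.2 ⟨heX, ?_⟩⟩
    intro x hx
    rw [mem_insert, mem_singleton] at hx
    rcases hx with rfl | rfl
    · exact hve
    · exact hu
  have h2 : ((X.filter (fun e => v ∈ e)).card : ℝ) ≤
      ∑ u ∈ univ.filter (fun u : Fin n => u ≠ v), (dg X {v, u} : ℝ) := by
    have := (card_le_card h1).trans card_biUnion_le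
    exact_mod_cast this
  calc ((X.filter (fun e => v ∈ e)).card : ℝ)
      ≤ ∑ u ∈ univ.filter (fun u : Fin n => u ≠ v), (dg X {v, u} : ℝ) := h2
    _ ≤ ∑ u ∈ univ.filter (fun u : Fin n => u ≠ v), p * (n : ℝ) :=
        sum_le_sum fun u hu => hS {v, u} (card_pair (mem_filter.1 hu).2.symm)
    _ = ((univ.filter (fun u : Fin n => u ≠ v)).card : ℝ) * (p * (n : ℝ)) := by
        rw [sum_const, nsmul_eq_mul]
    _ ≤ (n : ℝ) * (p * (n : ℝ)) := by
        have h3 : ((univ.filter (fun u : Fin n => u ≠ v)).card : ℝ) ≤ (n : ℝ) := by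
          have := card_le_univ (univ.filter (fun u : Fin n => u ≠ v))
          rw [Fintype.card_fin] at this
          exact_mod_cast this
        gcongr
    _ = p * (n : ℝ) ^ 2 := by ring

private lemma e21_card {n : ℕ} {X : Finset (Finset (Fin n))} (hX : Triples X) {p : ℝ} (hp : 0 ≤ p)
    (hS : Sm n p X) : ((X.filter (fun _ => True)).card : ℝ) ≤ p * (n : ℝ) ^ 3 := by
  have h1 : X.filter (fun _ => True) ⊆ (univ : Finset (Fin n)).biUnion
      (fun v => X.filter (fun e => v ∈ e)) := by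
    intro e he
    have heX := (mem_filter.1 he).1
    have h3 := hX e heX
    obtain ⟨v, hv⟩ : e.Nonempty := card_pos.1 (by omega)
    exact mem_biUnion.2 ⟨v, mem_univ _, mem_filter.2 ⟨heX, hv⟩⟩
  have h2 : ((X.filter (fun _ => True)).card : ℝ) ≤
      ∑ v : Fin n, ((X.filter (fun e => v ∈ e)).card : ℝ) := by
    have := (card_le_card h1).trans card_biUnion_le
    exact_mod_cast this
  calc ((X.filter (fun _ => True)).card : ℝ)
      ≤ ∑ v : Fin n, ((X.filter (fun e => v ∈ e)).card : ℝ) := h2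
    _ ≤ ∑ v : Fin n, p * (n : ℝ) ^ 2 := sum_le_sum fun v _ => e21_deg hX hp hS v
    _ = p * (n : ℝ) ^ 3 := by
        rw [sum_const, card_univ, Fintype.card_fin, nsmul_eq_mul]
        ring

/-- E21 (text 6, first application of the embedding lemma): the links exist. -/
theorem links_exist (hEmb : EmbStmt) {r : ℕ} (hr : r % 6 = 3) (h45 : 45 ≤ r) {c0 : ℝ} (hc0 : 0 < c0) :
    ∃ M : ℕ, ∀ η : ℝ, 0 < η → ∃ p : ℝ, 0 < p ∧ ∃ n0 : ℕ, ∀ n : ℕ, n0 ≤ n →
      ∀ G : Finset (Finset (Fin n)), Triples G → Host (4 * r) c0 G →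
      ∀ X : Finset (Finset (Fin n)), X ⊆ G → Sm n p X →
        ∃ w J J', Links r M G X w J J' ∧ Sm n η (allJ r X J J') ∧
          (∀ v, (((linksOf X).filter (fun p => v ∈ p.2 ∪ w p.1 p.2)).card : ℝ) ≤ η * (n : ℝ) ^ 2) ∧
          (∀ q : Finset (Fin n), q.card = 2 →
            (((linksOf X).filter (fun p => q ⊆ p.2 ∪ w p.1 p.2)).card : ℝ) ≤ η * (n : ℝ)) := by
  obtain ⟨M, c', hc', n1, hU⟩ := unit_count hr h45 hc0
  refine ⟨M, fun η hη => ?_⟩
  obtain ⟨lam, hlam, n2, hE⟩ := hEmb 2 M c' (η / 2) hc' (by positivity)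
  refine ⟨min (lam / 8) (η / 16), by positivity, max n1 n2, fun n hn G hG hHost X hXG hX => ?_⟩
  set p : ℝ := min (lam / 8) (η / 16) with hp
  have hp0 : 0 < p := by positivity
  have hpl : 8 * p ≤ lam := by
    have := min_le_left (lam / 8) (η / 16)
    rw [← hp] at this
    linarith
  have hpη : 8 * p ≤ η / 2 := by
    have := min_le_right (lam / 8) (η / 16)
    rw [← hp] at this
    linarith
  have hXT : Triples X := fun T hT => hG T (hXG hT)
  have hU' := hU n ((le_max_left _ _).trans hn) G hHost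
  choose! Om J0 J0' hOm hCand hpr using hU'
  have hc2 : ∀ q ∈ linksOf X, q.1 ∈ X ∧ q.2 ⊆ q.1 ∧ q.2.card ≤ 2 := by
    intro q hq
    rw [linksOf, mem_filter, mem_product] at hq
    exact ⟨hq.1.1, hq.2.1, hq.2.2⟩
  -- counts
  have hcount : ((linksOf X).card : ℝ) ≤ 8 * p * (n : ℝ) ^ 3 := by
    have h1 := e21_links_card hXT (fun _ => True)
    have h2 : ((linksOf X).filter (fun p => (fun _ => True) p.1)).card = (linksOf X).card := by
      rw [filter_true_of_mem]
      intro _ _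
      trivial
    rw [h2] at h1
    have h3 := e21_card hXT hp0.le hX
    have h4 : ((linksOf X).card : ℝ) ≤ ((X.filter (fun _ => True)).card : ℝ) * 8 := by
      exact_mod_cast h1
    calc ((linksOf X).card : ℝ) ≤ ((X.filter (fun _ => True)).card : ℝ) * 8 := h4
      _ ≤ (p * (n : ℝ) ^ 3) * 8 := by gcongr
      _ = 8 * p * (n : ℝ) ^ 3 := by ring
  have hvert : ∀ v : Fin n, (((linksOf X).filter (fun q => v ∈ q.2)).card : ℝ) ≤
      8 * p * (n : ℝ) ^ 2 := by
    intro v
    have h1 := e21_links_card hXT (fun e => v ∈ e)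
    have h2 : (linksOf X).filter (fun q => v ∈ q.2) ⊆
        (linksOf X).filter (fun q => (fun e => v ∈ e) q.1) := by
      intro q hq
      rw [mem_filter] at hq ⊢
      exact ⟨hq.1, (hc2 q hq.1).2.1 hq.2⟩
    have h3 := e21_deg hXT hp0.le hX v
    have h4 : (((linksOf X).filter (fun q => v ∈ q.2)).card : ℝ) ≤
        ((X.filter (fun e => v ∈ e)).card : ℝ) * 8 := by
      exact_mod_cast (card_le_card h2).trans h1
    calc (((linksOf X).filter (fun q => v ∈ q.2)).card : ℝ)
        ≤ ((X.filter (fun e => v ∈ e)).card : ℝ) * 8 := h4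
      _ ≤ (p * (n : ℝ) ^ 2) * 8 := by gcongr
      _ = 8 * p * (n : ℝ) ^ 2 := by ring
  have hpair : ∀ P : Finset (Fin n), P.card = 2 →
      (((linksOf X).filter (fun q => P ⊆ q.2)).card : ℝ) ≤ 8 * p * (n : ℝ) := by
    intro P hP
    have h1 := e21_links_card hXT (fun e => P ⊆ e)
    have h2 : (linksOf X).filter (fun q => P ⊆ q.2) ⊆
        (linksOf X).filter (fun q => (fun e => P ⊆ e) q.1) := by
      intro q hq
      rw [mem_filter] at hq ⊢
      exact ⟨hq.1, hq.2.trans (hc2 q hq.1).2.1⟩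
    have h3 : ((X.filter (fun e => P ⊆ e)).card : ℝ) ≤ p * (n : ℝ) := hX P hP
    have h4 : (((linksOf X).filter (fun q => P ⊆ q.2)).card : ℝ) ≤
        ((X.filter (fun e => P ⊆ e)).card : ℝ) * 8 := by
      exact_mod_cast (card_le_card h2).trans h1
    calc (((linksOf X).filter (fun q => P ⊆ q.2)).card : ℝ)
        ≤ ((X.filter (fun e => P ⊆ e)).card : ℝ) * 8 := h4
      _ ≤ (p * (n : ℝ)) * 8 := by gcongr
      _ = 8 * p * (n : ℝ) := by ring
  -- counting on the subtype
  have hsub : ∀ (Q : Finset (Fin n) × Finset (Fin n) → Prop) [DecidablePred Q],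
      (univ.filter (fun i : {q // q ∈ linksOf X} => Q i.1)).card =
        ((linksOf X).filter Q).card := by
    intro Q _
    rw [← card_map (Function.Embedding.subtype _)]
    congr 1
    ext q
    simp only [mem_map, mem_filter, mem_univ, true_and, Function.Embedding.subtype_apply,
      Subtype.exists, exists_and_left, exists_prop, exists_eq_right_right]
    tauto
  obtain ⟨w, hw1, hw2, hw3, hw4, hw5, hw6⟩ := hE n ((le_max_right _ _).trans hn)
    {q // q ∈ linksOf X} (fun i => i.1.2) (fun i => i.1.2.powersetCard 2) (fun i => Om i.1.2)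
    (fun i v => (range (Mo r i.1.2.card)).biUnion (fun j => J0 i.1.2 v j ∪ J0' i.1.2 v j)) X
    (by
      rw [Fintype.card_coe]
      calc ((linksOf X).card : ℝ) ≤ 8 * p * (n : ℝ) ^ 3 := hcount
        _ ≤ lam * (n : ℝ) ^ 3 := by gcongr)
    (fun i => (hc2 i.1 i.2).2.2)
    (fun i P hP => ⟨(mem_powersetCard.1 hP).2, (mem_powersetCard.1 hP).1⟩)
    (fun i => hOm _ (hc2 i.1 i.2).2.2)
    (fun i v hv => hCand _ (hc2 i.1 i.2).2.2 v hv)
    (fun v => by
      rw [hsub (fun q => v ∈ q.2)]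
      calc (((linksOf X).filter (fun q => v ∈ q.2)).card : ℝ) ≤ 8 * p * (n : ℝ) ^ 2 := hvert v
        _ ≤ lam * (n : ℝ) ^ 2 := by gcongr)
    (fun P hP => by
      have h1 : (univ.filter (fun i : {q // q ∈ linksOf X} => P ∈ i.1.2.powersetCard 2)) =
          (univ.filter (fun i : {q // q ∈ linksOf X} => P ⊆ i.1.2)) := by
        refine filter_congr fun i _ => ?_
        rw [mem_powersetCard]
        exact ⟨fun h => h.1, fun h => ⟨h, hP⟩⟩
      rw [h1, hsub (fun q => P ⊆ q.2)]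
      calc (((linksOf X).filter (fun q => P ⊆ q.2)).card : ℝ) ≤ 8 * p * (n : ℝ) := hpair P hP
        _ ≤ lam * (n : ℝ) := by gcongr)
    (fun P hP => (hX P hP).trans (by
      have : p ≤ lam := by linarith
      gcongr))
  -- the data of one link
  set W : Finset (Fin n) → Finset (Fin n) → Finset (Fin n) := fun e c =>
    if h : (e, c) ∈ linksOf X then rg (w ⟨(e, c), h⟩) else ∅ with hW
  set JJ : Finset (Fin n) → Finset (Fin n) → ℕ → Finset (Finset (Fin n)) := fun e c j =>
    if h : (e, c) ∈ linksOf X then J0 c (w ⟨(e, c), h⟩) j else ∅ with hJJ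
  set JJ' : Finset (Fin n) → Finset (Fin n) → ℕ → Finset (Finset (Fin n)) := fun e c j =>
    if h : (e, c) ∈ linksOf X then J0' c (w ⟨(e, c), h⟩) j else ∅ with hJJ'
  have eW : ∀ q (h : q ∈ linksOf X), W q.1 q.2 = rg (w ⟨q, h⟩) := fun q h => by
    simp only [hW, Prod.mk.eta, h, dite_true]
  have eJ : ∀ q (h : q ∈ linksOf X) j, JJ q.1 q.2 j = J0 q.2 (w ⟨q, h⟩) j := fun q h j => by
    simp only [hJJ, Prod.mk.eta, h, dite_true]
  have eJ' : ∀ q (h : q ∈ linksOf X) j, JJ' q.1 q.2 j = J0' q.2 (w ⟨q, h⟩) j := fun q h j => by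
    simp only [hJJ', Prod.mk.eta, h, dite_true]
  have hpq : ∀ q (h : q ∈ linksOf X), _ := fun q h =>
    hpr q.2 (hc2 q h).2.2 (w ⟨q, h⟩) (hw1 ⟨q, h⟩)
  have hcq : ∀ q (h : q ∈ linksOf X), _ := fun q h =>
    hCand q.2 (hc2 q h).2.2 (w ⟨q, h⟩) (hw1 ⟨q, h⟩)
  -- different links are disjoint
  have hdiff : ∀ q (h : q ∈ linksOf X) q' (h' : q' ∈ linksOf X), q ≠ q' →
      ∀ j < Mo r q.2.card, ∀ j' < Mo r q'.2.card,
      Disjoint (J0 q.2 (w ⟨q, h⟩) j ∪ J0' q.2 (w ⟨q, h⟩) j)
        (J0 q'.2 (w ⟨q', h'⟩) j' ∪ J0' q'.2 (w ⟨q', h'⟩) j') := by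
    intro q h q' h' hne j hj j' hj'
    have h1 := hw2 ⟨q, h⟩ ⟨q', h'⟩ (fun heq => hne (Subtype.ext_iff.1 heq))
    refine disjoint_of_subset_left ?_ (disjoint_of_subset_right ?_ h1)
    · exact subset_biUnion_of_mem (fun j => J0 q.2 (w ⟨q, h⟩) j ∪ J0' q.2 (w ⟨q, h⟩) j)
        (mem_range.2 hj)
    · exact subset_biUnion_of_mem (fun j => J0 q'.2 (w ⟨q', h'⟩) j ∪ J0' q'.2 (w ⟨q', h'⟩) j)
        (mem_range.2 hj')
  have hrg : ∀ (v : Fin M → Fin n) (x : Fin n), x ∈ rg v ↔ ∃ k, v k = x := by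
    intro v x
    unfold rg
    rw [mem_image]
    exact ⟨fun ⟨k, _, hk⟩ => ⟨k, hk⟩, fun ⟨k, hk⟩ => ⟨k, mem_univ _, hk⟩⟩
  refine ⟨W, JJ, JJ', ?_, ?_, ?_, ?_⟩
  · refine ⟨?_, ?_, ?_, ?_, ?_, ?_, ?_, ?_⟩
    · intro q hq
      rw [eW q hq]
      unfold rg
      refine card_image_le.trans ?_
      rw [card_univ, Fintype.card_fin]
    · intro q hq
      rw [eW q hq, Finset.disjoint_left]
      intro x hx hx'
      obtain ⟨k, rfl⟩ := (hrg _ _).1 hx
      exact (hcq q hq).2.1 k hx'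
    · intro q hq
      rw [eJ q hq, eJ' q hq]
      exact ⟨(hpq q hq).1, (hpq q hq).2.1⟩
    · intro q hq j hj
      rw [eJ q hq, eJ' q hq]
      exact (hpq q hq).2.2.2.2.2.2 j hj
    · intro q hq j hj T hT
      rw [eJ q hq, eJ' q hq] at hT
      have hTE : T ∈ (range (Mo r q.2.card)).biUnion
          (fun j => J0 q.2 (w ⟨q, hq⟩) j ∪ J0' q.2 (w ⟨q, hq⟩) j) :=
        mem_biUnion.2 ⟨j, mem_range.2 hj, hT⟩
      obtain ⟨hT3, hTsub, ⟨k, hk⟩, _⟩ := (hcq q hq).2.2 T hTE
      refine ⟨hT3, ?_, ?_, ?_, ?_⟩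
      · have := (hpq q hq).2.2.1 j hj
        rcases mem_union.1 hT with h | h
        · exact this.1 h
        · exact this.2 h
      · exact Finset.disjoint_left.1 (hw3 ⟨q, hq⟩) hTE
      · rw [eW q hq]
        exact hTsub
      · intro hcon
        exact (hcq q hq).2.1 k (hcon hk)
    · intro q hq q' hq' j hj j' hj'
      rw [eJ q hq, eJ' q' hq']
      by_cases hne : q = q'
      · subst hne
        exact (hpq q hq).2.2.2.1 j hj j' hj'
      · exact disjoint_of_subset_left subset_union_left (disjoint_of_subset_right subset_union_right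
          (hdiff q hq q' hq' hne j hj j' hj'))
    · intro q hq q' hq' j hj j' hj' hne'
      rw [eJ q hq, eJ q' hq']
      by_cases hne : q = q'
      · subst hne
        exact (hpq q hq).2.2.2.2.1 j hj j' hj' (fun h => hne' (by rw [h]))
      · exact disjoint_of_subset_left subset_union_left (disjoint_of_subset_right subset_union_left
          (hdiff q hq q' hq' hne j hj j' hj'))
    · intro q hq q' hq' j hj j' hj' hne'
      rw [eJ' q hq, eJ' q' hq']
      by_cases hne : q = q'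
      · subst hne
        exact (hpq q hq).2.2.2.2.2.1 j hj j' hj' (fun h => hne' (by rw [h]))
      · exact disjoint_of_subset_left subset_union_right (disjoint_of_subset_right subset_union_right
          (hdiff q hq q' hq' hne j hj j' hj'))
  · -- codegrees of the union
    intro P hP
    have h1 : allJ r X JJ JJ' ⊆ univ.biUnion (fun i : {q // q ∈ linksOf X} =>
        (range (Mo r i.1.2.card)).biUnion
          (fun j => J0 i.1.2 (w i) j ∪ J0' i.1.2 (w i) j)) := by
      intro T hT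
      rw [allJ, mem_biUnion] at hT
      obtain ⟨q, hq, hT⟩ := hT
      rw [mem_biUnion] at hT
      obtain ⟨j, hj, hT⟩ := hT
      rw [eJ q hq, eJ' q hq] at hT
      rw [mem_biUnion]
      exact ⟨⟨q, hq⟩, mem_univ _, mem_biUnion.2 ⟨j, hj, hT⟩⟩
    have h2 := hw4 P hP
    have h3 : (dg (allJ r X JJ JJ') P : ℝ) ≤ (dg (univ.biUnion (fun i : {q // q ∈ linksOf X} =>
        (range (Mo r i.1.2.card)).biUnion
          (fun j => J0 i.1.2 (w i) j ∪ J0' i.1.2 (w i) j))) P : ℝ) := by
      exact_mod_cast dg_mono h1 P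
    calc (dg (allJ r X JJ JJ') P : ℝ) ≤ _ := h3
      _ ≤ η / 2 * (n : ℝ) := h2
      _ ≤ η * (n : ℝ) := by
          have : η / 2 ≤ η := by linarith
          gcongr
  · intro v
    have h1 : (linksOf X).filter (fun q => v ∈ q.2 ∪ W q.1 q.2) ⊆
        (linksOf X).filter (fun q => v ∈ q.2) ∪ (linksOf X).filter (fun q => v ∈ W q.1 q.2) := by
      intro q hq
      rw [mem_filter, mem_union] at hq
      rw [mem_union, mem_filter, mem_filter]
      tauto
    have h2 : ((linksOf X).filter (fun q => v ∈ W q.1 q.2)).card =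
        (univ.filter (fun i : {q // q ∈ linksOf X} => ∃ k, w i k = v)).card := by
      rw [← hsub (fun q => v ∈ W q.1 q.2)]
      congr 1
      refine filter_congr fun i _ => ?_
      rw [eW i.1 i.2, hrg]
    have h3 := hw6 v
    have h4 : (((linksOf X).filter (fun q => v ∈ q.2 ∪ W q.1 q.2)).card : ℝ) ≤
        (((linksOf X).filter (fun q => v ∈ q.2)).card : ℝ) +
          ((univ.filter (fun i : {q // q ∈ linksOf X} => ∃ k, w i k = v)).card : ℝ) := by
      rw [← h2]
      exact_mod_cast (card_le_card h1).trans (card_union_le _ _)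
    calc (((linksOf X).filter (fun q => v ∈ q.2 ∪ W q.1 q.2)).card : ℝ)
        ≤ 8 * p * (n : ℝ) ^ 2 + η / 2 * (n : ℝ) ^ 2 := h4.trans (add_le_add (hvert v) h3)
      _ ≤ η / 2 * (n : ℝ) ^ 2 + η / 2 * (n : ℝ) ^ 2 := by gcongr
      _ = η * (n : ℝ) ^ 2 := by ring
  · intro P hP
    have h1 : (linksOf X).filter (fun q => P ⊆ q.2 ∪ W q.1 q.2) ⊆
        (linksOf X).filter (fun q => P ⊆ q.2) ∪
          (linksOf X).filter (fun q => P ⊆ q.2 ∪ W q.1 q.2 ∧ ¬ P ⊆ q.2) := by
      intro q hq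
      rw [mem_filter] at hq
      rw [mem_union, mem_filter, mem_filter]
      tauto
    have h2 : ((linksOf X).filter (fun q => P ⊆ q.2 ∪ W q.1 q.2 ∧ ¬ P ⊆ q.2)).card =
        (univ.filter (fun i : {q // q ∈ linksOf X} =>
          P ⊆ i.1.2 ∪ rg (w i) ∧ ¬ P ⊆ i.1.2)).card := by
      rw [← hsub (fun q => P ⊆ q.2 ∪ W q.1 q.2 ∧ ¬ P ⊆ q.2)]
      congr 1
      refine filter_congr fun i _ => ?_
      rw [eW i.1 i.2]
    have h3 := hw5 P hP
    have h4 : (((linksOf X).filter (fun q => P ⊆ q.2 ∪ W q.1 q.2)).card : ℝ) ≤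
        (((linksOf X).filter (fun q => P ⊆ q.2)).card : ℝ) +
          ((univ.filter (fun i : {q // q ∈ linksOf X} =>
            P ⊆ i.1.2 ∪ rg (w i) ∧ ¬ P ⊆ i.1.2)).card : ℝ) := by
      rw [← h2]
      exact_mod_cast (card_le_card h1).trans (card_union_le _ _)
    calc (((linksOf X).filter (fun q => P ⊆ q.2 ∪ W q.1 q.2)).card : ℝ)
        ≤ 8 * p * (n : ℝ) + η / 2 * (n : ℝ) := h4.trans (add_le_add (hpair P hP) h3)
      _ ≤ η / 2 * (n : ℝ) + η / 2 * (n : ℝ) := by gcongr
      _ = η * (n : ℝ) := by ring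

end Pool.Agent.Lib.MP_5c685b_co.E
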