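import Pool.Agent.Lib.MP_5c685b_co.E.PDefs

set_option autoImplicit false

/-! # Row E22c: the partition of `L ∪ allJ` into pieces (theorem `E22c.allPieces_partition`) -/

namespace Pool.Agent.Lib.MP_5c685b_co.E

open Finset

namespace E22c

theorem rk_inj {n : ℕ} : Function.Injective (rk : Finset (Fin n) → ℕ) := by
  intro a b h
  have h1 : ∀ s : Finset (Fin n), rk s = ∑ i ∈ s.map Fin.valEmbedding, 2 ^ i := by
    intro s
    rw [Finset.sum_map]
    rfl
  rw [h1 a, h1 b] at h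
  exact Finset.map_injective _ (Finset.geomSum_injective (le_refl 2) h)

theorem Mo_pos {r : ℕ} (h45 : 45 ≤ r) (i : ℕ) : 0 < Mo r i := by
  unfold Mo
  split_ifs
  · omega
  · omega
  · omega

variable {n : ℕ} {X : Finset (Finset (Fin n))}

theorem mem_prevs {c e e' : Finset (Fin n)} : e' ∈ prevs X c e ↔ e' ∈ X ∧ c ⊆ e' ∧ rk e' < rk e ∧
    ∀ e'' ∈ X, c ⊆ e'' → rk e'' < rk e → rk e'' ≤ rk e' := by
  simp [prevs]

theorem prevs_unique {c e1 e e' : Finset (Fin n)} (he : e ∈ X) (he' : e' ∈ X) (hce : c ⊆ e)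
    (hce' : c ⊆ e') (h : e1 ∈ prevs X c e) (h' : e1 ∈ prevs X c e') : e = e' := by
  obtain ⟨_, _, a1, a2⟩ := mem_prevs.1 h
  obtain ⟨_, _, b1, b2⟩ := mem_prevs.1 h'
  by_contra hne
  rcases lt_trichotomy (rk e) (rk e') with h3 | h3 | h3
  · have := b2 e he hce h3
    omega
  · exact hne (rk_inj h3)
  · have := a2 e' he' hce' h3
    omega

theorem prevs_unique' {c e1 e1' e : Finset (Fin n)} (h : e1 ∈ prevs X c e) (h' : e1' ∈ prevs X c e) :
    e1 = e1' := by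
  obtain ⟨a3, a4, a1, a2⟩ := mem_prevs.1 h
  obtain ⟨b3, b4, b1, b2⟩ := mem_prevs.1 h'
  exact rk_inj (le_antisymm (b2 e1 a3 a4 a1) (a2 e1' b3 b4 b1))

theorem prevs_nonempty {c e x : Finset (Fin n)} (hx : x ∈ X) (hcx : c ⊆ x) (hlt : rk x < rk e) :
    (prevs X c e).Nonempty := by
  obtain ⟨m, hm, hmax⟩ := Finset.exists_max_image (X.filter fun x => c ⊆ x ∧ rk x < rk e) rk
    ⟨x, by simp [hx, hcx, hlt]⟩
  simp only [mem_filter] at hm hmax
  exact ⟨m, mem_prevs.2 ⟨hm.1, hm.2.1, hm.2.2, fun e'' h1 h2 h3 => hmax e'' ⟨h1, h2, h3⟩⟩⟩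

theorem succ_exists {c e x : Finset (Fin n)} (he : e ∈ X) (hce : c ⊆ e) (hx : x ∈ X) (hcx : c ⊆ x)
    (hlt : rk e < rk x) : ∃ e2 ∈ X, c ⊆ e2 ∧ e ∈ prevs X c e2 := by
  obtain ⟨m, hm, hmin⟩ := Finset.exists_min_image (X.filter fun x => c ⊆ x ∧ rk e < rk x) rk
    ⟨x, by simp [hx, hcx, hlt]⟩
  simp only [mem_filter] at hm hmin
  refine ⟨m, hm.1, hm.2.1, mem_prevs.2 ⟨he, hce, hm.2.2, fun e'' h1 h2 h3 => ?_⟩⟩
  by_contra h4
  have := hmin e'' ⟨h1, h2, by omega⟩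
  omega

/-- the out residue -/
def out (r : ℕ) (L : Finset (Finset (Fin n))) (c e : Finset (Fin n)) : ℕ :=
  (kin r L c e + if e ∈ L then 1 else 0) % Mo r c.card

theorem kin_of_prevs {r : ℕ} {L : Finset (Finset (Fin n))} (hLX : L ⊆ X) {c e e' : Finset (Fin n)}
    (h : e' ∈ prevs X c e) : kin r L c e = out r L c e' := by
  obtain ⟨h1, h2, h3, h4⟩ := mem_prevs.1 h
  have h5 : L.filter (fun x => c ⊆ x ∧ rk x < rk e) =
      L.filter (fun x => c ⊆ x ∧ rk x < rk e') ∪ (if e' ∈ L then {e'} else ∅) := by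
    ext x
    simp only [mem_filter, mem_union]
    constructor
    · rintro ⟨hx, hcx, hlt⟩
      have h6 := h4 x (hLX hx) hcx hlt
      rcases h6.lt_or_eq with h7 | h7
      · exact Or.inl ⟨hx, hcx, h7⟩
      · have := rk_inj h7
        subst this
        right
        simp [hx]
    · rintro (⟨hx, hcx, hlt⟩ | hx)
      · exact ⟨hx, hcx, by omega⟩
      · split_ifs at hx with h8
        · rw [mem_singleton] at hx
          subst hx
          exact ⟨h8, h2, h3⟩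
        · simp at hx
  have h6 : (L.filter (fun x => c ⊆ x ∧ rk x < rk e)).card =
      (L.filter (fun x => c ⊆ x ∧ rk x < rk e')).card + (if e' ∈ L then 1 else 0) := by
    rw [h5, card_union_of_disjoint]
    · congr 1
      split_ifs <;> simp
    · split_ifs
      · simp
      · simp
  unfold kin out
  rw [h6]
  unfold kin
  rw [Nat.mod_add_mod]

theorem out_of_last {r : ℕ} {L : Finset (Finset (Fin n))} (hLX : L ⊆ X) (hLB : Balanced r L)
    {c e : Finset (Fin n)} (hce : c ⊆ e) (hc : c.card ≤ 2)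
    (h : ∀ x ∈ X, c ⊆ x → rk x ≤ rk e) : out r L c e = 0 := by
  have h5 : L.filter (fun x => c ⊆ x) =
      L.filter (fun x => c ⊆ x ∧ rk x < rk e) ∪ (if e ∈ L then {e} else ∅) := by
    ext x
    simp only [mem_filter, mem_union]
    constructor
    · rintro ⟨hx, hcx⟩
      have h6 := h x (hLX hx) hcx
      rcases h6.lt_or_eq with h7 | h7
      · exact Or.inl ⟨hx, hcx, h7⟩
      · have := rk_inj h7
        subst this
        right
        simp [hx]
    · rintro (⟨hx, hcx, hlt⟩ | hx)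
      · exact ⟨hx, hcx⟩
      · split_ifs at hx with h8
        · rw [mem_singleton] at hx
          subst hx
          exact ⟨h8, hce⟩
        · simp at hx
  have h6 : (L.filter (fun x => c ⊆ x)).card =
      (L.filter (fun x => c ⊆ x ∧ rk x < rk e)).card + (if e ∈ L then 1 else 0) := by
    rw [h5, card_union_of_disjoint]
    · congr 1
      split_ifs <;> simp
    · split_ifs
      · simp
      · simp
  unfold out kin
  rw [Nat.mod_add_mod, ← h6]
  exact Nat.mod_eq_zero_of_dvd (hLB c hc)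

theorem kin_of_first {r : ℕ} {L : Finset (Finset (Fin n))} (hLX : L ⊆ X) {c e : Finset (Fin n)}
    (h : ¬ (prevs X c e).Nonempty) : kin r L c e = 0 := by
  unfold kin
  have : L.filter (fun x => c ⊆ x ∧ rk x < rk e) = ∅ := by
    rw [filter_eq_empty_iff]
    rintro x hx ⟨h1, h2⟩
    exact h (prevs_nonempty (hLX hx) h1 h2)
  rw [this]
  simp

/-- a family indexed without repetitions by disjoint sets -/
theorem disjoint_family {ι α : Type*} [DecidableEq α] (s : Finset ι) (F : ι → Finset α)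
    (h : ∀ i ∈ s, ∀ j ∈ s, i ≠ j → Disjoint (F i) (F j)) :
    ∀ H ∈ s.image F, ∀ H' ∈ s.image F, H ≠ H' → Disjoint H H' := by
  intro H hH H' hH' hne
  obtain ⟨i, hi, rfl⟩ := mem_image.1 hH
  obtain ⟨j, hj, rfl⟩ := mem_image.1 hH'
  exact h i hi j hj fun hij => hne (by rw [hij])

/-- the state of `e` for `L` -/
def st (r : ℕ) (X L : Finset (Finset (Fin n))) (e c : Finset (Fin n)) : ℕ :=
  if c ∈ chains e ∧ (prevs X c e).Nonempty then kin r L c e else 0

theorem st_eq {r : ℕ} {L : Finset (Finset (Fin n))} (hLX : L ⊆ X) {e c : Finset (Fin n)}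
    (hc : c ∈ chains e) : st r X L e c = kin r L c e := by
  unfold st
  split_ifs with h
  · rfl
  · exact (kin_of_first hLX fun h' => h ⟨hc, h'⟩).symm

theorem st_mem {r : ℕ} (h45 : 45 ≤ r) {L : Finset (Finset (Fin n))} (e : Finset (Fin n)) :
    ((if e ∈ L then 1 else 0), st r X L e) ∈ states r X e := by
  unfold states
  rw [mem_product, Fintype.mem_piFinset]
  refine ⟨by split_ifs <;> simp, fun c => ?_⟩
  change st r X L e c ∈ _
  unfold st
  by_cases h : c ∈ chains e ∧ (prevs X c e).Nonempty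
  · rw [if_pos h, if_pos h]
    exact mem_range.2 (Nat.mod_lt _ (Mo_pos h45 _))
  · rw [if_neg h, if_neg h]
    exact mem_singleton_self _

theorem mem_chains {e c : Finset (Fin n)} : c ∈ chains e ↔ c ⊆ e ∧ c.card ≤ 2 := by
  simp [chains]

theorem mem_linksOf {p : Finset (Fin n) × Finset (Fin n)} :
    p ∈ linksOf X ↔ p.1 ∈ X ∧ p.2 ⊆ p.1 ∧ p.2.card ≤ 2 := by
  simp [linksOf]

theorem mem_piece {r : ℕ} {L : Finset (Finset (Fin n))} (hLX : L ⊆ X)
    (J J' : Finset (Fin n) → Finset (Fin n) → ℕ → Finset (Finset (Fin n))) {e T : Finset (Fin n)} :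
    T ∈ piece r X J J' e (if e ∈ L then 1 else 0) (st r X L e) ↔
      (e ∈ L ∧ T = e) ∨ (∃ c ∈ chains e, ∃ e' ∈ prevs X c e, T ∈ J e' c (out r L c e')) ∨
      (∃ c ∈ chains e, T ∈ J' e c (out r L c e)) := by
  unfold piece inc
  simp only [mem_union, mem_biUnion]
  constructor
  · rintro (h | ⟨c, hc, ⟨e', he', hT⟩ | hT⟩)
    · by_cases he : e ∈ L
      · simp only [he, if_true, mem_singleton] at h
        exact Or.inl ⟨he, h⟩
      · simp [he] at h
    · rw [st_eq hLX hc, kin_of_prevs hLX he'] at hT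
      exact Or.inr (Or.inl ⟨c, hc, e', he', hT⟩)
    · rw [st_eq hLX hc] at hT
      exact Or.inr (Or.inr ⟨c, hc, hT⟩)
  · rintro (⟨he, rfl⟩ | ⟨c, hc, e', he', hT⟩ | ⟨c, hc, hT⟩)
    · left
      simp [he]
    · refine Or.inr ⟨c, hc, Or.inl ⟨e', he', ?_⟩⟩
      rw [st_eq hLX hc, kin_of_prevs hLX he']
      exact hT
    · refine Or.inr ⟨c, hc, Or.inr ?_⟩
      rw [st_eq hLX hc]
      exact hT

theorem out_lt {r : ℕ} (h45 : 45 ≤ r) (L : Finset (Finset (Fin n))) (c e : Finset (Fin n)) :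
    out r L c e < Mo r c.card := Nat.mod_lt _ (Mo_pos h45 _)

/-- E22c: the partition for a balanced `L`: the pieces `piece r X J J' e [e ∈ L] (kin r L · e)` and the
sets `J p j ∪ J' p j` with `j` different from the out residue `kin + [e ∈ L]` (mod the modulus). -/
theorem allPieces_partition {r : ℕ} (hr : r % 6 = 3) (h45 : 45 ≤ r) {n M : ℕ}
    {G X : Finset (Finset (Fin n))} (hG : Triples G) (hX : X ⊆ G) {w J J'}
    (hL : Links r M G X w J J') (L : Finset (Finset (Fin n))) (hLX : L ⊆ X) (hLB : Balanced r L) :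
    ∃ PL ⊆ allPieces r X J J', (∀ H ∈ PL, ∀ H' ∈ PL, H ≠ H' → Disjoint H H') ∧
      PL.biUnion id = L ∪ allJ r X J J' := by
  classical
  -- uniqueness of owners
  have u1 : ∀ p ∈ linksOf X, ∀ j < Mo r p.2.card, ∀ T ∈ J p.1 p.2 j, T ∉ X := fun p hp j hj T hT =>
    (hL.mem p hp j hj T (mem_union_left _ hT)).2.2.1
  have u2 : ∀ p ∈ linksOf X, ∀ j < Mo r p.2.card, ∀ T ∈ J' p.1 p.2 j, T ∉ X := fun p hp j hj T hT =>
    (hL.mem p hp j hj T (mem_union_right _ hT)).2.2.1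
  have u3 : ∀ p ∈ linksOf X, ∀ p' ∈ linksOf X, ∀ j < Mo r p.2.card, ∀ j' < Mo r p'.2.card,
      ∀ T ∈ J p.1 p.2 j, T ∈ J p'.1 p'.2 j' → (p, j) = (p', j') := by
    intro p hp p' hp' j hj j' hj' T hT hT'
    by_contra hne
    exact (Finset.disjoint_left.1 (hL.dJJ p hp p' hp' j hj j' hj' hne)) hT hT'
  have u4 : ∀ p ∈ linksOf X, ∀ p' ∈ linksOf X, ∀ j < Mo r p.2.card, ∀ j' < Mo r p'.2.card,
      ∀ T ∈ J' p.1 p.2 j, T ∈ J' p'.1 p'.2 j' → (p, j) = (p', j') := by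
    intro p hp p' hp' j hj j' hj' T hT hT'
    by_contra hne
    exact (Finset.disjoint_left.1 (hL.dJ'J' p hp p' hp' j hj j' hj' hne)) hT hT'
  have u5 : ∀ p ∈ linksOf X, ∀ p' ∈ linksOf X, ∀ j < Mo r p.2.card, ∀ j' < Mo r p'.2.card,
      ∀ T ∈ J p.1 p.2 j, T ∉ J' p'.1 p'.2 j' := by
    intro p hp p' hp' j hj j' hj' T hT hT'
    exact (Finset.disjoint_left.1 (hL.dJJ' p hp p' hp' j hj j' hj')) hT hT'
  have hlk : ∀ e ∈ X, ∀ c ∈ chains e, (e, c) ∈ linksOf X := fun e he c hc =>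
    mem_linksOf.2 ⟨he, (mem_chains.1 hc).1, (mem_chains.1 hc).2⟩
  have hlk' : ∀ e, ∀ c ∈ chains e, ∀ e' ∈ prevs X c e, (e', c) ∈ linksOf X := fun e c hc e' he' =>
    mem_linksOf.2 ⟨(mem_prevs.1 he').1, (mem_prevs.1 he').2.1, (mem_chains.1 hc).2⟩
  set P : Finset (Fin n) → Finset (Finset (Fin n)) := fun e =>
    piece r X J J' e (if e ∈ L then 1 else 0) (st r X L e) with hP
  set Q : (Finset (Fin n) × Finset (Fin n)) → ℕ → Finset (Finset (Fin n)) := fun p j =>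
    J p.1 p.2 j ∪ J' p.1 p.2 j with hQ
  have hPP : ∀ e ∈ X, ∀ e' ∈ X, e ≠ e' → Disjoint (P e) (P e') := by
    intro e he e' he' hne
    rw [Finset.disjoint_left]
    intro T hT hT'
    rw [hP, mem_piece hLX] at hT hT'
    rcases hT with ⟨h1, h2⟩ | ⟨c, hc, e1, he1, h1⟩ | ⟨c, hc, h1⟩
    · rcases hT' with ⟨h3, h4⟩ | ⟨c', hc', e1', he1', h3⟩ | ⟨c', hc', h3⟩
      · exact hne (h2.symm.trans h4)
      · exact u1 _ (hlk' _ _ hc' _ he1') _ (out_lt h45 _ _ _) T h3 (h2 ▸ he)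
      · exact u2 _ (hlk _ he' _ hc') _ (out_lt h45 _ _ _) T h3 (h2 ▸ he)
    · rcases hT' with ⟨h3, h4⟩ | ⟨c', hc', e1', he1', h3⟩ | ⟨c', hc', h3⟩
      · exact u1 _ (hlk' _ _ hc _ he1) _ (out_lt h45 _ _ _) T h1 (h4 ▸ he')
      · have h5 := u3 _ (hlk' _ _ hc _ he1) _ (hlk' _ _ hc' _ he1') _ (out_lt h45 _ _ _) _
          (out_lt h45 _ _ _) T h1 h3
        simp only [Prod.mk.injEq] at h5
        obtain ⟨⟨h6, h7⟩, -⟩ := h5
        subst h6
        subst h7
        exact hne (prevs_unique he he' (mem_chains.1 hc).1 (mem_chains.1 hc').1 he1 he1')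
      · exact u5 _ (hlk' _ _ hc _ he1) _ (hlk _ he' _ hc') _ (out_lt h45 _ _ _) _
          (out_lt h45 _ _ _) T h1 h3
    · rcases hT' with ⟨h3, h4⟩ | ⟨c', hc', e1', he1', h3⟩ | ⟨c', hc', h3⟩
      · exact u2 _ (hlk _ he _ hc) _ (out_lt h45 _ _ _) T h1 (h4 ▸ he')
      · exact u5 _ (hlk' _ _ hc' _ he1') _ (hlk _ he _ hc) _ (out_lt h45 _ _ _) _
          (out_lt h45 _ _ _) T h3 h1
      · have h5 := u4 _ (hlk _ he _ hc) _ (hlk _ he' _ hc') _ (out_lt h45 _ _ _) _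
          (out_lt h45 _ _ _) T h1 h3
        simp only [Prod.mk.injEq] at h5
        exact hne h5.1.1
  have hPQ : ∀ e ∈ X, ∀ p ∈ linksOf X, ∀ j < Mo r p.2.card, j ≠ out r L p.2 p.1 →
      Disjoint (P e) (Q p j) := by
    intro e he p hp j hj hne
    rw [Finset.disjoint_left]
    intro T hT hT'
    rw [hP, mem_piece hLX] at hT
    rw [hQ, mem_union] at hT'
    rcases hT with ⟨h1, h2⟩ | ⟨c, hc, e1, he1, h1⟩ | ⟨c, hc, h1⟩
    · rcases hT' with h3 | h3
      · exact u1 _ hp _ hj T h3 (h2 ▸ he)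
      · exact u2 _ hp _ hj T h3 (h2 ▸ he)
    · rcases hT' with h3 | h3
      · have h5 := u3 _ (hlk' _ _ hc _ he1) _ hp _ (out_lt h45 _ _ _) _ hj T h1 h3
        simp only [Prod.mk.injEq] at h5
        obtain ⟨h6, h7⟩ := h5
        subst h6
        exact hne h7.symm
      · exact u5 _ (hlk' _ _ hc _ he1) _ hp _ (out_lt h45 _ _ _) _ hj T h1 h3
    · rcases hT' with h3 | h3
      · exact u5 _ hp _ (hlk _ he _ hc) _ hj _ (out_lt h45 _ _ _) T h3 h1
      · have h5 := u4 _ (hlk _ he _ hc) _ hp _ (out_lt h45 _ _ _) _ hj T h1 h3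
        simp only [Prod.mk.injEq] at h5
        obtain ⟨h6, h7⟩ := h5
        subst h6
        exact hne h7.symm
  have hQQ : ∀ p ∈ linksOf X, ∀ p' ∈ linksOf X, ∀ j < Mo r p.2.card, ∀ j' < Mo r p'.2.card,
      (p, j) ≠ (p', j') → Disjoint (Q p j) (Q p' j') := by
    intro p hp p' hp' j hj j' hj' hne
    rw [Finset.disjoint_left]
    intro T hT hT'
    rw [hQ, mem_union] at hT hT'
    rcases hT with h1 | h1 <;> rcases hT' with h3 | h3
    · exact hne (u3 _ hp _ hp' _ hj _ hj' T h1 h3)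
    · exact u5 _ hp _ hp' _ hj _ hj' T h1 h3
    · exact u5 _ hp' _ hp _ hj' _ hj T h3 h1
    · exact hne (u4 _ hp _ hp' _ hj _ hj' T h1 h3)
  set PL : Finset (Finset (Finset (Fin n))) := X.image P ∪
    (linksOf X).biUnion (fun p => ((range (Mo r p.2.card)).filter (fun j => j ≠ out r L p.2 p.1)).image
      (Q p)) with hPL
  have hmemPL : ∀ H, H ∈ PL ↔ (∃ e ∈ X, P e = H) ∨
      ∃ p ∈ linksOf X, ∃ j < Mo r p.2.card, j ≠ out r L p.2 p.1 ∧ Q p j = H := by
    intro H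
    simp only [hPL, mem_union, mem_image, mem_biUnion, mem_filter, mem_range]
    constructor
    · rintro (h | ⟨p, hp, j, ⟨hj, hj'⟩, rfl⟩)
      · exact Or.inl h
      · exact Or.inr ⟨p, hp, j, hj, hj', rfl⟩
    · rintro (h | ⟨p, hp, j, hj, hj', rfl⟩)
      · exact Or.inl h
      · exact Or.inr ⟨p, hp, j, ⟨hj, hj'⟩, rfl⟩
  refine ⟨PL, ?_, ?_, ?_⟩
  · intro H hH
    unfold allPieces
    rw [mem_union]
    rcases (hmemPL H).1 hH with ⟨e, he, rfl⟩ | ⟨p, hp, j, hj, -, rfl⟩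
    · left
      exact mem_biUnion.2 ⟨e, he, mem_image.2 ⟨_, st_mem h45 e, rfl⟩⟩
    · right
      exact mem_biUnion.2 ⟨p, hp, mem_image.2 ⟨j, mem_range.2 hj, rfl⟩⟩
  · intro H hH H' hH' hne
    rcases (hmemPL H).1 hH with ⟨e, he, rfl⟩ | ⟨p, hp, j, hj, hj2, rfl⟩ <;>
      rcases (hmemPL H').1 hH' with ⟨e', he', rfl⟩ | ⟨p', hp', j', hj', hj2', rfl⟩
    · exact hPP e he e' he' fun h => hne (by rw [h])
    · exact hPQ e he p' hp' j' hj' hj2'
    · exact (hPQ e' he' p hp j hj hj2).symm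
    · refine hQQ p hp p' hp' j hj j' hj' fun h => hne ?_
      simp only [Prod.mk.injEq] at h
      rw [h.1, h.2]
  · ext T
    rw [mem_biUnion, mem_union]
    unfold allJ
    simp only [mem_biUnion, mem_range, id]
    constructor
    · rintro ⟨H, hH, hT⟩
      rcases (hmemPL H).1 hH with ⟨e, he, rfl⟩ | ⟨p, hp, j, hj, -, rfl⟩
      · rw [hP, mem_piece hLX] at hT
        rcases hT with ⟨h1, h2⟩ | ⟨c, hc, e1, he1, h1⟩ | ⟨c, hc, h1⟩
        · exact Or.inl (h2 ▸ h1)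
        · exact Or.inr ⟨(e1, c), hlk' _ _ hc _ he1, _, out_lt h45 L c e1, mem_union_left _ h1⟩
        · exact Or.inr ⟨(e, c), hlk _ he _ hc, _, out_lt h45 L c e, mem_union_right _ h1⟩
      · exact Or.inr ⟨p, hp, j, hj, hT⟩
    · rintro (hT | ⟨p, hp, j, hj, hT⟩)
      · exact ⟨P T, (hmemPL _).2 (Or.inl ⟨T, hLX hT, rfl⟩), (mem_piece hLX J J').2
          (Or.inl ⟨hT, rfl⟩)⟩
      · by_cases hjo : j = out r L p.2 p.1
        · obtain ⟨hp1, hp2, hp3⟩ := mem_linksOf.1 hp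
          rcases mem_union.1 hT with h1 | h1
          · by_cases hlast : ∀ x ∈ X, p.2 ⊆ x → rk x ≤ rk p.1
            · exfalso
              rw [hjo, out_of_last hLX hLB hp2 hp3 hlast, (hL.zero p hp).1] at h1
              simp at h1
            · push Not at hlast
              obtain ⟨x, hx, hcx, hlt⟩ := hlast
              obtain ⟨e2, he2, hce2, hprev⟩ := succ_exists hp1 hp2 hx hcx hlt
              refine ⟨P e2, (hmemPL _).2 (Or.inl ⟨e2, he2, rfl⟩), (mem_piece hLX J J').2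
                (Or.inr (Or.inl ⟨p.2, mem_chains.2 ⟨hce2, hp3⟩, p.1, hprev, ?_⟩))⟩
              rw [← hjo]
              exact h1
          · refine ⟨P p.1, (hmemPL _).2 (Or.inl ⟨p.1, hp1, rfl⟩), (mem_piece hLX J J').2
              (Or.inr (Or.inr ⟨p.2, mem_chains.2 ⟨hp2, hp3⟩, ?_⟩))⟩
            rw [← hjo]
            exact h1
        · exact ⟨Q p j, (hmemPL _).2 (Or.inr ⟨p, hp, j, hj, hjo, rfl⟩), hT⟩

end E22c

end Pool.Agent.Lib.MP_5c685b_co.E
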