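import Pool.Agent.Lib.MP_5c685b_co.E.Defs
import Pool.Agent.Lib.MP_5c685b_co.D.Emb

/-! MP_5c685b_co, exact decomposition for k = 3: the embedding lemma (section 5). -/

set_option autoImplicit false
set_option linter.all false

namespace Pool.Agent.Lib.MP_5c685b_co.E

open Finset

theorem dg_pair_eq_codeg {n : ℕ} (U : Finset (Finset (Fin n))) (x y : Fin n) :
    dg U {x, y} = MP5c685b.Emb.codeg U x y := by
  unfold dg MP5c685b.Emb.codeg
  congr 1
  ext T
  simp only [mem_filter, Finset.insert_subset_iff, Finset.singleton_subset_iff]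

theorem embStmt : EmbStmt := by
  intro s M c η hc hη
  obtain ⟨lam, hl, n0, h⟩ := MP5c685b.Emb.emb s M hc hη
  refine ⟨lam, hl, n0, ?_⟩
  intro n hn ι _ _ S Pi Om E F hN hS hPi hOm hw hv hP hF
  have h1 := h (V := Fin n) (by rw [Fintype.card_fin]; exact hn) (ι := ι) S Pi Om E F
  have hdec : (fun a b => Classical.propDecidable (a = b)) = instDecidableEqFin n :=
    Subsingleton.elim _ _
  rw [hdec] at h1
  simp only [Fintype.card_fin] at h1
  obtain ⟨w, a1, a2, a3, a4, a5, a6⟩ := h1 hN hS hOm
    (fun i w hw' => ⟨(hw i w hw').1, (hw i w hw').2.1⟩)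
    (fun i w hw' T hT => by
      obtain ⟨b1, b2, b3, b4⟩ := (hw i w hw').2.2 T hT
      refine ⟨b1, fun x hx => ?_, b3, ?_⟩
      · rcases Finset.mem_union.mp (b2 hx) with h2 | h2
        · exact Or.inl h2
        · right
          simpa [rg] using h2
      · intro x hx y hy hxy hxS hyS
        exact b4 x hx y hy hxy hxS hyS)
    (fun x => by
      refine le_trans (le_of_eq ?_) (hv x)
      norm_cast)
    (fun x y hxy => by
      refine le_trans (le_of_eq ?_) (hP {x, y} (Finset.card_pair hxy))
      norm_cast)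
    (fun x y hxy => by
      have := hF {x, y} (Finset.card_pair hxy)
      rw [dg_pair_eq_codeg] at this
      exact this)
  refine ⟨w, a1, a2, a3, ?_, ?_, ?_⟩
  · intro P hP2
    obtain ⟨x, y, hxy, rfl⟩ := Finset.card_eq_two.mp hP2
    rw [dg_pair_eq_codeg]
    exact a4 x y hxy
  · intro P hP2
    obtain ⟨x, y, hxy, rfl⟩ := Finset.card_eq_two.mp hP2
    refine le_trans (le_of_eq ?_) (a5 x y hxy)
    norm_cast
    congr 1
    ext i
    simp only [mem_filter, mem_univ, true_and, Finset.insert_subset_iff,
      Finset.singleton_subset_iff, mem_union, rg, mem_image]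
    tauto
  · intro v
    refine le_trans (le_of_eq ?_) (a6 v)
    norm_cast
    congr 1
    ext i
    simp only [mem_filter]

end Pool.Agent.Lib.MP_5c685b_co.E
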