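import Pool.Agent.Lib.MP_5c685b_co.E.Mds

/-! MP_5c685b_co: section 1.4, exchange of two cliques with a common triple, and the flip, helper98 -/

set_option autoImplicit false
set_option linter.all false

namespace Pool.Agent.Lib.MP_5c685b_co.E

open Finset

section exch

variable {U : Type*} [DecidableEq U]

lemma exists_al (r : ℕ) : ∃ (q : ℕ) (_ : Fact q.Prime) (al : Fin r → ZMod q),
    Function.Injective al := by
  obtain ⟨q, hq, hp⟩ := Nat.exists_infinite_primes r
  haveI : Fact q.Prime := ⟨hp⟩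
  refine ⟨q, ⟨hp⟩, fun i => (i.val : ZMod q), ?_⟩
  intro i j h
  have h' := congrArg ZMod.val h
  simp only [ZMod.val_natCast] at h'
  rw [Nat.mod_eq_of_lt (i.2.trans_le hq), Nat.mod_eq_of_lt (j.2.trans_le hq)] at h'
  exact Fin.ext h'

variable {r q : ℕ} [Fact q.Prime]

lemma good_allT {pt : Fin r → ZMod q → U} (hpt : Inj2 pt) {Good : U → U → Prop}
    (hG : ∀ i x j y, i ≠ j → Good (pt i x) (pt j y)) {T : Finset U} (hT : T ∈ allT pt) :
    ∀ x ∈ T, ∀ y ∈ T, x ≠ y → Good x y := by
  obtain ⟨φ, I, hI, rfl⟩ := (mem_allT hpt).1 hT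
  intro x hx y hy hne
  obtain ⟨i, hi, rfl⟩ := mem_image.1 hx
  obtain ⟨j, hj, rfl⟩ := mem_image.1 hy
  exact hG _ _ _ _ (by rintro rfl; exact hne rfl)

lemma card_allT {pt : Fin r → ZMod q → U} (hpt : Inj2 pt) {T : Finset U} (hT : T ∈ allT pt) :
    T.card = 3 := by
  obtain ⟨φ, hφ⟩ := Finset.mem_biUnion.1 hT
  exact (mem_tri.1 hφ.2).2

lemma points_allT {pt : Fin r → ZMod q → U} (hpt : Inj2 pt) {T : Finset U} (hT : T ∈ allT pt) :
    ∀ x ∈ T, ∃ i y, x = pt i y := by
  obtain ⟨φ, I, hI, rfl⟩ := (mem_allT hpt).1 hT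
  intro x hx
  obtain ⟨i, hi, rfl⟩ := mem_image.1 hx
  exact ⟨i, _, rfl⟩

/-- exchange of two cliques sharing exactly one triple -/
theorem exchange {r : ℕ} (a b : Fin r → U) (I : Finset (Fin r)) (hI : I.card = 3)
    (ha : Function.Injective a) (hb : Function.Injective b)
    (hab : ∀ i j, a i = b j → i = j ∧ i ∈ I) (hIab : ∀ i ∈ I, a i = b i)
    (fr : Fin r → ℕ → U) (hfr : ∀ i n j m, fr i n = fr j m → i = j ∧ n = m)
    (hfa : ∀ i n j, fr i n ≠ a j) (hfb : ∀ i n j, fr i n ≠ b j)
    (Good : U → U → Prop) (gsymm : ∀ x y, Good x y → Good y x)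
    (g1 : ∀ i j, i ≠ j → Good (a i) (a j)) (g2 : ∀ i j, i ≠ j → Good (a i) (b j))
    (g3 : ∀ i j, i ≠ j → Good (b i) (b j))
    (g4 : ∀ i n j, i ≠ j → Good (fr i n) (a j)) (g5 : ∀ i n j, i ≠ j → Good (fr i n) (b j))
    (g6 : ∀ i n j m, i ≠ j → Good (fr i n) (fr j m)) :
    ∃ T : Finset (Finset U),
      Dec r (T ∪ (tri (univ.image a)).erase (I.image a)) ∧
      Dec r (T ∪ (tri (univ.image b)).erase (I.image a)) ∧
      Disjoint T (tri (univ.image a)) ∧ Disjoint T (tri (univ.image b)) ∧
      ∀ t ∈ T, t.card = 3 ∧ (∀ x ∈ t, ∀ y ∈ t, x ≠ y → Good x y) ∧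
        (∀ x ∈ t, (∃ i, x = a i) ∨ (∃ i, x = b i) ∨ ∃ i n, x = fr i n) ∧
        ((∃ i n, fr i n ∈ t) ∨ ((∃ i, i ∉ I ∧ a i ∈ t) ∧ ∃ i, i ∉ I ∧ b i ∈ t)) := by
  classical
  obtain ⟨q, hq, al, hal⟩ := exists_al r
  set pt : Fin r → ZMod q → U := fun i x =>
    if x = 0 then a i else if x = 1 ∧ i ∉ I then b i else fr i x.val with hptdef
  have hpt : Inj2 pt := by
    intro i x j y h
    simp only [hptdef] at h
    split_ifs at h with h1 h2 h3 h4 h5 h6 h7 h8
    · exact ⟨ha h, h1.trans h2.symm⟩
    · exact absurd (hab _ _ h).2 (by rw [(hab _ _ h).1]; exact h3.2)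
    · exact absurd h.symm (hfa _ _ _)
    · have := hab _ _ h.symm
      exact absurd this.2 (by rw [this.1]; exact h4.2)
    · exact ⟨hb h, h4.1.trans h6.1.symm⟩
    · exact absurd h.symm (hfb _ _ _)
    · exact absurd h (hfa _ _ _)
    · exact absurd h (hfb _ _ _)
    · obtain ⟨e1, e2⟩ := hfr _ _ _ _ h
      exact ⟨e1, ZMod.val_injective q e2⟩
  set ψ : Fin r → ZMod q := fun i => if i ∈ I then 0 else 1 with hψ
  have e0 : clq pt (fun _ => 0) = univ.image a := by
    unfold clq
    simp [hptdef]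
  have e1 : clq pt ψ = univ.image b := by
    unfold clq
    refine Finset.image_congr fun i _ => ?_
    simp only [hptdef, hψ]
    by_cases h : i ∈ I
    · simp [h, hIab i h]
    · simp [h]
  have hg : I.image a = I.image fun i => pt i ((fun _ => (0 : ZMod q)) i) := by
    simp [hptdef]
  -- the common triple
  have hint : ∀ t, t ∈ tri (univ.image a) → t ∈ tri (univ.image b) → t = I.image a := by
    intro t h1 h2
    rw [← e0] at h1
    rw [← e1] at h2
    obtain ⟨J, hJ, rfl⟩ := (mem_tri_clq hpt).1 h1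
    have h3 := (mem_tri_clq_iff hpt hJ).1 h2
    have hJI : J ⊆ I := by
      intro i hi
      by_contra hcon
      have := h3 i hi
      simp [hψ, hcon] at this
    have : J = I := Finset.eq_of_subset_of_card_le hJI (by rw [hJ, hI])
    rw [this, hg]
  have hga : I.image a ∈ tri (univ.image a) :=
    mem_tri.2 ⟨Finset.image_subset_image (subset_univ _), by
      rw [Finset.card_image_of_injective _ ha]; exact hI⟩
  have hgb : I.image a ∈ tri (univ.image b) := by
    have : I.image a = I.image b := Finset.image_congr fun i hi => hIab i hi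
    rw [this]
    exact mem_tri.2 ⟨Finset.image_subset_image (subset_univ _), by
      rw [Finset.card_image_of_injective _ hb]; exact hI⟩
  have hsa : tri (univ.image a) ⊆ allT pt := by rw [← e0]; exact tri_clq_subset_allT _
  have hsb : tri (univ.image b) ⊆ allT pt := by rw [← e1]; exact tri_clq_subset_allT _
  have hda : Dec r (allT pt \ tri (univ.image a)) := by
    rw [← e0]; exact dec_allT_sdiff hal _ hpt
  have hdb : Dec r (allT pt \ tri (univ.image b)) := by
    rw [← e1]; exact dec_allT_sdiff hal _ hpt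
  refine ⟨allT pt \ (tri (univ.image a) ∪ tri (univ.image b)), ?_, ?_, ?_, ?_, ?_⟩
  · have : allT pt \ (tri (univ.image a) ∪ tri (univ.image b)) ∪
        (tri (univ.image a)).erase (I.image a) = allT pt \ tri (univ.image b) := by
      ext t
      simp only [mem_union, mem_sdiff, mem_erase, not_or]
      constructor
      · rintro (⟨h1, h2, h3⟩ | ⟨h1, h2⟩)
        · exact ⟨h1, h3⟩
        · exact ⟨hsa h2, fun h3 => h1 (hint t h2 h3)⟩
      · rintro ⟨h1, h2⟩
        by_cases h3 : t ∈ tri (univ.image a)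
        · exact Or.inr ⟨fun h4 => h2 (h4 ▸ hgb), h3⟩
        · exact Or.inl ⟨h1, h3, h2⟩
    rw [this]; exact hdb
  · have : allT pt \ (tri (univ.image a) ∪ tri (univ.image b)) ∪
        (tri (univ.image b)).erase (I.image a) = allT pt \ tri (univ.image a) := by
      ext t
      simp only [mem_union, mem_sdiff, mem_erase, not_or]
      constructor
      · rintro (⟨h1, h2, h3⟩ | ⟨h1, h2⟩)
        · exact ⟨h1, h2⟩
        · exact ⟨hsb h2, fun h3 => h1 (hint t h3 h2)⟩
      · rintro ⟨h1, h2⟩
        by_cases h3 : t ∈ tri (univ.image b)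
        · exact Or.inr ⟨fun h4 => h2 (h4 ▸ hga), h3⟩
        · exact Or.inl ⟨h1, h2, h3⟩
    rw [this]; exact hda
  · exact Finset.disjoint_left.2 fun t h1 h2 =>
      (mem_sdiff.1 h1).2 (mem_union_left _ h2)
  · exact Finset.disjoint_left.2 fun t h1 h2 =>
      (mem_sdiff.1 h1).2 (mem_union_right _ h2)
  · intro t ht
    obtain ⟨ht1, ht2⟩ := mem_sdiff.1 ht
    rw [mem_union, not_or] at ht2
    have hc := card_allT hpt ht1
    refine ⟨hc, good_allT hpt ?_ ht1, ?_, ?_⟩
    · intro i x j y hij
      simp only [hptdef]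
      split_ifs
      · exact g1 _ _ hij
      · exact g2 _ _ hij
      · exact gsymm _ _ (g4 _ _ _ hij.symm)
      · exact gsymm _ _ (g2 _ _ hij.symm)
      · exact g3 _ _ hij
      · exact gsymm _ _ (g5 _ _ _ hij.symm)
      · exact g4 _ _ _ hij
      · exact g5 _ _ _ hij
      · exact g6 _ _ _ _ hij
    · intro x hx
      obtain ⟨i, y, rfl⟩ := points_allT hpt ht1 x hx
      simp only [hptdef]
      split_ifs
      · exact Or.inl ⟨i, rfl⟩
      · exact Or.inr (Or.inl ⟨i, rfl⟩)
      · exact Or.inr (Or.inr ⟨i, _, rfl⟩)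
    · by_cases hf : ∃ i n, fr i n ∈ t
      · exact Or.inl hf
      · right
        push Not at hf
        have hp : ∀ x ∈ t, (∃ i, x = a i) ∨ ∃ i, i ∉ I ∧ x = b i := by
          intro x hx
          obtain ⟨i, y, rfl⟩ := points_allT hpt ht1 x hx
          by_cases h0 : y = 0
          · left; exact ⟨i, by simp [hptdef, h0]⟩
          · by_cases h1 : y = 1 ∧ i ∉ I
            · right; exact ⟨i, h1.2, by simp only [hptdef]; rw [if_neg h0, if_pos h1]⟩
            · exfalso
              have : pt i y = fr i y.val := by simp only [hptdef]; rw [if_neg h0, if_neg h1]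
              rw [this] at hx
              exact hf _ _ hx
        constructor
        · by_contra hcon
          push Not at hcon
          apply ht2.2
          refine mem_tri.2 ⟨?_, hc⟩
          intro x hx
          rcases hp x hx with ⟨i, rfl⟩ | ⟨i, -, rfl⟩
          · have : i ∈ I := by
              by_contra h
              exact hcon i h hx
            rw [hIab i this]
            exact mem_image_of_mem _ (mem_univ _)
          · exact mem_image_of_mem _ (mem_univ _)
        · by_contra hcon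
          push Not at hcon
          apply ht2.1
          refine mem_tri.2 ⟨?_, hc⟩
          intro x hx
          rcases hp x hx with ⟨i, rfl⟩ | ⟨i, hi, rfl⟩
          · exact mem_image_of_mem _ (mem_univ _)
          · exact absurd hx (hcon i hi)

/-- flip of a clique -/
theorem flip {r : ℕ} (c : Fin r → U) (hc : Function.Injective c)
    (fr : Fin r → ℕ → U) (hfr : ∀ i n j m, fr i n = fr j m → i = j ∧ n = m)
    (hfc : ∀ i n j, fr i n ≠ c j)
    (Good : U → U → Prop) (gsymm : ∀ x y, Good x y → Good y x)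
    (g1 : ∀ i j, i ≠ j → Good (c i) (c j))
    (g2 : ∀ i n j, i ≠ j → Good (fr i n) (c j))
    (g3 : ∀ i n j m, i ≠ j → Good (fr i n) (fr j m)) :
    ∃ (Y R : Finset (Finset U)) (d : Finset (Fin r) → Fin r → U),
      Dec r Y ∧ Dec r R ∧
      (∀ J : Finset (Fin r), J.card = 3 → (∀ i ∈ J, d J i = c i) ∧
        (∀ i, i ∉ J → ∃ n, d J i = fr i n) ∧ Function.Injective (d J)) ∧
      (Y = R ∪ (univ.powersetCard 3).biUnion fun J =>
        (tri (univ.image (d J))).erase (J.image c)) ∧
      (∀ J : Finset (Fin r), J.card = 3 → Disjoint R (tri (univ.image (d J)))) ∧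
      (∀ J J' : Finset (Fin r), J.card = 3 → J'.card = 3 → J ≠ J' →
        Disjoint (tri (univ.image (d J))) (tri (univ.image (d J')))) ∧
      (∀ t ∈ Y, t.card = 3 ∧ (∀ x ∈ t, ∀ y ∈ t, x ≠ y → Good x y) ∧ (∃ i n, fr i n ∈ t) ∧
        ∀ x ∈ t, (∃ i, x = c i) ∨ ∃ i n, x = fr i n) := by
  classical
  obtain ⟨q, hq, al, hal⟩ := exists_al r
  set pt : Fin r → ZMod q → U := fun i x => if x = 0 then c i else fr i x.val with hptdef
  have hpt : Inj2 pt := by
    intro i x j y h
    simp only [hptdef] at h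
    split_ifs at h with h1 h2 h3
    · exact ⟨hc h, h1.trans h2.symm⟩
    · exact absurd h.symm (hfc _ _ _)
    · exact absurd h (hfc _ _ _)
    · obtain ⟨e1, e2⟩ := hfr _ _ _ _ h
      exact ⟨e1, ZMod.val_injective q e2⟩
  have e0 : clq pt (fun _ => 0) = univ.image c := by
    unfold clq
    simp [hptdef]
  set v : Fin r → ZMod q := fun i => al i ^ 3 with hv
  have hex : ∀ J : Finset (Fin r), ∃ p : ZMod q × ZMod q × ZMod q, J.card = 3 →
      ∀ i, fam al v p i = 0 ↔ i ∈ J := by
    intro J
    by_cases hJ : J.card = 3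
    · obtain ⟨p, hp⟩ := exists_cubic hal hJ
      exact ⟨p, fun _ => hp⟩
    · exact ⟨0, fun h => absurd h hJ⟩
  choose pJ hpJ using hex
  set R : Finset (Finset U) :=
    ((univ : Finset (ZMod q × ZMod q × ZMod q)).filter fun p =>
      (univ.filter fun i => fam al v p i = 0).card ≤ 2).biUnion
        fun p => tri (clq pt (fam al v p)) with hR
  set d : Finset (Fin r) → Fin r → U := fun J i => pt i (fam al v (pJ J) i) with hd
  have hdclq : ∀ J, univ.image (d J) = clq pt (fam al v (pJ J)) := fun J => rfl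
  have him : ∀ I : Finset (Fin r), I.image c = I.image fun i => pt i ((fun _ => (0 : ZMod q)) i) := by
    intro I
    simp [hptdef]
  -- members containing a triple of `c`
  have hcm : ∀ t, t ∈ tri (univ.image c) → ∀ φ : Fin r → ZMod q, t ∈ tri (clq pt φ) →
      ∃ I : Finset (Fin r), I.card = 3 ∧ t = I.image c ∧ ∀ i ∈ I, φ i = 0 := by
    intro t h1 φ h2
    rw [← e0] at h1
    obtain ⟨I, hI, rfl⟩ := (mem_tri_clq hpt).1 h1
    refine ⟨I, hI, (him I).symm, fun i hi => ((mem_tri_clq_iff hpt hI).1 h2 i hi).symm⟩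
  refine ⟨allT pt \ tri (univ.image c), R, d, ?_, dec_fam hal v hpt _, ?_, ?_, ?_, ?_, ?_⟩
  · rw [← e0]; exact dec_allT_sdiff hal _ hpt
  · intro J hJ
    refine ⟨?_, ?_, ?_⟩
    · intro i hi
      have := (hpJ J hJ i).2 hi
      simp only [hd, hptdef]
      rw [if_pos this]
    · intro i hi
      have : fam al v (pJ J) i ≠ 0 := fun h => hi ((hpJ J hJ i).1 h)
      refine ⟨(fam al v (pJ J) i).val, ?_⟩
      simp only [hd, hptdef]
      rw [if_neg this]
    · intro i j h
      exact (hpt _ _ _ _ h).1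
  · ext t
    simp only [mem_sdiff, mem_union, mem_biUnion, mem_powersetCard, subset_univ, true_and,
      mem_erase]
    constructor
    · rintro ⟨h1, h2⟩
      obtain ⟨p, hp, -⟩ := allT_existsUnique hal v hpt h1
      by_cases hz : (univ.filter fun i => fam al v p i = 0).card ≤ 2
      · left
        rw [hR, mem_biUnion]
        exact ⟨p, mem_filter.2 ⟨mem_univ _, hz⟩, hp⟩
      · right
        push Not at hz
        obtain ⟨J, hJ, hJ3⟩ := Finset.exists_subset_card_eq
          (show 3 ≤ (univ.filter fun i => fam al v p i = 0).card by omega)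
        have hpp : p = pJ J := by
          refine (fam_existsUnique hal v (fun _ => 0) hJ3).unique ?_ ?_
          · intro i hi
            exact (mem_filter.1 (hJ hi)).2
          · intro i hi
            exact (hpJ J hJ3 i).2 hi
        refine ⟨J, hJ3, ?_, ?_⟩
        · rintro rfl
          apply h2
          exact mem_tri.2 ⟨Finset.image_subset_image (subset_univ _), by
            rw [Finset.card_image_of_injective _ hc]; exact hJ3⟩
        · rw [hdclq, ← hpp]; exact hp
    · rintro (h | ⟨J, hJ3, h1, h2⟩)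
      · rw [hR, mem_biUnion] at h
        obtain ⟨p, hp, hpt'⟩ := h
        refine ⟨tri_clq_subset_allT _ hpt', fun h3 => ?_⟩
        obtain ⟨I, hI, -, hI0⟩ := hcm t h3 _ hpt'
        have h4 := (mem_filter.1 hp).2
        have h5 : I ⊆ univ.filter fun i => fam al v p i = 0 := fun i hi =>
          mem_filter.2 ⟨mem_univ _, hI0 i hi⟩
        have := Finset.card_le_card h5
        omega
      · rw [hdclq] at h2
        refine ⟨tri_clq_subset_allT _ h2, fun h3 => ?_⟩
        obtain ⟨I, hI, hIt, hI0⟩ := hcm t h3 _ h2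
        have h5 : I ⊆ J := fun i hi => (hpJ J hJ3 i).1 (hI0 i hi)
        have h6 : I = J := Finset.eq_of_subset_of_card_le h5 (by rw [hI, hJ3])
        exact h1 (by rw [hIt, h6])
  · intro J hJ
    refine Finset.disjoint_left.2 fun t h1 h2 => ?_
    rw [hdclq] at h2
    rw [hR, mem_biUnion] at h1
    obtain ⟨p, hp, hpt'⟩ := h1
    have h3 : p = pJ J := (allT_existsUnique hal v hpt (tri_clq_subset_allT _ h2)).unique hpt' h2
    have h4 := (mem_filter.1 hp).2
    have h5 : J ⊆ univ.filter fun i => fam al v p i = 0 := fun i hi =>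
      mem_filter.2 ⟨mem_univ _, by rw [h3]; exact (hpJ J hJ i).2 hi⟩
    have := Finset.card_le_card h5
    omega
  · intro J J' hJ hJ' hne
    refine Finset.disjoint_left.2 fun t h1 h2 => hne ?_
    rw [hdclq] at h1 h2
    have h3 : pJ J = pJ J' :=
      (allT_existsUnique hal v hpt (tri_clq_subset_allT _ h2)).unique h1 h2
    ext i
    rw [← hpJ J hJ i, h3, hpJ J' hJ' i]
  · intro t ht
    obtain ⟨ht1, ht2⟩ := mem_sdiff.1 ht
    have hc3 := card_allT hpt ht1
    refine ⟨hc3, good_allT hpt ?_ ht1, ?_, ?_⟩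
    · intro i x j y hij
      simp only [hptdef]
      split_ifs
      · exact g1 _ _ hij
      · exact gsymm _ _ (g2 _ _ _ hij.symm)
      · exact g2 _ _ _ hij
      · exact g3 _ _ _ _ hij
    · by_contra hcon
      push Not at hcon
      apply ht2
      refine mem_tri.2 ⟨?_, hc3⟩
      intro x hx
      obtain ⟨i, y, rfl⟩ := points_allT hpt ht1 x hx
      by_cases h0 : y = 0
      · simp only [hptdef]
        rw [if_pos h0]
        exact mem_image_of_mem _ (mem_univ _)
      · exfalso
        have : pt i y = fr i y.val := by simp only [hptdef]; rw [if_neg h0]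
        rw [this] at hx
        exact hcon _ _ hx
    · intro x hx
      obtain ⟨i, y, rfl⟩ := points_allT hpt ht1 x hx
      simp only [hptdef]
      split_ifs
      · exact Or.inl ⟨i, rfl⟩
      · exact Or.inr ⟨i, _, rfl⟩

end exch

end Pool.Agent.Lib.MP_5c685b_co.E
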