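import Pool.Agent.Lib.MP_5c685b_co.E.Defs

/-! Sections 9, 10, 11 of the text: cover the leave through the reserve, absorb, conclude. -/

set_option autoImplicit false
set_option linter.all false

namespace Pool.Agent.Lib.MP_5c685b_co.E

open Finset

lemma Sm.mono {n : ℕ} {γ γ' : ℝ} {X : Finset (Finset (Fin n))} (h : Sm n γ X) (hγ : γ ≤ γ') :
    Sm n γ' X := fun P hP => (h P hP).trans (mul_le_mul_of_nonneg_right hγ (Nat.cast_nonneg n))

lemma vertex_le {n : ℕ} {γ : ℝ} {X : Finset (Finset (Fin n))} (hX : Sm n γ X)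
    (h3 : ∀ T ∈ X, T.card = 3) (hγ : 0 ≤ γ) (v : Fin n) :
    ((X.filter fun T => v ∈ T).card : ℝ) ≤ γ * (n : ℝ) ^ 2 := by
  classical
  have h1 : X.filter (fun T => v ∈ T) ⊆
      ((univ : Finset (Fin n)).erase v).biUnion fun u => X.filter fun T => ({v, u} : Finset (Fin n)) ⊆ T := by
    intro T hT
    rw [mem_filter] at hT
    have hc : 1 < T.card := by rw [h3 T hT.1]; norm_num
    obtain ⟨u, huT, huv⟩ := Finset.exists_mem_ne hc v
    rw [mem_biUnion]
    refine ⟨u, mem_erase.2 ⟨huv, mem_univ _⟩, mem_filter.2 ⟨hT.1, ?_⟩⟩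
    intro x hx
    rcases mem_insert.1 hx with rfl | hx
    · exact hT.2
    · rw [mem_singleton] at hx; subst hx; exact huT
  have h2 : ((X.filter fun T => v ∈ T).card : ℝ) ≤
      ∑ u ∈ (univ : Finset (Fin n)).erase v, (dg X {v, u} : ℝ) := by
    have := (Finset.card_le_card h1).trans Finset.card_biUnion_le
    exact_mod_cast this
  refine h2.trans ?_
  have h4 : ∑ u ∈ (univ : Finset (Fin n)).erase v, (dg X {v, u} : ℝ) ≤
      ∑ u ∈ (univ : Finset (Fin n)).erase v, γ * (n : ℝ) := by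
    refine Finset.sum_le_sum fun u hu => hX _ ?_
    rw [Finset.card_pair]
    exact (Finset.ne_of_mem_erase hu).symm
  refine h4.trans ?_
  rw [Finset.sum_const, nsmul_eq_mul, Finset.card_erase_of_mem (mem_univ _), Finset.card_univ,
    Fintype.card_fin]
  have : ((n - 1 : ℕ) : ℝ) ≤ (n : ℝ) := by exact_mod_cast Nat.sub_le n 1
  have h5 : 0 ≤ γ * (n : ℝ) := by positivity
  nlinarith

lemma total_le {n : ℕ} {γ : ℝ} {X : Finset (Finset (Fin n))} (hX : Sm n γ X)
    (h3 : ∀ T ∈ X, T.card = 3) (hγ : 0 ≤ γ) :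
    (X.card : ℝ) ≤ γ * (n : ℝ) ^ 3 := by
  classical
  have h1 : X ⊆ (univ : Finset (Fin n)).biUnion fun v => X.filter fun T => v ∈ T := by
    intro T hT
    have hc : 0 < T.card := by rw [h3 T hT]; norm_num
    obtain ⟨v, hv⟩ := Finset.card_pos.1 hc
    exact mem_biUnion.2 ⟨v, mem_univ _, mem_filter.2 ⟨hT, hv⟩⟩
  have h2 : (X.card : ℝ) ≤ ∑ v : Fin n, ((X.filter fun T => v ∈ T).card : ℝ) := by
    have := (Finset.card_le_card h1).trans Finset.card_biUnion_le
    exact_mod_cast this
  refine h2.trans ((Finset.sum_le_sum fun v _ => vertex_le hX h3 hγ v).trans ?_)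
  rw [Finset.sum_const, nsmul_eq_mul, Finset.card_univ, Fintype.card_fin]
  apply le_of_eq; ring

lemma rg_card {n M : ℕ} {w : Fin M → Fin n} (hw : Function.Injective w) : (rg w).card = M := by
  unfold rg
  rw [Finset.card_image_of_injective _ hw, Finset.card_univ, Fintype.card_fin]

lemma mem_rg {n M : ℕ} {w : Fin M → Fin n} {x : Fin n} : x ∈ rg w ↔ ∃ k, w k = x := by
  simp [rg]

/-- from a decomposition in the sense of `Dec` to the wording of the problem -/
lemma Dec.toProblem {r n : ℕ} {G : Finset (Finset (Fin n))} (h3 : ∀ e ∈ G, e.card = 3)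
    (h : Dec r G) :
    ∃ 𝒮 : Finset (Finset (Fin n)),
      (∀ S ∈ 𝒮, S.card = r ∧ ∀ e : Finset (Fin n), e ⊆ S → e.card = 3 → e ∈ G) ∧
      ∀ e ∈ G, ∃! S : Finset (Fin n), S ∈ 𝒮 ∧ e ⊆ S := by
  obtain ⟨F, h1, h2, h3'⟩ := h
  refine ⟨F, fun S hS => ⟨h1 S hS, fun e he hc => ?_⟩, fun e he => ?_⟩
  · rw [← h3']; exact mem_biUnion.2 ⟨S, hS, mem_tri.2 ⟨he, hc⟩⟩
  · have he' := he
    rw [← h3'] at he'
    obtain ⟨S, hS, heS⟩ := mem_biUnion.1 he'
    refine ⟨S, ⟨hS, (mem_tri.1 heS).1⟩, ?_⟩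
    rintro S' ⟨hS', heS'⟩
    by_contra hne
    have h4 := h2 S' hS' S hS hne
    have h5 := Finset.card_le_card (Finset.subset_inter heS' (mem_tri.1 heS).1)
    have h6 := h3 e he
    omega

/-- **sections 9 and 10**: exact decomposition from the four ingredients -/
theorem exact_of {r : ℕ} {ρ : ℝ} (hr : r % 6 = 3) (hρ : 0 < ρ) (hρ1 : ρ ≤ 1)
    (hO : OmniStmt r ρ) (hR : ResStmt r ρ) (hN : NibStmt r (2 * ρ)) (hE : EmbStmt) :
    1 - ρ ∈ AdmI r := by
  classical
  refine ⟨by linarith, by linarith, ?_⟩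
  obtain ⟨p0, hp0, n1, hO⟩ := hO (ρ / 3) (by positivity)
  have hp : 0 < min p0 (ρ / 3) := lt_min hp0 (by positivity)
  obtain ⟨c, hc, n2, hR⟩ := hR (min p0 (ρ / 3)) hp
  obtain ⟨lam, hlam, n3, hE⟩ := hE 3 (r - 3) c 1 hc one_pos
  obtain ⟨n4, hN⟩ := hN lam hlam
  refine ⟨max (max n1 n2) (max n3 n4), fun n hn G h3 hdiv hcod => ?_⟩
  have hn1 : n1 ≤ n := (le_max_left _ _).trans ((le_max_left _ _).trans hn)
  have hn2 : n2 ≤ n := (le_max_right _ _).trans ((le_max_left _ _).trans hn)
  have hn3 : n3 ≤ n := (le_max_left _ _).trans ((le_max_right _ _).trans hn)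
  have hn4 : n4 ≤ n := (le_max_right _ _).trans ((le_max_right _ _).trans hn)
  have hG : Cod n ρ G := ⟨h3, fun P hP => hcod P hP⟩
  have hGb : Balanced r G := balanced_of_divisible hr hdiv
  obtain ⟨X, hXG, hXs, hXe⟩ := hR n hn2 G hG
  obtain ⟨A, hAG, hAX, hAs, hA⟩ := hO n hn1 G hG X hXG (hXs.mono (min_le_left _ _))
  set G' := (G \ X) \ A with hG'def
  have hG'G : G' ⊆ G := Finset.sdiff_subset.trans Finset.sdiff_subset
  have hAGX : A ⊆ G \ X := fun T hT => mem_sdiff.2 ⟨hAG hT, Finset.disjoint_left.1 hAX hT⟩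
  have hG' : Cod n (2 * ρ) G' := by
    refine ⟨fun T hT => h3 T (hG'G hT), fun P hP => ?_⟩
    have e1 := dg_sdiff hXG P
    have e2 := dg_sdiff hAGX P
    have e3 := hG.2 P hP
    have e4 : (dg X P : ℝ) ≤ ρ / 3 * n := (hXs.mono (min_le_right _ _)) P hP
    have e5 : (dg A P : ℝ) ≤ ρ / 3 * n := hAs P hP
    have e6 : (dg ((G \ X) \ A) P : ℝ) + dg A P = dg (G \ X) P := by exact_mod_cast e2
    have e7 : (dg (G \ X) P : ℝ) + dg X P = dg G P := by exact_mod_cast e1
    have hn0 : (0 : ℝ) ≤ n := Nat.cast_nonneg n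
    rw [hG'def]
    nlinarith
  obtain ⟨F, hF1, hF2, hF3⟩ := hN n hn4 G' hG'
  set Lv := G' \ F.biUnion tri with hLv
  have hLvG' : Lv ⊆ G' := Finset.sdiff_subset
  have hLv3 : ∀ T ∈ Lv, T.card = 3 := fun T hT => h3 T (hG'G (hLvG' hT))
  have hG'X : ∀ T ∈ G', T ∉ X := fun T hT => (mem_sdiff.1 (mem_sdiff.1 hT).1).2
  have hG'A : ∀ T ∈ G', T ∉ A := fun T hT => (mem_sdiff.1 hT).2
  obtain ⟨w, hw1, hw2, -, -, -, -⟩ := hE n hn3 {e // e ∈ Lv} (fun e => e.1)
    (fun e => e.1.powersetCard 2)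
    (fun e => univ.filter fun w : Fin (r - 3) → Fin n => Function.Injective w ∧
            (∀ k, w k ∉ e.1) ∧ (tri (e.1 ∪ rg w)).erase e.1 ⊆ X)
    (fun e w => (tri (e.1 ∪ rg w)).erase e.1) ∅
    (by
      rw [Fintype.card_coe]
      exact total_le hF3 hLv3 hlam.le)
    (fun e => (hLv3 e.1 e.2).le)
    (fun e P hP => ⟨(mem_powersetCard.1 hP).2, (mem_powersetCard.1 hP).1⟩)
    (fun e => hXe e.1 (hG'G (hLvG' e.2)))
    (by
      intro e w hw
      have hw' := (mem_filter.1 hw).2
      refine ⟨hw'.1, hw'.2.1, fun T hT => ?_⟩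
      have hT1 := mem_tri.1 (mem_of_mem_erase hT)
      have hT2 := ne_of_mem_erase hT
      refine ⟨hT1.2, hT1.1, ?_, ?_⟩
      · by_contra hcon
        push Not at hcon
        apply hT2
        apply Finset.eq_of_subset_of_card_le
        · intro x hx
          rcases mem_union.1 (hT1.1 hx) with h | h
          · exact h
          · obtain ⟨k, hk⟩ := mem_rg.1 h
            subst hk
            exact absurd hx (hcon k)
        · rw [hT1.2, hLv3 e.1 e.2]
      · intro x hx y hy hxy hxe hye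
        rw [mem_powersetCard]
        refine ⟨?_, Finset.card_pair hxy⟩
        intro z hz
        rcases mem_insert.1 hz with rfl | hz
        · exact hxe
        · rw [mem_singleton] at hz; subst hz; exact hye)
    (by
      intro v
      have h := vertex_le hF3 hLv3 hlam.le v
      refine le_trans ?_ h
      have : (univ.filter fun i : {e // e ∈ Lv} => v ∈ i.1).card ≤ (Lv.filter fun T => v ∈ T).card := by
        refine Finset.card_le_card_of_injOn (fun i => i.1) ?_ ?_
        · intro i hi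
          rw [mem_coe, mem_filter] at hi ⊢
          exact ⟨i.2, hi.2⟩
        · intro i _ j _ hij
          exact Subtype.ext hij
      exact_mod_cast this)
    (by
      intro P hP
      have h := hF3 P hP
      refine le_trans ?_ h
      have : (univ.filter fun i : {e // e ∈ Lv} => P ∈ i.1.powersetCard 2).card ≤ dg Lv P := by
        unfold dg
        refine Finset.card_le_card_of_injOn (fun i => i.1) ?_ ?_
        · intro i hi
          rw [mem_coe, mem_filter] at hi ⊢
          exact ⟨i.2, (mem_powersetCard.1 hi.2).1⟩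
        · intro i _ j _ hij
          exact Subtype.ext hij
      exact_mod_cast this)
    (by
      intro P hP
      simp only [dg, Finset.filter_empty, Finset.card_empty, Nat.cast_zero]
      positivity)
  -- the cliques covering the leave
  have hwm : ∀ e : {e // e ∈ Lv}, Function.Injective (w e) ∧ (∀ k, w e k ∉ e.1) ∧
      (tri (e.1 ∪ rg (w e))).erase e.1 ⊆ X := fun e => (mem_filter.1 (hw1 e)).2
  have hdisj : ∀ e : {e // e ∈ Lv}, Disjoint e.1 (rg (w e)) := by
    intro e
    refine Finset.disjoint_left.2 fun x hx hx' => ?_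
    obtain ⟨k, hk⟩ := mem_rg.1 hx'
    subst hk
    exact (hwm e).2.1 k hx
  by_cases hr3 : r = 3
  · -- degenerate case: every triple is a clique
    apply Dec.toProblem h3
    refine ⟨G, fun Q hQ => (h3 Q hQ).trans hr3.symm, ?_, ?_⟩
    · intro Q hQ Q' hQ' hne
      by_contra hcon
      push Not at hcon
      apply hne
      have a1 : Q ∩ Q' = Q := Finset.eq_of_subset_of_card_le Finset.inter_subset_left
        (by rw [h3 Q hQ]; omega)
      have a2 : Q ∩ Q' = Q' := Finset.eq_of_subset_of_card_le Finset.inter_subset_right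
        (by rw [h3 Q' hQ']; omega)
      rw [← a1, a2]
    · ext T
      rw [mem_biUnion]
      constructor
      · rintro ⟨Q, hQ, hT⟩
        have := mem_tri.1 hT
        have h4 : T = Q := Finset.eq_of_subset_of_card_le this.1 (by rw [h3 Q hQ, this.2])
        rw [h4]; exact hQ
      · intro hT
        exact ⟨T, hT, mem_tri.2 ⟨le_refl _, h3 T hT⟩⟩
  have hr9 : 9 ≤ r := by omega
  let Qf : {e // e ∈ Lv} → Finset (Fin n) := fun e => e.1 ∪ rg (w e)
  have hQc : ∀ e, (Qf e).card = r := by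
    intro e
    show (e.1 ∪ rg (w e)).card = r
    rw [Finset.card_union_of_disjoint (hdisj e), hLv3 e.1 e.2, rg_card (hwm e).1]
    omega
  have htri : ∀ e T, T ∈ tri (Qf e) → T = e.1 ∨ (T ∈ X ∧ T ∈ (tri (Qf e)).erase e.1) := by
    intro e T hT
    by_cases h : T = e.1
    · exact Or.inl h
    · exact Or.inr ⟨(hwm e).2.2 (mem_erase.2 ⟨h, hT⟩), mem_erase.2 ⟨h, hT⟩⟩
  -- two different covering cliques share no triple
  have hQdis : ∀ e e', e ≠ e' → Disjoint (tri (Qf e)) (tri (Qf e')) := by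
    intro e e' hne
    refine Finset.disjoint_left.2 fun T hT hT' => ?_
    rcases htri e T hT with h | ⟨h, hh⟩ <;> rcases htri e' T hT' with h' | ⟨h', hh'⟩
    · exact hne (Subtype.ext (h.symm.trans h'))
    · rw [h] at h'
      exact hG'X _ (hLvG' e.2) h'
    · rw [h'] at h
      exact hG'X _ (hLvG' e'.2) h
    · exact Finset.disjoint_left.1 (hw2 e e' hne) hh hh'
  let FQ : Finset (Finset (Fin n)) := univ.image Qf
  have hFQ : Dec r (FQ.biUnion tri) := by
    refine ⟨FQ, ?_, ?_, rfl⟩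
    · intro Q hQ
      obtain ⟨e, -, rfl⟩ := mem_image.1 hQ
      exact hQc e
    · intro Q hQ Q' hQ' hne
      obtain ⟨e, -, rfl⟩ := mem_image.1 hQ
      obtain ⟨e', -, rfl⟩ := mem_image.1 hQ'
      have hee : e ≠ e' := fun h => hne (by rw [h])
      by_contra hcon
      push Not at hcon
      obtain ⟨T, hT, hT3⟩ := Finset.exists_subset_card_eq (show 3 ≤ (Qf e ∩ Qf e').card by omega)
      exact Finset.disjoint_left.1 (hQdis e e' hee)
        (mem_tri.2 ⟨hT.trans Finset.inter_subset_left, hT3⟩)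
        (mem_tri.2 ⟨hT.trans Finset.inter_subset_right, hT3⟩)
  have hFd : Dec r (F.biUnion tri) := ⟨F, fun Q hQ => (hF1 Q hQ).1, hF2, rfl⟩
  have hFG' : F.biUnion tri ⊆ G' := by
    intro T hT
    obtain ⟨Q, hQ, hT⟩ := mem_biUnion.1 hT
    exact (hF1 Q hQ).2 hT
  have hFQsub : ∀ T ∈ FQ.biUnion tri, T ∈ Lv ∨ T ∈ X := by
    intro T hT
    obtain ⟨Q, hQ, hT⟩ := mem_biUnion.1 hT
    obtain ⟨e, -, rfl⟩ := mem_image.1 hQ
    rcases htri e T hT with h | h
    · left; rw [h]; exact e.2
    · right; exact h.1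
  have hLvFQ : Lv ⊆ FQ.biUnion tri := by
    intro T hT
    rw [mem_biUnion]
    refine ⟨Qf ⟨T, hT⟩, mem_image_of_mem _ (mem_univ _), mem_tri.2 ⟨Finset.subset_union_left, hLv3 T hT⟩⟩
  set D := F.biUnion tri ∪ FQ.biUnion tri with hD
  have hDdis : Disjoint (F.biUnion tri) (FQ.biUnion tri) := by
    refine Finset.disjoint_left.2 fun T hT hT' => ?_
    rcases hFQsub T hT' with h | h
    · exact (mem_sdiff.1 h).2 hT
    · exact hG'X T (hFG' hT) h
  have hDdec : Dec r D := Dec.union hDdis hFd hFQ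
  have hAD : Disjoint A D := by
    refine Finset.disjoint_left.2 fun T hT hT' => ?_
    rcases mem_union.1 hT' with h | h
    · exact hG'A T (hFG' h) hT
    · rcases hFQsub T h with h | h
      · exact hG'A T (hLvG' h) hT
      · exact Finset.disjoint_left.1 hAX hT h
  have hAdec : Dec r A := by
    have := hA ∅ (Finset.empty_subset _) (Balanced.empty r)
    rwa [Finset.union_empty] at this
  have hDG : D ⊆ G := by
    intro T hT
    rcases mem_union.1 hT with h | h
    · exact hG'G (hFG' h)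
    · rcases hFQsub T h with h | h
      · exact hG'G (hLvG' h)
      · exact hXG h
  set L := X \ D with hL
  have hLX : L ⊆ X := Finset.sdiff_subset
  have hLeq : L = G \ (A ∪ D) := by
    ext T
    constructor
    · intro h
      obtain ⟨h1, h2⟩ := mem_sdiff.1 h
      refine mem_sdiff.2 ⟨hXG h1, fun h => ?_⟩
      rcases Finset.mem_union.1 h with h | h
      · exact Finset.disjoint_left.1 hAX h h1
      · exact h2 h
    · intro h
      obtain ⟨h1, h2⟩ := mem_sdiff.1 h
      have h2A : T ∉ A := fun h => h2 (Finset.mem_union_left _ h)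
      have h2D : T ∉ D := fun h => h2 (Finset.mem_union_right _ h)
      refine mem_sdiff.2 ⟨?_, h2D⟩
      by_contra hTX
      have hTG' : T ∈ G' := mem_sdiff.2 ⟨mem_sdiff.2 ⟨h1, hTX⟩, h2A⟩
      apply h2D
      by_cases hTF : T ∈ F.biUnion tri
      · exact mem_union_left _ hTF
      · exact mem_union_right _ (hLvFQ (mem_sdiff.2 ⟨hTG', hTF⟩))
  have hLb : Balanced r L := by
    rw [hLeq]
    exact Balanced.sdiff (Finset.union_subset hAG hDG) hGb
      (Balanced.union hAD (hAdec.balanced hr) (hDdec.balanced hr))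
  have hAL := hA L hLX hLb
  apply Dec.toProblem h3
  have hGeq : G = (A ∪ L) ∪ D := by
    ext T
    constructor
    · intro hT
      by_cases h1 : T ∈ A ∪ D
      · rcases mem_union.1 h1 with h | h
        · exact mem_union_left _ (mem_union_left _ h)
        · exact mem_union_right _ h
      · refine mem_union_left _ (mem_union_right _ ?_)
        rw [hLeq]; exact mem_sdiff.2 ⟨hT, h1⟩
    · intro hT
      rcases mem_union.1 hT with h | h
      · rcases mem_union.1 h with h | h
        · exact hAG h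
        · exact hXG (hLX h)
      · exact hDG h
  rw [hGeq]
  refine Dec.union ?_ hAL hDdec
  refine Finset.disjoint_left.2 fun T hT hT' => ?_
  rcases mem_union.1 hT with h | h
  · exact Finset.disjoint_left.1 hAD h hT'
  · exact (mem_sdiff.1 h).2 hT'

end Pool.Agent.Lib.MP_5c685b_co.E
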