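import Pool.Agent.Lib.MP_5c685b_co.E.Defs2
import Pool.Agent.Lib.MP_5c685b_co.Sec9

set_option autoImplicit false

/-! # Row E29: the fractional theorem in the form of `FracThm` -/

namespace Pool.Agent.Lib.MP_5c685b_co.E

open Finset

theorem fracThm_of_fin (h : Pool.Agent.Lib.MP_5c685b_co.FinThm) :
    ∃ cb : ℝ, 0 < cb ∧ FracThm cb := by
  obtain ⟨c, hc, r₀, hcore⟩ := Pool.Agent.Lib.MP_5c685b_co.core_of_fin h
  refine ⟨c, hc, max r₀ 4, fun r hr => ?_⟩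
  obtain ⟨n₀, hn₀⟩ := hcore r (le_trans (le_max_left _ _) hr)
  have hr4 : 3 < r := lt_of_lt_of_le (by norm_num) (le_trans (le_max_right r₀ 4) hr)
  refine ⟨n₀, fun n hn G hG => ?_⟩
  obtain ⟨hG3, hcod⟩ := hG
  have hfr : Pool.Agent.Lib.MP_5c685b_co.HasFrac 3 r G := by
    refine Pool.Agent.Lib.MP_5c685b_co.hasFrac_of_dual hr4 hG3 fun y hy => ?_
    refine hn₀ n hn G hG3 (fun A hA => ?_) y hy
    exact hcod A hA
  obtain ⟨w, h0, h1, h2⟩ := hfr
  refine ⟨w, h0, fun Q hQ => ⟨(h1 Q hQ).1, fun e he => ?_⟩, fun e he => ?_⟩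
  · have he' := Finset.mem_powersetCard.1 he
    exact (h1 Q hQ).2 e he'.1 he'.2
  · rw [← h2 e he]
    refine Finset.sum_congr ?_ fun _ _ => rfl
    ext S
    simp only [Finset.mem_filter, Finset.mem_univ, true_and]

end Pool.Agent.Lib.MP_5c685b_co.E
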