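import Pool.Agent.Lib.MP_5c685b_co.E.Frac29
import Pool.Agent.Lib.MP_5c685b_co.A.R22

set_option autoImplicit false

/-! # Row E29: the fractional theorem, `FracThm` holds -/

namespace Pool.Agent.Lib.MP_5c685b_co.E

theorem fracThm : ∃ cb : ℝ, 0 < cb ∧ FracThm cb := fracThm_of_fin MP5cA.finThm

end Pool.Agent.Lib.MP_5c685b_co.E
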