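import Mathlib

set_option autoImplicit false

/-!
# MP_5c685b_co, E section 4: rooted cliques (HOST), index graph form
-/

namespace MP5cE

open Finset

/-- `w` is joined to `S`: all triples inside `S` and the range of `w`, not inside `S`, are edges -/
def Joined {V : Type} [DecidableEq V] (G : Finset (Finset V)) (S : Finset V) {t : ℕ}
    (w : Fin t → V) : Prop :=
  Function.Injective w ∧ (∀ i, w i ∉ S) ∧
    ∀ T : Finset V, T.card = 3 → T ⊆ S ∪ univ.image w → ¬ T ⊆ S → T ∈ G

/-! ## Exponential moments -/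

theorem host_expsum {ι V : Type} [Fintype ι] [DecidableEq ι] [Fintype V] [DecidableEq V]
    (I0 : Finset ι) (B : ({i // i ∈ I0} → V) → Finset V) {β : ℝ} (hβ0 : 0 ≤ β)
    (hβ : ∀ y, ((B y).card : ℝ) ≤ β * Fintype.card V) :
    ∑ y : ι → V, (2 : ℝ) ^ (univ.filter (fun k => k ∉ I0 ∧ y k ∈ B (fun i => y i.1))).card ≤
      (Fintype.card V : ℝ) ^ Fintype.card ι * (1 + β) ^ Fintype.card ι := by
  classical
  set n : ℝ := (Fintype.card V : ℝ) with hn
  have hn0 : 0 ≤ n := Nat.cast_nonneg _
  rw [← Equiv.sum_comp (Equiv.piEquivPiSubtypeProd (fun i => i ∈ I0) (fun _ => V)).symm,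
    Fintype.sum_prod_type]
  have hinner : ∀ y0 : {i // i ∈ I0} → V,
      ∑ y1 : {i // ¬ i ∈ I0} → V, (2 : ℝ) ^ (univ.filter (fun k => k ∉ I0 ∧
        (Equiv.piEquivPiSubtypeProd (fun i => i ∈ I0) (fun _ => V)).symm (y0, y1) k ∈
          B (fun i => (Equiv.piEquivPiSubtypeProd (fun i => i ∈ I0) (fun _ => V)).symm (y0, y1) i.1))).card
        ≤ (n * (1 + β)) ^ Fintype.card {i // ¬ i ∈ I0} := by
    intro y0
    have e1 : ∀ y1 : {i // ¬ i ∈ I0} → V,
        (2 : ℝ) ^ (univ.filter (fun k => k ∉ I0 ∧
        (Equiv.piEquivPiSubtypeProd (fun i => i ∈ I0) (fun _ => V)).symm (y0, y1) k ∈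
          B (fun i => (Equiv.piEquivPiSubtypeProd (fun i => i ∈ I0) (fun _ => V)).symm (y0, y1) i.1))).card
        = ∏ k : {i // ¬ i ∈ I0}, (if y1 k ∈ B y0 then (2 : ℝ) else 1) := by
      intro y1
      have hrest : (fun i : {i // i ∈ I0} =>
          (Equiv.piEquivPiSubtypeProd (fun i => i ∈ I0) (fun _ => V)).symm (y0, y1) i.1) = y0 := by
        funext i
        simp [Equiv.piEquivPiSubtypeProd, i.2]
      rw [hrest, Finset.prod_ite, Finset.prod_const, Finset.prod_const_one, mul_one]
      congr 1
      refine (Finset.card_bij (s := univ.filter (fun x : {i // ¬ i ∈ I0} => y1 x ∈ B y0))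
        (fun k _ => (k : ι)) ?_ ?_ ?_).symm
      · intro k hk
        rw [mem_filter] at hk
        rw [mem_filter]
        refine ⟨mem_univ _, k.2, ?_⟩
        have : (Equiv.piEquivPiSubtypeProd (fun i => i ∈ I0) (fun _ => V)).symm (y0, y1) k = y1 k := by
          simp [Equiv.piEquivPiSubtypeProd, k.2]
        rw [this]
        exact hk.2
      · intro a _ b _ h
        exact Subtype.ext h
      · intro k hk
        rw [mem_filter] at hk
        obtain ⟨_, hk1, hk2⟩ := hk
        refine ⟨⟨k, hk1⟩, ?_, rfl⟩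
        rw [mem_filter]
        refine ⟨mem_univ _, ?_⟩
        have : (Equiv.piEquivPiSubtypeProd (fun i => i ∈ I0) (fun _ => V)).symm (y0, y1) k
            = y1 ⟨k, hk1⟩ := by
          simp [Equiv.piEquivPiSubtypeProd, hk1]
        rw [this] at hk2
        exact hk2
    rw [Finset.sum_congr rfl fun y1 _ => e1 y1]
    have e2 := Finset.prod_univ_sum (fun _ : {i // ¬ i ∈ I0} => (univ : Finset V))
      (fun _ v => if v ∈ B y0 then (2 : ℝ) else 1)
    rw [Fintype.piFinset_univ] at e2
    rw [← e2, Finset.prod_const, Finset.card_univ]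
    refine pow_le_pow_left₀ (Finset.sum_nonneg fun v _ => by split_ifs <;> norm_num) ?_ _
    have e3 : ∑ v : V, (if v ∈ B y0 then (2 : ℝ) else 1) = n + (B y0).card := by
      have : ∀ v : V, (if v ∈ B y0 then (2 : ℝ) else 1) = 1 + if v ∈ B y0 then 1 else 0 := by
        intro v; split_ifs <;> norm_num
      rw [Finset.sum_congr rfl fun v _ => this v, Finset.sum_add_distrib]
      simp [hn]
    rw [e3]
    have := hβ y0
    nlinarith
  refine (Finset.sum_le_sum fun y0 _ => hinner y0).trans ?_
  rw [Finset.sum_const, Finset.card_univ, Fintype.card_fun, nsmul_eq_mul]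
  have hc : Fintype.card {i // i ∈ I0} + Fintype.card {i // ¬ i ∈ I0} = Fintype.card ι := by
    rw [Fintype.card_subtype_compl]
    have : Fintype.card {i // i ∈ I0} ≤ Fintype.card ι := Fintype.card_subtype_le _
    omega
  have h1 : (1 : ℝ) ≤ 1 + β := by linarith
  push_cast
  rw [← hn, mul_pow, ← mul_assoc, ← pow_add, hc]
  refine mul_le_mul_of_nonneg_left ?_ (by positivity)
  exact pow_le_pow_right₀ h1 (by omega)

/-- the ratio -/
noncomputable def hq (β : ℝ) : ℝ := (1 + β) / (2 : ℝ) ^ (2 * β)

theorem hq_pos {β : ℝ} (h : 0 < β) : 0 < hq β := by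
  unfold hq; positivity

theorem hq_lt {β : ℝ} (h : 0 < β) : hq β < 1 := by
  unfold hq
  rw [div_lt_one (by positivity), Real.rpow_def_of_pos (by norm_num)]
  have h1 := Real.add_one_lt_exp h.ne'
  have h2 : β ≤ Real.log 2 * (2 * β) := by
    have := Real.log_two_gt_d9
    nlinarith
  calc 1 + β = β + 1 := by ring
    _ < Real.exp β := h1
    _ ≤ _ := Real.exp_le_exp.2 h2

theorem host_tail {ι V : Type} [Fintype ι] [DecidableEq ι] [Fintype V] [DecidableEq V]
    (I0 : Finset ι) (B : ({i // i ∈ I0} → V) → Finset V) {β : ℝ} (hβ0 : 0 ≤ β)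
    (hβ : ∀ y, ((B y).card : ℝ) ≤ β * Fintype.card V) :
    ((univ.filter (fun y : ι → V => 2 * β * Fintype.card ι <
      ((univ.filter (fun k => k ∉ I0 ∧ y k ∈ B (fun i => y i.1))).card : ℝ))).card : ℝ) ≤
      (Fintype.card V : ℝ) ^ Fintype.card ι * hq β ^ Fintype.card ι := by
  classical
  have h := host_expsum I0 B hβ0 hβ
  set M := Fintype.card ι with hM
  set bad := univ.filter (fun y : ι → V => 2 * β * M <
      ((univ.filter (fun k => k ∉ I0 ∧ y k ∈ B (fun i => y i.1))).card : ℝ)) with hbad
  have h1 : (bad.card : ℝ) * (2 : ℝ) ^ (2 * β * M) ≤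
      ∑ y : ι → V, (2 : ℝ) ^ (univ.filter (fun k => k ∉ I0 ∧ y k ∈ B (fun i => y i.1))).card := by
    calc (bad.card : ℝ) * (2 : ℝ) ^ (2 * β * M) = ∑ y ∈ bad, (2 : ℝ) ^ (2 * β * M) := by
          rw [Finset.sum_const, nsmul_eq_mul]
      _ ≤ ∑ y ∈ bad, (2 : ℝ) ^ (univ.filter (fun k => k ∉ I0 ∧ y k ∈ B (fun i => y i.1))).card := by
          refine Finset.sum_le_sum fun y hy => ?_
          rw [hbad, mem_filter] at hy
          rw [← Real.rpow_natCast]
          exact Real.rpow_le_rpow_of_exponent_le (by norm_num) hy.2.le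
      _ ≤ _ := Finset.sum_le_univ_sum_of_nonneg fun y => by positivity
  have h2 : (2 : ℝ) ^ (2 * β * M) = ((2 : ℝ) ^ (2 * β)) ^ M := by
    rw [Real.rpow_mul (by norm_num), Real.rpow_natCast]
  rw [h2] at h1
  have h3 : 0 < ((2 : ℝ) ^ (2 * β)) ^ M := by positivity
  unfold hq
  rw [div_pow, ← mul_div_assoc, le_div_iff₀ h3]
  exact h1.trans h

/-! ## Counting maps -/

theorem host_det {ι V : Type} [Fintype ι] [DecidableEq ι] [Fintype V] [DecidableEq V] (j : ι)
    (Y : Finset (ι → V)) (h : ∀ y ∈ Y, ∀ y' ∈ Y, (∀ i, i ≠ j → y i = y' i) → y = y') :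
    Y.card ≤ Fintype.card V ^ (Fintype.card ι - 1) := by
  classical
  have h1 : Y.card ≤ (univ : Finset ({i // i ≠ j} → V)).card := by
    refine Finset.card_le_card_of_injOn (fun y i => y i.1) (fun _ _ => mem_univ _) ?_
    intro y hy y' hy' he
    exact h y hy y' hy' fun i hi => congrFun he ⟨i, hi⟩
  rw [card_univ, Fintype.card_fun] at h1
  have h2 : Fintype.card {i // i ≠ j} = Fintype.card ι - 1 := by
    rw [Fintype.card_subtype_compl, Fintype.card_subtype_eq]
  rw [h2] at h1
  exact h1

/-! ## The index graph -/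

section Index

set_option linter.unusedSectionVars false

variable {V : Type} [Fintype V] [DecidableEq V]

/-- the real part of a set of indices -/
def hR {M : ℕ} (e : Finset (Fin (M + 3))) : Finset (Fin M) :=
  univ.filter (fun i => Fin.castAdd 3 i ∈ e)

/-- the dummies of a set of indices -/
def hD {M : ℕ} (e : Finset (Fin (M + 3))) : Finset (Fin 3) :=
  univ.filter (fun i => Fin.natAdd M i ∈ e)

theorem hRD_card {M : ℕ} (e : Finset (Fin (M + 3))) : (hR e).card + (hD e).card = e.card := by
  classical
  have h : e = (hR e).map (Fin.castAddEmb 3) ∪ (hD e).map (Fin.natAddEmb M) := by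
    ext x
    simp only [mem_union, mem_map, hR, hD, mem_filter, mem_univ, true_and, Fin.castAddEmb_apply,
      Fin.natAddEmb_apply]
    constructor
    · intro hx
      refine Fin.addCases (motive := fun x => x ∈ e → (∃ a, Fin.castAdd 3 a ∈ e ∧ Fin.castAdd 3 a = x) ∨
        ∃ a, Fin.natAdd M a ∈ e ∧ Fin.natAdd M a = x) ?_ ?_ x hx
      · intro i hi
        exact Or.inl ⟨i, hi, rfl⟩
      · intro i hi
        exact Or.inr ⟨i, hi, rfl⟩
    · rintro (⟨a, ha, rfl⟩ | ⟨a, ha, rfl⟩) <;> exact ha
  have hd : Disjoint ((hR e).map (Fin.castAddEmb 3)) ((hD e).map (Fin.natAddEmb M)) := by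
    rw [disjoint_left]
    intro x hx hx'
    rw [mem_map] at hx hx'
    obtain ⟨a, _, rfl⟩ := hx
    obtain ⟨b, _, hb⟩ := hx'
    have := congrArg Fin.val hb
    simp at this
    omega
  conv_rhs => rw [h]
  rw [card_union_of_disjoint hd, card_map, card_map]

/-- condition for a triple of indices -/
def hCond (G : Finset (Finset V)) (S : Finset V) {M : ℕ} (y : Fin M → V)
    (e : Finset (Fin (M + 3))) : Prop :=
  ∀ A ⊆ S, A.card + (hR e).card = 3 → (hR e).Nonempty → A ∪ (hR e).image y ∈ G

open Classical in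
/-- the index graph -/
noncomputable def hG (G : Finset (Finset V)) (S : Finset V) {M : ℕ} (y : Fin M → V) :
    Finset (Finset (Fin (M + 3))) :=
  univ.filter (fun e => e.card = 3 ∧ hCond G S y e)

/-- bad third vertices for the index set `I0` -/
noncomputable def hB (G : Finset (Finset V)) (S : Finset V) {ι : Type} [DecidableEq ι]
    (I0 : Finset ι) (y0 : {i // i ∈ I0} → V) : Finset V :=
  (S.powersetCard (2 - I0.card)).biUnion (fun A =>
    if (A ∪ univ.image y0).card = 2 then univ.filter (fun v => insert v (A ∪ univ.image y0) ∉ G)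
    else ∅)

theorem hB_card {G : Finset (Finset V)} {S : Finset V} (hS : S.card ≤ 12) {ρ : ℝ} (hρ : 0 ≤ ρ)
    (hcod : ∀ P : Finset V, P.card = 2 →
      ((univ.filter (fun v => insert v P ∉ G)).card : ℝ) ≤ ρ * Fintype.card V)
    {ι : Type} [DecidableEq ι] (I0 : Finset ι) (y0 : {i // i ∈ I0} → V) :
    ((hB G S I0 y0).card : ℝ) ≤ 66 * ρ * Fintype.card V := by
  have h0 : 0 ≤ ρ * Fintype.card V := by positivity
  have h1 : ((hB G S I0 y0).card : ℝ) ≤ ∑ A ∈ S.powersetCard (2 - I0.card), ρ * Fintype.card V := by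
    unfold hB
    refine (Nat.cast_le.2 card_biUnion_le).trans ?_
    push_cast
    refine sum_le_sum fun A _ => ?_
    split_ifs with h
    · exact hcod _ h
    · simpa using h0
  rw [sum_const, card_powersetCard, nsmul_eq_mul] at h1
  have h2 : S.card.choose (2 - I0.card) ≤ 66 := by
    have h3 : S.card.choose (2 - I0.card) ≤ Nat.choose 12 (2 - I0.card) := Nat.choose_le_choose _ hS
    have h4 : 2 - I0.card = 0 ∨ 2 - I0.card = 1 ∨ 2 - I0.card = 2 := by omega
    rcases h4 with h | h | h <;> rw [h] at h3 ⊢ <;> refine h3.trans ?_ <;> decide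
  have h5 : (S.card.choose (2 - I0.card) : ℝ) ≤ 66 := by exact_mod_cast h2
  calc ((hB G S I0 y0).card : ℝ) ≤ (S.card.choose (2 - I0.card) : ℝ) * (ρ * Fintype.card V) := h1
    _ ≤ 66 * (ρ * Fintype.card V) := mul_le_mul_of_nonneg_right h5 h0
    _ = _ := by ring

/-- a good choice of the vertices -/
def hGood (G : Finset (Finset V)) (S : Finset V) {M : ℕ} (β : ℝ) (y : Fin M → V) : Prop :=
  Function.Injective y ∧ (∀ i, y i ∉ S) ∧ ∀ I0 : Finset (Fin M), I0.card ≤ 2 →
    ((univ.filter (fun k => k ∉ I0 ∧ y k ∈ hB G S I0 (fun i => y i.1))).card : ℝ) ≤ 2 * β * M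

/-- codegrees of the index graph -/
theorem hG_codeg {G : Finset (Finset V)} {S : Finset V} {M : ℕ} {β : ℝ} {y : Fin M → V}
    (hy : hGood G S β y) {P : Finset (Fin (M + 3))} (hP : P.card = 2) :
    (M : ℝ) - 2 - 2 * β * M ≤ (((hG G S y).filter (fun e => P ⊆ e)).card : ℝ) := by
  classical
  obtain ⟨hinj, hyS, hcod⟩ := hy
  set I0 := hR P with hI0
  have hI0c : I0.card ≤ 2 := by
    have := hRD_card P
    rw [← hI0, hP] at this
    omega
  have h1 := hcod I0 hI0c
  set Bad := univ.filter (fun k => k ∉ I0 ∧ y k ∈ hB G S I0 (fun i => y i.1)) with hBad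
  set Ok := univ.filter (fun k : Fin M => k ∉ I0 ∧ y k ∉ hB G S I0 (fun i => y i.1)) with hOk
  have hcount : M ≤ I0.card + Bad.card + Ok.card := by
    have hu : (univ : Finset (Fin M)) ⊆ I0 ∪ Bad ∪ Ok := by
      intro k _
      by_cases hk : k ∈ I0
      · exact mem_union_left _ (mem_union_left _ hk)
      · by_cases hk' : y k ∈ hB G S I0 (fun i => y i.1)
        · exact mem_union_left _ (mem_union_right _ (by rw [hBad, mem_filter]; exact ⟨mem_univ _, hk, hk'⟩))
        · exact mem_union_right _ (by rw [hOk, mem_filter]; exact ⟨mem_univ _, hk, hk'⟩)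
    have := card_le_card hu
    rw [card_univ, Fintype.card_fin] at this
    exact this.trans ((card_union_le _ _).trans (Nat.add_le_add_right (card_union_le _ _) _))
  have hle : Ok.card ≤ ((hG G S y).filter (fun e => P ⊆ e)).card := by
    refine card_le_card_of_injOn (fun k => insert (Fin.castAdd 3 k) P) ?_ ?_
    · intro k hk
      rw [mem_coe, hOk, mem_filter] at hk
      obtain ⟨_, hk1, hk2⟩ := hk
      have hkP : Fin.castAdd 3 k ∉ P := by
        intro h
        exact hk1 (by rw [hI0, hR, mem_filter]; exact ⟨mem_univ _, h⟩)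
      rw [mem_coe, mem_filter]
      refine ⟨?_, subset_insert _ _⟩
      unfold hG
      rw [mem_filter]
      have hRe : hR (insert (Fin.castAdd 3 k) P) = insert k I0 := by
        ext i
        simp only [hR, hI0, mem_filter, mem_univ, true_and, mem_insert]
        constructor
        · rintro (h | h)
          · exact Or.inl (Fin.castAdd_injective _ _ h)
          · exact Or.inr h
        · rintro (h | h)
          · exact Or.inl (by rw [h])
          · exact Or.inr h
      refine ⟨mem_univ _, by rw [card_insert_of_notMem hkP, hP], ?_⟩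
      intro A hA hAc _
      rw [hRe] at hAc ⊢
      rw [card_insert_of_notMem hk1] at hAc
      have hAc' : A.card = 2 - I0.card := by omega
      have himg : I0.image y = univ.image (fun i : {i // i ∈ I0} => y i.1) := by
        ext v
        simp only [mem_image, mem_univ, true_and, Subtype.exists]
        constructor
        · rintro ⟨i, hi, rfl⟩
          exact ⟨i, hi, rfl⟩
        · rintro ⟨i, hi, rfl⟩
          exact ⟨i, hi, rfl⟩
      have hcard : (A ∪ univ.image (fun i : {i // i ∈ I0} => y i.1)).card = 2 := by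
        rw [← himg, card_union_of_disjoint, card_image_of_injective _ hinj]
        · omega
        · rw [disjoint_left]
          intro v hv hv'
          rw [mem_image] at hv'
          obtain ⟨i, _, rfl⟩ := hv'
          exact hyS i (hA hv)
      have hnot : ¬ (insert (y k) (A ∪ univ.image (fun i : {i // i ∈ I0} => y i.1)) ∉ G) := by
        intro hn
        apply hk2
        unfold hB
        rw [mem_biUnion]
        refine ⟨A, mem_powersetCard.2 ⟨hA, hAc'⟩, ?_⟩
        rw [if_pos hcard, mem_filter]
        exact ⟨mem_univ _, hn⟩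
      rw [not_not] at hnot
      rw [image_insert, union_insert, himg]
      exact hnot
    · intro k hk k' hk' he
      rw [mem_coe, hOk, mem_filter] at hk hk'
      have hkP : Fin.castAdd 3 k ∉ P := by
        intro h
        exact hk.2.1 (by rw [hI0, hR, mem_filter]; exact ⟨mem_univ _, h⟩)
      have h1 : Fin.castAdd 3 k ∈ insert (Fin.castAdd 3 k') P := by
        rw [← show insert (Fin.castAdd 3 k) P = insert (Fin.castAdd 3 k') P from he]
        exact mem_insert_self _ _
      rw [mem_insert] at h1
      rcases h1 with h | h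
      · exact Fin.castAdd_injective _ _ h
      · exact absurd h hkP
  have h2 : (M : ℝ) ≤ I0.card + Bad.card + Ok.card := by exact_mod_cast hcount
  have h3 : (I0.card : ℝ) ≤ 2 := by exact_mod_cast hI0c
  have h4 : (Ok.card : ℝ) ≤ (((hG G S y).filter (fun e => P ⊆ e)).card : ℝ) := by exact_mod_cast hle
  linarith

/-- a clique of the index graph through the three dummies gives a joined map -/
theorem hG_joined {G : Finset (Finset V)} {S : Finset V} {M t : ℕ} {y : Fin M → V}
    (hinj : Function.Injective y) (hyS : ∀ i, y i ∉ S)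
    {K : Finset (Fin (M + 3))} (hK : K.card = t + 3)
    (hD3 : ∀ i : Fin 3, Fin.natAdd M i ∈ K)
    (hcl : ∀ e ⊆ K, e.card = 3 → e ∈ hG G S y) :
    ∃ g : Fin t → Fin M, Function.Injective g ∧ Joined G S (fun i => y (g i)) := by
  classical
  have hRc : (hR K).card = t := by
    have h1 := hRD_card K
    have h2 : hD K = univ := by
      ext i
      simp [hD, hD3 i]
    rw [h2, card_univ, Fintype.card_fin] at h1
    omega
  refine ⟨(hR K).orderEmbOfFin hRc, ((hR K).orderEmbOfFin hRc).injective, ?_, fun i => hyS _, ?_⟩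
  · intro i j hij
    exact ((hR K).orderEmbOfFin hRc).injective (hinj hij)
  · intro T hT hTs hTn
    -- the indices of the new vertices of `T`
    set I := (hR K).filter (fun i => y i ∈ T) with hI
    have hT1 : T = (T ∩ S) ∪ I.image y := by
      ext v
      constructor
      · intro hv
        by_cases hvS : v ∈ S
        · exact mem_union_left _ (mem_inter.2 ⟨hv, hvS⟩)
        · have := hTs hv
          rw [mem_union] at this
          rcases this with h | h
          · exact absurd h hvS
          · rw [mem_image] at h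
            obtain ⟨j, _, hj⟩ := h
            refine mem_union_right _ (mem_image.2 ⟨(hR K).orderEmbOfFin hRc j, ?_, hj⟩)
            rw [hI, mem_filter]
            refine ⟨Finset.orderEmbOfFin_mem _ _ _, ?_⟩
            rw [hj]
            exact hv
      · intro hv
        rw [mem_union] at hv
        rcases hv with h | h
        · exact (mem_inter.1 h).1
        · rw [mem_image] at h
          obtain ⟨i, hi, rfl⟩ := h
          rw [hI, mem_filter] at hi
          exact hi.2
    have hdis : Disjoint (T ∩ S) (I.image y) := by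
      rw [disjoint_left]
      intro v hv hv'
      rw [mem_image] at hv'
      obtain ⟨i, _, rfl⟩ := hv'
      exact hyS i (mem_inter.1 hv).2
    have hIc : (I.image y).card = I.card := card_image_of_injective _ hinj
    have hsum : (T ∩ S).card + I.card = 3 := by
      rw [← hIc, ← card_union_of_disjoint hdis, ← hT1, hT]
    have hIne : I.Nonempty := by
      rw [nonempty_iff_ne_empty]
      intro h0
      apply hTn
      rw [hT1, h0, image_empty, union_empty]
      exact inter_subset_right
    have hIle : 1 ≤ I.card := hIne.card_pos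
    -- add dummies
    obtain ⟨Dm, hDm⟩ : ∃ Dm : Finset (Fin 3), Dm.card = 3 - I.card := by
      obtain ⟨Dm, _, h⟩ := exists_subset_card_eq (s := (univ : Finset (Fin 3))) (n := 3 - I.card)
        (by rw [card_univ, Fintype.card_fin]; omega)
      exact ⟨Dm, h⟩
    set e : Finset (Fin (M + 3)) := I.map (Fin.castAddEmb 3) ∪ Dm.map (Fin.natAddEmb M) with he
    have heK : e ⊆ K := by
      intro x hx
      rw [he, mem_union, mem_map, mem_map] at hx
      rcases hx with ⟨i, hi, rfl⟩ | ⟨i, _, rfl⟩
      · rw [hI, mem_filter, hR, mem_filter] at hi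
        exact hi.1.2
      · exact hD3 i
    have hdis2 : Disjoint (I.map (Fin.castAddEmb 3)) (Dm.map (Fin.natAddEmb M)) := by
      rw [disjoint_left]
      intro x hx hx'
      rw [mem_map] at hx hx'
      obtain ⟨a, _, rfl⟩ := hx
      obtain ⟨b, _, hb⟩ := hx'
      have := congrArg Fin.val hb
      simp at this
      omega
    have hec : e.card = 3 := by
      rw [he, card_union_of_disjoint hdis2, card_map, card_map, hDm]
      omega
    have hRe : hR e = I := by
      ext i
      simp only [hR, he, mem_filter, mem_univ, true_and, mem_union, mem_map, Fin.castAddEmb_apply,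
        Fin.natAddEmb_apply]
      constructor
      · rintro (⟨a, ha, hai⟩ | ⟨a, _, hai⟩)
        · rw [← Fin.castAdd_injective _ _ hai]
          exact ha
        · have := congrArg Fin.val hai
          simp at this
          omega
      · intro hi
        exact Or.inl ⟨i, hi, rfl⟩
    have hmem := hcl e heK hec
    unfold hG at hmem
    rw [mem_filter] at hmem
    have := hmem.2.2 (T ∩ S) inter_subset_right (by rw [hRe]; exact hsum) (by rw [hRe]; exact hIne)
    rw [hRe, ← hT1] at this
    exact this

end Index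

/-! ## The count -/

section Count

set_option linter.unusedSectionVars false

variable {V : Type} [Fintype V] [DecidableEq V]

theorem host_codeg {G : Finset (Finset V)} (hG : ∀ e ∈ G, e.card = 3) {ρ : ℝ}
    (hcod : ∀ P : Finset V, P.card = 2 →
      (1 - ρ) * Fintype.card V ≤ ((G.filter (fun e => P ⊆ e)).card : ℝ))
    (P : Finset V) (hP : P.card = 2) :
    ((univ.filter (fun v => insert v P ∉ G)).card : ℝ) ≤ ρ * Fintype.card V := by
  classical
  have h1 := hcod P hP
  have h2 : (G.filter (fun e => P ⊆ e)).card ≤ (univ.filter (fun v => insert v P ∈ G)).card := by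
    have h3 : G.filter (fun e => P ⊆ e) ⊆
        (univ.filter (fun v => insert v P ∈ G)).image (fun v => insert v P) := by
      intro e he
      rw [mem_filter] at he
      obtain ⟨heG, hPe⟩ := he
      have hc := hG e heG
      obtain ⟨v, hv, hvP⟩ : ∃ v ∈ e, v ∉ P := by
        by_contra hcon
        push Not at hcon
        have : e ⊆ P := fun x hx => hcon x hx
        have := card_le_card this
        omega
      have he' : insert v P = e := by
        refine eq_of_subset_of_card_le ?_ ?_
        · intro x hx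
          rw [mem_insert] at hx
          rcases hx with rfl | hx
          · exact hv
          · exact hPe hx
        · rw [card_insert_of_notMem hvP, hP, hc]
      rw [mem_image]
      refine ⟨v, ?_, he'⟩
      rw [mem_filter]
      exact ⟨mem_univ _, by rw [he']; exact heG⟩
    exact (card_le_card h3).trans card_image_le
  have h4 : (univ.filter (fun v => insert v P ∈ G)).card +
      (univ.filter (fun v => insert v P ∉ G)).card = Fintype.card V := by
    rw [card_filter_add_card_filter_not, card_univ]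
  have h5 : ((univ.filter (fun v => insert v P ∈ G)).card : ℝ) +
      ((univ.filter (fun v => insert v P ∉ G)).card : ℝ) = Fintype.card V := by
    exact_mod_cast h4
  have h6 : ((G.filter (fun e => P ⊆ e)).card : ℝ) ≤
      ((univ.filter (fun v => insert v P ∈ G)).card : ℝ) := by exact_mod_cast h2
  linarith

open Classical in
/-- most choices are good -/
theorem host_good {G : Finset (Finset V)} {S : Finset V} (hS : S.card ≤ 12) {ρ : ℝ} (hρ : 0 < ρ)
    (hcod : ∀ P : Finset V, P.card = 2 →
      ((univ.filter (fun v => insert v P ∉ G)).card : ℝ) ≤ ρ * Fintype.card V)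
    {M : ℕ} (hM : 1 ≤ M) (hq1 : ((M : ℝ) + 1) ^ 2 * hq (66 * ρ) ^ M ≤ 1 / 4)
    (hn : 4 * (M ^ 2 + 12 * M) ≤ Fintype.card V) :
    (Fintype.card V : ℝ) ^ M / 2 ≤
      ((univ.filter (fun y : Fin M → V => hGood G S (66 * ρ) y)).card : ℝ) := by
  set n := Fintype.card V with hnn
  set β : ℝ := 66 * ρ with hβ
  set Good := univ.filter (fun y : Fin M → V => hGood G S β y) with hGoodd
  set A1 := (univ ×ˢ univ : Finset (Fin M × Fin M)).biUnion
    (fun p => univ.filter (fun y : Fin M → V => p.1 ≠ p.2 ∧ y p.1 = y p.2)) with hA1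
  set A2 := (univ ×ˢ S : Finset (Fin M × V)).biUnion
    (fun p => univ.filter (fun y : Fin M → V => y p.1 = p.2)) with hA2
  set A3 := ((univ : Finset (Finset (Fin M))).filter (fun I0 => I0.card ≤ 2)).biUnion
    (fun I0 => univ.filter (fun y : Fin M → V => 2 * β * Fintype.card (Fin M) <
      ((univ.filter (fun k => k ∉ I0 ∧ y k ∈ hB G S I0 (fun i => y i.1))).card : ℝ))) with hA3
  have hcover : (univ : Finset (Fin M → V)) ⊆ Good ∪ (A1 ∪ A2 ∪ A3) := by
    intro y _
    by_cases h1 : Function.Injective y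
    · by_cases h2 : ∀ i, y i ∉ S
      · by_cases h3 : ∀ I0 : Finset (Fin M), I0.card ≤ 2 →
          ((univ.filter (fun k => k ∉ I0 ∧ y k ∈ hB G S I0 (fun i => y i.1))).card : ℝ) ≤ 2 * β * M
        · refine mem_union_left _ ?_
          rw [hGoodd, mem_filter]
          exact ⟨mem_univ _, h1, h2, h3⟩
        · push Not at h3
          obtain ⟨I0, hI0, hlt⟩ := h3
          refine mem_union_right _ (mem_union_right _ ?_)
          rw [hA3, mem_biUnion]
          refine ⟨I0, by rw [mem_filter]; exact ⟨mem_univ _, hI0⟩, ?_⟩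
          rw [mem_filter, Fintype.card_fin]
          exact ⟨mem_univ _, hlt⟩
      · push Not at h2
        obtain ⟨i, hi⟩ := h2
        refine mem_union_right _ (mem_union_left _ (mem_union_right _ ?_))
        rw [hA2, mem_biUnion]
        exact ⟨(i, y i), mem_product.2 ⟨mem_univ _, hi⟩, by rw [mem_filter]; exact ⟨mem_univ _, rfl⟩⟩
    · have h1' : ∃ i j, y i = y j ∧ i ≠ j := by
        by_contra hcon
        push Not at hcon
        exact h1 fun i j hij => hcon i j hij
      obtain ⟨i, j, hij, hne⟩ := h1'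
      refine mem_union_right _ (mem_union_left _ (mem_union_left _ ?_))
      rw [hA1, mem_biUnion]
      exact ⟨(i, j), mem_product.2 ⟨mem_univ _, mem_univ _⟩,
        by rw [mem_filter]; exact ⟨mem_univ _, hne, hij⟩⟩
  have c1 : A1.card ≤ M ^ 2 * n ^ (M - 1) := by
    refine card_biUnion_le.trans ?_
    have : ∀ p ∈ (univ ×ˢ univ : Finset (Fin M × Fin M)),
        (univ.filter (fun y : Fin M → V => p.1 ≠ p.2 ∧ y p.1 = y p.2)).card ≤ n ^ (M - 1) := by
      intro p _
      have := host_det (V := V) p.1 (univ.filter (fun y : Fin M → V => p.1 ≠ p.2 ∧ y p.1 = y p.2))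
        (by
          intro y hy y' hy' h
          rw [mem_filter] at hy hy'
          funext i
          by_cases hi : i = p.1
          · rw [hi, hy.2.2, hy'.2.2]
            exact h p.2 (Ne.symm hy.2.1)
          · exact h i hi)
      rw [Fintype.card_fin] at this
      exact this
    refine (sum_le_sum this).trans ?_
    rw [sum_const, card_product, card_univ, Fintype.card_fin, smul_eq_mul, sq]
  have c2 : A2.card ≤ (12 * M) * n ^ (M - 1) := by
    refine card_biUnion_le.trans ?_
    have : ∀ p ∈ (univ ×ˢ S : Finset (Fin M × V)),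
        (univ.filter (fun y : Fin M → V => y p.1 = p.2)).card ≤ n ^ (M - 1) := by
      intro p _
      have := host_det (V := V) p.1 (univ.filter (fun y : Fin M → V => y p.1 = p.2))
        (by
          intro y hy y' hy' h
          rw [mem_filter] at hy hy'
          funext i
          by_cases hi : i = p.1
          · rw [hi, hy.2, hy'.2]
          · exact h i hi)
      rw [Fintype.card_fin] at this
      exact this
    refine (sum_le_sum this).trans ?_
    rw [sum_const, card_product, card_univ, Fintype.card_fin, smul_eq_mul]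
    refine Nat.mul_le_mul_right _ ?_
    rw [mul_comm]
    exact Nat.mul_le_mul_right _ hS
  have hn0 : (0 : ℝ) ≤ n := Nat.cast_nonneg _
  have hq0 : 0 ≤ hq β := (hq_pos (by rw [hβ]; positivity)).le
  have c3 : (A3.card : ℝ) ≤ ((M : ℝ) + 1) ^ 2 * ((n : ℝ) ^ M * hq β ^ M) := by
    have h1 : (A3.card : ℝ) ≤ ∑ I0 ∈ (univ : Finset (Finset (Fin M))).filter (fun I0 => I0.card ≤ 2),
        ((n : ℝ) ^ M * hq β ^ M) := by
      rw [hA3]
      refine (Nat.cast_le.2 card_biUnion_le).trans ?_
      push_cast
      refine sum_le_sum fun I0 _ => ?_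
      have := host_tail (V := V) I0 (hB G S I0) (β := β) (by rw [hβ]; positivity)
        (fun y0 => hB_card hS hρ.le hcod I0 y0)
      rw [Fintype.card_fin] at this
      rw [Fintype.card_fin]
      exact this
    rw [sum_const, nsmul_eq_mul] at h1
    refine h1.trans (mul_le_mul_of_nonneg_right ?_ (by positivity))
    have h2 : ((univ : Finset (Finset (Fin M))).filter (fun I0 => I0.card ≤ 2)).card ≤ (M + 1) ^ 2 := by
      have h3 : (univ : Finset (Finset (Fin M))).filter (fun I0 => I0.card ≤ 2) ⊆
          powersetCard 0 univ ∪ powersetCard 1 univ ∪ powersetCard 2 univ := by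
        intro I0 hI0
        rw [mem_filter] at hI0
        have h4 : I0.card = 0 ∨ I0.card = 1 ∨ I0.card = 2 := by omega
        rw [mem_union, mem_union, mem_powersetCard, mem_powersetCard, mem_powersetCard]
        rcases h4 with h | h | h
        · exact Or.inl (Or.inl ⟨subset_univ _, h⟩)
        · exact Or.inl (Or.inr ⟨subset_univ _, h⟩)
        · exact Or.inr ⟨subset_univ _, h⟩
      refine (card_le_card h3).trans ((card_union_le _ _).trans
        ((Nat.add_le_add_right (card_union_le _ _) _).trans ?_))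
      rw [card_powersetCard, card_powersetCard, card_powersetCard, card_univ, Fintype.card_fin]
      have h5 : M.choose 2 ≤ M ^ 2 := Nat.choose_le_pow _ _
      rw [Nat.choose_zero_right, Nat.choose_one_right]
      nlinarith
    exact_mod_cast h2
  have hpow : (n : ℝ) ^ M = n ^ (M - 1) * n := by
    rw [← pow_succ]
    congr 1
    omega
  have h1 : n ^ M ≤ Good.card + (A1.card + A2.card + A3.card) := by
    have := card_le_card hcover
    rw [card_univ, Fintype.card_fun, Fintype.card_fin, ← hnn] at this
    exact this.trans ((card_union_le _ _).trans (Nat.add_le_add_left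
      ((card_union_le _ _).trans (Nat.add_le_add_right (card_union_le _ _) _)) _))
  have h1' : (n : ℝ) ^ M ≤ Good.card + (A1.card + A2.card + A3.card) := by exact_mod_cast h1
  have c1' : (A1.card : ℝ) ≤ (M : ℝ) ^ 2 * (n : ℝ) ^ (M - 1) := by exact_mod_cast c1
  have c2' : (A2.card : ℝ) ≤ (12 * (M : ℝ)) * (n : ℝ) ^ (M - 1) := by exact_mod_cast c2
  have hn' : 4 * ((M : ℝ) ^ 2 + 12 * M) ≤ n := by exact_mod_cast hn
  have hp0 : (0 : ℝ) ≤ (n : ℝ) ^ (M - 1) := by positivity
  have h2 : ((M : ℝ) ^ 2 + 12 * M) * (n : ℝ) ^ (M - 1) ≤ (n : ℝ) ^ M / 4 := by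
    rw [hpow]
    nlinarith
  have h3 : ((M : ℝ) + 1) ^ 2 * ((n : ℝ) ^ M * hq β ^ M) ≤ (n : ℝ) ^ M / 4 := by
    have h4 : (0 : ℝ) ≤ (n : ℝ) ^ M := by positivity
    calc ((M : ℝ) + 1) ^ 2 * ((n : ℝ) ^ M * hq β ^ M)
        = (((M : ℝ) + 1) ^ 2 * hq β ^ M) * (n : ℝ) ^ M := by ring
      _ ≤ 1 / 4 * (n : ℝ) ^ M := mul_le_mul_of_nonneg_right hq1 h4
      _ = _ := by ring
  nlinarith

open Classical in
/-- for a fixed choice of indices -/
theorem host_fiber {G : Finset (Finset V)} {S : Finset V} {M t : ℕ} (g : Fin t → Fin M)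
    (hg : Function.Injective g) :
    (univ.filter (fun y : Fin M → V => Joined G S (fun i => y (g i)))).card ≤
      (univ.filter (fun w : Fin t → V => Joined G S w)).card * Fintype.card V ^ (M - t) := by
  have h1 : (univ.filter (fun y : Fin M → V => Joined G S (fun i => y (g i)))).card ≤
      ((univ.filter (fun w : Fin t → V => Joined G S w)) ×ˢ
        (univ : Finset ({k : Fin M // ¬ ∃ i, g i = k} → V))).card := by
    refine card_le_card_of_injOn (fun y => (fun i => y (g i), fun k => y k.1)) ?_ ?_
    · intro y hy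
      rw [mem_coe, mem_filter] at hy
      rw [mem_coe, mem_product]
      refine ⟨?_, mem_univ _⟩
      rw [mem_filter]
      exact ⟨mem_univ _, hy.2⟩
    · intro y _ y' _ he
      rw [Prod.mk.injEq] at he
      funext k
      by_cases hk : ∃ i, g i = k
      · obtain ⟨i, rfl⟩ := hk
        exact congrFun he.1 i
      · exact congrFun he.2 ⟨k, hk⟩
  rw [card_product, card_univ, Fintype.card_fun] at h1
  have h2 : Fintype.card {k : Fin M // ¬ ∃ i, g i = k} = M - t := by
    rw [Fintype.card_subtype_compl, Fintype.card_fin]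
    congr 1
    have : Fintype.card {k : Fin M // ∃ i, g i = k} = (univ.image g).card := by
      rw [Fintype.card_subtype]
      congr 1
      ext k
      simp
    rw [this, card_image_of_injective _ hg, card_univ, Fintype.card_fin]
  rw [h2] at h1
  exact h1

end Count

open Classical in
/-- **HOST.** Black box: fractional decompositions into cliques with `t + 3` vertices at density
`δ`. -/
theorem host (t : ℕ) {δ ρ : ℝ} (hρ : 0 < ρ) (hδ : δ ≤ 1 - 133 * ρ)
    (hfrac : ∃ n0 : ℕ, ∀ n : ℕ, n0 ≤ n →
      ∀ G : Finset (Finset (Fin n)),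
        (∀ e ∈ G, e.card = 3) →
        (∀ A : Finset (Fin n), A.card = 2 →
          δ * (n : ℝ) ≤ ((G.filter (fun e => A ⊆ e)).card : ℝ)) →
        ∃ w : Finset (Fin n) → ℝ, (∀ S, 0 ≤ w S) ∧
          (∀ S, w S ≠ 0 → S.card = t + 3 ∧ ∀ e : Finset (Fin n), e ⊆ S → e.card = 3 → e ∈ G) ∧
          ∀ e ∈ G, ∑ S ∈ Finset.univ.filter (fun S => e ⊆ S), w S = 1) :
    ∃ c0 : ℝ, 0 < c0 ∧ ∃ n1 : ℕ, ∀ (V : Type) [Fintype V] [DecidableEq V],
      n1 ≤ Fintype.card V → ∀ G : Finset (Finset V), (∀ e ∈ G, e.card = 3) →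
        (∀ P : Finset V, P.card = 2 →
          (1 - ρ) * Fintype.card V ≤ ((G.filter (fun e => P ⊆ e)).card : ℝ)) →
        ∀ S : Finset V, S.card ≤ 12 →
          c0 * (Fintype.card V : ℝ) ^ t ≤
            ((univ.filter (fun w : Fin t → V => Joined G S w)).card : ℝ) := by
  obtain ⟨n0, hn0⟩ := hfrac
  -- choice of `M`
  obtain ⟨M1, hM1⟩ := exists_nat_gt (5 / ρ)
  have htend : Filter.Tendsto (fun M : ℕ => ((M : ℝ) + 1) ^ 2 * hq (66 * ρ) ^ M) Filter.atTop
      (nhds 0) := by
    have hq0 := hq_pos (β := 66 * ρ) (by positivity)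
    have hq1 := hq_lt (β := 66 * ρ) (by positivity)
    have h1 := tendsto_pow_const_mul_const_pow_of_abs_lt_one 2 (r := hq (66 * ρ))
      (by rw [abs_of_pos hq0]; exact hq1)
    have h2 := h1.comp (Filter.tendsto_add_atTop_nat 1)
    have h3 := h2.const_mul (hq (66 * ρ))⁻¹
    rw [mul_zero] at h3
    refine h3.congr fun M => ?_
    simp only [Function.comp_apply]
    push_cast
    field_simp
    ring
  have hev := htend.eventually (gt_mem_nhds (show (0 : ℝ) < 1 / 4 by norm_num))
  rw [Filter.eventually_atTop] at hev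
  obtain ⟨M2, hM2⟩ := hev
  set M : ℕ := n0 + M1 + M2 + 1 with hM
  have hMq : ((M : ℝ) + 1) ^ 2 * hq (66 * ρ) ^ M ≤ 1 / 4 := (hM2 M (by omega)).le
  have hMρ : 5 ≤ ρ * M := by
    have h1 : 5 / ρ < M := hM1.trans_le (by exact_mod_cast (by omega : M1 ≤ M))
    rw [div_lt_iff₀ hρ] at h1
    linarith
  have hM0 : (0 : ℝ) < M := by exact_mod_cast (by omega : 0 < M)
  refine ⟨1 / (2 * (M : ℝ) ^ t), by positivity, 4 * (M ^ 2 + 12 * M) + 1, ?_⟩
  intro V _ _ hV G' hG3 hcod S hS
  set n := Fintype.card V with hn
  have hcod' := host_codeg hG3 hcod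
  have hgood := host_good hS hρ hcod' (by omega : 1 ≤ M) hMq (by omega)
  -- every good choice contains a joined map
  have hex : ∀ y : Fin M → V, hGood G' S (66 * ρ) y →
      ∃ g : Fin t → Fin M, Function.Injective g ∧ Joined G' S (fun i => y (g i)) := by
    intro y hy
    obtain ⟨w, hw0, hw1, hw2⟩ := hn0 (M + 3) (by omega) (hG G' S y)
      (fun e he => by
        unfold hG at he
        rw [mem_filter] at he
        exact he.2.1)
      (fun A hA => by
        refine le_trans ?_ (hG_codeg hy hA)
        push_cast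
        have h1 : δ * ((M : ℝ) + 3) ≤ (1 - 133 * ρ) * ((M : ℝ) + 3) :=
          mul_le_mul_of_nonneg_right hδ (by positivity)
        nlinarith)
    set Dm : Finset (Fin (M + 3)) := univ.map (Fin.natAddEmb M) with hDm
    have hDmR : hR Dm = ∅ := by
      rw [eq_empty_iff_forall_notMem]
      intro i hi
      rw [hR, mem_filter, hDm, mem_map] at hi
      obtain ⟨_, b, _, hb⟩ := hi
      have := congrArg Fin.val hb
      simp at this
      omega
    have hDmG : Dm ∈ hG G' S y := by
      unfold hG
      rw [mem_filter]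
      refine ⟨mem_univ _, by rw [hDm, card_map, card_univ, Fintype.card_fin], ?_⟩
      intro A _ _ hne
      rw [hDmR] at hne
      exact absurd hne not_nonempty_empty
    have hsum := hw2 Dm hDmG
    obtain ⟨K, hK, hKne⟩ : ∃ K ∈ Finset.univ.filter (fun S => Dm ⊆ S), w K ≠ 0 := by
      by_contra hcon
      push Not at hcon
      rw [sum_eq_zero hcon] at hsum
      norm_num at hsum
    rw [mem_filter] at hK
    obtain ⟨hKc, hKcl⟩ := hw1 K hKne
    exact hG_joined hy.1 hy.2.1 hKc
      (fun i => hK.2 (by rw [hDm, mem_map]; exact ⟨i, mem_univ _, rfl⟩)) hKcl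
  set Y := univ.filter (fun y : Fin M → V => hGood G' S (66 * ρ) y) with hY
  set J := (univ.filter (fun w : Fin t → V => Joined G' S w)).card with hJ
  have hn0' : (0 : ℝ) < n := by exact_mod_cast (by omega : 0 < n)
  have hYne : Y.Nonempty := by
    rw [← card_pos]
    have : (0 : ℝ) < Y.card := lt_of_lt_of_le (by positivity) hgood
    exact_mod_cast this
  have htM : t ≤ M := by
    obtain ⟨y, hy⟩ := hYne
    rw [hY, mem_filter] at hy
    obtain ⟨g, hg, _⟩ := hex y hy.2
    have := Fintype.card_le_of_injective g hg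
    rwa [Fintype.card_fin, Fintype.card_fin] at this
  have hcover : Y ⊆ ((univ : Finset (Fin t → Fin M)).filter (fun g => Function.Injective g)).biUnion
      (fun g => univ.filter (fun y : Fin M → V => Joined G' S (fun i => y (g i)))) := by
    intro y hy
    rw [hY, mem_filter] at hy
    obtain ⟨g, hg, hj⟩ := hex y hy.2
    rw [mem_biUnion]
    exact ⟨g, by rw [mem_filter]; exact ⟨mem_univ _, hg⟩, by rw [mem_filter]; exact ⟨mem_univ _, hj⟩⟩
  have h1 : Y.card ≤ M ^ t * (J * n ^ (M - t)) := by
    refine (card_le_card hcover).trans (card_biUnion_le.trans ?_)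
    have h2 : ∀ g ∈ (univ : Finset (Fin t → Fin M)).filter (fun g => Function.Injective g),
        (univ.filter (fun y : Fin M → V => Joined G' S (fun i => y (g i)))).card ≤
          J * n ^ (M - t) := by
      intro g hg
      rw [mem_filter] at hg
      exact host_fiber g hg.2
    refine (sum_le_sum h2).trans ?_
    rw [sum_const, smul_eq_mul]
    refine Nat.mul_le_mul_right _ ?_
    refine (card_filter_le _ _).trans ?_
    rw [card_univ, Fintype.card_fun, Fintype.card_fin, Fintype.card_fin]
  have h1' : (Y.card : ℝ) ≤ (M : ℝ) ^ t * ((J : ℝ) * (n : ℝ) ^ (M - t)) := by exact_mod_cast h1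
  have h3 : (n : ℝ) ^ M = (n : ℝ) ^ t * (n : ℝ) ^ (M - t) := by
    rw [← pow_add]
    congr 1
    omega
  have h4 : (n : ℝ) ^ t * (n : ℝ) ^ (M - t) / 2 ≤ (M : ℝ) ^ t * ((J : ℝ) * (n : ℝ) ^ (M - t)) := by
    rw [← h3]
    exact hgood.trans h1'
  have h5 : (0 : ℝ) < (n : ℝ) ^ (M - t) := by positivity
  have h6 : (n : ℝ) ^ t / 2 ≤ (M : ℝ) ^ t * J := by
    have h7 : ((n : ℝ) ^ t / 2) * (n : ℝ) ^ (M - t) ≤ ((M : ℝ) ^ t * J) * (n : ℝ) ^ (M - t) := by
      calc ((n : ℝ) ^ t / 2) * (n : ℝ) ^ (M - t) = (n : ℝ) ^ t * (n : ℝ) ^ (M - t) / 2 := by ring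
        _ ≤ _ := h4
        _ = _ := by ring
    exact le_of_mul_le_mul_right h7 h5
  have h8 : (0 : ℝ) < (M : ℝ) ^ t := by positivity
  rw [div_mul_eq_mul_div, one_mul, div_le_iff₀ (by positivity)]
  nlinarith

end MP5cE
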