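import Pool.Agent.Lib.MP_5c685b_co.E.Defs2
import Pool.Agent.Lib.MP_5c685b_co.E.Host

set_option autoImplicit false

/-!
# MP_5c685b_co, row 5E-14: `host_thm`
-/

namespace Pool.Agent.Lib.MP_5c685b_co.E

open Finset

theorem host_hasFr {t n : ℕ} {G : Finset (Finset (Fin n))} (h : HasFr (t + 3) G) :
    ∃ w : Finset (Fin n) → ℝ, (∀ S, 0 ≤ w S) ∧
      (∀ S, w S ≠ 0 → S.card = t + 3 ∧ ∀ e : Finset (Fin n), e ⊆ S → e.card = 3 → e ∈ G) ∧
      ∀ e ∈ G, ∑ S ∈ Finset.univ.filter (fun S => e ⊆ S), w S = 1 := by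
  obtain ⟨x, h0, h1, h2⟩ := h
  refine ⟨x, h0, fun S hS => ⟨(h1 S hS).1, fun e he hc => (h1 S hS).2 (mem_tri.2 ⟨he, hc⟩)⟩,
    fun e he => ?_⟩
  rw [← h2 e he]

/-- E14: few-root hosts from the fractional theorem. -/
theorem host_thm {cb : ℝ} (hcb : 0 < cb) (hF : FracThm cb) :
    ∃ c1 : ℝ, 0 < c1 ∧ ∃ r1 : ℕ, ∀ r : ℕ, r1 ≤ r → ∃ c0 : ℝ, 0 < c0 ∧ ∃ n0 : ℕ, ∀ n : ℕ, n0 ≤ n →
      ∀ G : Finset (Finset (Fin n)), Cod n (c1 * Real.log r / (r : ℝ) ^ 2) G →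
        Host (4 * r) c0 G := by
  classical
  obtain ⟨r0, hF⟩ := hF
  refine ⟨cb / 3325, by positivity, r0 + 3, fun r hr => ?_⟩
  have hr3 : (3 : ℝ) ≤ r := by exact_mod_cast (by omega : 3 ≤ r)
  have hr0 : (0 : ℝ) < r := by linarith
  have hlog : 0 < Real.log r := Real.log_pos (by linarith)
  set ρ : ℝ := cb / 3325 * Real.log r / (r : ℝ) ^ 2 with hρ
  have hρ0 : 0 < ρ := by positivity
  obtain ⟨n0, hn0⟩ := hF (4 * r + 3) (by omega)
  set δ : ℝ := 1 - cb * Real.log ((4 * r + 3 : ℕ) : ℝ) / ((4 * r + 3 : ℕ) : ℝ) ^ 2 with hδ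
  have hδρ : δ ≤ 1 - 133 * ρ := by
    have h1 : Real.log r ≤ Real.log ((4 * r + 3 : ℕ) : ℝ) := by
      apply Real.log_le_log hr0
      push_cast
      linarith
    have h2 : ((4 * r + 3 : ℕ) : ℝ) ≤ 5 * r := by
      push_cast
      linarith
    have h3 : (0 : ℝ) < ((4 * r + 3 : ℕ) : ℝ) := by positivity
    have h4 : 133 * ρ ≤ cb * Real.log ((4 * r + 3 : ℕ) : ℝ) / ((4 * r + 3 : ℕ) : ℝ) ^ 2 := by
      calc 133 * ρ = cb * Real.log r / (5 * r) ^ 2 := by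
            rw [hρ]
            field_simp
            ring
        _ ≤ cb * Real.log ((4 * r + 3 : ℕ) : ℝ) / ((4 * r + 3 : ℕ) : ℝ) ^ 2 := by
            gcongr
    linarith
  obtain ⟨c0, hc0, n1, hmain⟩ := MP5cE.host (4 * r) hρ0 hδρ ⟨n0, fun n hn G hG hcod => by
    refine host_hasFr (hn0 n hn G ⟨hG, fun P hP => ?_⟩)
    exact hcod P hP⟩
  refine ⟨c0, hc0, n1, fun n hn G hG => ?_⟩
  intro S hS
  have h := hmain (Fin n) (by rw [Fintype.card_fin]; exact hn) G hG.1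
    (fun P hP => by
      rw [Fintype.card_fin]
      exact hG.2 P hP) S hS
  rw [Fintype.card_fin] at h
  refine h.trans ?_
  rw [Nat.card_eq_fintype_card, Fintype.card_subtype]
  refine Nat.cast_le.2 (card_le_card ?_)
  intro w hw
  rw [mem_filter] at hw ⊢
  obtain ⟨_, h1, h2, h3⟩ := hw
  exact ⟨mem_univ _, h1, h2, fun T hT hc hn => h3 T hc hT hn⟩

end Pool.Agent.Lib.MP_5c685b_co.E
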