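import Pool.Agent.Lib.MP_5c685b_co.E.Defs

/-!
MP_5c685b_co, exact decomposition for k = 3: the integral identity (sections 1.1 and 1.2).
-/

set_option autoImplicit false
set_option linter.all false

namespace Pool.Agent.Lib.MP_5c685b_co.E.Ident

open Finset MvPolynomial

variable {V : Type*}

/-- Elementary symmetric polynomial of degree `k` in the points of `Q`. -/
noncomputable def esy (k : ℕ) (Q : Finset V) : MvPolynomial V ℤ :=
  ∑ t ∈ Q.powersetCard k, ∏ v ∈ t, X v

lemma esy_zero (Q : Finset V) : esy 0 Q = 1 := by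
  simp [esy]

lemma esy_one (Q : Finset V) : esy 1 Q = ∑ v ∈ Q, X v := by
  unfold esy
  rw [Finset.powersetCard_one]
  simp

variable [DecidableEq V]

lemma esy_insert (k : ℕ) (x : V) (Q : Finset V) (hx : x ∉ Q) :
    esy (k+1) (insert x Q) = esy (k+1) Q + X x * esy k Q := by
  unfold esy
  rw [Finset.powersetCard_succ_insert hx, Finset.sum_union, Finset.sum_image]
  · congr 1
    rw [Finset.mul_sum]
    refine Finset.sum_congr rfl (fun t ht => ?_)
    rw [Finset.prod_insert]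
    exact fun h => hx ((Finset.mem_powersetCard.1 ht).1 h)
  · intro s hs t ht h
    have hs' : x ∉ s := fun h => hx ((Finset.mem_powersetCard.1 hs).1 h)
    have ht' : x ∉ t := fun h => hx ((Finset.mem_powersetCard.1 ht).1 h)
    rw [← Finset.erase_insert hs', ← Finset.erase_insert ht', h]
  · rw [Finset.disjoint_left]
    intro s hs hs'
    obtain ⟨t, _, rfl⟩ := Finset.mem_image.1 hs'
    exact hx ((Finset.mem_powersetCard.1 hs).1 (Finset.mem_insert_self _ _))

lemma esy3_three (C : Finset V) (x y z : V) (hxy : x ≠ y) (hxz : x ≠ z) (hyz : y ≠ z)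
    (hx : x ∉ C) (hy : y ∉ C) (hz : z ∉ C) :
    esy 3 (insert x (insert y (insert z C))) =
      X x * X y * X z + (X x * X y + X x * X z + X y * X z) * esy 1 C
        + (X x + X y + X z) * esy 2 C + esy 3 C := by
  have h1 : x ∉ insert y (insert z C) := by simp [hxy, hxz, hx]
  have h2 : y ∉ insert z C := by simp [hyz, hy]
  rw [esy_insert 2 _ _ h1, esy_insert 2 _ _ h2, esy_insert 2 _ _ hz,
    esy_insert 1 _ _ h2, esy_insert 1 _ _ hz, esy_insert 0 _ _ hz, esy_zero]
  ring

lemma esy3_two (C : Finset V) (x y : V) (hxy : x ≠ y) (hx : x ∉ C) (hy : y ∉ C) :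
    esy 3 (insert x (insert y C)) =
      (X x * X y) * esy 1 C + (X x + X y) * esy 2 C + esy 3 C := by
  have h1 : x ∉ insert y C := by simp [hxy, hx]
  rw [esy_insert 2 _ _ h1, esy_insert 2 _ _ hy, esy_insert 1 _ _ hy]
  ring

lemma esy3_one (C : Finset V) (x : V) (hx : x ∉ C) :
    esy 3 (insert x C) = X x * esy 2 C + esy 3 C := by
  rw [esy_insert 2 _ _ hx]
  ring

/-- The octahedron: eight cliques with the same `r - 3` further points. -/
lemma oct (C : Finset V) (x x' y y' z z' : V)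
    (_hxx : x ≠ x') (hxy : x ≠ y) (hxy' : x ≠ y') (hxz : x ≠ z) (hxz' : x ≠ z')
    (hx'y : x' ≠ y) (hx'y' : x' ≠ y') (hx'z : x' ≠ z) (hx'z' : x' ≠ z')
    (_hyy : y ≠ y') (hyz : y ≠ z) (hyz' : y ≠ z') (hy'z : y' ≠ z) (hy'z' : y' ≠ z')
    (_hzz : z ≠ z')
    (hx : x ∉ C) (hx' : x' ∉ C) (hy : y ∉ C) (hy' : y' ∉ C) (hz : z ∉ C) (hz' : z' ∉ C) :
    ((X x - X x') * (X y - X y') * (X z - X z') : MvPolynomial V ℤ) =
      esy 3 (insert x (insert y (insert z C))) - esy 3 (insert x' (insert y (insert z C)))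
      - esy 3 (insert x (insert y' (insert z C))) - esy 3 (insert x (insert y (insert z' C)))
      + esy 3 (insert x' (insert y' (insert z C))) + esy 3 (insert x' (insert y (insert z' C)))
      + esy 3 (insert x (insert y' (insert z' C)))
      - esy 3 (insert x' (insert y' (insert z' C))) := by
  rw [esy3_three C x y z, esy3_three C x' y z, esy3_three C x y' z, esy3_three C x y z',
    esy3_three C x' y' z, esy3_three C x' y z', esy3_three C x y' z', esy3_three C x' y' z']
  · ring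
  all_goals assumption

/-- A set `L` of polynomials is a lattice for the roots `R` over the palette `W` of size
at least `r + 6`: it contains the cliques with at most two points outside the palette, all of
them in `R`. -/
structure Lat (r : ℕ) (W R : Finset V) (L : AddSubgroup (MvPolynomial V ℤ)) : Prop where
  mem : ∀ Q : Finset V, Q.card = r → Q ⊆ R ∪ W → (Q \ W).card ≤ 2 → esy 3 Q ∈ L

lemma exists_sub (W : Finset V) (S : Finset V) (m : ℕ) (h : m + S.card ≤ W.card) :
    ∃ C ⊆ W \ S, C.card = m := by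
  refine Finset.exists_subset_card_eq ?_
  have := Finset.le_card_sdiff S W
  omega

/-- membership of a clique given by inserting -/
lemma Lat.ins3 {r : ℕ} (hr : 3 ≤ r) {W R : Finset V} {L : AddSubgroup (MvPolynomial V ℤ)}
    (hL : Lat r W R L) {C : Finset V} (hCW : C ⊆ W) (hCc : C.card = r - 3) {x y z : V}
    (hxy : x ≠ y) (hxz : x ≠ z) (hyz : y ≠ z) (hx : x ∉ C) (hy : y ∉ C) (hz : z ∉ C)
    (hxR : x ∈ R ∪ W) (hyR : y ∈ R ∪ W) (hzW : z ∈ W) :
    esy 3 (insert x (insert y (insert z C))) ∈ L := by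
  have h1 : x ∉ insert y (insert z C) := by simp [hxy, hxz, hx]
  have h2 : y ∉ insert z C := by simp [hyz, hy]
  refine hL.mem _ ?_ ?_ ?_
  · rw [Finset.card_insert_of_notMem h1, Finset.card_insert_of_notMem h2,
      Finset.card_insert_of_notMem hz, hCc]
    omega
  · intro v hv
    simp only [Finset.mem_insert] at hv
    rcases hv with rfl | rfl | rfl | hv
    · exact hxR
    · exact hyR
    · exact Finset.mem_union_right _ hzW
    · exact Finset.mem_union_right _ (hCW hv)
  · have : (insert x (insert y (insert z C))) \ W ⊆ {x, y} := by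
      intro v hv
      simp only [Finset.mem_sdiff, Finset.mem_insert, Finset.mem_singleton] at hv ⊢
      rcases hv with ⟨rfl | rfl | rfl | hv, hn⟩
      · exact Or.inl rfl
      · exact Or.inr rfl
      · exact absurd hzW hn
      · exact absurd (hCW hv) hn
    exact (Finset.card_le_card this).trans Finset.card_le_two

/-- an octahedron with at most two points outside the palette is in `L`. -/
lemma Lat.oct {r : ℕ} (hr : 3 ≤ r) {W R : Finset V} {L : AddSubgroup (MvPolynomial V ℤ)}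
    (hL : Lat r W R L) (hW : r + 3 ≤ W.card) {x x' y y' z z' : V}
    (hnd : [x, x', y, y', z, z'].Nodup)
    (hx : x ∈ R ∪ W) (hy : y ∈ R ∪ W) (hx' : x' ∈ W) (hy' : y' ∈ W) (hz : z ∈ W) (hz' : z' ∈ W) :
    ((X x - X x') * (X y - X y') * (X z - X z') : MvPolynomial V ℤ) ∈ L := by
  obtain ⟨C, hC, hCc⟩ := exists_sub W {x, x', y, y', z, z'} (r - 3) (by
    have : ({x, x', y, y', z, z'} : Finset V).card ≤ 6 := Finset.card_le_six
    omega)
  have hCW : C ⊆ W := hC.trans Finset.sdiff_subset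
  have hCn : ∀ v ∈ ({x, x', y, y', z, z'} : Finset V), v ∉ C := fun v hv hvC =>
    (Finset.mem_sdiff.1 (hC hvC)).2 hv
  simp only [List.nodup_cons, List.mem_cons, List.not_mem_nil, not_or, or_false,
    List.nodup_nil, not_false_eq_true, and_true] at hnd
  obtain ⟨⟨h1, h2, h3, h4, h5⟩, ⟨h6, h7, h8, h9⟩, ⟨h10, h11, h12⟩, ⟨h13, h14⟩, h15⟩ := hnd
  have nx := hCn x (by simp)
  have nx' := hCn x' (by simp)
  have ny := hCn y (by simp)
  have ny' := hCn y' (by simp)
  have nz := hCn z (by simp)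
  have nz' := hCn z' (by simp)
  rw [Ident.oct C x x' y y' z z' h1 h2 h3 h4 h5 h6 h7 h8 h9 h10 h11 h12 h13 h14 h15
    nx nx' ny ny' nz nz']
  have ux' : x' ∈ R ∪ W := Finset.mem_union_right _ hx'
  have uy' : y' ∈ R ∪ W := Finset.mem_union_right _ hy'
  refine sub_mem (add_mem (add_mem (add_mem (sub_mem (sub_mem (sub_mem ?_ ?_) ?_) ?_) ?_) ?_) ?_) ?_
  all_goals refine hL.ins3 hr hCW hCc ?_ ?_ ?_ ?_ ?_ ?_ ?_ ?_ ?_ <;> assumption

lemma Lat.ins2 {r : ℕ} (hr : 3 ≤ r) {W R : Finset V} {L : AddSubgroup (MvPolynomial V ℤ)}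
    (hL : Lat r W R L) {C : Finset V} (hCW : C ⊆ W) (hCc : C.card = r - 2) {x y : V}
    (hxy : x ≠ y) (hx : x ∉ C) (hy : y ∉ C)
    (hxR : x ∈ R ∪ W) (hyR : y ∈ R ∪ W) :
    esy 3 (insert x (insert y C)) ∈ L := by
  have h1 : x ∉ insert y C := by simp [hxy, hx]
  refine hL.mem _ ?_ ?_ ?_
  · rw [Finset.card_insert_of_notMem h1, Finset.card_insert_of_notMem hy, hCc]
    omega
  · intro v hv
    simp only [Finset.mem_insert] at hv
    rcases hv with rfl | rfl | hv
    · exact hxR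
    · exact hyR
    · exact Finset.mem_union_right _ (hCW hv)
  · have : (insert x (insert y C)) \ W ⊆ {x, y} := by
      intro v hv
      simp only [Finset.mem_sdiff, Finset.mem_insert, Finset.mem_singleton] at hv ⊢
      rcases hv with ⟨rfl | rfl | hv, hn⟩
      · exact Or.inl rfl
      · exact Or.inr rfl
      · exact absurd (hCW hv) hn
    exact (Finset.card_le_card this).trans Finset.card_le_two

lemma Lat.ins1 {r : ℕ} (hr : 3 ≤ r) {W R : Finset V} {L : AddSubgroup (MvPolynomial V ℤ)}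
    (hL : Lat r W R L) {C : Finset V} (hCW : C ⊆ W) (hCc : C.card = r - 1) {x : V}
    (hx : x ∉ C) (hxR : x ∈ R ∪ W) :
    esy 3 (insert x C) ∈ L := by
  refine hL.mem _ ?_ ?_ ?_
  · rw [Finset.card_insert_of_notMem hx, hCc]
    omega
  · intro v hv
    simp only [Finset.mem_insert] at hv
    rcases hv with rfl | hv
    · exact hxR
    · exact Finset.mem_union_right _ (hCW hv)
  · have : (insert x C) \ W ⊆ {x, x} := by
      intro v hv
      simp only [Finset.mem_sdiff, Finset.mem_insert, Finset.mem_singleton] at hv ⊢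
      rcases hv with ⟨rfl | hv, hn⟩
      · exact Or.inl rfl
      · exact absurd (hCW hv) hn
    exact (Finset.card_le_card this).trans Finset.card_le_two

/-- (P): `(r-2) t₃ (x - t₁)(y - t₂)` is in `L`. -/
lemma Lat.P {r : ℕ} (hr : 3 ≤ r) {W R : Finset V} {L : AddSubgroup (MvPolynomial V ℤ)}
    (hL : Lat r W R L) (hW : r + 3 ≤ W.card) {x y t₁ t₂ t₃ : V}
    (hnd : [x, t₁, y, t₂, t₃].Nodup)
    (hx : x ∈ R ∪ W) (hy : y ∈ R ∪ W) (h1 : t₁ ∈ W) (h2 : t₂ ∈ W) (h3 : t₃ ∈ W) :
    (r - 2) • (X t₃ * ((X x - X t₁) * (X y - X t₂)) : MvPolynomial V ℤ) ∈ L := by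
  obtain ⟨D, hD, hDc⟩ := exists_sub W {x, y, t₁, t₂} (r - 2) (by
    have : ({x, y, t₁, t₂} : Finset V).card ≤ 4 := Finset.card_le_four
    omega)
  have hDW : D ⊆ W := hD.trans Finset.sdiff_subset
  have hDn : ∀ v ∈ ({x, y, t₁, t₂} : Finset V), v ∉ D := fun v hv hvD =>
    (Finset.mem_sdiff.1 (hD hvD)).2 hv
  have nx := hDn x (by simp)
  have ny := hDn y (by simp)
  have n1 := hDn t₁ (by simp)
  have n2 := hDn t₂ (by simp)
  simp only [List.nodup_cons, List.mem_cons, List.not_mem_nil, not_or, or_false,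
    List.nodup_nil, not_false_eq_true, and_true] at hnd
  obtain ⟨⟨a1, a2, a3, a4⟩, ⟨a5, a6, a7⟩, ⟨a8, a9⟩, a10⟩ := hnd
  have key : (r - 2) • (X t₃ * ((X x - X t₁) * (X y - X t₂)) : MvPolynomial V ℤ) =
      (esy 3 (insert x (insert y D)) - esy 3 (insert x (insert t₂ D))
        - esy 3 (insert t₁ (insert y D)) + esy 3 (insert t₁ (insert t₂ D)))
      - ∑ d ∈ D, (X x - X t₁) * (X y - X t₂) * (X d - X t₃) := by
    rw [esy3_two D x y a2 nx ny, esy3_two D x t₂ a3 nx n2, esy3_two D t₁ y a5 n1 ny,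
      esy3_two D t₁ t₂ a6 n1 n2, ← Finset.mul_sum, Finset.sum_sub_distrib, Finset.sum_const,
      hDc, esy_one, nsmul_eq_mul, nsmul_eq_mul]
    ring
  rw [key]
  have u1 : t₁ ∈ R ∪ W := Finset.mem_union_right _ h1
  have u2 : t₂ ∈ R ∪ W := Finset.mem_union_right _ h2
  refine sub_mem (add_mem (sub_mem (sub_mem ?_ ?_) ?_) ?_) (sum_mem fun d hd => ?_)
  · exact hL.ins2 hr hDW hDc a2 nx ny hx hy
  · exact hL.ins2 hr hDW hDc a3 nx n2 hx u2
  · exact hL.ins2 hr hDW hDc a5 n1 ny u1 hy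
  · exact hL.ins2 hr hDW hDc a6 n1 n2 u1 u2
  · by_cases hdt : d = t₃
    · rw [hdt, sub_self, mul_zero]; exact zero_mem _
    · have e1 : d ≠ x := fun h => nx (h ▸ hd)
      have e2 : d ≠ y := fun h => ny (h ▸ hd)
      have e3 : d ≠ t₁ := fun h => n1 (h ▸ hd)
      have e4 : d ≠ t₂ := fun h => n2 (h ▸ hd)
      refine hL.oct hr hW ?_ hx hy h1 h2 (hDW hd) h3
      simp only [List.nodup_cons, List.mem_cons, List.not_mem_nil, not_or, or_false,
        List.nodup_nil, not_false_eq_true, and_true]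
      grind

/-- Six special colours. -/
structure Sp (W : Finset V) (a b c s₁ s₂ s₃ : V) : Prop where
  nd : [a, b, c, s₁, s₂, s₃].Nodup
  ha : a ∈ W
  hb : b ∈ W
  hc : c ∈ W
  h1 : s₁ ∈ W
  h2 : s₂ ∈ W
  h3 : s₃ ∈ W

/-- the pair term -/
noncomputable def npair (a b c : V) (p : Finset V) : MvPolynomial V ℤ :=
  ∏ v ∈ p, X v - X a * ∑ v ∈ p, X v + (X a * X b + X a * X c - X b * X c)

lemma npair_two (a b c y z : V) (h : y ≠ z) :
    npair a b c {y, z} = (X y - X b) * (X z - X a) + (X b - X a) * (X z - X c) := by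
  unfold npair
  rw [Finset.prod_pair h, Finset.sum_pair h]
  ring

noncomputable def gg (a u v : V) : MvPolynomial V ℤ := X a * X u + X a * X v - X u * X v

noncomputable def cc (a b c s₁ s₂ s₃ : V) : MvPolynomial V ℤ :=
  (X s₁ + X s₂ + X s₃) * (X a * X b + X b * X c - X a * X c)
    - X b * (X s₁ * X s₂ + X s₁ * X s₃ + X s₂ * X s₃) + X s₁ * X s₂ * X s₃

lemma identI (a b c s₁ s₂ s₃ x y z : V) (hxy : x ≠ y) (hxz : x ≠ z) (hyz : y ≠ z) :
    (X x * X y * X z : MvPolynomial V ℤ) = (X x - X s₁) * (X y - X s₂) * (X z - X s₃)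
      + X s₁ * npair a b c {y, z} + X s₂ * npair a b c {x, z} + X s₃ * npair a b c {x, y}
      + (X x - X b) * gg a s₂ s₃ + (X y - X b) * gg a s₁ s₃ + (X z - X b) * gg a s₁ s₂
      + cc a b c s₁ s₂ s₃ := by
  unfold npair gg cc
  rw [Finset.prod_pair hyz, Finset.prod_pair hxz, Finset.prod_pair hxy, Finset.sum_pair hyz,
    Finset.sum_pair hxz, Finset.sum_pair hxy]
  ring

/-- a point outside the six special colours -/
def Off (a b c s₁ s₂ s₃ x : V) : Prop := x ∉ [a, b, c, s₁, s₂, s₃]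

/-- `(r-2)` times the pair term is in `L`. -/
lemma Lat.pair {r : ℕ} (hr : 3 ≤ r) {W R : Finset V} {L : AddSubgroup (MvPolynomial V ℤ)}
    (hL : Lat r W R L) (hW : r + 3 ≤ W.card) {a b c s₁ s₂ s₃ : V} (hs : Sp W a b c s₁ s₂ s₃)
    {y z : V} (hyz : y ≠ z) (hy : y ∈ R ∪ W) (hz : z ∈ R ∪ W)
    (oy : y ∉ [a, b, c, s₁, s₂, s₃]) (oz : z ∉ [a, b, c, s₁, s₂, s₃]) :
    (r - 2) • (X s₁ * npair a b c {y, z} : MvPolynomial V ℤ) ∈ L := by
  rw [npair_two a b c y z hyz, mul_add, nsmul_add]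
  have hnd := hs.nd
  simp only [List.nodup_cons, List.mem_cons, List.not_mem_nil, not_or, or_false,
    List.nodup_nil, not_false_eq_true, and_true] at hnd oy oz
  have ub : b ∈ R ∪ W := Finset.mem_union_right _ hs.hb
  refine add_mem ?_ ?_
  · refine hL.P hr hW ?_ hy hz hs.hb hs.ha hs.h1
    simp only [List.nodup_cons, List.mem_cons, List.not_mem_nil, not_or, or_false,
      List.nodup_nil, not_false_eq_true, and_true]
    grind
  · refine hL.P hr hW ?_ ub hz hs.ha hs.hc hs.h1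
    simp only [List.nodup_cons, List.mem_cons, List.not_mem_nil, not_or, or_false,
      List.nodup_nil, not_false_eq_true, and_true]
    grind

/-- changing the colour of the pair term -/
lemma Lat.pairc {r : ℕ} (hr : 3 ≤ r) {W R : Finset V} {L : AddSubgroup (MvPolynomial V ℤ)}
    (hL : Lat r W R L) (hW : r + 3 ≤ W.card) {a b c s₁ s₂ s₃ : V} (hs : Sp W a b c s₁ s₂ s₃)
    {y z : V} (hyz : y ≠ z) (hy : y ∈ R ∪ W) (hz : z ∈ R ∪ W)
    (oy : y ∉ [a, b, c, s₁, s₂, s₃]) (oz : z ∉ [a, b, c, s₁, s₂, s₃])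
    {t : V} (ht : t = s₁ ∨ t = s₂ ∨ t = s₃) :
    (X t * npair a b c {y, z} - X s₁ * npair a b c {y, z} : MvPolynomial V ℤ) ∈ L := by
  by_cases h1 : t = s₁
  · rw [h1, sub_self]; exact zero_mem _
  have htW : t ∈ W := by
    rcases ht with rfl | rfl | rfl
    · exact hs.h1
    · exact hs.h2
    · exact hs.h3
  have hnd := hs.nd
  simp only [List.nodup_cons, List.mem_cons, List.not_mem_nil, not_or, or_false,
    List.nodup_nil, not_false_eq_true, and_true] at hnd oy oz
  have ub : b ∈ R ∪ W := Finset.mem_union_right _ hs.hb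
  have e : (X t * npair a b c {y, z} - X s₁ * npair a b c {y, z} : MvPolynomial V ℤ) =
      (X y - X b) * (X z - X a) * (X t - X s₁) + (X b - X a) * (X z - X c) * (X t - X s₁) := by
    rw [npair_two a b c y z hyz]; ring
  rw [e]
  refine add_mem ?_ ?_
  · refine hL.oct hr hW ?_ hy hz hs.hb hs.ha htW hs.h1
    simp only [List.nodup_cons, List.mem_cons, List.not_mem_nil, not_or, or_false,
      List.nodup_nil, not_false_eq_true, and_true]
    grind
  · refine hL.oct hr hW ?_ ub hz hs.ha hs.hc htW hs.h1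
    simp only [List.nodup_cons, List.mem_cons, List.not_mem_nil, not_or, or_false,
      List.nodup_nil, not_false_eq_true, and_true]
    grind

/-- changing the colours of the vertex term -/
lemma Lat.vertc {r : ℕ} (hr : 3 ≤ r) {W R : Finset V} {L : AddSubgroup (MvPolynomial V ℤ)}
    (hL : Lat r W R L) (hW : r + 3 ≤ W.card) {a b c s₁ s₂ s₃ : V} (hs : Sp W a b c s₁ s₂ s₃)
    {x : V} (hx : x ∈ R ∪ W) (ox : x ∉ [a, b, c, s₁, s₂, s₃]) :
    ((X x - X b) * gg a s₁ s₃ - (X x - X b) * gg a s₁ s₂ : MvPolynomial V ℤ) ∈ L ∧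
    ((X x - X b) * gg a s₂ s₃ - (X x - X b) * gg a s₁ s₂ : MvPolynomial V ℤ) ∈ L := by
  have hnd := hs.nd
  simp only [List.nodup_cons, List.mem_cons, List.not_mem_nil, not_or, or_false,
    List.nodup_nil, not_false_eq_true, and_true] at hnd ox
  have ua : a ∈ R ∪ W := Finset.mem_union_right _ hs.ha
  constructor
  · have e : ((X x - X b) * gg a s₁ s₃ - (X x - X b) * gg a s₁ s₂ : MvPolynomial V ℤ) =
        (X x - X b) * (X a - X s₁) * (X s₃ - X s₂) := by
      unfold gg; ring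
    rw [e]
    refine hL.oct hr hW ?_ hx ua hs.hb hs.h1 hs.h3 hs.h2
    simp only [List.nodup_cons, List.mem_cons, List.not_mem_nil, not_or, or_false,
      List.nodup_nil, not_false_eq_true, and_true]
    grind
  · have e : ((X x - X b) * gg a s₂ s₃ - (X x - X b) * gg a s₁ s₂ : MvPolynomial V ℤ) =
        (X x - X b) * (X a - X s₂) * (X s₃ - X s₁) := by
      unfold gg; ring
    rw [e]
    refine hL.oct hr hW ?_ hx ua hs.hb hs.h2 hs.h3 hs.h1
    simp only [List.nodup_cons, List.mem_cons, List.not_mem_nil, not_or, or_false,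
      List.nodup_nil, not_false_eq_true, and_true]
    grind

/-- every point of a set is in `|D| - 1` pairs: sums over pairs of sums over points. -/
lemma sum_pairs_sum {M : Type*} [AddCommMonoid M] (D : Finset V) (f : V → M) :
    ∑ q ∈ D.powersetCard 2, ∑ v ∈ q, f v = (D.card - 1) • ∑ v ∈ D, f v := by
  rw [Finset.sum_comm' (s' := fun v => (D.powersetCard 2).filter (fun q => v ∈ q)) (t' := D)
    (fun q v => by
      simp only [Finset.mem_filter, Finset.mem_powersetCard]
      constructor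
      · rintro ⟨⟨h1, h2⟩, h3⟩; exact ⟨⟨⟨h1, h2⟩, h3⟩, h1 h3⟩
      · rintro ⟨⟨⟨h1, h2⟩, h3⟩, _⟩; exact ⟨⟨h1, h2⟩, h3⟩)]
  rw [Finset.smul_sum]
  refine Finset.sum_congr rfl (fun v hv => ?_)
  rw [Finset.sum_const]
  congr 1
  have : (D.powersetCard 2).filter (fun q => v ∈ q) = (D.erase v).image (fun u => {v, u}) := by
    ext q
    simp only [Finset.mem_filter, Finset.mem_powersetCard, Finset.mem_image, Finset.mem_erase]
    constructor
    · rintro ⟨⟨h1, h2⟩, h3⟩
      obtain ⟨u, hu⟩ : ∃ u, q.erase v = {u} := by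
        rw [← Finset.card_eq_one, Finset.card_erase_of_mem h3, h2]
      have hu' : u ∈ q.erase v := by rw [hu]; simp
      refine ⟨u, ⟨(Finset.mem_erase.1 hu').1, h1 (Finset.mem_erase.1 hu').2⟩, ?_⟩
      rw [← Finset.insert_erase h3, hu]
    · rintro ⟨u, ⟨h1, h2⟩, rfl⟩
      refine ⟨⟨?_, Finset.card_pair (Ne.symm h1)⟩, by simp⟩
      intro w hw
      simp only [Finset.mem_insert, Finset.mem_singleton] at hw
      rcases hw with rfl | rfl <;> assumption
  rw [this, Finset.card_image_of_injOn, Finset.card_erase_of_mem hv]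
  intro u hu u' hu' h
  have hu1 := (Finset.mem_erase.1 (Finset.mem_coe.1 hu)).1
  have : u ∈ ({v, u'} : Finset V) := by
    have h' : ({v, u} : Finset V) = {v, u'} := h
    rw [← h']; simp
  simp only [Finset.mem_insert, Finset.mem_singleton] at this
  rcases this with h | h
  · exact absurd h hu1
  · exact h

/-- `(r-1 choose 2)` times the vertex term is in `L`. -/
lemma Lat.vert {r : ℕ} (hr : 3 ≤ r) {W R : Finset V} {L : AddSubgroup (MvPolynomial V ℤ)}
    (hL : Lat r W R L) (hW : r + 6 ≤ W.card) {a b c s₁ s₂ s₃ : V} (hs : Sp W a b c s₁ s₂ s₃)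
    {x : V} (hx : x ∈ R ∪ W) (ox : x ∉ [a, b, c, s₁, s₂, s₃]) :
    ((r - 1).choose 2) • ((X x - X b) * gg a s₁ s₂ : MvPolynomial V ℤ) ∈ L := by
  have hW3 : r + 3 ≤ W.card := by omega
  obtain ⟨D, hD, hDc⟩ := exists_sub W {x, a, b, s₁, s₂} (r - 1) (by
    have : ({x, a, b, s₁, s₂} : Finset V).card ≤ 5 := Finset.card_le_five
    omega)
  have hDW : D ⊆ W := hD.trans Finset.sdiff_subset
  have hDn : ∀ v ∈ ({x, a, b, s₁, s₂} : Finset V), ∀ d ∈ D, d ≠ v := fun v hv d hd h =>
    (Finset.mem_sdiff.1 (hD hd)).2 (h ▸ hv)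
  have nx := hDn x (by simp)
  have na := hDn a (by simp)
  have nb := hDn b (by simp)
  have n1 := hDn s₁ (by simp)
  have n2 := hDn s₂ (by simp)
  have hnd := hs.nd
  simp only [List.nodup_cons, List.mem_cons, List.not_mem_nil, not_or, or_false,
    List.nodup_nil, not_false_eq_true, and_true] at hnd ox
  have ua : a ∈ R ∪ W := Finset.mem_union_right _ hs.ha
  have ub : b ∈ R ∪ W := Finset.mem_union_right _ hs.hb
  -- the difference for one pair
  have hq : ∀ q ∈ D.powersetCard 2, ((X x - X b) * gg a s₁ s₂ - (X x - X b) * ∏ v ∈ q, X v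
      - ∑ v ∈ q, X s₁ * ((X x - X b) * (X a - X v)) : MvPolynomial V ℤ) ∈ L := by
    intro q hq
    obtain ⟨hqD, hqc⟩ := Finset.mem_powersetCard.1 hq
    obtain ⟨d, d', hdd, rfl⟩ := Finset.card_eq_two.1 hqc
    have hd : d ∈ D := hqD (by simp)
    have hd' : d' ∈ D := hqD (by simp)
    have e : ((X x - X b) * gg a s₁ s₂ - (X x - X b) * ∏ v ∈ {d, d'}, X v
      - ∑ v ∈ {d, d'}, X s₁ * ((X x - X b) * (X a - X v)) : MvPolynomial V ℤ) =
        (X x - X b) * (X d - X a) * (X s₁ - X s₂) - (X x - X b) * (X d - X s₁) * (X d' - X s₂) := by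
      rw [Finset.prod_pair hdd, Finset.sum_pair hdd]
      unfold gg; ring
    rw [e]
    have x1 := nx d hd
    have x2 := nx d' hd'
    have x3 := na d hd
    have x4 := na d' hd'
    have x5 := nb d hd
    have x6 := nb d' hd'
    have x7 := n1 d hd
    have x8 := n1 d' hd'
    have x9 := n2 d hd
    have x10 := n2 d' hd'
    have ud : d ∈ R ∪ W := Finset.mem_union_right _ (hDW hd)
    refine sub_mem ?_ ?_
    · refine hL.oct hr hW3 ?_ hx ud hs.hb hs.ha hs.h1 hs.h2
      simp only [List.nodup_cons, List.mem_cons, List.not_mem_nil, not_or, or_false,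
        List.nodup_nil, not_false_eq_true, and_true]
      grind
    · refine hL.oct hr hW3 ?_ hx ud hs.hb hs.h1 (hDW hd') hs.h2
      simp only [List.nodup_cons, List.mem_cons, List.not_mem_nil, not_or, or_false,
        List.nodup_nil, not_false_eq_true, and_true]
      grind
  have nxD : x ∉ D := fun h => nx x h rfl
  have nbD : b ∉ D := fun h => nb b h rfl
  have key : ((r - 1).choose 2) • ((X x - X b) * gg a s₁ s₂ : MvPolynomial V ℤ) =
      ∑ q ∈ D.powersetCard 2, ((X x - X b) * gg a s₁ s₂ - (X x - X b) * ∏ v ∈ q, X v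
      - ∑ v ∈ q, X s₁ * ((X x - X b) * (X a - X v))) +
      (esy 3 (insert x D) - esy 3 (insert b D)) +
      ∑ v ∈ D, (r - 2) • (X s₁ * ((X x - X b) * (X a - X v))) := by
    rw [Finset.sum_sub_distrib, Finset.sum_sub_distrib, sum_pairs_sum, Finset.sum_const,
      Finset.card_powersetCard, hDc, ← Finset.mul_sum, esy3_one D x nxD, esy3_one D b nbD,
      ← Finset.smul_sum]
    have : r - 1 - 1 = r - 2 := by omega
    rw [this]
    unfold esy
    ring
  rw [key]
  refine add_mem (add_mem (sum_mem hq) (sub_mem ?_ ?_)) (sum_mem fun d hd => ?_)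
  · exact hL.ins1 hr hDW hDc nxD hx
  · exact hL.ins1 hr hDW hDc nbD ub
  · have x1 := nx d hd
    have x3 := na d hd
    have x5 := nb d hd
    have x7 := n1 d hd
    refine hL.P hr hW3 ?_ hx ua hs.hb (hDW hd) hs.h1
    simp only [List.nodup_cons, List.mem_cons, List.not_mem_nil, not_or, or_false,
      List.nodup_nil, not_false_eq_true, and_true]
    grind

lemma Lat.ins3' {r : ℕ} (hr : 3 ≤ r) {W R : Finset V} {L : AddSubgroup (MvPolynomial V ℤ)}
    (hL : Lat r W R L) {C : Finset V} (hCW : C ⊆ W) (hCc : C.card = r - 3) {x y z : V}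
    (hxy : x ≠ y) (hxz : x ≠ z) (hyz : y ≠ z) (hx : x ∉ C) (hy : y ∉ C) (hz : z ∉ C)
    (hxR : x ∈ R ∪ W) (hyR : y ∈ R ∪ W) (hzR : z ∈ R ∪ W) (h : x ∈ W ∨ y ∈ W ∨ z ∈ W) :
    esy 3 (insert x (insert y (insert z C))) ∈ L := by
  rcases h with h | h | h
  · have : insert x (insert y (insert z C)) = insert y (insert z (insert x C)) := by
      ext v; simp only [Finset.mem_insert]; tauto
    rw [this]
    exact hL.ins3 hr hCW hCc hyz (Ne.symm hxy) (Ne.symm hxz) hy hz hx hyR hzR h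
  · have : insert x (insert y (insert z C)) = insert x (insert z (insert y C)) := by
      ext v; simp only [Finset.mem_insert]; tauto
    rw [this]
    exact hL.ins3 hr hCW hCc hxz hxy (Ne.symm hyz) hx hz hy hxR hzR h
  · exact hL.ins3 hr hCW hCc hxy hxz hyz hx hy hz hxR hyR h

lemma powersetCard_two_triple {x y z : V} (hxy : x ≠ y) (hxz : x ≠ z) (hyz : y ≠ z)
    {M : Type*} [AddCommMonoid M] (F : Finset V → M) :
    ∑ p ∈ ({x, y, z} : Finset V).powersetCard 2, F p = F {y, z} + F {x, z} + F {x, y} := by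
  have hx : x ∉ ({y, z} : Finset V) := by simp [hxy, hxz]
  have hy : y ∉ ({z} : Finset V) := by simp [hyz]
  rw [Finset.powersetCard_succ_insert hx, Finset.sum_union]
  · have e1 : ({y, z} : Finset V).powersetCard (1+1) = {{y, z}} := by
      have : ({y, z} : Finset V).card = 1 + 1 := Finset.card_pair hyz
      rw [← this, Finset.powersetCard_self]
    rw [e1, Finset.sum_singleton, Finset.sum_image]
    · rw [Finset.powersetCard_one, Finset.sum_map, Finset.sum_insert hy, Finset.sum_singleton,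
        add_assoc, add_comm (F {x, z})]
      rfl
    · intro s hs t ht h
      have hs' : x ∉ s := fun h => hx ((Finset.mem_powersetCard.1 hs).1 h)
      have ht' : x ∉ t := fun h => hx ((Finset.mem_powersetCard.1 ht).1 h)
      rw [← Finset.erase_insert hs', ← Finset.erase_insert ht', h]
  · rw [Finset.disjoint_left]
    intro s hs hs'
    obtain ⟨t, _, rfl⟩ := Finset.mem_image.1 hs'
    exact hx ((Finset.mem_powersetCard.1 hs).1 (Finset.mem_insert_self _ _))

/-- the reduction of one triple -/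
lemma Lat.triple {r : ℕ} (hr : 3 ≤ r) {W T : Finset V} {L : AddSubgroup (MvPolynomial V ℤ)}
    (hL : Lat r W T L) (hW : r + 6 ≤ W.card) {a b c s₁ s₂ s₃ : V} (hs : Sp W a b c s₁ s₂ s₃)
    (hT : T.card = 3) (oT : ∀ x ∈ T, x ∉ [a, b, c, s₁, s₂, s₃]) :
    ∃ C ⊆ W, C.card = r - 3 ∧ Disjoint T C ∧
      ((∏ v ∈ T, X v) - esy 3 (T ∪ C) - cc a b c s₁ s₂ s₃
        - ∑ p ∈ T.powersetCard 2, X s₁ * npair a b c p
        - ∑ v ∈ T, (X v - X b) * gg a s₁ s₂ : MvPolynomial V ℤ) ∈ L := by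
  have hW3 : r + 3 ≤ W.card := by omega
  obtain ⟨x, y, z, hxy, hxz, hyz, rfl⟩ := Finset.card_eq_three.1 hT
  obtain ⟨C, hC, hCc⟩ := exists_sub W {x, s₁, y, s₂, z, s₃} (r - 3) (by
    have : ({x, s₁, y, s₂, z, s₃} : Finset V).card ≤ 6 := Finset.card_le_six
    omega)
  have hCW : C ⊆ W := hC.trans Finset.sdiff_subset
  have hCn : ∀ v ∈ ({x, s₁, y, s₂, z, s₃} : Finset V), v ∉ C := fun v hv hvC =>
    (Finset.mem_sdiff.1 (hC hvC)).2 hv
  have nx := hCn x (by simp)
  have n1 := hCn s₁ (by simp)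
  have ny := hCn y (by simp)
  have n2 := hCn s₂ (by simp)
  have nz := hCn z (by simp)
  have n3 := hCn s₃ (by simp)
  have ox := oT x (by simp)
  have oy := oT y (by simp)
  have oz := oT z (by simp)
  have hnd := hs.nd
  have ux : x ∈ ({x, y, z} : Finset V) ∪ W := by simp
  have uy : y ∈ ({x, y, z} : Finset V) ∪ W := by simp
  have uz : z ∈ ({x, y, z} : Finset V) ∪ W := by simp
  have u1 : s₁ ∈ ({x, y, z} : Finset V) ∪ W := Finset.mem_union_right _ hs.h1
  have u2 : s₂ ∈ ({x, y, z} : Finset V) ∪ W := Finset.mem_union_right _ hs.h2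
  have u3 : s₃ ∈ ({x, y, z} : Finset V) ∪ W := Finset.mem_union_right _ hs.h3
  refine ⟨C, hCW, hCc, ?_, ?_⟩
  · rw [Finset.disjoint_left]
    intro v hv
    simp only [Finset.mem_insert, Finset.mem_singleton] at hv
    rcases hv with rfl | rfl | rfl <;> assumption
  have eU : ({x, y, z} : Finset V) ∪ C = insert x (insert y (insert z C)) := by
    ext v; simp only [Finset.mem_union, Finset.mem_insert, Finset.mem_singleton]; tauto
  have eP : (∏ v ∈ ({x, y, z} : Finset V), X v : MvPolynomial V ℤ) = X x * X y * X z := by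
    rw [Finset.prod_insert (by simp [hxy, hxz]), Finset.prod_pair hyz]; ring
  have eS : (∑ v ∈ ({x, y, z} : Finset V), (X v - X b) * gg a s₁ s₂ : MvPolynomial V ℤ) =
      (X x - X b) * gg a s₁ s₂ + (X y - X b) * gg a s₁ s₂ + (X z - X b) * gg a s₁ s₂ := by
    rw [Finset.sum_insert (by simp [hxy, hxz]), Finset.sum_pair hyz]; ring
  rw [eU, eP, eS, powersetCard_two_triple hxy hxz hyz,
    identI a b c s₁ s₂ s₃ x y z hxy hxz hyz]
  have p1 := hL.pairc hr hW3 hs hxz ux uz ox oz (t := s₂) (by simp)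
  have p2 := hL.pairc hr hW3 hs hxy ux uy ox oy (t := s₃) (by simp)
  have v1 := (hL.vertc hr hW3 hs ux ox).2
  have v2 := (hL.vertc hr hW3 hs uy oy).1
  simp only [List.nodup_cons, List.mem_cons, List.not_mem_nil, not_or, or_false,
    List.nodup_nil, not_false_eq_true, and_true] at hnd ox oy oz
  obtain ⟨ox1, ox2, ox3, ox4, ox5, ox6⟩ := ox
  obtain ⟨oy1, oy2, oy3, oy4, oy5, oy6⟩ := oy
  obtain ⟨oz1, oz2, oz3, oz4, oz5, oz6⟩ := oz
  obtain ⟨⟨a1, a2, a3, a4, a5⟩, ⟨a6, a7, a8, a9⟩, ⟨a10, a11, a12⟩, ⟨a13, a14⟩, a15⟩ := hnd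
  have hoct := Ident.oct C x s₁ y s₂ z s₃ ox4 hxy ox5 hxz ox6 (Ne.symm oy4) a13 (Ne.symm oz4) a14
    oy5 hyz oy6 (Ne.symm oz5) a15 oz6 nx n1 ny n2 nz n3
  have q1 := hL.ins3' hr hCW hCc (Ne.symm oy4) (Ne.symm oz4) hyz n1 ny nz u1 uy uz (Or.inl hs.h1)
  have q2 := hL.ins3' hr hCW hCc ox5 hxz (Ne.symm oz5) nx n2 nz ux u2 uz (Or.inr (Or.inl hs.h2))
  have q3 := hL.ins3' hr hCW hCc hxy ox6 oy6 nx ny n3 ux uy u3 (Or.inr (Or.inr hs.h3))
  have q4 := hL.ins3' hr hCW hCc a13 (Ne.symm oz4) (Ne.symm oz5) n1 n2 nz u1 u2 uz (Or.inl hs.h1)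
  have q5 := hL.ins3' hr hCW hCc (Ne.symm oy4) a14 oy6 n1 ny n3 u1 uy u3 (Or.inl hs.h1)
  have q6 := hL.ins3' hr hCW hCc ox5 ox6 a15 nx n2 n3 ux u2 u3 (Or.inr (Or.inl hs.h2))
  have q7 := hL.ins3' hr hCW hCc a13 a14 a15 n1 n2 n3 u1 u2 u3 (Or.inl hs.h1)
  rw [hoct]
  have hsum := add_mem (add_mem (add_mem (add_mem (add_mem (add_mem (add_mem (add_mem (add_mem
    (add_mem (neg_mem q1) (neg_mem q2)) (neg_mem q3)) q4) q5) q6) (neg_mem q7)) p1) p2) v1) v2
  convert hsum using 1
  ring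

/-- the reduction of a family of triples -/
lemma family {r : ℕ} (hr : 3 ≤ r) {W : Finset V} {L : AddSubgroup (MvPolynomial V ℤ)}
    (H : Finset (Finset V)) (hL : ∀ T ∈ H, Lat r W T L) (hW : r + 6 ≤ W.card)
    {a b c s₁ s₂ s₃ : V} (hs : Sp W a b c s₁ s₂ s₃)
    (hT : ∀ T ∈ H, T.card = 3) (oT : ∀ T ∈ H, ∀ x ∈ T, x ∉ [a, b, c, s₁, s₂, s₃])
    (d1 : ∀ v, (r - 1).choose 2 ∣ (H.filter (fun f => v ∈ f)).card)
    (d2 : ∀ p : Finset V, p.card = 2 → (r - 2) ∣ (H.filter (fun f => p ⊆ f)).card) :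
    ∃ C : Finset V → Finset V, (∀ T ∈ H, C T ⊆ W ∧ (C T).card = r - 3 ∧ Disjoint T (C T)) ∧
      (∑ T ∈ H, (∏ v ∈ T, X v) - ∑ T ∈ H, esy 3 (T ∪ C T)
        - H.card • cc a b c s₁ s₂ s₃ : MvPolynomial V ℤ) ∈ L := by
  have hW3 : r + 3 ≤ W.card := by omega
  have h := fun T (hTH : T ∈ H) => (hL T hTH).triple hr hW hs (hT T hTH) (oT T hTH)
  choose! C hC1 hC2 hC3 hC4 using h
  refine ⟨C, fun T hTH => ⟨hC1 T hTH, hC2 T hTH, hC3 T hTH⟩, ?_⟩
  have hsum := sum_mem hC4
  have e2 : ∑ T ∈ H, ∑ p ∈ T.powersetCard 2, (X s₁ * npair a b c p : MvPolynomial V ℤ) ∈ L := by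
    rw [Finset.sum_comm' (s' := fun p => H.filter (fun T => p ⊆ T))
      (t' := H.biUnion (fun T => T.powersetCard 2)) (fun T p => by
        simp only [Finset.mem_filter, Finset.mem_powersetCard, Finset.mem_biUnion]
        constructor
        · rintro ⟨h1, h2, h3⟩; exact ⟨⟨h1, h2⟩, T, h1, h2, h3⟩
        · rintro ⟨⟨h1, h2⟩, T', _, _, h3⟩; exact ⟨h1, h2, h3⟩)]
    refine sum_mem fun p hp => ?_
    obtain ⟨T, hTH, hp⟩ := Finset.mem_biUnion.1 hp
    obtain ⟨hpT, hpc⟩ := Finset.mem_powersetCard.1 hp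
    rw [Finset.sum_const]
    obtain ⟨m, hm⟩ := d2 p hpc
    rw [hm, mul_comm, mul_nsmul']
    refine nsmul_mem ?_ m
    obtain ⟨y, z, hyz, rfl⟩ := Finset.card_eq_two.1 hpc
    have hy : y ∈ T := hpT (by simp)
    have hz : z ∈ T := hpT (by simp)
    exact (hL T hTH).pair hr hW3 hs hyz (Finset.mem_union_left _ hy)
      (Finset.mem_union_left _ hz) (oT T hTH y hy) (oT T hTH z hz)
  have e1 : ∑ T ∈ H, ∑ v ∈ T, ((X v - X b) * gg a s₁ s₂ : MvPolynomial V ℤ) ∈ L := by
    rw [Finset.sum_comm' (s' := fun v => H.filter (fun T => v ∈ T))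
      (t' := H.biUnion (fun T => T)) (fun T v => by
        simp only [Finset.mem_filter, Finset.mem_biUnion]
        constructor
        · rintro ⟨h1, h2⟩; exact ⟨⟨h1, h2⟩, T, h1, h2⟩
        · rintro ⟨⟨h1, h2⟩, _⟩; exact ⟨h1, h2⟩)]
    refine sum_mem fun v hv => ?_
    obtain ⟨T, hTH, hv⟩ := Finset.mem_biUnion.1 hv
    rw [Finset.sum_const]
    obtain ⟨m, hm⟩ := d1 v
    rw [hm, mul_comm, mul_nsmul']
    refine nsmul_mem ?_ m
    exact (hL T hTH).vert hr hW hs (Finset.mem_union_left _ hv) (oT T hTH v hv)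
  have := add_mem (add_mem hsum e2) e1
  rw [Finset.sum_sub_distrib, Finset.sum_sub_distrib, Finset.sum_sub_distrib,
    Finset.sum_sub_distrib, Finset.sum_const] at this
  convert this using 1
  ring

/-- the number of `k`-subsets of `D` above `p`. -/
lemma card_above (D : Finset V) (k : ℕ) (p : Finset V) (hp : p ⊆ D) (hk : p.card ≤ k) :
    ((D.powersetCard k).filter (fun f => p ⊆ f)).card = (D.card - p.card).choose (k - p.card) := by
  rw [← Finset.card_sdiff_of_subset hp, ← Finset.card_powersetCard]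
  refine Finset.card_bij' (fun f _ => f \ p) (fun g _ => g ∪ p) ?_ ?_ ?_ ?_
  · intro f hf
    simp only [Finset.mem_filter, Finset.mem_powersetCard] at hf ⊢
    obtain ⟨⟨h1, h2⟩, h3⟩ := hf
    exact ⟨Finset.sdiff_subset_sdiff h1 (Finset.Subset.refl _), by
      rw [Finset.card_sdiff_of_subset h3, h2]⟩
  · intro g hg
    simp only [Finset.mem_filter, Finset.mem_powersetCard] at hg ⊢
    obtain ⟨h1, h2⟩ := hg
    have hd : Disjoint g p := by
      rw [Finset.disjoint_left]
      intro v hv hvp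
      exact (Finset.mem_sdiff.1 (h1 hv)).2 hvp
    refine ⟨⟨Finset.union_subset (h1.trans Finset.sdiff_subset) hp, ?_⟩,
      Finset.subset_union_right⟩
    rw [Finset.card_union_of_disjoint hd, h2]
    omega
  · intro f hf
    simp only [Finset.mem_filter, Finset.mem_powersetCard] at hf
    exact Finset.sdiff_union_of_subset hf.2
  · intro g hg
    simp only [Finset.mem_powersetCard] at hg
    have hd : Disjoint g p := by
      rw [Finset.disjoint_left]
      intro v hv hvp
      exact (Finset.mem_sdiff.1 (hg.1 hv)).2 hvp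
    rw [Finset.union_sdiff_right, Finset.sdiff_eq_self_of_disjoint hd]

lemma card_above_zero (D : Finset V) (k : ℕ) (p : Finset V) (hp : ¬ p ⊆ D) :
    ((D.powersetCard k).filter (fun f => p ⊆ f)).card = 0 := by
  rw [Finset.card_eq_zero, Finset.filter_eq_empty_iff]
  intro f hf hpf
  exact hp (hpf.trans (Finset.mem_powersetCard.1 hf).1)

omit [DecidableEq V] in
/-- six special colours exist -/
lemma exists_sp (W : Finset V) (h : 6 ≤ W.card) : ∃ a b c s₁ s₂ s₃, Sp W a b c s₁ s₂ s₃ := by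
  obtain ⟨S, hS, hSc⟩ := Finset.exists_subset_card_eq h
  let e : Fin 6 ≃ S := (S.equivFinOfCardEq hSc).symm
  refine ⟨e 0, e 1, e 2, e 3, e 4, e 5, ?_, hS (e 0).2, hS (e 1).2, hS (e 2).2, hS (e 3).2,
    hS (e 4).2, hS (e 5).2⟩
  simp

/-- exponent of a squarefree monomial -/
noncomputable def expo (t : Finset V) : V →₀ ℕ := ∑ v ∈ t, Finsupp.single v 1

lemma expo_apply (t : Finset V) (v : V) : expo t v = if v ∈ t then 1 else 0 := by
  unfold expo
  rw [Finsupp.finsetSum_apply]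
  simp only [Finsupp.single_apply, Finset.sum_ite_eq']

lemma expo_inj {t t' : Finset V} (h : expo t = expo t') : t = t' := by
  ext v
  have := DFunLike.congr_fun h v
  rw [expo_apply, expo_apply] at this
  by_cases h1 : v ∈ t <;> by_cases h2 : v ∈ t' <;> simp_all

lemma coeff_prod (t T : Finset V) :
    coeff (expo T) (∏ v ∈ t, X v : MvPolynomial V ℤ) = if t = T then 1 else 0 := by
  have : (∏ v ∈ t, X v : MvPolynomial V ℤ) = monomial (expo t) 1 := by
    unfold expo
    rw [MvPolynomial.monomial_sum_one]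
    rfl
  rw [this, coeff_monomial]
  by_cases h : t = T
  · rw [if_pos (by rw [h]), if_pos h]
  · rw [if_neg (fun h' => h (expo_inj h')), if_neg h]

lemma coeff_esy (Q T : Finset V) (hT : T.card = 3) :
    coeff (expo T) (esy 3 Q) = if T ⊆ Q then 1 else 0 := by
  unfold esy
  rw [MvPolynomial.coeff_sum]
  simp only [coeff_prod, Finset.sum_ite_eq', Finset.mem_powersetCard, hT, and_true]

omit [DecidableEq V] in
/-- lattice elements as differences of multisets -/
lemma closure_multiset (P : Finset V → Prop) (f : MvPolynomial V ℤ)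
    (hf : f ∈ AddSubgroup.closure {g | ∃ Q, P Q ∧ g = esy 3 Q}) :
    ∃ A B : Multiset (Finset V), (∀ Q ∈ A, P Q) ∧ (∀ Q ∈ B, P Q) ∧
      f + (B.map (esy 3)).sum = (A.map (esy 3)).sum := by
  induction hf using AddSubgroup.closure_induction with
  | mem x hx =>
    obtain ⟨Q, hQ, rfl⟩ := hx
    exact ⟨{Q}, 0, by simpa using hQ, by simp, by simp⟩
  | zero => exact ⟨0, 0, by simp, by simp, by simp⟩
  | add x y _ _ hx hy =>
    obtain ⟨A, B, h1, h2, h3⟩ := hx
    obtain ⟨A', B', h1', h2', h3'⟩ := hy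
    refine ⟨A + A', B + B', ?_, ?_, ?_⟩
    · intro Q hQ
      rcases Multiset.mem_add.1 hQ with h | h
      · exact h1 Q h
      · exact h1' Q h
    · intro Q hQ
      rcases Multiset.mem_add.1 hQ with h | h
      · exact h2 Q h
      · exact h2' Q h
    · rw [Multiset.map_add, Multiset.map_add, Multiset.sum_add, Multiset.sum_add, ← h3, ← h3']
      ring
  | neg x _ hx =>
    obtain ⟨A, B, h1, h2, h3⟩ := hx
    exact ⟨B, A, h2, h1, by rw [← h3]; ring⟩

lemma coeff_map_esy (A : Multiset (Finset V)) (T : Finset V) (hT : T.card = 3) :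
    coeff (expo T) (A.map (esy 3)).sum = ((A.filter (fun Q => T ⊆ Q)).card : ℤ) := by
  induction A using Multiset.induction_on with
  | empty => simp
  | cons Q A ih =>
    rw [Multiset.map_cons, Multiset.sum_cons, coeff_add, ih, coeff_esy Q T hT]
    by_cases h : T ⊆ Q
    · rw [if_pos h, Multiset.filter_cons_of_pos _ h, Multiset.card_cons]; push_cast; ring
    · rw [if_neg h, Multiset.filter_cons_of_neg _ h]; ring

/-- IDENTITY (sections 1.1 and 1.2 of the plan): a divisible family `H` of triples is an integer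
combination of `r`-cliques over a palette `W` of at least `r + 6` colours; the cliques with
three points outside the palette are `f ∪ C f`, once for every `f ∈ H`. -/
theorem identity (r : ℕ) (hr : 3 ≤ r) (H : Finset (Finset V)) (h3 : ∀ f ∈ H, f.card = 3)
    (W : Finset V) (hW : r + 6 ≤ W.card) (hdis : ∀ f ∈ H, Disjoint f W)
    (d0 : r.choose 3 ∣ H.card)
    (d1 : ∀ v, (r - 1).choose 2 ∣ (H.filter (fun f => v ∈ f)).card)
    (d2 : ∀ p : Finset V, p.card = 2 → (r - 2) ∣ (H.filter (fun f => p ⊆ f)).card) :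
    ∃ (C : Finset V → Finset V) (A B : Multiset (Finset V)),
      (∀ f ∈ H, C f ⊆ W ∧ (C f).card = r - 3 ∧ Disjoint f (C f)) ∧
      (∀ Q ∈ A, Q.card = r ∧ (Q \ W).card ≤ 2 ∧ ∃ f ∈ H, Q ⊆ f ∪ W) ∧
      (∀ Q ∈ B, Q.card = r ∧ (Q \ W).card ≤ 2 ∧ ∃ f ∈ H, Q ⊆ f ∪ W) ∧
      (∀ T : Finset V, T.card = 3 →
        (if T ∈ H then 1 else 0) + (B.filter (fun Q => T ⊆ Q)).card =
        (H.filter (fun f => T ⊆ f ∪ C f)).card + (A.filter (fun Q => T ⊆ Q)).card) := by
  rcases H.eq_empty_or_nonempty with rfl | ⟨f₀, hf₀⟩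
  · exact ⟨fun _ => ∅, 0, 0, by simp, by simp, by simp, by simp⟩
  obtain ⟨a, b, c, s₁, s₂, s₃, hs⟩ := exists_sp W (by omega)
  obtain ⟨D, hD, hDc⟩ := exists_sub W {a, b, c, s₁, s₂, s₃} r (by
    have : ({a, b, c, s₁, s₂, s₃} : Finset V).card ≤ 6 := Finset.card_le_six
    omega)
  have hDW : D ⊆ W := hD.trans Finset.sdiff_subset
  have hDn : ∀ v ∈ ({a, b, c, s₁, s₂, s₃} : Finset V), v ∉ D := fun v hv hvD =>
    (Finset.mem_sdiff.1 (hD hvD)).2 hv
  have hoD : ∀ x ∈ D, x ∉ [a, b, c, s₁, s₂, s₃] := by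
    intro x hx hx'
    exact hDn x (by simpa using hx') hx
  set P : Finset V → Prop := fun Q => Q.card = r ∧ (Q \ W).card ≤ 2 ∧ ∃ f ∈ H, Q ⊆ f ∪ W
    with hP
  set L : AddSubgroup (MvPolynomial V ℤ) := AddSubgroup.closure {g | ∃ Q, P Q ∧ g = esy 3 Q}
    with hLdef
  have hLW : ∀ Q : Finset V, Q.card = r → Q ⊆ W → esy 3 Q ∈ L := by
    intro Q hQ hQW
    refine AddSubgroup.subset_closure ⟨Q, ⟨hQ, ?_, f₀, hf₀, ?_⟩, rfl⟩
    · rw [Finset.sdiff_eq_empty_iff_subset.2 hQW]; simp
    · exact hQW.trans Finset.subset_union_right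
  have hLH : ∀ T ∈ H, Lat r W T L := fun T hT =>
    ⟨fun Q h1 h2 h3 => AddSubgroup.subset_closure ⟨Q, ⟨h1, h3, T, hT, h2⟩, rfl⟩⟩
  have hLD : ∀ T ∈ D.powersetCard 3, Lat r W T L := fun T hT =>
    ⟨fun Q h1 h2 _ => hLW Q h1 (h2.trans (Finset.union_subset
      ((Finset.mem_powersetCard.1 hT).1.trans hDW) (Finset.Subset.refl _)))⟩
  have hoH : ∀ T ∈ H, ∀ x ∈ T, x ∉ [a, b, c, s₁, s₂, s₃] := by
    intro T hT x hx hx'
    have hxW : x ∉ W := Finset.disjoint_left.1 (hdis T hT) hx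
    simp only [List.mem_cons, List.not_mem_nil, or_false] at hx'
    rcases hx' with rfl | rfl | rfl | rfl | rfl | rfl
    · exact hxW hs.ha
    · exact hxW hs.hb
    · exact hxW hs.hc
    · exact hxW hs.h1
    · exact hxW hs.h2
    · exact hxW hs.h3
  obtain ⟨C, hC, hCL⟩ := family hr H hLH hW hs h3 hoH d1 d2
  obtain ⟨C', hC', hCL'⟩ := family hr (D.powersetCard 3) hLD hW hs
    (fun T hT => (Finset.mem_powersetCard.1 hT).2)
    (fun T hT x hx => hoD x ((Finset.mem_powersetCard.1 hT).1 hx))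
    (fun v => by
      by_cases hv : v ∈ D
      · have := card_above D 3 {v} (by simpa using hv) (by simp)
        simp only [Finset.singleton_subset_iff, Finset.card_singleton, hDc] at this
        rw [this]
      · have := card_above_zero D 3 {v} (by simpa using hv)
        simp only [Finset.singleton_subset_iff] at this
        rw [this]; exact dvd_zero _)
    (fun p hp => by
      by_cases hv : p ⊆ D
      · rw [card_above D 3 p hv (by omega), hp, hDc]; simp
      · rw [card_above_zero D 3 p hv]; exact dvd_zero _)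
  have key : (∑ T ∈ H, (∏ v ∈ T, X v) - ∑ T ∈ H, esy 3 (T ∪ C T) : MvPolynomial V ℤ) ∈ L := by
    obtain ⟨m, hm⟩ := d0
    have e1 : ∑ T ∈ D.powersetCard 3, esy 3 (T ∪ C' T) ∈ L := by
      refine sum_mem fun T hT => ?_
      obtain ⟨h1, h2, h3'⟩ := hC' T hT
      obtain ⟨h4, h5⟩ := Finset.mem_powersetCard.1 hT
      refine hLW _ ?_ (Finset.union_subset (h4.trans hDW) h1)
      rw [Finset.card_union_of_disjoint h3', h2, h5]; omega
    have e2 : esy 3 D ∈ L := hLW D hDc hDW
    have e3 := sub_mem (sub_mem e2 e1) hCL'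
    have e4 := sub_mem hCL (nsmul_mem hCL' m)
    have e5 := add_mem e4 (nsmul_mem (sub_mem e2 e1) m)
    rw [Finset.card_powersetCard, hDc] at e5
    rw [hm] at e5
    convert e5 using 1
    unfold esy
    rw [mul_comm, mul_nsmul']
    simp only [nsmul_sub]
    abel
  obtain ⟨A, B, hA, hB, hAB⟩ := closure_multiset P _ key
  refine ⟨C, A, B, hC, hA, hB, fun T hT => ?_⟩
  have := congrArg (coeff (expo T)) hAB
  rw [coeff_add, coeff_map_esy A T hT, coeff_map_esy B T hT, coeff_sub, coeff_sum, coeff_sum]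
    at this
  simp only [coeff_prod, coeff_esy _ T hT, Finset.sum_ite_eq'] at this
  rw [Finset.sum_boole] at this
  zify
  linarith

/-- arithmetic of the moduli -/
lemma choose2 (s : ℕ) : (6 * s + 3 - 1).choose 2 = (3 * s + 1) * (6 * s + 1) := by
  have h' := Nat.add_one_mul_choose_eq (6 * s + 1) 1
  simp only [Nat.choose_one_right] at h'
  norm_num at h'
  have : 6 * s + 3 - 1 = 6 * s + 2 := by omega
  rw [this]
  have : (6 * s + 2).choose 2 * 2 = (3 * s + 1) * (6 * s + 1) * 2 := by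
    rw [← h']; ring
  omega

lemma choose3 (s : ℕ) : (6 * s + 3).choose 3 = (2 * s + 1) * ((3 * s + 1) * (6 * s + 1)) := by
  have h := Nat.add_one_mul_choose_eq (6 * s + 2) 2
  have h2 := choose2 s
  have e : 6 * s + 3 - 1 = 6 * s + 2 := by omega
  rw [e] at h2
  norm_num at h
  rw [h2] at h
  have : (6 * s + 3).choose 3 * 3 = (2 * s + 1) * ((3 * s + 1) * (6 * s + 1)) * 3 := by
    rw [← h]; ring
  omega

/-- twice the degree of a vertex is the sum of its codegrees -/
lemma two_deg (H : Finset (Finset V)) (h3 : ∀ f ∈ H, f.card = 3) (v : V) :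
    2 * dg H {v} = ∑ u ∈ (H.biUnion id).erase v, dg H {v, u} := by
  have e1 : ∑ f ∈ H.filter (fun f => v ∈ f), ∑ u ∈ f.erase v, 1 = 2 * dg H {v} := by
    have : ∀ f ∈ H.filter (fun f => v ∈ f), ∑ u ∈ f.erase v, 1 = 2 := by
      intro f hf
      obtain ⟨hf, hv⟩ := Finset.mem_filter.1 hf
      rw [Finset.sum_const, Finset.card_erase_of_mem hv, h3 f hf]
      rfl
    rw [Finset.sum_congr rfl this, Finset.sum_const, smul_eq_mul, mul_comm]
    unfold dg
    simp only [Finset.singleton_subset_iff]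
  rw [← e1, Finset.sum_comm' (s' := fun u => H.filter (fun f => {v, u} ⊆ f))
    (t' := (H.biUnion id).erase v)]
  · refine Finset.sum_congr rfl (fun u _ => ?_)
    unfold dg
    simp
  · intro f u
    simp only [Finset.mem_filter, Finset.mem_erase, Finset.mem_biUnion, id,
      Finset.insert_subset_iff, Finset.singleton_subset_iff]
    constructor
    · rintro ⟨⟨h1, h2⟩, h3, h4⟩; exact ⟨⟨h1, h2, h4⟩, h3, f, h1, h4⟩
    · rintro ⟨⟨h1, h2, h4⟩, h3, _⟩; exact ⟨⟨h1, h2⟩, h3, h4⟩

/-- three times the number of triples is the sum of the degrees -/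
lemma three_card (H : Finset (Finset V)) (h3 : ∀ f ∈ H, f.card = 3) :
    3 * H.card = ∑ u ∈ H.biUnion id, dg H {u} := by
  have e1 : ∑ f ∈ H, ∑ u ∈ f, 1 = 3 * H.card := by
    have : ∀ f ∈ H, ∑ u ∈ f, 1 = 3 := by
      intro f hf
      rw [Finset.sum_const, h3 f hf]
      rfl
    rw [Finset.sum_congr rfl this, Finset.sum_const, smul_eq_mul, mul_comm]
  rw [← e1, Finset.sum_comm' (s' := fun u => H.filter (fun f => {u} ⊆ f))
    (t' := H.biUnion id)]
  · refine Finset.sum_congr rfl (fun u _ => ?_)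
    unfold dg
    simp
  · intro f u
    simp only [Finset.mem_filter, Finset.mem_biUnion, id, Finset.singleton_subset_iff]
    constructor
    · rintro ⟨h1, h2⟩; exact ⟨⟨h1, h2⟩, f, h1, h2⟩
    · rintro ⟨⟨h1, h2⟩, _⟩; exact ⟨h1, h2⟩

/-- balanced families satisfy the usual divisibility conditions -/
lemma divisible_of_balanced {r : ℕ} (hr : r % 6 = 3) {H : Finset (Finset V)}
    (h3 : ∀ f ∈ H, f.card = 3) (hbal : Balanced r H) :
    (∀ p : Finset V, p.card = 2 → (r - 2) ∣ dg H p) ∧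
    (∀ v : V, (r - 1).choose 2 ∣ dg H {v}) ∧ r.choose 3 ∣ H.card := by
  obtain ⟨s, rfl⟩ : ∃ s, r = 6 * s + 3 := ⟨r / 6, by omega⟩
  have hM2 : Mo (6 * s + 3) 2 = 6 * s + 1 := by unfold Mo; simp
  have hM1 : Mo (6 * s + 3) 1 = 3 * s + 1 := by unfold Mo; simp; omega
  have hM0 : Mo (6 * s + 3) 0 = 2 * s + 1 := by unfold Mo; simp; omega
  have hp : ∀ p : Finset V, p.card = 2 → (6 * s + 1) ∣ dg H p := by
    intro p hp
    have := hbal p (by omega)
    rwa [hp, hM2] at this
  have hv : ∀ v : V, (3 * s + 1) * (6 * s + 1) ∣ dg H {v} := by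
    intro v
    have h1 : 3 * s + 1 ∣ dg H {v} := by
      have := hbal {v} (by simp)
      rwa [Finset.card_singleton, hM1] at this
    have h2 : 6 * s + 1 ∣ 2 * dg H {v} := by
      rw [two_deg H h3 v]
      refine Finset.dvd_sum fun u hu => hp _ (Finset.card_pair ?_)
      exact (Finset.mem_erase.1 hu).1.symm
    have c1 : Nat.Coprime (6 * s + 1) 2 := by
      rw [Nat.coprime_two_right]
      exact ⟨3 * s, by ring⟩
    have h2' : 6 * s + 1 ∣ dg H {v} := c1.dvd_of_dvd_mul_left h2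
    refine Nat.Coprime.mul_dvd_of_dvd_of_dvd ?_ h1 h2'
    have : Nat.gcd (3 * s + 1) (6 * s + 1) ∣ 1 := by
      have g1 : Nat.gcd (3 * s + 1) (6 * s + 1) ∣ 2 * (3 * s + 1) :=
        Dvd.dvd.mul_left (Nat.gcd_dvd_left _ _) _
      have g2 : Nat.gcd (3 * s + 1) (6 * s + 1) ∣ 6 * s + 1 := Nat.gcd_dvd_right _ _
      have : 2 * (3 * s + 1) = (6 * s + 1) + 1 := by ring
      rw [this] at g1
      exact (Nat.dvd_add_right g2).1 g1
    exact Nat.dvd_one.1 this
  refine ⟨fun p h => ?_, fun v => ?_, ?_⟩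
  · have : 6 * s + 3 - 2 = 6 * s + 1 := by omega
    rw [this]; exact hp p h
  · rw [choose2]; exact hv v
  · rw [choose3]
    have h0 : 2 * s + 1 ∣ H.card := by
      have := hbal ∅ (by simp)
      rw [Finset.card_empty, hM0] at this
      unfold dg at this
      simpa using this
    have h1 : (3 * s + 1) * (6 * s + 1) ∣ 3 * H.card := by
      rw [three_card H h3]
      exact Finset.dvd_sum fun u _ => hv u
    have c3 : Nat.Coprime ((3 * s + 1) * (6 * s + 1)) 3 := by
      rw [Nat.coprime_comm, Nat.Prime.coprime_iff_not_dvd Nat.prime_three]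
      intro h
      rcases (Nat.Prime.dvd_mul Nat.prime_three).1 h with h | h <;> omega
    have h1' := c3.dvd_of_dvd_mul_left h1
    refine Nat.Coprime.mul_dvd_of_dvd_of_dvd ?_ h0 h1'
    refine Nat.Coprime.mul_right ?_ ?_
    · have : Nat.gcd (2 * s + 1) (3 * s + 1) ∣ 1 := by
        have g1 : Nat.gcd (2 * s + 1) (3 * s + 1) ∣ 3 * (2 * s + 1) :=
          Dvd.dvd.mul_left (Nat.gcd_dvd_left _ _) _
        have g2 : Nat.gcd (2 * s + 1) (3 * s + 1) ∣ 2 * (3 * s + 1) :=
          Dvd.dvd.mul_left (Nat.gcd_dvd_right _ _) _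
        have : 3 * (2 * s + 1) = 2 * (3 * s + 1) + 1 := by ring
        rw [this] at g1
        exact (Nat.dvd_add_right g2).1 g1
      exact Nat.dvd_one.1 this
    · have : Nat.gcd (2 * s + 1) (6 * s + 1) ∣ 2 := by
        have g1 : Nat.gcd (2 * s + 1) (6 * s + 1) ∣ 3 * (2 * s + 1) :=
          Dvd.dvd.mul_left (Nat.gcd_dvd_left _ _) _
        have g2 : Nat.gcd (2 * s + 1) (6 * s + 1) ∣ 6 * s + 1 := Nat.gcd_dvd_right _ _
        have : 3 * (2 * s + 1) = (6 * s + 1) + 2 := by ring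
        rw [this] at g1
        exact (Nat.dvd_add_right g2).1 g1
      rcases (Nat.dvd_prime Nat.prime_two).1 this with h | h
      · exact h
      · exfalso
        have := Nat.gcd_dvd_left (2 * s + 1) (6 * s + 1)
        rw [h] at this
        omega

lemma card_filter_get (l : List (Finset V)) (p : Finset V → Prop) [DecidablePred p] :
    (Finset.univ.filter (fun i : Fin l.length => p (l.get i))).card =
      ((l : Multiset (Finset V)).filter p).card := by
  have : (l : Multiset (Finset V)) = (Finset.univ : Finset (Fin l.length)).val.map l.get := by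
    have h1 : (Finset.univ : Finset (Fin l.length)).val = (List.finRange l.length : Multiset _) :=
      rfl
    rw [h1, Multiset.map_coe, ← List.ofFn_eq_map, List.ofFn_get]
  conv_rhs => rw [this, Multiset.filter_map, Multiset.card_map]
  rfl

/-- IDENTITY in the form used by the local lemma. -/
theorem identity12 (r : ℕ) (hr : r % 6 = 3) (H : Finset (Finset V)) (hH3 : ∀ f ∈ H, f.card = 3)
    (hbal : Balanced r H) (m : ℕ) (hm : r + 6 ≤ m) (w : Fin m → V) (hw : Function.Injective w)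
    (hwH : ∀ f ∈ H, ∀ i, w i ∉ f) :
    ∃ (nA nB : ℕ) (QA : Fin nA → Finset V) (QB : Fin nB → Finset V),
      (∀ a, (QA a).card = r ∧ ∃ f ∈ H, QA a ⊆ f ∪ univ.image w) ∧
      (∀ b, (QB b).card = r ∧ ∃ f ∈ H, QB b ⊆ f ∪ univ.image w) ∧
      (∀ b, ∀ f ∈ H, ¬ f ⊆ QB b) ∧
      ∀ g : Finset V, g.card = 3 → (univ.filter fun a => g ⊆ QA a).card =
        (if g ∈ H then 1 else 0) + (univ.filter fun b => g ⊆ QB b).card := by
  obtain ⟨d2, d1, d0⟩ := divisible_of_balanced hr hH3 hbal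
  have hr3 : 3 ≤ r := by omega
  have hWc : (univ.image w).card = m := by
    rw [Finset.card_image_of_injective _ hw, Finset.card_univ, Fintype.card_fin]
  have hdis : ∀ f ∈ H, Disjoint f (univ.image w) := by
    intro f hf
    rw [Finset.disjoint_right]
    intro v hv
    obtain ⟨i, _, rfl⟩ := Finset.mem_image.1 hv
    exact hwH f hf i
  obtain ⟨C, A, B, hC, hA, hB, hAB⟩ := identity r hr3 H hH3 (univ.image w) (by omega) hdis d0
    (fun v => by simpa [dg] using d1 v) d2
  set A' : Multiset (Finset V) := H.val.map (fun f => f ∪ C f) + A with hA'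
  refine ⟨A'.toList.length, B.toList.length, A'.toList.get, B.toList.get, ?_, ?_, ?_, ?_⟩
  · intro a
    have ha : A'.toList.get a ∈ A' := by
      rw [← Multiset.mem_toList]; exact List.get_mem _ _
    generalize A'.toList.get a = Q at ha
    rw [hA', Multiset.mem_add] at ha
    rcases ha with ha | ha
    · obtain ⟨f, hf, rfl⟩ := Multiset.mem_map.1 ha
      obtain ⟨h1, h2, h3⟩ := hC f hf
      refine ⟨?_, f, hf, Finset.union_subset_union (Finset.Subset.refl _) h1⟩
      rw [Finset.card_union_of_disjoint h3, hH3 f hf, h2]; omega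
    · exact ⟨(hA Q ha).1, (hA Q ha).2.2⟩
  · intro b
    have hb : B.toList.get b ∈ B := by
      rw [← Multiset.mem_toList]; exact List.get_mem _ _
    exact ⟨(hB _ hb).1, (hB _ hb).2.2⟩
  · intro b f hf hfb
    have hb : B.toList.get b ∈ B := by
      rw [← Multiset.mem_toList]; exact List.get_mem _ _
    have h1 := (hB _ hb).2.1
    have h2 : f ⊆ B.toList.get b \ univ.image w := by
      intro v hv
      exact Finset.mem_sdiff.2 ⟨hfb hv, Finset.disjoint_left.1 (hdis f hf) hv⟩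
    have := Finset.card_le_card h2
    rw [hH3 f hf] at this
    omega
  · intro g hg
    rw [card_filter_get A'.toList (fun Q => g ⊆ Q), card_filter_get B.toList (fun Q => g ⊆ Q)]
    simp only [Multiset.coe_toList]
    have h := hAB g hg
    rw [h, hA', Multiset.filter_add, Multiset.card_add, Multiset.filter_map, Multiset.card_map]
    rfl

end Pool.Agent.Lib.MP_5c685b_co.E.Ident
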