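import Pool.Agent.Lib.MP_5c685b_co.E.Top

/-! Monotonicity in the codegree deficit and the ingredients of `Top`. -/

set_option autoImplicit false
set_option linter.all false

namespace Pool.Agent.Lib.MP_5c685b_co.E

open Finset

lemma Cod.mono {n : ℕ} {ρ ρ' : ℝ} {G : Finset (Finset (Fin n))} (h : Cod n ρ G) (hρ : ρ ≤ ρ') :
    Cod n ρ' G :=
  ⟨h.1, fun P hP => (mul_le_mul_of_nonneg_right (by linarith) (Nat.cast_nonneg n)).trans (h.2 P hP)⟩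

lemma OmniStmt.mono {r : ℕ} {ρ ρ' : ℝ} (h : OmniStmt r ρ') (hρ : ρ ≤ ρ') : OmniStmt r ρ := by
  intro η hη
  obtain ⟨p, hp, n0, h⟩ := h η hη
  exact ⟨p, hp, n0, fun n hn G hG X hX hXs => h n hn G (hG.mono hρ) X hX hXs⟩

lemma ResStmt.mono {r : ℕ} {ρ ρ' : ℝ} (h : ResStmt r ρ') (hρ : ρ ≤ ρ') : ResStmt r ρ := by
  intro p hp
  obtain ⟨c, hc, n0, h⟩ := h p hp
  exact ⟨c, hc, n0, fun n hn G hG => h n hn G (hG.mono hρ)⟩

lemma NibStmt.mono {r : ℕ} {ρ ρ' : ℝ} (h : NibStmt r ρ') (hρ : ρ ≤ ρ') : NibStmt r ρ := by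
  intro γ hγ
  obtain ⟨n0, h⟩ := h γ hγ
  exact ⟨n0, fun n hn G hG => h n hn G (hG.mono hρ)⟩

theorem ingredients_of
    (hO : ∃ c1 : ℝ, 0 < c1 ∧ ∃ r1 : ℕ, ∀ r : ℕ, r1 ≤ r → r % 6 = 3 →
      OmniStmt r (c1 * Real.log r / (r : ℝ) ^ 2))
    (hN : ∃ c2 : ℝ, 0 < c2 ∧ ∃ r2 : ℕ, ∀ r : ℕ, r2 ≤ r →
      NibStmt r (c2 * Real.log r / (r : ℝ) ^ 2 / 10) ∧
      ResStmt r (c2 * Real.log r / (r : ℝ) ^ 2 / 10)) : Ingredients := by
  obtain ⟨c1, hc1, r1, hO⟩ := hO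
  obtain ⟨c2, hc2, r2, hN⟩ := hN
  refine ⟨min c1 (c2 / 20), lt_min hc1 (by positivity), max r1 (max r2 1), fun r hr h6 ρ hρ hle => ?_⟩
  have hr1 : r1 ≤ r := (le_max_left _ _).trans hr
  have hr2 : r2 ≤ r := (le_max_left _ _).trans ((le_max_right _ _).trans hr)
  have hr3 : 1 ≤ r := (le_max_right _ _).trans ((le_max_right _ _).trans hr)
  have hlog : 0 ≤ Real.log r := Real.log_nonneg (by exact_mod_cast hr3)
  have hrpos : (0 : ℝ) < (r : ℝ) ^ 2 := by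
    have : (0 : ℝ) < r := by exact_mod_cast hr3
    positivity
  have hq : 0 ≤ Real.log r / (r : ℝ) ^ 2 := by positivity
  have e1 : ρ ≤ c1 * Real.log r / (r : ℝ) ^ 2 := by
    refine hle.trans ?_
    rw [mul_div_assoc, mul_div_assoc]
    exact mul_le_mul_of_nonneg_right (min_le_left _ _) hq
  have e2 : ρ ≤ c2 * Real.log r / (r : ℝ) ^ 2 / 20 := by
    refine hle.trans ?_
    have : c2 * Real.log r / (r : ℝ) ^ 2 / 20 = (c2 / 20) * (Real.log r / (r : ℝ) ^ 2) := by ring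
    rw [this, mul_div_assoc]
    exact mul_le_mul_of_nonneg_right (min_le_right _ _) hq
  have e3 : 0 ≤ c2 * Real.log r / (r : ℝ) ^ 2 := by
    rw [mul_div_assoc]; positivity
  refine ⟨(hO r hr1 h6).mono e1, (hN r hr2).2.mono (by linarith), (hN r hr2).1.mono (by linarith)⟩

end Pool.Agent.Lib.MP_5c685b_co.E
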