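import Pool.Agent.Lib.MP_5c685b_co.E.Zlem

/-! MP_5c685b_co: section 1.4, realisation, helper98 -/

set_option autoImplicit false
set_option linter.all false

namespace Pool.Agent.Lib.MP_5c685b_co.E

open Finset

section real

variable {U : Type*} [DecidableEq U]

/-- the transformer of one clique, set form -/
theorem zlem' {r : ℕ} (Q : Finset U) (hQ : Q.card = r)
    (P : Finset U → Finset U)
    (hP : ∀ g ∈ tri Q, (P g).card = r - 3)
    (hPc : ∀ g ∈ tri Q, ∀ x ∈ Q, x ∉ P g)
    (hPP : ∀ g ∈ tri Q, ∀ g' ∈ tri Q, g ≠ g' → Disjoint (P g) (P g'))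
    (fr : Fin r → ℕ → U) (hfr : ∀ i n j m, fr i n = fr j m → i = j ∧ n = m)
    (hfc : ∀ i n, fr i n ∉ Q)
    (hfP : ∀ g ∈ tri Q, ∀ i n, fr i n ∉ P g)
    (Good : U → U → Prop) (gsymm : ∀ x y, Good x y → Good y x)
    (g1 : ∀ x ∈ Q, ∀ y ∈ Q, x ≠ y → Good x y)
    (g2 : ∀ i n, ∀ x ∈ Q, Good (fr i n) x)
    (g3 : ∀ i n j m, i ≠ j → Good (fr i n) (fr j m))
    (g4 : ∀ g ∈ tri Q, ∀ p ∈ P g, ∀ x ∈ Q, Good p x)
    (g5 : ∀ g ∈ tri Q, ∀ p ∈ P g, ∀ i n, Good p (fr i n))
    (g6 : ∀ g ∈ tri Q, ∀ p ∈ P g, ∀ p' ∈ P g, p ≠ p' → Good p p') :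
    ∃ Z : Finset (Finset U), Dec r Z ∧
      Dec r (Z ∪ (tri Q).biUnion fun g => (tri (g ∪ P g)).erase g) ∧
      ∀ t ∈ Z, t.card = 3 ∧ (∀ x ∈ t, ∀ y ∈ t, x ≠ y → Good x y) ∧ (∃ i n, fr i n ∈ t) ∧
        ∀ x ∈ t, x ∈ Q ∨ (∃ g ∈ tri Q, x ∈ P g) ∨ ∃ i n, x = fr i n := by
  classical
  let e := Finset.equivFinOfCardEq hQ
  set c : Fin r → U := fun i => (e.symm i).1 with hc
  have cinj : Function.Injective c := fun i j h => e.symm.injective (Subtype.ext h)
  have cQ : ∀ i, c i ∈ Q := fun i => (e.symm i).2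
  have cim : univ.image c = Q := by
    ext x
    simp only [mem_image, mem_univ, true_and]
    constructor
    · rintro ⟨i, rfl⟩; exact cQ i
    · intro hx
      exact ⟨e ⟨x, hx⟩, by simp [hc]⟩
  have hJt : ∀ J : Finset (Fin r), J.card = 3 → J.image c ∈ tri Q := by
    intro J hJ
    refine mem_tri.2 ⟨?_, by rw [Finset.card_image_of_injective _ cinj]; exact hJ⟩
    intro x hx
    obtain ⟨i, -, rfl⟩ := mem_image.1 hx
    exact cQ i
  have htJ : ∀ g ∈ tri Q, ∃ J : Finset (Fin r), J.card = 3 ∧ J.image c = g := by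
    intro g hg
    obtain ⟨h1, h2⟩ := mem_tri.1 hg
    rw [← cim] at h1
    obtain ⟨J, -, rfl⟩ := Finset.subset_image_iff.1 h1
    rw [Finset.card_image_of_injective _ cinj] at h2
    exact ⟨J, h2, rfl⟩
  obtain ⟨Z, z1, z2, z3⟩ := zlem c cinj (fun J => P (J.image c))
    (fun J hJ => hP _ (hJt J hJ)) (fun J hJ i => hPc _ (hJt J hJ) _ (cQ i))
    (fun J J' hJ hJ' hne => hPP _ (hJt J hJ) _ (hJt J' hJ')
      (fun h => hne (Finset.image_injective cinj h)))
    fr hfr (fun i n j h => hfc i n (h ▸ cQ j)) (fun J hJ i n => hfP _ (hJt J hJ) i n)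
    Good gsymm (fun i j h => g1 _ (cQ i) _ (cQ j) (fun h' => h (cinj h')))
    (fun i n j _ => g2 i n _ (cQ j)) g3
    (fun J hJ p hp i => g4 _ (hJt J hJ) p hp _ (cQ i))
    (fun J hJ p hp i n => g5 _ (hJt J hJ) p hp i n)
    (fun J hJ p hp p' hp' h => g6 _ (hJt J hJ) p hp p' hp' h)
  refine ⟨Z, z1, ?_, ?_⟩
  · have : ((univ : Finset (Fin r)).powersetCard 3).biUnion (fun J =>
        (tri (J.image c ∪ P (J.image c))).erase (J.image c)) =
        (tri Q).biUnion fun g => (tri (g ∪ P g)).erase g := by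
      ext t
      simp only [mem_biUnion, mem_powersetCard, subset_univ, true_and]
      constructor
      · rintro ⟨J, hJ, h⟩
        exact ⟨_, hJt J hJ, h⟩
      · rintro ⟨g, hg, h⟩
        obtain ⟨J, hJ, rfl⟩ := htJ g hg
        exact ⟨J, hJ, h⟩
    rw [← this]; exact z2
  · intro t ht
    obtain ⟨h1, h2, h3, h4⟩ := z3 t ht
    refine ⟨h1, h2, h3, ?_⟩
    intro x hx
    rcases h4 x hx with ⟨i, rfl⟩ | ⟨J, hJ, h⟩ | h
    · exact Or.inl (cQ i)
    · exact Or.inr (Or.inl ⟨_, hJt J hJ, h⟩)
    · exact Or.inr (Or.inr h)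

/-- equal fibres give a bijection -/
lemma exists_matching {α β γ : Type*} [Fintype α] [Fintype β] [DecidableEq γ]
    (f : α → γ) (g : β → γ)
    (h : ∀ c, (univ.filter fun a => f a = c).card = (univ.filter fun b => g b = c).card) :
    ∃ e : α ≃ β, ∀ a, g (e a) = f a := by
  classical
  have h' : ∀ c, Nonempty ({a // f a = c} ≃ {b // g b = c}) := by
    intro c
    refine Fintype.card_eq.1 ?_
    rw [Fintype.card_subtype, Fintype.card_subtype]
    exact h c
  choose e he using fun c => (h' c).elim fun e => (⟨e, trivial⟩ : ∃ _ : {a // f a = c} ≃ {b // g b = c}, True)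
  refine ⟨((Equiv.sigmaFiberEquiv f).symm.trans (Equiv.sigmaCongrRight e)).trans
    (Equiv.sigmaFiberEquiv g), ?_⟩
  intro a
  exact (e (f a) ⟨a, rfl⟩).2

/-- grouping of blocks -/
lemma Dec.group {r : ℕ} {Ix K : Type*} [Fintype Ix] [DecidableEq Ix] [Fintype K] [DecidableEq K]
    (blk : Ix → Finset (Finset U)) (hblk : ∀ x y, x ≠ y → Disjoint (blk x) (blk y))
    (κ : Ix → K) (h : ∀ k, Dec r ((univ.filter fun x => κ x = k).biUnion blk)) :
    Dec r ((univ : Finset Ix).biUnion blk) := by
  have e : (univ : Finset Ix).biUnion blk =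
      (univ : Finset K).biUnion fun k => (univ.filter fun x => κ x = k).biUnion blk := by
    ext t
    simp only [mem_biUnion, mem_univ, true_and, mem_filter]
    constructor
    · rintro ⟨x, hx⟩; exact ⟨κ x, x, rfl, hx⟩
    · rintro ⟨_, x, -, hx⟩; exact ⟨x, hx⟩
  rw [e]
  refine Dec.bUnionM _ _ (fun k _ => h k) ?_
  intro k _ k' _ hne
  rw [Finset.disjoint_biUnion_left]
  intro x hx
  rw [Finset.disjoint_biUnion_right]
  intro y hy
  apply hblk
  rintro rfl
  exact hne ((mem_filter.1 hx).2.symm.trans (mem_filter.1 hy).2)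

/-- REALISATION -/
theorem realise {r : ℕ} (hr : 4 ≤ r) (H : Finset (Finset U)) (hH3 : ∀ f ∈ H, f.card = 3)
    (nA nB : ℕ) (QA : Fin nA → Finset U) (QB : Fin nB → Finset U)
    (hA : ∀ a, (QA a).card = r) (hB : ∀ b, (QB b).card = r)
    (hid : ∀ g : Finset U, g.card = 3 → (univ.filter fun a => g ⊆ QA a).card =
      (if g ∈ H then 1 else 0) + (univ.filter fun b => g ⊆ QB b).card)
    (pw : Fin (r - 3) → ℕ → U) (fr : Fin r → ℕ → U)
    (hpw : ∀ i n j m, pw i n = pw j m → i = j ∧ n = m)
    (hfr : ∀ i n j m, fr i n = fr j m → i = j ∧ n = m)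
    (hpf : ∀ i n j m, pw i n ≠ fr j m)
    (hpA : ∀ i n a, pw i n ∉ QA a) (hpB : ∀ i n b, pw i n ∉ QB b)
    (hfA : ∀ i n a, fr i n ∉ QA a) (hfB : ∀ i n b, fr i n ∉ QB b)
    (Good : U → U → Prop) (gsymm : ∀ x y, Good x y → Good y x)
    (gA : ∀ a, ∀ x ∈ QA a, ∀ y ∈ QA a, x ≠ y → Good x y)
    (gB : ∀ b, ∀ x ∈ QB b, ∀ y ∈ QB b, x ≠ y → Good x y)
    (gfA : ∀ i n a, ∀ x ∈ QA a, Good (fr i n) x) (gfB : ∀ i n b, ∀ x ∈ QB b, Good (fr i n) x)
    (gff : ∀ i n j m, i ≠ j → Good (fr i n) (fr j m))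
    (gpA : ∀ i n a, ∀ x ∈ QA a, Good (pw i n) x) (gpB : ∀ i n b, ∀ x ∈ QB b, Good (pw i n) x)
    (gpf : ∀ i n j m, Good (pw i n) (fr j m))
    (gpp : ∀ i n j m, i ≠ j → Good (pw i n) (pw j m)) :
    ∃ A : Finset (Finset U), Dec r A ∧ Dec r (A ∪ H) ∧
      ∀ t ∈ A, t.card = 3 ∧ (∀ x ∈ t, ∀ y ∈ t, x ≠ y → Good x y) ∧
        ((∃ i n, fr i n ∈ t) ∨ ∃ i n, pw i n ∈ t) ∧
        ∀ x ∈ t, (∃ a, x ∈ QA a) ∨ (∃ b, x ∈ QB b) ∨ (∃ i n, x = pw i n) ∨
          ∃ i n, x = fr i n := by
  classical
  let Tok := Σ a : Fin nA, {g : Finset U // g ∈ tri (QA a)}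
  let TokB := (Σ b : Fin nB, {g : Finset U // g ∈ tri (QB b)}) ⊕ {f : Finset U // f ∈ H}
  let C := Fin nA ⊕ Fin nB
  let gr : Tok → Finset U := fun τ => τ.2.1
  let grB : TokB → Finset U := fun τ => Sum.elim (fun σ => σ.2.1) (fun f => f.1) τ
  have hfib : ∀ g, (univ.filter fun τ : Tok => gr τ = g).card =
      (univ.filter fun τ : TokB => grB τ = g).card := by
    intro g
    by_cases hg : g.card = 3
    · have e1 : (univ.filter fun τ : Tok => gr τ = g).card =
          (univ.filter fun a => g ⊆ QA a).card := by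
        refine Finset.card_bij (fun τ _ => τ.1) ?_ ?_ ?_
        · intro τ hτ
          have h1 := (mem_filter.1 hτ).2
          refine mem_filter.2 ⟨mem_univ _, ?_⟩
          rw [← h1]
          exact (mem_tri.1 τ.2.2).1
        · rintro ⟨a, g1, hg1⟩ h1 ⟨a', g2, hg2⟩ h2 h
          have h1' : g1 = g := (mem_filter.1 h1).2
          have h2' : g2 = g := (mem_filter.1 h2).2
          have h' : a = a' := h
          subst h'
          subst h1'
          subst h2'
          rfl
        · intro a ha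
          have h1 := (mem_filter.1 ha).2
          exact ⟨⟨a, g, mem_tri.2 ⟨h1, hg⟩⟩, mem_filter.2 ⟨mem_univ _, rfl⟩, rfl⟩
      have e2 : (univ.filter fun τ : TokB => grB τ = g).card =
          (univ.filter fun b => g ⊆ QB b).card + (if g ∈ H then 1 else 0) := by
        have e3 : (univ.filter fun τ : TokB => grB τ = g) =
            (univ.filter fun σ : (Σ b : Fin nB, {g : Finset U // g ∈ tri (QB b)}) =>
              σ.2.1 = g).disjSum
            (univ.filter fun f : {f : Finset U // f ∈ H} => f.1 = g) := by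
          ext τ
          rcases τ with σ | f
          · rw [Finset.inl_mem_disjSum]
            simp [grB]
          · rw [Finset.inr_mem_disjSum]
            simp [grB]
        rw [e3, Finset.card_disjSum]
        congr 1
        · refine Finset.card_bij (fun τ _ => τ.1) ?_ ?_ ?_
          · intro τ hτ
            have h1 := (mem_filter.1 hτ).2
            refine mem_filter.2 ⟨mem_univ _, ?_⟩
            rw [← h1]
            exact (mem_tri.1 τ.2.2).1
          · rintro ⟨a, g1, hg1⟩ h1 ⟨a', g2, hg2⟩ h2 h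
            have h1' : g1 = g := (mem_filter.1 h1).2
            have h2' : g2 = g := (mem_filter.1 h2).2
            have h' : a = a' := h
            subst h'
            subst h1'
            subst h2'
            rfl
          · intro a ha
            have h1 := (mem_filter.1 ha).2
            exact ⟨⟨a, g, mem_tri.2 ⟨h1, hg⟩⟩, mem_filter.2 ⟨mem_univ _, rfl⟩, rfl⟩
        · split_ifs with h
          · rw [Finset.card_eq_one]
            refine ⟨⟨g, h⟩, ?_⟩
            ext f
            simp only [mem_filter, mem_univ, true_and, mem_singleton]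
            exact ⟨fun h => Subtype.ext h, fun h => by rw [h]⟩
          · rw [Finset.card_eq_zero, Finset.filter_eq_empty_iff]
            rintro ⟨f, hf⟩ - rfl
            exact h hf
      rw [e1, e2, hid g hg, add_comm]
    · have e1 : (univ.filter fun τ : Tok => gr τ = g) = ∅ := by
        rw [Finset.filter_eq_empty_iff]
        rintro τ - h
        exact hg (h ▸ (mem_tri.1 τ.2.2).2)
      have e2 : (univ.filter fun τ : TokB => grB τ = g) = ∅ := by
        rw [Finset.filter_eq_empty_iff]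
        rintro (σ | f) - h
        · exact hg (h ▸ (mem_tri.1 σ.2.2).2)
        · exact hg (h ▸ hH3 _ f.2)
      rw [e1, e2, Finset.card_empty, Finset.card_empty]
  obtain ⟨β, hβ⟩ := exists_matching gr grB hfib
  let code : Tok → ℕ := fun τ => (Fintype.equivFin Tok τ).val
  have codeinj : Function.Injective code := fun τ τ' h =>
    (Fintype.equivFin Tok).injective (Fin.ext h)
  let P : Tok → Finset U := fun τ => univ.image fun m : Fin (r - 3) => pw m (code τ)
  have memP : ∀ τ x, x ∈ P τ ↔ ∃ m, pw m (code τ) = x := by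
    intro τ x; simp [P]
  have cardP : ∀ τ, (P τ).card = r - 3 := by
    intro τ
    simp only [P]
    rw [Finset.card_image_of_injective, Finset.card_univ, Fintype.card_fin]
    intro i j h
    exact (hpw _ _ _ _ h).1
  have PP : ∀ τ τ', τ ≠ τ' → Disjoint (P τ) (P τ') := by
    intro τ τ' hne
    refine Finset.disjoint_left.2 fun x h1 h2 => hne ?_
    obtain ⟨i, rfl⟩ := (memP _ _).1 h1
    obtain ⟨j, hj⟩ := (memP _ _).1 h2
    exact (codeinj (hpw _ _ _ _ hj).2).symm
  let N : Tok → Finset (Finset U) := fun τ => (tri (gr τ ∪ P τ)).erase (gr τ)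
  let Q : C → Finset U := Sum.elim QA QB
  let tk : (c : C) → (g : Finset U) → g ∈ tri (Q c) → Tok := fun c =>
    match c with
    | Sum.inl a => fun g hg => ⟨a, g, hg⟩
    | Sum.inr b => fun g hg => β.symm (Sum.inl ⟨b, g, hg⟩)
  have hQr : ∀ c, (Q c).card = r := by
    rintro (a | b)
    · exact hA a
    · exact hB b
  have tkg : ∀ c g hg, gr (tk c g hg) = g := by
    rintro (a | b) g hg
    · rfl
    · have := hβ (β.symm (Sum.inl ⟨b, g, hg⟩))
      rw [Equiv.apply_symm_apply] at this
      exact this.symm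
  let Pc : C → Finset U → Finset U := fun c g => if h : g ∈ tri (Q c) then P (tk c g h) else ∅
  have Pc_eq : ∀ c g (h : g ∈ tri (Q c)), Pc c g = P (tk c g h) := by
    intro c g h
    simp only [Pc, dif_pos h]
  have fQ : ∀ i n c, fr i n ∉ Q c := by
    rintro i n (a | b)
    · exact hfA i n a
    · exact hfB i n b
  have pQ : ∀ i n c, pw i n ∉ Q c := by
    rintro i n (a | b)
    · exact hpA i n a
    · exact hpB i n b
  have fP : ∀ i n τ, fr i n ∉ P τ := by
    intro i n τ h
    obtain ⟨m, hm⟩ := (memP _ _).1 h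
    exact hpf _ _ _ _ hm
  let cc : C → ℕ := fun c => (Fintype.equivFin C c).val
  have ccinj : Function.Injective cc := fun c c' h =>
    (Fintype.equivFin C).injective (Fin.ext h)
  have hZ : ∀ c, ∃ Z : Finset (Finset U), Dec r Z ∧
      Dec r (Z ∪ (tri (Q c)).biUnion fun g => (tri (g ∪ Pc c g)).erase g) ∧
      ∀ t ∈ Z, t.card = 3 ∧ (∀ x ∈ t, ∀ y ∈ t, x ≠ y → Good x y) ∧
        (∃ i n, fr i (Nat.pair (cc c) n) ∈ t) ∧
        ∀ x ∈ t, x ∈ Q c ∨ (∃ g ∈ tri (Q c), x ∈ Pc c g) ∨
          ∃ i n, x = fr i (Nat.pair (cc c) n) := by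
    intro c
    refine zlem' (Q c) (hQr c) (Pc c) ?_ ?_ ?_ (fun i n => fr i (Nat.pair (cc c) n)) ?_ ?_ ?_
      Good gsymm ?_ ?_ ?_ ?_ ?_ ?_
    · intro g hg; rw [Pc_eq c g hg]; exact cardP _
    · intro g hg x hx h
      rw [Pc_eq c g hg] at h
      obtain ⟨m, rfl⟩ := (memP _ _).1 h
      exact pQ _ _ _ hx
    · intro g hg g' hg' hne
      rw [Pc_eq c g hg, Pc_eq c g' hg']
      apply PP
      intro h
      apply hne
      rw [← tkg c g hg, h, tkg]
    · intro i n j m h
      obtain ⟨e1, e2⟩ := hfr _ _ _ _ h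
      rw [Nat.pair_eq_pair] at e2
      exact ⟨e1, e2.2⟩
    · intro i n; exact fQ _ _ _
    · intro g hg i n; rw [Pc_eq c g hg]; exact fP _ _ _
    · rcases c with a | b
      · exact gA a
      · exact gB b
    · rcases c with a | b
      · intro i n; exact gfA _ _ a
      · intro i n; exact gfB _ _ b
    · intro i n j m h; exact gff _ _ _ _ h
    · intro g hg p hp
      rw [Pc_eq c g hg] at hp
      obtain ⟨m, rfl⟩ := (memP _ _).1 hp
      rcases c with a | b
      · exact gpA _ _ a
      · exact gpB _ _ b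
    · intro g hg p hp i n
      rw [Pc_eq c g hg] at hp
      obtain ⟨m, rfl⟩ := (memP _ _).1 hp
      exact gpf _ _ _ _
    · intro g hg p hp p' hp' hne
      rw [Pc_eq c g hg] at hp hp'
      obtain ⟨m, rfl⟩ := (memP _ _).1 hp
      obtain ⟨m', rfl⟩ := (memP _ _).1 hp'
      exact gpp _ _ _ _ (by rintro rfl; exact hne rfl)
  choose Z hZ1 hZ2 hZ3 using hZ
  -- points of N
  have grQ : ∀ τ : Tok, ∀ x ∈ gr τ, x ∈ Q (Sum.inl τ.1) := fun τ x hx => (mem_tri.1 τ.2.2).1 hx
  have grc : ∀ τ : Tok, (gr τ).card = 3 := fun τ => (mem_tri.1 τ.2.2).2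
  have pN : ∀ τ, ∀ t ∈ N τ, (∀ x ∈ t, x ∈ gr τ ∨ x ∈ P τ) ∧ (∃ x ∈ P τ, x ∈ t) ∧ t.card = 3 := by
    intro τ t ht
    obtain ⟨h1, h2⟩ := mem_erase.1 ht
    obtain ⟨h3, h4⟩ := mem_tri.1 h2
    refine ⟨fun x hx => mem_union.1 (h3 hx), ?_, h4⟩
    by_contra hcon
    push Not at hcon
    apply h1
    apply Finset.eq_of_subset_of_card_le
    · intro x hx
      rcases mem_union.1 (h3 hx) with h | h
      · exact h
      · exact absurd hx (hcon x h)
    · rw [grc, h4]
  have PQ : ∀ τ c, ∀ x ∈ P τ, x ∉ Q c := by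
    intro τ c x hx
    obtain ⟨m, rfl⟩ := (memP _ _).1 hx
    exact pQ _ _ _
  have NN : ∀ τ τ', τ ≠ τ' → Disjoint (N τ) (N τ') := by
    intro τ τ' hne
    refine Finset.disjoint_left.2 fun t h1 h2 => ?_
    obtain ⟨-, ⟨x, hx, hxt⟩, -⟩ := pN τ t h1
    rcases (pN τ' t h2).1 x hxt with h | h
    · exact PQ τ _ x hx (grQ τ' x h)
    · exact Finset.disjoint_left.1 (PP τ τ' hne) hx h
  have NZ : ∀ τ c, Disjoint (N τ) (Z c) := by
    intro τ c
    refine Finset.disjoint_left.2 fun t h1 h2 => ?_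
    obtain ⟨-, -, ⟨i, n, h⟩, -⟩ := hZ3 c t h2
    rcases (pN τ t h1).1 _ h with h | h
    · exact fQ _ _ _ (grQ τ _ h)
    · exact fP _ _ _ h
  have ZZ : ∀ c c', c ≠ c' → Disjoint (Z c) (Z c') := by
    intro c c' hne
    refine Finset.disjoint_left.2 fun t h1 h2 => ?_
    obtain ⟨-, -, ⟨i, n, h⟩, -⟩ := hZ3 c t h1
    rcases (hZ3 c' t h2).2.2.2 _ h with h | ⟨g, hg, h⟩ | ⟨j, m, h⟩
    · exact fQ _ _ _ h
    · rw [Pc_eq c' g hg] at h
      exact fP _ _ _ h
    · obtain ⟨e1, e2⟩ := hfr _ _ _ _ h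
      rw [Nat.pair_eq_pair] at e2
      exact hne (ccinj e2.1)
  -- members of H are inside some `QA a`
  have HA : ∀ f ∈ H, ∃ a, f ⊆ QA a := by
    intro f hf
    have h1 := hid f (hH3 f hf)
    rw [if_pos hf] at h1
    have : (univ.filter fun a => f ⊆ QA a).Nonempty := by
      rw [← Finset.card_pos]; omega
    obtain ⟨a, ha⟩ := this
    exact ⟨a, (mem_filter.1 ha).2⟩
  have HN : ∀ f ∈ H, ∀ τ, f ∉ N τ := by
    intro f hf τ h
    obtain ⟨a, ha⟩ := HA f hf
    obtain ⟨-, ⟨x, hx, hxt⟩, -⟩ := pN τ f h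
    exact PQ τ (Sum.inl a) x hx (ha hxt)
  have HZ : ∀ f ∈ H, ∀ c, f ∉ Z c := by
    intro f hf c h
    obtain ⟨a, ha⟩ := HA f hf
    obtain ⟨-, -, ⟨i, n, h'⟩, -⟩ := hZ3 c f h
    exact fQ _ _ (Sum.inl a) (ha h')
  let blk1 : Tok ⊕ C → Finset (Finset U) := Sum.elim N Z
  have hblk1 : ∀ x y, x ≠ y → Disjoint (blk1 x) (blk1 y) := by
    rintro (τ | c) (τ' | c') hne
    · exact NN _ _ (fun h => hne (by rw [h]))
    · exact NZ _ _
    · exact (NZ _ _).symm
    · exact ZZ _ _ (fun h => hne (by rw [h]))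
  let blk2 : (Tok ⊕ C) ⊕ {f : Finset U // f ∈ H} → Finset (Finset U) :=
    Sum.elim blk1 (fun f => {f.1})
  have hblk2 : ∀ x y, x ≠ y → Disjoint (blk2 x) (blk2 y) := by
    rintro (x | f) (y | f') hne
    · exact hblk1 _ _ (fun h => hne (by rw [h]))
    · refine Finset.disjoint_singleton_right.2 ?_
      rcases x with τ | c
      · exact HN _ f'.2 τ
      · exact HZ _ f'.2 c
    · refine Finset.disjoint_singleton_left.2 ?_
      rcases y with τ | c
      · exact HN _ f.2 τ
      · exact HZ _ f.2 c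
    · refine Finset.disjoint_singleton.2 ?_
      intro h
      exact hne (by rw [Subtype.ext h])
  let κ1 : Tok ⊕ C → C := Sum.elim (fun τ => Sum.inl τ.1) id
  let ow : TokB → C ⊕ {f : Finset U // f ∈ H} :=
    Sum.elim (fun σ => Sum.inl (Sum.inr σ.1)) Sum.inr
  let κ2 : (Tok ⊕ C) ⊕ {f : Finset U // f ∈ H} → C ⊕ {f : Finset U // f ∈ H} :=
    Sum.elim (Sum.elim (fun τ => ow (β τ)) Sum.inl) Sum.inr
  have D1 : Dec r ((univ : Finset (Tok ⊕ C)).biUnion blk1) := by
    refine Dec.group blk1 hblk1 κ1 ?_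
    rintro (a | b)
    · have : (univ.filter fun x => κ1 x = Sum.inl a).biUnion blk1 =
          Z (Sum.inl a) ∪ (tri (Q (Sum.inl a))).biUnion fun g =>
            (tri (g ∪ Pc (Sum.inl a) g)).erase g := by
        ext t
        simp only [mem_biUnion, mem_filter, mem_univ, true_and, mem_union]
        constructor
        · rintro ⟨τ | c, h1, h2⟩
          · right
            obtain ⟨a', g, hg⟩ := τ
            have h1' : (Sum.inl a' : C) = Sum.inl a := h1
            have h1'' : a' = a := Sum.inl.inj h1'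
            subst h1''
            refine ⟨g, hg, ?_⟩
            rw [Pc_eq (Sum.inl a') g hg]
            exact h2
          · left
            have h1' : c = Sum.inl a := h1
            rw [← h1']; exact h2
        · rintro (h | ⟨g, hg, h⟩)
          · exact ⟨Sum.inr (Sum.inl a), rfl, h⟩
          · rw [Pc_eq (Sum.inl a) g hg] at h
            exact ⟨Sum.inl ⟨a, g, hg⟩, rfl, h⟩
      rw [this]
      exact hZ2 _
    · have : (univ.filter fun x => κ1 x = Sum.inr b).biUnion blk1 = Z (Sum.inr b) := by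
        ext t
        simp only [mem_biUnion, mem_filter, mem_univ, true_and]
        constructor
        · rintro ⟨τ | c, h1, h2⟩
          · have h1' : (Sum.inl τ.1 : C) = Sum.inr b := h1
            exact absurd h1' (by simp)
          · have h1' : c = Sum.inr b := h1
            rw [← h1']; exact h2
        · intro h
          exact ⟨Sum.inr (Sum.inr b), rfl, h⟩
      rw [this]
      exact hZ1 _
  have D2 : Dec r ((univ : Finset ((Tok ⊕ C) ⊕ {f : Finset U // f ∈ H})).biUnion blk2) := by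
    refine Dec.group blk2 hblk2 κ2 ?_
    rintro ((a | b) | f)
    · have : (univ.filter fun x => κ2 x = Sum.inl (Sum.inl a)).biUnion blk2 = Z (Sum.inl a) := by
        ext t
        simp only [mem_biUnion, mem_filter, mem_univ, true_and]
        constructor
        · rintro ⟨(τ | c) | f, h1, h2⟩
          · exfalso
            have h1' : ow (β τ) = Sum.inl (Sum.inl a) := h1
            rcases hβτ : β τ with σ | f
            · rw [hβτ] at h1'
              have h1'' : (Sum.inl (Sum.inr σ.1) : C ⊕ {f : Finset U // f ∈ H}) =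
                Sum.inl (Sum.inl a) := h1'
              simp at h1''
            · rw [hβτ] at h1'
              have h1'' : (Sum.inr f : C ⊕ {f : Finset U // f ∈ H}) =
                Sum.inl (Sum.inl a) := h1'
              simp at h1''
          · have h1' : (Sum.inl c : C ⊕ {f : Finset U // f ∈ H}) = Sum.inl (Sum.inl a) := h1
            rw [← Sum.inl.inj h1']; exact h2
          · have h1' : (Sum.inr f : C ⊕ {f : Finset U // f ∈ H}) = Sum.inl (Sum.inl a) := h1
            simp at h1'
        · intro h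
          exact ⟨Sum.inl (Sum.inr (Sum.inl a)), rfl, h⟩
      rw [this]
      exact hZ1 _
    · have : (univ.filter fun x => κ2 x = Sum.inl (Sum.inr b)).biUnion blk2 =
          Z (Sum.inr b) ∪ (tri (Q (Sum.inr b))).biUnion fun g =>
            (tri (g ∪ Pc (Sum.inr b) g)).erase g := by
        ext t
        simp only [mem_biUnion, mem_filter, mem_univ, true_and, mem_union]
        constructor
        · rintro ⟨(τ | c) | f, h1, h2⟩
          · right
            have h1' : ow (β τ) = Sum.inl (Sum.inr b) := h1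
            rcases hβτ : β τ with σ | f
            · rw [hβτ] at h1'
              have h1'' : (Sum.inl (Sum.inr σ.1) : C ⊕ {f : Finset U // f ∈ H}) =
                Sum.inl (Sum.inr b) := h1'
              have hb : σ.1 = b := Sum.inr.inj (Sum.inl.inj h1'')
              obtain ⟨b', g, hg⟩ := σ
              have hb' : b' = b := hb
              subst hb'
              refine ⟨g, hg, ?_⟩
              rw [Pc_eq (Sum.inr b') g hg]
              have hτ : tk (Sum.inr b') g hg = τ := by
                show β.symm (Sum.inl ⟨b', g, hg⟩) = τ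
                rw [← hβτ, Equiv.symm_apply_apply]
              have hg' : gr τ = g := by
                rw [← hτ]; exact tkg (Sum.inr b') g hg
              rw [hτ]
              have h2' : t ∈ (tri (gr τ ∪ P τ)).erase (gr τ) := h2
              rw [hg'] at h2'
              exact h2'
            · rw [hβτ] at h1'
              have h1'' : (Sum.inr f : C ⊕ {f : Finset U // f ∈ H}) =
                Sum.inl (Sum.inr b) := h1'
              simp at h1''
          · left
            have h1' : (Sum.inl c : C ⊕ {f : Finset U // f ∈ H}) = Sum.inl (Sum.inr b) := h1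
            rw [← Sum.inl.inj h1']; exact h2
          · have h1' : (Sum.inr f : C ⊕ {f : Finset U // f ∈ H}) = Sum.inl (Sum.inr b) := h1
            simp at h1'
        · rintro (h | ⟨g, hg, h⟩)
          · exact ⟨Sum.inl (Sum.inr (Sum.inr b)), rfl, h⟩
          · rw [Pc_eq (Sum.inr b) g hg] at h
            refine ⟨Sum.inl (Sum.inl (tk (Sum.inr b) g hg)), ?_, ?_⟩
            · show ow (β (β.symm (Sum.inl ⟨b, g, hg⟩))) = Sum.inl (Sum.inr b)
              rw [Equiv.apply_symm_apply]
              rfl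
            · show t ∈ (tri (gr (tk (Sum.inr b) g hg) ∪ P (tk (Sum.inr b) g hg))).erase
                (gr (tk (Sum.inr b) g hg))
              have hgg := tkg (Sum.inr b) g hg
              rw [hgg]
              exact h
      rw [this]
      exact hZ2 _
    · have hτg : gr (β.symm (Sum.inr f)) = f.1 := by
        have := hβ (β.symm (Sum.inr f))
        rw [Equiv.apply_symm_apply] at this
        exact this.symm
      have : (univ.filter fun x => κ2 x = Sum.inr f).biUnion blk2 =
          tri (f.1 ∪ P (β.symm (Sum.inr f))) := by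
        ext t
        simp only [mem_biUnion, mem_filter, mem_univ, true_and]
        constructor
        · rintro ⟨(τ | c) | f', h1, h2⟩
          · have h1' : ow (β τ) = Sum.inr f := h1
            rcases hβτ : β τ with σ | f'
            · rw [hβτ] at h1'
              have h1'' : (Sum.inl (Sum.inr σ.1) : C ⊕ {f : Finset U // f ∈ H}) =
                Sum.inr f := h1'
              simp at h1''
            · rw [hβτ] at h1'
              have h1'' : (Sum.inr f' : C ⊕ {f : Finset U // f ∈ H}) = Sum.inr f := h1'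
              have hf : f' = f := Sum.inr.inj h1''
              have hτ : β.symm (Sum.inr f) = τ := by
                rw [← hf, ← hβτ, Equiv.symm_apply_apply]
              have h2' : t ∈ (tri (gr τ ∪ P τ)).erase (gr τ) := h2
              rw [← hτ, hτg] at h2'
              exact (mem_erase.1 h2').2
          · have h1' : (Sum.inl c : C ⊕ {f : Finset U // f ∈ H}) = Sum.inr f := h1
            simp at h1'
          · have h1' : (Sum.inr f' : C ⊕ {f : Finset U // f ∈ H}) = Sum.inr f := h1
            have hf : f' = f := Sum.inr.inj h1'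
            have h2' : t ∈ ({f'.1} : Finset (Finset U)) := h2
            rw [mem_singleton] at h2'
            rw [h2', hf]
            exact mem_tri.2 ⟨subset_union_left, hH3 _ f.2⟩
        · intro h
          by_cases ht : t = f.1
          · refine ⟨Sum.inr f, rfl, ?_⟩
            show t ∈ ({f.1} : Finset (Finset U))
            rw [ht]; exact mem_singleton_self _
          · refine ⟨Sum.inl (Sum.inl (β.symm (Sum.inr f))), ?_, ?_⟩
            · show ow (β (β.symm (Sum.inr f))) = Sum.inr f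
              rw [Equiv.apply_symm_apply]
              rfl
            · show t ∈ (tri (gr (β.symm (Sum.inr f)) ∪ P (β.symm (Sum.inr f)))).erase
                (gr (β.symm (Sum.inr f)))
              rw [hτg]
              exact mem_erase.2 ⟨ht, h⟩
      rw [this]
      apply Dec.tri_self
      have hdis : Disjoint f.1 (P (β.symm (Sum.inr f))) := by
        refine Finset.disjoint_left.2 fun x h1 h2 => ?_
        rw [← hτg] at h1
        exact PQ _ _ x h2 (grQ _ x h1)
      rw [Finset.card_union_of_disjoint hdis, cardP, hH3 _ f.2]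
      omega
  refine ⟨(univ : Finset (Tok ⊕ C)).biUnion blk1, D1, ?_, ?_⟩
  · have : (univ : Finset (Tok ⊕ C)).biUnion blk1 ∪ H =
        (univ : Finset ((Tok ⊕ C) ⊕ {f : Finset U // f ∈ H})).biUnion blk2 := by
      ext t
      simp only [mem_union, mem_biUnion, mem_univ, true_and]
      constructor
      · rintro (⟨x, hx⟩ | h)
        · exact ⟨Sum.inl x, hx⟩
        · exact ⟨Sum.inr ⟨t, h⟩, mem_singleton_self _⟩
      · rintro ⟨x | f, h⟩
        · exact Or.inl ⟨x, h⟩
        · right
          have h' : t ∈ ({f.1} : Finset (Finset U)) := h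
          rw [mem_singleton] at h'
          rw [h']; exact f.2
    rw [this]
    exact D2
  · intro t ht
    obtain ⟨x, -, hx⟩ := mem_biUnion.1 ht
    rcases x with τ | c
    · obtain ⟨h1, ⟨y, hy, hyt⟩, h3⟩ := pN τ t hx
      refine ⟨h3, ?_, ?_, ?_⟩
      · intro x hx y hy hne
        rcases h1 x hx with hx | hx <;> rcases h1 y hy with hy | hy
        · exact gA τ.1 x (grQ τ x hx) y (grQ τ y hy) hne
        · obtain ⟨m, rfl⟩ := (memP _ _).1 hy
          exact gsymm _ _ (gpA _ _ τ.1 _ (grQ τ x hx))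
        · obtain ⟨m, rfl⟩ := (memP _ _).1 hx
          exact gpA _ _ τ.1 _ (grQ τ y hy)
        · obtain ⟨m, rfl⟩ := (memP _ _).1 hx
          obtain ⟨m', rfl⟩ := (memP _ _).1 hy
          exact gpp _ _ _ _ (by rintro rfl; exact hne rfl)
      · right
        obtain ⟨m, rfl⟩ := (memP _ _).1 hy
        exact ⟨_, _, hyt⟩
      · intro x hx
        rcases h1 x hx with hx | hx
        · exact Or.inl ⟨τ.1, grQ τ x hx⟩
        · obtain ⟨m, rfl⟩ := (memP _ _).1 hx
          exact Or.inr (Or.inr (Or.inl ⟨_, _, rfl⟩))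
    · obtain ⟨h1, h2, ⟨i, n, h3⟩, h4⟩ := hZ3 c t hx
      refine ⟨h1, h2, Or.inl ⟨_, _, h3⟩, ?_⟩
      intro x hx
      rcases h4 x hx with h | ⟨g, hg, h⟩ | ⟨i, n, h⟩
      · rcases c with a | b
        · exact Or.inl ⟨a, h⟩
        · exact Or.inr (Or.inl ⟨b, h⟩)
      · rw [Pc_eq c g hg] at h
        obtain ⟨m, rfl⟩ := (memP _ _).1 h
        exact Or.inr (Or.inr (Or.inl ⟨_, _, rfl⟩))
      · exact Or.inr (Or.inr (Or.inr ⟨_, _, h⟩))

end real

end Pool.Agent.Lib.MP_5c685b_co.E
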