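import Pool.Agent.Lib.MP_5c685b_co.E.Basic
import Pool.Agent.Lib.MP_5c685b_co.E.Real
import Pool.Agent.Lib.MP_5c685b_co.E.Ident

set_option autoImplicit false
set_option linter.all false

/-! # Row E11: the local lemma (absorber inside one host), helper98 -/

namespace Pool.Agent.Lib.MP_5c685b_co.E

open Finset

variable {U : Type*} [DecidableEq U]

/-- E11 (text 1.4). -/
theorem local_absorber (r : ℕ) (hr : r % 6 = 3) (h9 : 9 ≤ r) (H : Finset (Finset U))
    (hH3 : ∀ f ∈ H, f.card = 3) (hbal : Balanced r H) (nw : Fin (3 * r + 4) → ℕ → U)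
    (hnw : ∀ i n j m, nw i n = nw j m → i = j ∧ n = m) (hold : ∀ f ∈ H, ∀ i n, nw i n ∉ f) :
    ∃ A : Finset (Finset U), (∀ T ∈ A, T.card = 3) ∧ Dec r A ∧ Dec r (A ∪ H) ∧ Disjoint A H ∧
      ∀ T ∈ A, (∃ i n, nw i n ∈ T) ∧ (∀ x ∈ T, (∃ f ∈ H, x ∈ f) ∨ ∃ i n, x = nw i n) ∧
        (∀ i n m, nw i n ∈ T → nw i m ∈ T → n = m) ∧
        ∃ f ∈ H, ∀ x ∈ T, x ∈ f ∨ ∃ i n, x = nw i n := by
  classical
  rcases H.eq_empty_or_nonempty with rfl | ⟨f0, hf0⟩
  · exact ⟨∅, by simp, Dec.empty r, by simpa using Dec.empty r, by simp, by simp⟩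
  set w : Fin (r + 7) → U := fun i => nw ⟨i.1, by omega⟩ 0 with hw
  set pw : Fin (r - 3) → ℕ → U := fun i n => nw ⟨r + 7 + i.1, by omega⟩ n with hpw
  set fr : Fin r → ℕ → U := fun i n => nw ⟨r + 7 + (r - 3) + i.1, by omega⟩ n with hfr
  have winj : Function.Injective w := by
    intro i j h
    have := (hnw _ _ _ _ h).1
    simp only [Fin.mk.injEq] at this
    exact Fin.ext this
  obtain ⟨nA, nB, QA, QB, hA, hB, -, hid⟩ := Ident.identity12 r hr H hH3 hbal (r + 7) (by omega) w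
    winj (fun f hf i => hold f hf _ _)
  set Good : U → U → Prop := fun x y => (∀ i n m, x = nw i n → y = nw i m → False) ∧
    ((∀ i n, x ≠ nw i n) → (∀ i n, y ≠ nw i n) → ∃ f ∈ H, x ∈ f ∧ y ∈ f) with hGood
  have gsymm : ∀ x y, Good x y → Good y x := by
    rintro x y ⟨h1, h2⟩
    refine ⟨fun i n m h h' => h1 i m n h' h, fun h h' => ?_⟩
    obtain ⟨f, hf, hx, hy⟩ := h2 h' h
    exact ⟨f, hf, hy, hx⟩
  -- cliques `Q ⊆ f ∪ image w`
  have gQ : ∀ Q : Finset U, (∃ f ∈ H, Q ⊆ f ∪ univ.image w) →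
      ∀ x ∈ Q, ∀ y ∈ Q, x ≠ y → Good x y := by
    rintro Q ⟨f, hf, hQ⟩ x hx y hy hne
    have hwx : ∀ z ∈ Q, ∀ i n, z = nw i n → ∃ i' : Fin (r + 7), z = w i' ∧ i.1 = i'.1 ∧ n = 0 := by
      intro z hz i n h
      rcases mem_union.1 (hQ hz) with h' | h'
      · exact absurd (h ▸ h') (hold f hf i n)
      · obtain ⟨i', -, hi'⟩ := mem_image.1 h'
        rw [h] at hi'
        obtain ⟨e1, e2⟩ := hnw _ _ _ _ hi'
        exact ⟨i', by rw [h]; exact hi'.symm, by rw [← e1], e2.symm⟩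
    refine ⟨?_, ?_⟩
    · intro i n m h1 h2
      obtain ⟨i1, e1, e2, e3⟩ := hwx x hx i n h1
      obtain ⟨i2, f1, f2, f3⟩ := hwx y hy i m h2
      apply hne
      rw [h1, h2, e3, f3]
    · intro h1 h2
      refine ⟨f, hf, ?_, ?_⟩
      · rcases mem_union.1 (hQ hx) with h' | h'
        · exact h'
        · obtain ⟨i', -, hi'⟩ := mem_image.1 h'
          exact absurd hi'.symm (h1 _ _)
      · rcases mem_union.1 (hQ hy) with h' | h'
        · exact h'
        · obtain ⟨i', -, hi'⟩ := mem_image.1 h'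
          exact absurd hi'.symm (h2 _ _)
  -- points of `Q` against points of a colour `≥ r + 7`
  have nQ : ∀ Q : Finset U, (∃ f ∈ H, Q ⊆ f ∪ univ.image w) → ∀ (i : Fin (3 * r + 4)) (n : ℕ),
      r + 7 ≤ i.1 → nw i n ∉ Q := by
    rintro Q ⟨f, hf, hQ⟩ i n hi h
    rcases mem_union.1 (hQ h) with h' | h'
    · exact hold f hf _ _ h'
    · obtain ⟨i', -, hi'⟩ := mem_image.1 h'
      have := (hnw _ _ _ _ hi').1
      rw [← this] at hi
      have h3 := i'.2
      simp only at hi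
      omega
  have gN : ∀ Q : Finset U, (∃ f ∈ H, Q ⊆ f ∪ univ.image w) → ∀ (i : Fin (3 * r + 4)) (n : ℕ),
      r + 7 ≤ i.1 → ∀ x ∈ Q, Good (nw i n) x := by
    rintro Q ⟨f, hf, hQ⟩ i n hi x hx
    refine ⟨?_, fun h => absurd rfl (h i n)⟩
    intro j m m' h1 h2
    have e1 := (hnw _ _ _ _ h1).1
    rw [h2, ← e1] at hx
    exact nQ Q ⟨f, hf, hQ⟩ i m' hi hx
  have gg : ∀ (i j : Fin (3 * r + 4)) (n m : ℕ), i ≠ j → Good (nw i n) (nw j m) := by
    intro i j n m hij
    refine ⟨?_, fun h => absurd rfl (h i n)⟩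
    intro k a b h1 h2
    exact hij ((hnw _ _ _ _ h1).1.trans (hnw _ _ _ _ h2).1.symm)
  obtain ⟨A, A1, A2, A3⟩ := realise (by omega) H hH3 nA nB QA QB (fun a => (hA a).1)
    (fun b => (hB b).1) hid pw fr
    (fun i n j m h => by
      obtain ⟨e1, e2⟩ := hnw _ _ _ _ h
      simp only [Fin.mk.injEq] at e1
      exact ⟨Fin.ext (by omega), e2⟩)
    (fun i n j m h => by
      obtain ⟨e1, e2⟩ := hnw _ _ _ _ h
      simp only [Fin.mk.injEq] at e1
      exact ⟨Fin.ext (by omega), e2⟩)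
    (fun i n j m h => by
      obtain ⟨e1, e2⟩ := hnw _ _ _ _ h
      simp only [Fin.mk.injEq] at e1
      have := i.2
      omega)
    (fun i n a => nQ _ (hA a).2 _ _ (by simp only; omega))
    (fun i n b => nQ _ (hB b).2 _ _ (by simp only; omega))
    (fun i n a => nQ _ (hA a).2 _ _ (by simp only; omega))
    (fun i n b => nQ _ (hB b).2 _ _ (by simp only; omega))
    Good gsymm (fun a => gQ _ (hA a).2) (fun b => gQ _ (hB b).2)
    (fun i n a => gN _ (hA a).2 _ _ (by simp only; omega))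
    (fun i n b => gN _ (hB b).2 _ _ (by simp only; omega))
    (fun i n j m hij => gg _ _ _ _ (fun h => hij (by
      simp only [Fin.mk.injEq] at h; exact Fin.ext (by omega))))
    (fun i n a => gN _ (hA a).2 _ _ (by simp only; omega))
    (fun i n b => gN _ (hB b).2 _ _ (by simp only; omega))
    (fun i n j m => gg _ _ _ _ (fun h => by
      simp only [Fin.mk.injEq] at h
      have := i.2
      omega))
    (fun i n j m hij => gg _ _ _ _ (fun h => hij (by
      simp only [Fin.mk.injEq] at h; exact Fin.ext (by omega))))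
  have hnewT : ∀ T ∈ A, ∃ i n, nw i n ∈ T := by
    intro T hT
    rcases (A3 T hT).2.2.1 with ⟨i, n, h⟩ | ⟨i, n, h⟩
    · exact ⟨_, _, h⟩
    · exact ⟨_, _, h⟩
  have hpt : ∀ T ∈ A, ∀ x ∈ T, (∃ f ∈ H, x ∈ f) ∨ ∃ i n, x = nw i n := by
    intro T hT x hx
    have hQx : ∀ Q : Finset U, (∃ f ∈ H, Q ⊆ f ∪ univ.image w) → x ∈ Q →
        (∃ f ∈ H, x ∈ f) ∨ ∃ i n, x = nw i n := by
      rintro Q ⟨f, hf, hQ⟩ hxQ
      rcases mem_union.1 (hQ hxQ) with h' | h'
      · exact Or.inl ⟨f, hf, h'⟩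
      · obtain ⟨i', -, hi'⟩ := mem_image.1 h'
        exact Or.inr ⟨_, _, hi'.symm⟩
    rcases (A3 T hT).2.2.2 x hx with ⟨a, h⟩ | ⟨b, h⟩ | ⟨i, n, h⟩ | ⟨i, n, h⟩
    · exact hQx _ (hA a).2 h
    · exact hQx _ (hB b).2 h
    · exact Or.inr ⟨_, _, h⟩
    · exact Or.inr ⟨_, _, h⟩
  refine ⟨A, fun T hT => (A3 T hT).1, A1, A2, ?_, ?_⟩
  · refine Finset.disjoint_left.2 fun T h1 h2 => ?_
    obtain ⟨i, n, h⟩ := hnewT T h1
    exact hold T h2 i n h
  · intro T hT
    obtain ⟨hc, hg, -, -⟩ := A3 T hT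
    refine ⟨hnewT T hT, hpt T hT, ?_, ?_⟩
    · intro i n m h1 h2
      by_contra hne
      exact (hg _ h1 _ h2 (fun h => hne (hnw _ _ _ _ h).2)).1 i n m rfl rfl
    · -- the old part
      set O : Finset U := T.filter fun x => ∀ i n, x ≠ nw i n with hO
      have hOc : O.card ≤ 2 := by
        obtain ⟨i, n, h⟩ := hnewT T hT
        have hsub : O ⊆ T.erase (nw i n) := by
          intro x hx
          obtain ⟨h1, h2⟩ := mem_filter.1 hx
          exact mem_erase.2 ⟨h2 i n, h1⟩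
        have := Finset.card_le_card hsub
        rw [Finset.card_erase_of_mem h, hc] at this
        exact this
      have key : ∀ f ∈ H, (∀ x ∈ O, x ∈ f) → ∃ f ∈ H, ∀ x ∈ T, x ∈ f ∨ ∃ i n, x = nw i n := by
        intro f hf h
        refine ⟨f, hf, fun x hx => ?_⟩
        by_cases hn : ∃ i n, x = nw i n
        · exact Or.inr hn
        · push Not at hn
          exact Or.inl (h x (mem_filter.2 ⟨hx, hn⟩))
      have hcases : O.card = 0 ∨ O.card = 1 ∨ O.card = 2 := by omega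
      rcases hcases with h0 | h1 | h2
      · rw [Finset.card_eq_zero] at h0
        exact key f0 hf0 (by rw [h0]; simp)
      · obtain ⟨x, hx⟩ := Finset.card_eq_one.1 h1
        have hxO : x ∈ O := by rw [hx]; exact mem_singleton_self _
        obtain ⟨hxT, hxn⟩ := mem_filter.1 hxO
        rcases hpt T hT x hxT with ⟨f, hf, h⟩ | ⟨i, n, h⟩
        · exact key f hf (by rw [hx]; intro y hy; rw [mem_singleton.1 hy]; exact h)
        · exact absurd h (hxn i n)
      · obtain ⟨x, y, hne, hxy⟩ := Finset.card_eq_two.1 h2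
        have hxO : x ∈ O := by rw [hxy]; simp
        have hyO : y ∈ O := by rw [hxy]; simp
        obtain ⟨hxT, hxn⟩ := mem_filter.1 hxO
        obtain ⟨hyT, hyn⟩ := mem_filter.1 hyO
        obtain ⟨f, hf, h1', h2'⟩ := (hg x hxT y hyT hne).2 hxn hyn
        exact key f hf (by
          rw [hxy]; intro z hz
          rcases mem_insert.1 hz with rfl | hz
          · exact h1'
          · rw [mem_singleton.1 hz]; exact h2')

end Pool.Agent.Lib.MP_5c685b_co.E
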