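import Pool.Agent.Lib.MP_5c685b_co.E.Omni
import Pool.Agent.Lib.MP_5c685b_co.E.HostThm14
import Pool.Agent.Lib.MP_5c685b_co.E.Emb

set_option autoImplicit false

/-! # Row E24: `OmniStmt` from the host theorem -/

namespace Pool.Agent.Lib.MP_5c685b_co.E

open Finset

/-- E24 (text 6): `OmniStmt` from the host theorem. -/
theorem omniStmt {cb : ℝ} (hcb : 0 < cb) (hF : FracThm cb) :
    ∃ c1 : ℝ, 0 < c1 ∧ ∃ r1 : ℕ, ∀ r : ℕ, r1 ≤ r → r % 6 = 3 →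
      OmniStmt r (c1 * Real.log r / (r : ℝ) ^ 2) := by
  obtain ⟨c1, hc1, r1, h⟩ := host_thm hcb hF
  refine ⟨c1, hc1, max r1 45, fun r hr hr6 => ?_⟩
  obtain ⟨c0, hc0, n0, hH⟩ := h r (le_trans (le_max_left _ _) hr)
  intro η hη
  obtain ⟨p, hp, n1, hO⟩ := omni embStmt hr6 (le_trans (le_max_right _ _) hr) hc0 hη
  exact ⟨p, hp, max n0 n1, fun n hn G hG X hX hSm =>
    hO n (le_trans (le_max_right _ _) hn) G hG.1 (hH n (le_trans (le_max_left _ _) hn) G hG) X hX hSm⟩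

end Pool.Agent.Lib.MP_5c685b_co.E
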