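import Pool.Agent.Lib.MP_5c685b_co.E.Defs

/-! MP_5c685b_co: section 1.3, the MDS systems (quadratics over `ZMod q`), helper98 -/

set_option autoImplicit false
set_option linter.all false

namespace Pool.Agent.Lib.MP_5c685b_co.E

open Finset

section mds

variable {U : Type*} [DecidableEq U]

lemma Dec.tri_self {r : ℕ} {Q : Finset U} (h : Q.card = r) : Dec r (tri Q) :=
  ⟨{Q}, by simpa using h, by
    intro Q1 h1 Q2 h2 hne; rw [mem_singleton] at h1 h2; exact absurd (h1.trans h2.symm) hne,
    by simp⟩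

/-- disjoint unions of families of decomposable sets -/
lemma Dec.bUnionM {ι : Type*} {r : ℕ} (s : Finset ι)
    (E : ι → Finset (Finset U)) (h : ∀ i ∈ s, Dec r (E i))
    (hd : ∀ i ∈ s, ∀ j ∈ s, i ≠ j → Disjoint (E i) (E j)) : Dec r (s.biUnion E) := by
  classical
  induction s using Finset.induction_on with
  | empty => simpa using Dec.empty r
  | insert a s ha ih =>
    rw [Finset.biUnion_insert]
    refine Dec.union ?_ (h a (mem_insert_self _ _)) (ih (fun i hi => h i (mem_insert_of_mem hi))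
      (fun i hi j hj hne => hd i (mem_insert_of_mem hi) j (mem_insert_of_mem hj) hne))
    rw [Finset.disjoint_biUnion_right]
    intro i hi
    exact hd a (mem_insert_self _ _) i (mem_insert_of_mem hi) (by rintro rfl; exact ha hi)

variable {r q : ℕ} [Fact q.Prime]

/-- the quadratic polynomials shifted by `v` -/
def fam (al v : Fin r → ZMod q) (p : ZMod q × ZMod q × ZMod q) (i : Fin r) : ZMod q :=
  p.1 + p.2.1 * al i + p.2.2 * al i ^ 2 + v i

lemma fam_zero (al v : Fin r → ZMod q) : fam al v 0 = v := by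
  funext i
  simp [fam]

lemma quad_zero {F : Type*} [Field F] {a b c x y z : F} (hxy : x ≠ y) (hxz : x ≠ z) (hyz : y ≠ z)
    (h1 : a + b * x + c * x ^ 2 = 0) (h2 : a + b * y + c * y ^ 2 = 0)
    (h3 : a + b * z + c * z ^ 2 = 0) : a = 0 ∧ b = 0 ∧ c = 0 := by
  have e1 : (x - y) * (b + c * (x + y)) = 0 := by linear_combination h1 - h2
  have e2 : (x - z) * (b + c * (x + z)) = 0 := by linear_combination h1 - h3
  have f1 : b + c * (x + y) = 0 := (mul_eq_zero.1 e1).resolve_left (sub_ne_zero.2 hxy)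
  have f2 : b + c * (x + z) = 0 := (mul_eq_zero.1 e2).resolve_left (sub_ne_zero.2 hxz)
  have e3 : (y - z) * c = 0 := by linear_combination f1 - f2
  have hc : c = 0 := (mul_eq_zero.1 e3).resolve_left (sub_ne_zero.2 hyz)
  have hb : b = 0 := by rw [hc] at f1; linear_combination f1
  have ha : a = 0 := by rw [hc, hb] at h1; linear_combination h1
  exact ⟨ha, hb, hc⟩

lemma fam_existsUnique {al : Fin r → ZMod q} (hal : Function.Injective al)
    (v ψ : Fin r → ZMod q) {I : Finset (Fin r)} (hI : I.card = 3) :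
    ∃! p : ZMod q × ZMod q × ZMod q, ∀ i ∈ I, fam al v p i = ψ i := by
  classical
  obtain ⟨i, j, k, hij, hik, hjk, rfl⟩ := Finset.card_eq_three.1 hI
  have hinj : Function.Injective (fun p : ZMod q × ZMod q × ZMod q =>
      ((fam al v p i, fam al v p j, fam al v p k) : ZMod q × ZMod q × ZMod q)) := by
    rintro ⟨a, b, c⟩ ⟨a', b', c'⟩ h
    simp only [Prod.mk.injEq, fam] at h
    obtain ⟨h1, h2, h3⟩ := h
    have := quad_zero (a := a - a') (b := b - b') (c := c - c') (hal.ne hij) (hal.ne hik)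
      (hal.ne hjk) (by linear_combination h1) (by linear_combination h2)
      (by linear_combination h3)
    obtain ⟨t1, t2, t3⟩ := this
    rw [sub_eq_zero.1 t1, sub_eq_zero.1 t2, sub_eq_zero.1 t3]
  have hsurj := Finite.injective_iff_surjective.1 hinj
  obtain ⟨p, hp⟩ := hsurj (ψ i, ψ j, ψ k)
  simp only [Prod.mk.injEq] at hp
  refine ⟨p, ?_, ?_⟩
  · intro l hl
    simp only [mem_insert, mem_singleton] at hl
    rcases hl with rfl | rfl | rfl
    · exact hp.1
    · exact hp.2.1
    · exact hp.2.2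
  · intro p' hp'
    apply hinj
    simp only [Prod.mk.injEq]
    exact ⟨(hp' i (by simp)).trans hp.1.symm, (hp' j (by simp)).trans hp.2.1.symm,
      (hp' k (by simp)).trans hp.2.2.symm⟩

/-- the monic cubic vanishing exactly on `I` -/
lemma exists_cubic {al : Fin r → ZMod q} (hal : Function.Injective al)
    {I : Finset (Fin r)} (hI : I.card = 3) :
    ∃ p : ZMod q × ZMod q × ZMod q, ∀ i, fam al (fun i => al i ^ 3) p i = 0 ↔ i ∈ I := by
  classical
  obtain ⟨i, j, k, hij, hik, hjk, rfl⟩ := Finset.card_eq_three.1 hI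
  refine ⟨(-(al i * al j * al k), al i * al j + al i * al k + al j * al k,
    -(al i + al j + al k)), ?_⟩
  intro l
  have : fam al (fun i => al i ^ 3) (-(al i * al j * al k), al i * al j + al i * al k + al j * al k,
    -(al i + al j + al k)) l = (al l - al i) * (al l - al j) * (al l - al k) := by
    simp only [fam]; ring
  rw [this]
  simp only [mul_eq_zero, sub_eq_zero, hal.eq_iff, mem_insert, mem_singleton, or_assoc]

/-- the clique of a labelling -/
def clq (pt : Fin r → ZMod q → U) (φ : Fin r → ZMod q) : Finset U :=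
  univ.image fun i => pt i (φ i)

/-- all transversal triples of the system `pt` -/
def allT (pt : Fin r → ZMod q → U) : Finset (Finset U) :=
  (univ : Finset (Fin r → ZMod q)).biUnion fun φ => tri (clq pt φ)

/-- different points of the system are different -/
def Inj2 (pt : Fin r → ZMod q → U) : Prop := ∀ i x j y, pt i x = pt j y → i = j ∧ x = y

lemma card_clq {pt : Fin r → ZMod q → U} (hpt : Inj2 pt) (φ : Fin r → ZMod q) :
    (clq pt φ).card = r := by
  unfold clq
  rw [Finset.card_image_of_injective, Finset.card_univ, Fintype.card_fin]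
  intro i j h
  exact (hpt _ _ _ _ h).1

lemma mem_tri_clq {pt : Fin r → ZMod q → U} (hpt : Inj2 pt) {φ : Fin r → ZMod q}
    {T : Finset U} : T ∈ tri (clq pt φ) ↔
      ∃ I : Finset (Fin r), I.card = 3 ∧ T = I.image fun i => pt i (φ i) := by
  have hinj : Function.Injective (fun i => pt i (φ i)) := fun i j h => (hpt _ _ _ _ h).1
  rw [mem_tri]
  constructor
  · rintro ⟨h1, h2⟩
    obtain ⟨I, -, rfl⟩ := Finset.subset_image_iff.1 h1
    refine ⟨I, ?_, rfl⟩
    rwa [Finset.card_image_of_injective _ hinj] at h2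
  · rintro ⟨I, hI, rfl⟩
    exact ⟨Finset.image_subset_image (subset_univ _),
      by rw [Finset.card_image_of_injective _ hinj]; exact hI⟩

lemma mem_allT {pt : Fin r → ZMod q → U} (hpt : Inj2 pt) {T : Finset U} :
    T ∈ allT pt ↔ ∃ (φ : Fin r → ZMod q) (I : Finset (Fin r)), I.card = 3 ∧
      T = I.image fun i => pt i (φ i) := by
  simp only [allT, mem_biUnion, mem_univ, true_and, mem_tri_clq hpt]

lemma image_eq_iff {pt : Fin r → ZMod q → U} (hpt : Inj2 pt) {φ ψ : Fin r → ZMod q}
    {I J : Finset (Fin r)} : (I.image fun i => pt i (φ i)) = (J.image fun i => pt i (ψ i)) ↔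
      I = J ∧ ∀ i ∈ I, φ i = ψ i := by
  constructor
  · intro h
    have a1 : ∀ i ∈ I, i ∈ J ∧ φ i = ψ i := by
      intro i hi
      have : pt i (φ i) ∈ J.image fun i => pt i (ψ i) := by
        rw [← h]; exact mem_image_of_mem _ hi
      obtain ⟨j, hj, hjj⟩ := mem_image.1 this
      obtain ⟨e1, e2⟩ := hpt _ _ _ _ hjj
      subst e1
      exact ⟨hj, e2.symm⟩
    have a2 : ∀ i ∈ J, i ∈ I := by
      intro i hi
      have : pt i (ψ i) ∈ I.image fun i => pt i (φ i) := by
        rw [h]; exact mem_image_of_mem _ hi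
      obtain ⟨j, hj, hjj⟩ := mem_image.1 this
      obtain ⟨e1, e2⟩ := hpt _ _ _ _ hjj
      subst e1
      exact hj
    exact ⟨Finset.Subset.antisymm (fun i hi => (a1 i hi).1) a2, fun i hi => (a1 i hi).2⟩
  · rintro ⟨rfl, h⟩
    exact Finset.image_congr (fun i hi => by rw [h i hi])

lemma mem_tri_clq_iff {pt : Fin r → ZMod q → U} (hpt : Inj2 pt) {φ ψ : Fin r → ZMod q}
    {I : Finset (Fin r)} (hI : I.card = 3) :
    (I.image fun i => pt i (φ i)) ∈ tri (clq pt ψ) ↔ ∀ i ∈ I, φ i = ψ i := by
  rw [mem_tri_clq hpt]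
  constructor
  · rintro ⟨J, -, h⟩
    exact ((image_eq_iff hpt).1 h).2
  · intro h
    exact ⟨I, hI, (image_eq_iff hpt).2 ⟨rfl, h⟩⟩

lemma allT_existsUnique {al : Fin r → ZMod q} (hal : Function.Injective al)
    (v : Fin r → ZMod q) {pt : Fin r → ZMod q → U} (hpt : Inj2 pt) {T : Finset U}
    (hT : T ∈ allT pt) : ∃! p : ZMod q × ZMod q × ZMod q, T ∈ tri (clq pt (fam al v p)) := by
  obtain ⟨φ, I, hI, rfl⟩ := (mem_allT hpt).1 hT
  obtain ⟨p, hp, hu⟩ := fam_existsUnique hal v φ hI
  refine ⟨p, ?_, ?_⟩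
  · exact (mem_tri_clq_iff hpt hI).2 fun i hi => (hp i hi).symm
  · intro p' hp'
    exact hu p' fun i hi => ((mem_tri_clq_iff hpt hI).1 hp' i hi).symm

lemma tri_clq_subset_allT {pt : Fin r → ZMod q → U} (φ : Fin r → ZMod q) :
    tri (clq pt φ) ⊆ allT pt := Finset.subset_biUnion_of_mem (fun φ => tri (clq pt φ)) (mem_univ φ)

lemma dec_fam {al : Fin r → ZMod q} (hal : Function.Injective al) (v : Fin r → ZMod q)
    {pt : Fin r → ZMod q → U} (hpt : Inj2 pt) (S : Finset (ZMod q × ZMod q × ZMod q)) :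
    Dec r (S.biUnion fun p => tri (clq pt (fam al v p))) := by
  refine Dec.bUnionM S _ (fun p _ => Dec.tri_self (card_clq hpt _)) ?_
  intro p _ p' _ hne
  refine Finset.disjoint_left.2 fun T h1 h2 => hne ?_
  exact (allT_existsUnique hal v hpt (tri_clq_subset_allT _ h1)).unique h1 h2

lemma allT_sdiff_eq {al : Fin r → ZMod q} (hal : Function.Injective al) (v : Fin r → ZMod q)
    {pt : Fin r → ZMod q → U} (hpt : Inj2 pt) (S : Finset (ZMod q × ZMod q × ZMod q)) :
    allT pt \ (S.biUnion fun p => tri (clq pt (fam al v p))) =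
      (univ \ S).biUnion fun p => tri (clq pt (fam al v p)) := by
  ext T
  simp only [mem_sdiff, mem_biUnion, mem_univ, true_and, not_exists, not_and]
  constructor
  · rintro ⟨h1, h2⟩
    obtain ⟨p, hp, -⟩ := allT_existsUnique hal v hpt h1
    exact ⟨p, fun hS => h2 p hS hp, hp⟩
  · rintro ⟨p, hp, hT⟩
    refine ⟨tri_clq_subset_allT _ hT, fun p' hp' hT' => hp ?_⟩
    rwa [(allT_existsUnique hal v hpt (tri_clq_subset_allT _ hT)).unique hT hT']

/-- the system minus one transversal is decomposable -/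
lemma dec_allT_sdiff {al : Fin r → ZMod q} (hal : Function.Injective al) (v : Fin r → ZMod q)
    {pt : Fin r → ZMod q → U} (hpt : Inj2 pt) : Dec r (allT pt \ tri (clq pt v)) := by
  have h := allT_sdiff_eq hal v hpt {0}
  rw [Finset.singleton_biUnion, fam_zero] at h
  rw [h]
  exact dec_fam hal v hpt _

end mds

end Pool.Agent.Lib.MP_5c685b_co.E
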