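import Pool.Agent.Lib.MP_5c685b_co.E.Pieces
import Pool.Agent.Lib.MP_5c685b_co.E.E21

set_option autoImplicit false

/-! # Rows E21, E22, E23: the omni-absorber

A link is a pair `(e, c)` with `e ∈ X`, `c ⊆ e`, `|c| ≤ 2`. It carries sets of triples `J e c j` (residue
`j` at `c`) and `J' e c j` (residue `-j` at `c`), `j < Mo r |c|`, on `c ∪ w e c`. -/

namespace Pool.Agent.Lib.MP_5c685b_co.E

open Finset

/-! ## E23: helper lemmas -/

private theorem E23_card_sub {α : Type} [DecidableEq α] (s : Finset α) (P : α → Prop)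
    [DecidablePred P] [DecidablePred fun i : {x // x ∈ s} => P i.1] :
    (univ.filter (fun i : {x // x ∈ s} => P i.1)).card = (s.filter P).card := by
  refine Finset.card_bij (fun i _ => i.1) ?_ ?_ ?_
  · intro i hi
    exact Finset.mem_filter.2 ⟨i.2, (Finset.mem_filter.1 hi).2⟩
  · intro i _ j _ h
    exact Subtype.ext h
  · intro x hx
    have h := Finset.mem_filter.1 hx
    exact ⟨⟨x, h.1⟩, Finset.mem_filter.2 ⟨Finset.mem_univ _, h.2⟩, rfl⟩

/-- The number of triples is at most `p n^3`. -/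
private theorem E23_card_le {n : ℕ} {p : ℝ} (hp : 0 ≤ p) {X : Finset (Finset (Fin n))}
    (hX : Triples X) (hs : Sm n p X) : (X.card : ℝ) ≤ p * (n : ℝ) ^ 3 := by
  have h1 : X ⊆ ((univ : Finset (Fin n)).powersetCard 2).biUnion
      (fun P => X.filter (fun T => P ⊆ T)) := by
    intro T hT
    obtain ⟨P, hP, hP2⟩ := Finset.exists_subset_card_eq (show 2 ≤ T.card by
      rw [hX T hT]; norm_num)
    exact Finset.mem_biUnion.2 ⟨P, Finset.mem_powersetCard.2 ⟨Finset.subset_univ _, hP2⟩,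
      Finset.mem_filter.2 ⟨hT, hP⟩⟩
  have h2 : X.card ≤ ∑ P ∈ (univ : Finset (Fin n)).powersetCard 2, dg X P :=
    (Finset.card_le_card h1).trans Finset.card_biUnion_le
  have h3 : (∑ P ∈ (univ : Finset (Fin n)).powersetCard 2, (dg X P : ℝ)) ≤
      ∑ P ∈ (univ : Finset (Fin n)).powersetCard 2, p * (n : ℝ) :=
    Finset.sum_le_sum (fun P hP => hs P (Finset.mem_powersetCard.1 hP).2)
  rw [Finset.sum_const, Finset.card_powersetCard, Finset.card_univ, Fintype.card_fin,
    nsmul_eq_mul] at h3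
  have h4 : ((n.choose 2 : ℕ) : ℝ) ≤ (n : ℝ) ^ 2 := by
    exact_mod_cast Nat.choose_le_pow n 2
  have h5 : (X.card : ℝ) ≤ ∑ P ∈ (univ : Finset (Fin n)).powersetCard 2, (dg X P : ℝ) := by
    exact_mod_cast h2
  have h6 : (0 : ℝ) ≤ p * (n : ℝ) := mul_nonneg hp (Nat.cast_nonneg n)
  calc (X.card : ℝ) ≤ ((n.choose 2 : ℕ) : ℝ) * (p * (n : ℝ)) := h5.trans h3
    _ ≤ (n : ℝ) ^ 2 * (p * (n : ℝ)) := mul_le_mul_of_nonneg_right h4 h6
    _ = p * (n : ℝ) ^ 3 := by ring

/-- The number of triples at a vertex is at most `p n^2`. -/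
private theorem E23_vert_le {n : ℕ} {p : ℝ} (hp : 0 ≤ p) {X : Finset (Finset (Fin n))}
    (hX : Triples X) (hs : Sm n p X) (v : Fin n) :
    ((X.filter (fun e => v ∈ e)).card : ℝ) ≤ p * (n : ℝ) ^ 2 := by
  have h1 : X.filter (fun e => v ∈ e) ⊆ ((univ : Finset (Fin n)).erase v).biUnion
      (fun u => X.filter (fun T => ({v, u} : Finset (Fin n)) ⊆ T)) := by
    intro T hT
    obtain ⟨hT, hv⟩ := Finset.mem_filter.1 hT
    obtain ⟨u, hu, huv⟩ := Finset.exists_mem_ne (show 1 < T.card by rw [hX T hT]; norm_num) v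
    refine Finset.mem_biUnion.2 ⟨u, Finset.mem_erase.2 ⟨huv, Finset.mem_univ _⟩,
      Finset.mem_filter.2 ⟨hT, ?_⟩⟩
    intro x hx
    rcases Finset.mem_insert.1 hx with h | h
    · rw [h]; exact hv
    · rw [Finset.mem_singleton.1 h]; exact hu
  have h2 : (X.filter (fun e => v ∈ e)).card ≤
      ∑ u ∈ (univ : Finset (Fin n)).erase v, dg X ({v, u} : Finset (Fin n)) :=
    (Finset.card_le_card h1).trans Finset.card_biUnion_le
  have h3 : (∑ u ∈ (univ : Finset (Fin n)).erase v, (dg X ({v, u} : Finset (Fin n)) : ℝ)) ≤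
      ∑ u ∈ (univ : Finset (Fin n)).erase v, p * (n : ℝ) := by
    refine Finset.sum_le_sum (fun u hu => hs _ ?_)
    exact Finset.card_pair (Finset.ne_of_mem_erase hu).symm
  rw [Finset.sum_const, nsmul_eq_mul] at h3
  have h4 : ((((univ : Finset (Fin n)).erase v).card : ℕ) : ℝ) ≤ (n : ℝ) := by
    have : ((univ : Finset (Fin n)).erase v).card ≤ n := by
      refine (Finset.card_le_card (Finset.erase_subset _ _)).trans ?_
      rw [Finset.card_univ, Fintype.card_fin]
    exact_mod_cast this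
  have h5 : ((X.filter (fun e => v ∈ e)).card : ℝ) ≤
      ∑ u ∈ (univ : Finset (Fin n)).erase v, (dg X ({v, u} : Finset (Fin n)) : ℝ) := by
    exact_mod_cast h2
  have h6 : (0 : ℝ) ≤ p * (n : ℝ) := mul_nonneg hp (Nat.cast_nonneg n)
  calc ((X.filter (fun e => v ∈ e)).card : ℝ)
      ≤ ((((univ : Finset (Fin n)).erase v).card : ℕ) : ℝ) * (p * (n : ℝ)) := h5.trans h3
    _ ≤ (n : ℝ) * (p * (n : ℝ)) := mul_le_mul_of_nonneg_right h4 h6
    _ = p * (n : ℝ) ^ 2 := by ring

private theorem E23_dg_union_le {n : ℕ} (A B : Finset (Finset (Fin n))) (P : Finset (Fin n)) :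
    dg (A ∪ B) P ≤ dg A P + dg B P := by
  unfold dg
  rw [Finset.filter_union]
  exact Finset.card_union_le _ _

private theorem E23_sm_union {n : ℕ} {a b c : ℝ} {A B : Finset (Finset (Fin n))} (hA : Sm n a A)
    (hB : Sm n b B) (h : a + b ≤ c) : Sm n c (A ∪ B) := by
  intro P hP
  have h1 : (dg (A ∪ B) P : ℝ) ≤ (dg A P : ℝ) + (dg B P : ℝ) := by
    exact_mod_cast E23_dg_union_le A B P
  have h2 := hA P hP
  have h3 := hB P hP
  have h4 : (a + b) * (n : ℝ) ≤ c * (n : ℝ) := mul_le_mul_of_nonneg_right h (Nat.cast_nonneg n)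
  linarith

private theorem E23_sm_mono {n : ℕ} {a b : ℝ} {A : Finset (Finset (Fin n))} (hA : Sm n a A)
    (h : a ≤ b) : Sm n b A := by
  intro P hP
  exact (hA P hP).trans (mul_le_mul_of_nonneg_right h (Nat.cast_nonneg n))

private theorem E23_allJ_mem {r : ℕ} {n M : ℕ} {G X : Finset (Finset (Fin n))} {w J J'}
    (hL : Links r M G X w J J') : ∀ T ∈ allJ r X J J', T.card = 3 ∧ T ∈ G ∧ T ∉ X := by
  intro T hT
  unfold allJ at hT
  obtain ⟨p, hp, hT⟩ := Finset.mem_biUnion.1 hT
  obtain ⟨j, hj, hT⟩ := Finset.mem_biUnion.1 hT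
  have h := hL.mem p hp j (Finset.mem_range.1 hj) T hT
  exact ⟨h.1, h.2.1, h.2.2.1⟩

private theorem E23_pairs {n : ℕ} (H : Finset (Finset (Fin n))) :
    ∀ P ∈ pairsOf H, P.card = 2 ∧ P ⊆ supp H := by
  intro P hP
  unfold pairsOf at hP
  obtain ⟨f, hf, hP⟩ := Finset.mem_biUnion.1 hP
  obtain ⟨h1, h2⟩ := Finset.mem_powersetCard.1 hP
  refine ⟨h2, fun x hx => ?_⟩
  unfold supp
  exact Finset.mem_biUnion.2 ⟨f, hf, h1 hx⟩

/-- E23 (text 6): the omni-absorber (then `OmniStmt r ρ` follows from `host_thm`). -/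
theorem omni (hEmb : EmbStmt) {r : ℕ} (hr : r % 6 = 3) (h45 : 45 ≤ r) {c0 : ℝ} (hc0 : 0 < c0) {η : ℝ} (hη : 0 < η) :
    ∃ p : ℝ, 0 < p ∧ ∃ n0 : ℕ, ∀ n : ℕ, n0 ≤ n → ∀ G : Finset (Finset (Fin n)), Triples G →
      Host (4 * r) c0 G → ∀ X : Finset (Finset (Fin n)), X ⊆ G → Sm n p X →
        ∃ A : Finset (Finset (Fin n)), A ⊆ G ∧ Disjoint A X ∧ Sm n η A ∧
          ∀ L : Finset (Finset (Fin n)), L ⊆ X → Balanced r L → Dec r (A ∪ L) := by
  classical
  obtain ⟨M1, hM1⟩ := links_exist hEmb hr h45 hc0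
  obtain ⟨s, K, hcount⟩ := allPieces_count hr h45 M1
  obtain ⟨M, c, hc, na, habs⟩ := absorber_count hr h45 hc0 s
  obtain ⟨lam, hlam, ne, hemb⟩ := hEmb s M c (η / 2) hc (half_pos hη)
  obtain ⟨K', hK'⟩ : ∃ K' : ℝ, K' = (K : ℝ) + 1 := ⟨_, rfl⟩
  have hK0 : (0 : ℝ) ≤ (K : ℝ) := Nat.cast_nonneg K
  have hK'1 : (1 : ℝ) ≤ K' := by rw [hK']; linarith
  have hK'0 : (0 : ℝ) < K' := by linarith
  obtain ⟨u, hu⟩ : ∃ u : ℝ, u = lam / (4 * K') := ⟨_, rfl⟩
  have hu0 : 0 < u := by rw [hu]; positivity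
  have huK : (K : ℝ) * u ≤ lam / 4 := by
    have h1 : K' * u = lam / 4 := by
      rw [hu]
      field_simp
    have h2 : (K : ℝ) * u ≤ K' * u := by
      refine mul_le_mul_of_nonneg_right ?_ hu0.le
      rw [hK']
      linarith
    linarith
  have hu4 : u ≤ lam / 4 := by
    have h1 : K' * u = lam / 4 := by
      rw [hu]
      field_simp
    have h2 : 1 * u ≤ K' * u := mul_le_mul_of_nonneg_right hK'1 hu0.le
    linarith
  obtain ⟨η', hη'⟩ : ∃ η' : ℝ, η' = min (η / 2) u := ⟨_, rfl⟩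
  have hη'0 : 0 < η' := by rw [hη']; exact lt_min (half_pos hη) hu0
  have hη'1 : η' ≤ η / 2 := by rw [hη']; exact min_le_left _ _
  have hη'2 : η' ≤ u := by rw [hη']; exact min_le_right _ _
  obtain ⟨p', hp'0, nl, hlinks⟩ := hM1 η' hη'0
  obtain ⟨p, hp⟩ : ∃ p : ℝ, p = min p' u := ⟨_, rfl⟩
  have hp0 : 0 < p := by rw [hp]; exact lt_min hp'0 hu0
  have hp1 : p ≤ p' := by rw [hp]; exact min_le_left _ _
  have hp2 : p ≤ u := by rw [hp]; exact min_le_right _ _
  refine ⟨p, hp0, max na (max ne nl), ?_⟩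
  intro n hn G hGT hG X hXG hX
  have hna : na ≤ n := (le_max_left _ _).trans hn
  have hne : ne ≤ n := (le_max_left _ _).trans ((le_max_right _ _).trans hn)
  have hnl : nl ≤ n := (le_max_right _ _).trans ((le_max_right _ _).trans hn)
  have hXT : Triples X := fun T hT => hGT T (hXG hT)
  obtain ⟨w, J, J', hL, hJsm, hv, hq⟩ := hlinks n hnl G hGT hG X hXG (E23_sm_mono hX hp1)
  obtain ⟨hc1, hc2, hc3, hc4⟩ := hcount n G X hGT hXG w J J' hL
  have hbal := allPieces_balanced hr h45 hGT hXG hL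
  have hJm := E23_allJ_mem hL
  have hn0 : (0 : ℝ) ≤ (n : ℝ) := Nat.cast_nonneg n
  -- the tasks
  have hT : ∀ i : {H // H ∈ allPieces r X J J'}, Triples i.1 := by
    intro i T hT
    rcases Finset.mem_union.1 ((hc1 i.1 i.2).1 hT) with h | h
    · exact hXT T h
    · exact (hJm T h).1
  choose Om A hOm hCand hA using fun i : {H // H ∈ allPieces r X J J'} =>
    habs n hna G hG i.1 (hT i) (hbal i.1 i.2) (hc1 i.1 i.2).2
  obtain ⟨F, hF⟩ : ∃ F, F = X ∪ allJ r X J J' := ⟨_, rfl⟩
  have hFsm : Sm n lam F := by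
    rw [hF]
    exact E23_sm_union hX hJsm (by linarith)
  obtain ⟨W, hW1, hW2, hW3, hW4, -, -⟩ := hemb n hne {H // H ∈ allPieces r X J J'}
    (fun i => supp i.1) (fun i => pairsOf i.1) Om A F
    (by
      rw [Fintype.card_coe]
      have h1 : ((allPieces r X J J').card : ℝ) ≤ (K : ℝ) * (X.card : ℝ) := by exact_mod_cast hc2
      have h2 := E23_card_le hp0.le hXT hX
      have h3 : (K : ℝ) * (X.card : ℝ) ≤ (K : ℝ) * (p * (n : ℝ) ^ 3) :=
        mul_le_mul_of_nonneg_left h2 hK0
      have h4 : (K : ℝ) * (p * (n : ℝ) ^ 3) ≤ lam * (n : ℝ) ^ 3 := by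
        rw [← mul_assoc]
        refine mul_le_mul_of_nonneg_right ?_ (by positivity)
        have := mul_le_mul_of_nonneg_left hp2 hK0
        linarith
      linarith)
    (fun i => (hc1 i.1 i.2).2)
    (fun i => E23_pairs i.1)
    hOm
    (fun i => hCand i)
    (by
      intro v
      rw [E23_card_sub (allPieces r X J J') (fun H => v ∈ supp H)]
      have h1 : (((allPieces r X J J').filter (fun H => v ∈ supp H)).card : ℝ) ≤
          (K : ℝ) * (((X.filter (fun e => v ∈ e)).card : ℝ) +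
            (((linksOf X).filter (fun p => v ∈ p.2 ∪ w p.1 p.2)).card : ℝ)) := by
        exact_mod_cast hc3 v
      have h2 := E23_vert_le hp0.le hXT hX v
      have h3 := hv v
      have h4 : (p + η') * (n : ℝ) ^ 2 ≤ (u + u) * (n : ℝ) ^ 2 :=
        mul_le_mul_of_nonneg_right (by linarith) (by positivity)
      have h5 : (K : ℝ) * (((X.filter (fun e => v ∈ e)).card : ℝ) +
            (((linksOf X).filter (fun p => v ∈ p.2 ∪ w p.1 p.2)).card : ℝ)) ≤
          (K : ℝ) * ((u + u) * (n : ℝ) ^ 2) := mul_le_mul_of_nonneg_left (by linarith) hK0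
      have h6 : (K : ℝ) * ((u + u) * (n : ℝ) ^ 2) ≤ lam * (n : ℝ) ^ 2 := by
        rw [← mul_assoc]
        refine mul_le_mul_of_nonneg_right ?_ (by positivity)
        rw [mul_add]
        linarith
      linarith)
    (by
      intro q hq2
      rw [E23_card_sub (allPieces r X J J') (fun H => q ∈ pairsOf H)]
      have h1 : (((allPieces r X J J').filter (fun H => q ∈ pairsOf H)).card : ℝ) ≤
          (K : ℝ) * (((X.filter (fun e => q ⊆ e)).card : ℝ) +
            (((linksOf X).filter (fun p => q ⊆ p.2 ∪ w p.1 p.2)).card : ℝ)) := by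
        exact_mod_cast hc4 q hq2
      have h2 : ((X.filter (fun e => q ⊆ e)).card : ℝ) ≤ p * (n : ℝ) := hX q hq2
      have h3 := hq q hq2
      have h4 : (p + η') * (n : ℝ) ≤ (u + u) * (n : ℝ) :=
        mul_le_mul_of_nonneg_right (by linarith) hn0
      have h5 : (K : ℝ) * (((X.filter (fun e => q ⊆ e)).card : ℝ) +
            (((linksOf X).filter (fun p => q ⊆ p.2 ∪ w p.1 p.2)).card : ℝ)) ≤
          (K : ℝ) * ((u + u) * (n : ℝ)) := mul_le_mul_of_nonneg_left (by linarith) hK0
      have h6 : (K : ℝ) * ((u + u) * (n : ℝ)) ≤ lam * (n : ℝ) := by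
        rw [← mul_assoc]
        refine mul_le_mul_of_nonneg_right ?_ hn0
        rw [mul_add]
        linarith
      linarith)
    hFsm
  have hAG : ∀ i, A i (W i) ⊆ G := fun i => (hA i (W i) (hW1 i)).1
  have hsub : ∀ i : {H // H ∈ allPieces r X J J'}, i.1 ⊆ F := by
    intro i
    rw [hF]
    exact (hc1 i.1 i.2).1
  refine ⟨allJ r X J J' ∪ univ.biUnion (fun i => A i (W i)), ?_, ?_, ?_, ?_⟩
  · refine Finset.union_subset (fun T hT => (hJm T hT).2.1) ?_
    exact Finset.biUnion_subset.2 (fun i _ => hAG i)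
  · refine Finset.disjoint_left.2 fun T hT hTX => ?_
    rcases Finset.mem_union.1 hT with h | h
    · exact (hJm T h).2.2 hTX
    · obtain ⟨i, _, hi⟩ := Finset.mem_biUnion.1 h
      refine Finset.disjoint_left.1 (hW3 i) hi ?_
      rw [hF]
      exact Finset.mem_union_left _ hTX
  · exact E23_sm_union hJsm hW4 (by linarith)
  · intro L hLX hLB
    obtain ⟨PL, hPL, hPLd, hPLu⟩ := allPieces_partition hr h45 hGT hXG hL L hLX hLB
    have key : allJ r X J J' ∪ univ.biUnion (fun i => A i (W i)) ∪ L =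
        univ.biUnion (fun i : {H // H ∈ allPieces r X J J'} =>
          A i (W i) ∪ (if i.1 ∈ PL then i.1 else ∅)) := by
      ext T
      constructor
      · intro hT
        have hT' : T ∈ univ.biUnion (fun i => A i (W i)) ∨ T ∈ L ∪ allJ r X J J' := by
          rcases Finset.mem_union.1 hT with h | h
          · rcases Finset.mem_union.1 h with h | h
            · exact Or.inr (Finset.mem_union_right _ h)
            · exact Or.inl h
          · exact Or.inr (Finset.mem_union_left _ h)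
        rcases hT' with h | h
        · obtain ⟨i, hi, hTi⟩ := Finset.mem_biUnion.1 h
          exact Finset.mem_biUnion.2 ⟨i, hi, Finset.mem_union_left _ hTi⟩
        · rw [← hPLu] at h
          obtain ⟨H, hH, hTH⟩ := Finset.mem_biUnion.1 h
          refine Finset.mem_biUnion.2 ⟨⟨H, hPL hH⟩, Finset.mem_univ _, Finset.mem_union_right _ ?_⟩
          rw [if_pos hH]
          exact hTH
      · intro hT
        obtain ⟨i, hi, hTi⟩ := Finset.mem_biUnion.1 hT
        rcases Finset.mem_union.1 hTi with h | h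
        · exact Finset.mem_union_left _ (Finset.mem_union_right _
            (Finset.mem_biUnion.2 ⟨i, hi, h⟩))
        · by_cases hiP : i.1 ∈ PL
          · rw [if_pos hiP] at h
            have h2 : T ∈ L ∪ allJ r X J J' := by
              rw [← hPLu]
              exact Finset.mem_biUnion.2 ⟨i.1, hiP, h⟩
            rcases Finset.mem_union.1 h2 with h3 | h3
            · exact Finset.mem_union_right _ h3
            · exact Finset.mem_union_left _ (Finset.mem_union_left _ h3)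
          · rw [if_neg hiP] at h
            exact absurd h (Finset.notMem_empty _)
    rw [key]
    refine Dec.biUnion univ _ ?_ ?_
    · intro i _
      have h := hA i (W i) (hW1 i)
      by_cases hiP : i.1 ∈ PL
      · rw [if_pos hiP]
        exact h.2.2
      · rw [if_neg hiP, Finset.union_empty]
        exact h.2.1
    · intro i _ j _ hij
      have hif : ∀ i : {H // H ∈ allPieces r X J J'}, (if i.1 ∈ PL then i.1 else ∅) ⊆ F := by
        intro i
        by_cases hiP : i.1 ∈ PL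
        · rw [if_pos hiP]
          exact hsub i
        · rw [if_neg hiP]
          exact Finset.empty_subset _
      rw [Finset.disjoint_union_left, Finset.disjoint_union_right, Finset.disjoint_union_right]
      refine ⟨⟨hW2 i j hij, Finset.disjoint_of_subset_right (hif j) (hW3 i)⟩,
        (Finset.disjoint_of_subset_right (hif i) (hW3 j)).symm, ?_⟩
      by_cases hiP : i.1 ∈ PL
      · by_cases hjP : j.1 ∈ PL
        · rw [if_pos hiP, if_pos hjP]
          exact hPLd i.1 hiP j.1 hjP (fun h => hij (Subtype.ext h))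
        · rw [if_neg hjP]
          exact Finset.disjoint_empty_right _
      · rw [if_neg hiP]
        exact Finset.disjoint_empty_left _

end Pool.Agent.Lib.MP_5c685b_co.E
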