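import Pool.Agent.Lib.MP_5c685b_co.E.PDefs

set_option autoImplicit false

namespace Pool.Agent.Lib.MP_5c685b_co.E

open Finset

private theorem E22a_rk_inj {n : ℕ} {a b : Finset (Fin n)} (h : rk a = rk b) : a = b := by
  have h' : ∑ i ∈ a.map Fin.valEmbedding, 2 ^ i = ∑ i ∈ b.map Fin.valEmbedding, 2 ^ i := by
    rw [Finset.sum_map, Finset.sum_map]
    exact h
  exact Finset.map_injective _ (Finset.geomSum_injective (le_refl 2) h')

private theorem E22a_prevs {n : ℕ} (X : Finset (Finset (Fin n))) (c e : Finset (Fin n)) :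
    prevs X c e = ∅ ∨ ∃ e' ∈ X, c ⊆ e' ∧ prevs X c e = {e'} := by
  rcases Finset.eq_empty_or_nonempty (prevs X c e) with h | ⟨e', he'⟩
  · exact Or.inl h
  · right
    have h1 := Finset.mem_filter.1 he'
    refine ⟨e', h1.1, h1.2.1, ?_⟩
    refine Finset.eq_singleton_iff_unique_mem.2 ⟨he', fun x hx => ?_⟩
    have h2 := Finset.mem_filter.1 hx
    exact E22a_rk_inj (le_antisymm (h1.2.2.2 x h2.1 h2.2.1 h2.2.2.1)
      (h2.2.2.2 e' h1.1 h1.2.1 h1.2.2.1))

private theorem E22a_mem_links {n : ℕ} {X : Finset (Finset (Fin n))} {e c : Finset (Fin n)}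
    (he : e ∈ X) (hc : c ⊆ e) (hc2 : c.card ≤ 2) : (e, c) ∈ linksOf X := by
  simp only [linksOf, Finset.mem_filter, Finset.mem_product, Finset.mem_univ, and_true]
  exact ⟨he, hc, hc2⟩

private theorem E22a_inc_mem {n : ℕ} {X : Finset (Finset (Fin n))}
    {J : Finset (Fin n) → Finset (Fin n) → ℕ → Finset (Finset (Fin n))} {c e : Finset (Fin n)}
    {j : ℕ} {T : Finset (Fin n)} (hT : T ∈ inc X J c e j) :
    (prevs X c e).Nonempty ∧ ∃ e' ∈ X, c ⊆ e' ∧ T ∈ J e' c j := by
  obtain ⟨e', he', hT'⟩ := Finset.mem_biUnion.1 hT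
  have h1 := Finset.mem_filter.1 he'
  exact ⟨⟨e', he'⟩, e', h1.1, h1.2.1, hT'⟩

/-- E22a: every piece is balanced. (The state `(1, f)` of `e` with out residue of the last link is not
restricted here: `J'` of the outgoing link is always present.) -/
theorem allPieces_balanced {r : ℕ} (hr : r % 6 = 3) (h45 : 45 ≤ r) {n M : ℕ}
    {G X : Finset (Finset (Fin n))} (hG : Triples G) (hX : X ⊆ G) {w J J'}
    (hL : Links r M G X w J J') : ∀ H ∈ allPieces r X J J', Balanced r H := by
  have hMo := Mo_facts hr (by omega : 9 ≤ r)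
  have hpos : ∀ i : ℕ, i ≤ 2 → 0 < Mo r i := by
    intro i hi
    interval_cases i
    · exact hMo.2.2.2.2.2.2.2.1
    · exact hMo.2.2.2.2.2.2.2.2.1
    · exact hMo.2.2.2.2.2.2.2.2.2
  intro H hH
  rcases Finset.mem_union.1 hH with hH | hH
  · obtain ⟨e, he, hH⟩ := Finset.mem_biUnion.1 hH
    obtain ⟨⟨b, f⟩, hσ, rfl⟩ := Finset.mem_image.1 hH
    have hσ1 := (Finset.mem_product.1 hσ).1
    have hσ2 := Fintype.mem_piFinset.1 (Finset.mem_product.1 hσ).2
    simp only at hσ1 hσ2
    have hb : b < 2 := Finset.mem_range.1 hσ1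
    have hch : ∀ c ∈ chains e, c ⊆ e ∧ c.card ≤ 2 := by
      intro c hc
      have h := Finset.mem_filter.1 hc
      exact ⟨Finset.mem_powerset.1 h.1, h.2⟩
    have hf1 : ∀ c ∈ chains e, (prevs X c e).Nonempty → f c < Mo r c.card := by
      intro c hc hn
      have h := hσ2 c
      rw [if_pos ⟨hc, hn⟩] at h
      exact Finset.mem_range.1 h
    have hf0 : ∀ c, prevs X c e = ∅ → f c = 0 := by
      intro c hn
      have h := hσ2 c
      rw [if_neg (fun hcon => by rw [hn] at hcon; exact Finset.not_nonempty_empty hcon.2)] at h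
      exact Finset.mem_singleton.1 h
    have hlt : ∀ c ∈ chains e, (f c + b) % Mo r c.card < Mo r c.card := fun c hc =>
      Nat.mod_lt _ (hpos _ (hch c hc).2)
    have hlk : ∀ c ∈ chains e, (e, c) ∈ linksOf X := fun c hc =>
      E22a_mem_links he (hch c hc).1 (hch c hc).2
    -- residues
    have hinc : ∀ c ∈ chains e, ∀ c' : Finset (Fin n), c'.card ≤ 2 →
        (Mo r c'.card : ℤ) ∣ (dg (inc X J c e (f c)) c' : ℤ) - (if c' = c then (f c : ℤ) else 0) := by
      intro c hc c' hc'
      rcases E22a_prevs X c e with h0 | ⟨e', he', hce', h1⟩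
      · have h2 : inc X J c e (f c) = ∅ := by
          unfold inc
          rw [h0, Finset.biUnion_empty]
        rw [h2, hf0 c h0]
        simp [dg]
      · have h2 : inc X J c e (f c) = J e' c (f c) := by
          unfold inc
          rw [h1, Finset.singleton_biUnion]
        rw [h2]
        have h3 := (hL.res (e', c) (E22a_mem_links he' hce' (hch c hc).2) (f c)
          (hf1 c hc (by rw [h1]; exact Finset.singleton_nonempty _))).1 c' hc'
        exact (Int.modEq_iff_dvd.1 h3.symm)
    have hout : ∀ c ∈ chains e, ∀ c' : Finset (Fin n), c'.card ≤ 2 →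
        (Mo r c'.card : ℤ) ∣ (dg (J' e c ((f c + b) % Mo r c.card)) c' : ℤ) -
          (if c' = c then -(((f c + b) % Mo r c.card : ℕ) : ℤ) else 0) := by
      intro c hc c' hc'
      have h3 := (hL.res (e, c) (hlk c hc) _ (hlt c hc)).2 c' hc'
      exact (Int.modEq_iff_dvd.1 h3.symm)
    -- disjointness
    have hd1 : ∀ c ∈ chains e, Disjoint (inc X J c e (f c)) (J' e c ((f c + b) % Mo r c.card)) := by
      intro c hc
      refine Finset.disjoint_left.2 fun T hT hT' => ?_
      obtain ⟨hn, e', he', hce', hTJ⟩ := E22a_inc_mem hT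
      exact Finset.disjoint_left.1 (hL.dJJ' (e', c) (E22a_mem_links he' hce' (hch c hc).2) (e, c)
        (hlk c hc) (f c) (hf1 c hc hn) _ (hlt c hc)) hTJ hT'
    have hd2 : ∀ c ∈ chains e, ∀ c2 ∈ chains e, c ≠ c2 →
        Disjoint (inc X J c e (f c) ∪ J' e c ((f c + b) % Mo r c.card))
          (inc X J c2 e (f c2) ∪ J' e c2 ((f c2 + b) % Mo r c2.card)) := by
      intro c hc c2 hc2 hne
      refine Finset.disjoint_left.2 fun T hT hT2 => ?_
      rcases Finset.mem_union.1 hT with hT | hT <;> rcases Finset.mem_union.1 hT2 with hT2 | hT2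
      · obtain ⟨hn, e', he', hce', hTJ⟩ := E22a_inc_mem hT
        obtain ⟨hn2, e2, he2, hce2, hTJ2⟩ := E22a_inc_mem hT2
        exact Finset.disjoint_left.1 (hL.dJJ (e', c) (E22a_mem_links he' hce' (hch c hc).2) (e2, c2)
          (E22a_mem_links he2 hce2 (hch c2 hc2).2) (f c) (hf1 c hc hn) (f c2) (hf1 c2 hc2 hn2)
          (fun hcon => hne (by
            have := congrArg (fun q => q.1.2) hcon
            exact this))) hTJ hTJ2
      · obtain ⟨hn, e', he', hce', hTJ⟩ := E22a_inc_mem hT
        exact Finset.disjoint_left.1 (hL.dJJ' (e', c) (E22a_mem_links he' hce' (hch c hc).2) (e, c2)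
          (hlk c2 hc2) (f c) (hf1 c hc hn) _ (hlt c2 hc2)) hTJ hT2
      · obtain ⟨hn2, e2, he2, hce2, hTJ2⟩ := E22a_inc_mem hT2
        exact Finset.disjoint_left.1 (hL.dJJ' (e2, c2) (E22a_mem_links he2 hce2 (hch c2 hc2).2) (e, c)
          (hlk c hc) (f c2) (hf1 c2 hc2 hn2) _ (hlt c hc)) hTJ2 hT
      · exact Finset.disjoint_left.1 (hL.dJ'J' (e, c) (hlk c hc) (e, c2) (hlk c2 hc2) _ (hlt c hc) _
          (hlt c2 hc2) (fun hcon => hne (by
            have := congrArg (fun q => q.1.2) hcon
            exact this))) hT hT2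
    have hd3 : Disjoint (if b = 1 then ({e} : Finset (Finset (Fin n))) else ∅)
        ((chains e).biUnion (fun c => inc X J c e (f c) ∪ J' e c ((f c + b) % Mo r c.card))) := by
      refine Finset.disjoint_left.2 fun T hT hT2 => ?_
      have hTe : T = e := by
        split_ifs at hT with hb1
        · exact Finset.mem_singleton.1 hT
        · exact absurd hT (Finset.notMem_empty _)
      subst hTe
      obtain ⟨c, hc, hT3⟩ := Finset.mem_biUnion.1 hT2
      rcases Finset.mem_union.1 hT3 with hT3 | hT3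
      · obtain ⟨hn, e', he', hce', hTJ⟩ := E22a_inc_mem hT3
        exact (hL.mem (e', c) (E22a_mem_links he' hce' (hch c hc).2) (f c) (hf1 c hc hn) T
          (Finset.mem_union_left _ hTJ)).2.2.1 he
      · exact (hL.mem (T, c) (hlk c hc) _ (hlt c hc) T (Finset.mem_union_right _ hT3)).2.2.1 he
    intro c' hc'
    simp only [piece]
    rw [dg_union hd3, dg_biUnion' _ _ hd2]
    rw [← Int.natCast_dvd_natCast]
    have hsum : ∑ c ∈ chains e, dg (inc X J c e (f c) ∪ J' e c ((f c + b) % Mo r c.card)) c' =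
        ∑ c ∈ chains e, (dg (inc X J c e (f c)) c' + dg (J' e c ((f c + b) % Mo r c.card)) c') :=
      Finset.sum_congr rfl fun c hc => dg_union (hd1 c hc) c'
    rw [hsum]
    have hdv : (Mo r c'.card : ℤ) ∣
        ∑ c ∈ chains e, (((dg (inc X J c e (f c)) c' : ℤ) - (if c' = c then (f c : ℤ) else 0)) +
          ((dg (J' e c ((f c + b) % Mo r c.card)) c' : ℤ) -
          (if c' = c then -(((f c + b) % Mo r c.card : ℕ) : ℤ) else 0))) :=
      Finset.dvd_sum fun c hc => dvd_add (hinc c hc c' hc') (hout c hc c' hc')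
    have hsing : (dg (if b = 1 then ({e} : Finset (Finset (Fin n))) else ∅) c' : ℤ) =
        if c' ∈ chains e then (b : ℤ) else 0 := by
      have hmem : c' ∈ chains e ↔ c' ⊆ e := by
        simp only [chains, Finset.mem_filter, Finset.mem_powerset]
        exact ⟨fun h => h.1, fun h => ⟨h, hc'⟩⟩
      have hb' : b = 0 ∨ b = 1 := by omega
      rcases hb' with rfl | rfl
      · simp [dg]
      · by_cases hce : c' ⊆ e
        · rw [if_pos (hmem.2 hce)]
          simp [dg, Finset.filter_singleton, hce]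
        · rw [if_neg (fun hcon => hce (hmem.1 hcon))]
          simp [dg, Finset.filter_singleton, hce]
    have hsplit : ∑ c ∈ chains e, (((dg (inc X J c e (f c)) c' : ℤ) - (if c' = c then (f c : ℤ) else 0)) +
          ((dg (J' e c ((f c + b) % Mo r c.card)) c' : ℤ) -
          (if c' = c then -(((f c + b) % Mo r c.card : ℕ) : ℤ) else 0))) =
        ∑ c ∈ chains e, ((dg (inc X J c e (f c)) c' : ℤ) +
          (dg (J' e c ((f c + b) % Mo r c.card)) c' : ℤ)) -
        ∑ c ∈ chains e, (if c' = c then (f c : ℤ) - (((f c + b) % Mo r c.card : ℕ) : ℤ) else 0) := by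
      rw [← Finset.sum_sub_distrib]
      refine Finset.sum_congr rfl fun c _ => ?_
      split_ifs <;> ring
    rw [hsplit, Finset.sum_ite_eq] at hdv
    push_cast
    rw [hsing]
    have hfin : (Mo r c'.card : ℤ) ∣ (if c' ∈ chains e then (b : ℤ) else 0) +
        (if c' ∈ chains e then (f c' : ℤ) - (((f c' + b) % Mo r c'.card : ℕ) : ℤ) else 0) := by
      split_ifs with h
      · refine ⟨((f c' + b) / Mo r c'.card : ℕ), ?_⟩
        have h1 := Nat.div_add_mod (f c' + b) (Mo r c'.card)
        have h2 : ((Mo r c'.card * ((f c' + b) / Mo r c'.card) + (f c' + b) % Mo r c'.card : ℕ) : ℤ) =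
          ((f c' + b : ℕ) : ℤ) := by rw [h1]
        rw [Nat.cast_add, Nat.cast_mul, Nat.cast_add] at h2
        linarith
      · simp
    have hall := dvd_add hdv hfin
    rw [sub_add_eq_add_sub, add_comm (ite _ _ _) (ite _ _ _), ← add_assoc, add_sub_right_comm,
      add_sub_cancel_right, add_comm] at hall
    exact hall
  · obtain ⟨p, hp, hH⟩ := Finset.mem_biUnion.1 hH
    obtain ⟨j, hj, rfl⟩ := Finset.mem_image.1 hH
    have hj' := Finset.mem_range.1 hj
    intro c' hc'
    rw [dg_union (hL.dJJ' p hp p hp j hj' j hj')]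
    have h1 := (hL.res p hp j hj').1 c' hc'
    have h2 := (hL.res p hp j hj').2 c' hc'
    rw [← Int.natCast_dvd_natCast]
    push_cast
    have h3 := h1.add h2
    refine (Int.modEq_zero_iff_dvd).1 (h3.trans ?_)
    split_ifs
    · simp
    · simp

end Pool.Agent.Lib.MP_5c685b_co.E
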