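import Pool.Agent.Lib.MP_5c685b_co.E.PDefs

set_option autoImplicit false

namespace Pool.Agent.Lib.MP_5c685b_co.E

open Finset

/-! ### helper lemmas for E22b -/

private theorem E22b_Mo_pos {r : ℕ} (h45 : 45 ≤ r) (i : ℕ) : 0 < Mo r i := by
  unfold Mo
  split_ifs <;> omega

private theorem E22b_Mo_le {r : ℕ} (i : ℕ) : Mo r i ≤ r := by
  unfold Mo
  split_ifs <;> omega

private theorem E22b_rk_inj {n : ℕ} {a b : Finset (Fin n)} (h : rk a = rk b) : a = b := by
  have h1 : ∀ e : Finset (Fin n), rk e = ∑ i ∈ e.map Fin.valEmbedding, 2 ^ i := by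
    intro e
    rw [Finset.sum_map]
    rfl
  rw [h1, h1] at h
  exact Finset.map_injective _ (Finset.geomSum_injective (le_refl 2) h)

private theorem E22b_mem_chains {n : ℕ} {e c : Finset (Fin n)} :
    c ∈ chains e ↔ c ⊆ e ∧ c.card ≤ 2 := by
  simp [chains]

private theorem E22b_card_chains {n : ℕ} {e : Finset (Fin n)} (he : e.card = 3) :
    (chains e).card ≤ 8 := by
  refine (Finset.card_filter_le _ _).trans ?_
  rw [Finset.card_powerset, he]
  norm_num

private theorem E22b_mem_links {n : ℕ} {X : Finset (Finset (Fin n))} {e c : Finset (Fin n)} :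
    (e, c) ∈ linksOf X ↔ e ∈ X ∧ c ⊆ e ∧ c.card ≤ 2 := by
  simp [linksOf]

private theorem E22b_mem_prevs {n : ℕ} {X : Finset (Finset (Fin n))} {c e e' : Finset (Fin n)} :
    e' ∈ prevs X c e ↔ e' ∈ X ∧ c ⊆ e' ∧ rk e' < rk e ∧
      ∀ e'' ∈ X, c ⊆ e'' → rk e'' < rk e → rk e'' ≤ rk e' := by
  simp [prevs]

private theorem E22b_prevs_card {n : ℕ} (X : Finset (Finset (Fin n))) (c e : Finset (Fin n)) :
    (prevs X c e).card ≤ 1 := by
  rw [Finset.card_le_one]
  intro a ha b hb
  rw [E22b_mem_prevs] at ha hb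
  apply E22b_rk_inj
  exact le_antisymm (hb.2.2.2 a ha.1 ha.2.1 ha.2.2.1) (ha.2.2.2 b hb.1 hb.2.1 hb.2.2.1)

/-- a member of a chain has at most one successor -/
private theorem E22b_succ_card {n : ℕ} (X : Finset (Finset (Fin n))) (c e' : Finset (Fin n)) :
    (X.filter (fun e => c ⊆ e ∧ e' ∈ prevs X c e)).card ≤ 1 := by
  rw [Finset.card_le_one]
  intro a ha b hb
  simp only [Finset.mem_filter, E22b_mem_prevs] at ha hb
  apply E22b_rk_inj
  by_contra hne
  rcases lt_or_gt_of_ne hne with h | h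
  · have := hb.2.2.2.2.2 a ha.1 ha.2.1 h
    have := ha.2.2.2.2.1
    omega
  · have := ha.2.2.2.2.2 b hb.1 hb.2.1 h
    have := hb.2.2.2.2.1
    omega

private theorem E22b_states_card {r : ℕ} (h45 : 45 ≤ r) {n : ℕ} (X : Finset (Finset (Fin n)))
    {e : Finset (Fin n)} (he : e.card = 3) : (states r X e).card ≤ 2 * r ^ 8 := by
  unfold states
  rw [Finset.card_product, Finset.card_range, Fintype.card_piFinset]
  refine Nat.mul_le_mul_left 2 ?_
  calc _ ≤ ∏ c : Finset (Fin n), (if c ∈ chains e then r else 1) := by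
        refine Finset.prod_le_prod' fun c _ => ?_
        by_cases hc : c ∈ chains e
        · rw [if_pos hc]
          split_ifs
          · rw [Finset.card_range]
            exact E22b_Mo_le _
          · rw [Finset.card_singleton]
            omega
        · rw [if_neg hc, if_neg (fun h => hc h.1), Finset.card_singleton]
    _ = r ^ (chains e).card := by
        rw [Finset.prod_ite_mem, Finset.univ_inter, Finset.prod_const]
    _ ≤ r ^ 8 := Nat.pow_le_pow_right (by omega) (E22b_card_chains he)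

private theorem E22b_links_card {n : ℕ} {X : Finset (Finset (Fin n))} (hX : Triples X) :
    (linksOf X).card ≤ 8 * X.card := by
  have h : linksOf X ⊆ X.biUnion (fun e => (chains e).image (fun c => (e, c))) := by
    rintro ⟨e, c⟩ h
    rw [E22b_mem_links] at h
    exact Finset.mem_biUnion.2 ⟨e, h.1, Finset.mem_image.2 ⟨c, E22b_mem_chains.2 h.2, rfl⟩⟩
  refine (Finset.card_le_card h).trans ((Finset.card_biUnion_le_card_mul _ _ 8 ?_).trans ?_)
  · intro e he
    exact Finset.card_image_le.trans (E22b_card_chains (hX e he))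
  · rw [mul_comm]

/-- the members of a piece -/
private theorem E22b_mem_piece {r : ℕ} (h45 : 45 ≤ r) {n : ℕ} {X : Finset (Finset (Fin n))}
    {J J' : Finset (Fin n) → Finset (Fin n) → ℕ → Finset (Finset (Fin n))} {e : Finset (Fin n)}
    (heX : e ∈ X) {σ : ℕ × (Finset (Fin n) → ℕ)} (hσ : σ ∈ states r X e) {T : Finset (Fin n)}
    (hT : T ∈ piece r X J J' e σ.1 σ.2) :
    T = e ∨ (∃ c ∈ chains e, ∃ e' ∈ prevs X c e, (e', c) ∈ linksOf X ∧ σ.2 c < Mo r c.card ∧
        T ∈ J e' c (σ.2 c)) ∨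
      (∃ c ∈ chains e, (e, c) ∈ linksOf X ∧ (σ.2 c + σ.1) % Mo r c.card < Mo r c.card ∧
        T ∈ J' e c ((σ.2 c + σ.1) % Mo r c.card)) := by
  unfold piece at hT
  rcases Finset.mem_union.1 hT with hT | hT
  · left
    split_ifs at hT with hb
    · exact Finset.mem_singleton.1 hT
    · simp at hT
  · obtain ⟨c, hc, hT⟩ := Finset.mem_biUnion.1 hT
    have hc' := E22b_mem_chains.1 hc
    rcases Finset.mem_union.1 hT with hT | hT
    · right; left
      obtain ⟨e', he', hT⟩ := Finset.mem_biUnion.1 hT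
      have he'' := E22b_mem_prevs.1 he'
      refine ⟨c, hc, e', he', E22b_mem_links.2 ⟨he''.1, he''.2.1, hc'.2⟩, ?_, hT⟩
      unfold states at hσ
      have h1 := (Finset.mem_product.1 hσ).2
      rw [Fintype.mem_piFinset] at h1
      have h2 := h1 c
      rw [if_pos ⟨hc, ⟨e', he'⟩⟩, Finset.mem_range] at h2
      exact h2
    · right; right
      exact ⟨c, hc, E22b_mem_links.2 ⟨heX, hc'⟩, Nat.mod_lt _ (E22b_Mo_pos h45 _), hT⟩

private theorem E22b_mem_all {r : ℕ} {n : ℕ} {X : Finset (Finset (Fin n))}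
    {J J' : Finset (Fin n) → Finset (Fin n) → ℕ → Finset (Finset (Fin n))}
    {H : Finset (Finset (Fin n))} (hH : H ∈ allPieces r X J J') :
    (∃ e ∈ X, ∃ σ ∈ states r X e, piece r X J J' e σ.1 σ.2 = H) ∨
      (∃ p ∈ linksOf X, ∃ j < Mo r p.2.card, J p.1 p.2 j ∪ J' p.1 p.2 j = H) := by
  unfold allPieces at hH
  rcases Finset.mem_union.1 hH with hH | hH
  · left
    obtain ⟨e, he, hH⟩ := Finset.mem_biUnion.1 hH
    obtain ⟨σ, hσ, hH⟩ := Finset.mem_image.1 hH
    exact ⟨e, he, σ, hσ, hH⟩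
  · right
    obtain ⟨p, hp, hH⟩ := Finset.mem_biUnion.1 hH
    obtain ⟨j, hj, hH⟩ := Finset.mem_image.1 hH
    exact ⟨p, hp, j, Finset.mem_range.1 hj, hH⟩

private theorem E22b_mem_allJ {r : ℕ} {n : ℕ} {X : Finset (Finset (Fin n))}
    {J J' : Finset (Fin n) → Finset (Fin n) → ℕ → Finset (Finset (Fin n))}
    {p : Finset (Fin n) × Finset (Fin n)} (hp : p ∈ linksOf X) {j : ℕ} (hj : j < Mo r p.2.card)
    {T : Finset (Fin n)} (hT : T ∈ J p.1 p.2 j ∪ J' p.1 p.2 j) : T ∈ allJ r X J J' :=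
  Finset.mem_biUnion.2 ⟨p, hp, Finset.mem_biUnion.2 ⟨j, Finset.mem_range.2 hj, hT⟩⟩

/-- the support of a piece -/
private theorem E22b_supp {r : ℕ} (h45 : 45 ≤ r) {n M : ℕ} {G X : Finset (Finset (Fin n))}
    (hX3 : Triples X) {w J J'} (hL : Links r M G X w J J') {H : Finset (Finset (Fin n))}
    (hH : H ∈ allPieces r X J J') : (supp H).card ≤ 3 + 8 * (2 * (M + 2)) := by
  have hw : ∀ p ∈ linksOf X, (p.2 ∪ w p.1 p.2).card ≤ M + 2 := by
    intro p hp
    have h1 := hL.card_le p hp
    have h2 : p.2.card ≤ 2 := (E22b_mem_links.1 (show (p.1, p.2) ∈ linksOf X from hp)).2.2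
    have := Finset.card_union_le p.2 (w p.1 p.2)
    omega
  rcases E22b_mem_all hH with ⟨e, he, σ, hσ, rfl⟩ | ⟨p, hp, j, hj, rfl⟩
  · have hsub : supp (piece r X J J' e σ.1 σ.2) ⊆ e ∪ (chains e).biUnion (fun c =>
        ((prevs X c e).biUnion fun e' => c ∪ w e' c) ∪ (c ∪ w e c)) := by
      intro x hx
      obtain ⟨T, hT, hx⟩ := Finset.mem_biUnion.1 hx
      have hx' : x ∈ T := hx
      rcases E22b_mem_piece h45 he hσ hT with rfl | ⟨c, hc, e', he', hl, hlt, hTJ⟩ |
        ⟨c, hc, hl, hlt, hTJ⟩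
      · exact Finset.mem_union_left _ hx'
      · have h1 := (hL.mem (e', c) hl _ hlt T (Finset.mem_union_left _ hTJ)).2.2.2.1 hx'
        exact Finset.mem_union_right _ (Finset.mem_biUnion.2 ⟨c, hc, Finset.mem_union_left _
          (Finset.mem_biUnion.2 ⟨e', he', h1⟩)⟩)
      · have h1 := (hL.mem (e, c) hl _ hlt T (Finset.mem_union_right _ hTJ)).2.2.2.1 hx'
        exact Finset.mem_union_right _ (Finset.mem_biUnion.2 ⟨c, hc, Finset.mem_union_right _ h1⟩)
    refine (Finset.card_le_card hsub).trans ((Finset.card_union_le _ _).trans ?_)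
    rw [hX3 e he]
    refine Nat.add_le_add_left ?_ 3
    refine (Finset.card_biUnion_le_card_mul _ _ (2 * (M + 2)) ?_).trans
      (Nat.mul_le_mul_right _ (E22b_card_chains (hX3 e he)))
    intro c hc
    have hc' := E22b_mem_chains.1 hc
    refine (Finset.card_union_le _ _).trans ?_
    have h1 : ((prevs X c e).biUnion fun e' => c ∪ w e' c).card ≤ 1 * (M + 2) := by
      refine (Finset.card_biUnion_le_card_mul _ _ (M + 2) ?_).trans
        (Nat.mul_le_mul_right _ (E22b_prevs_card X c e))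
      intro e' he'
      have he'' := E22b_mem_prevs.1 he'
      exact hw (e', c) (E22b_mem_links.2 ⟨he''.1, he''.2.1, hc'.2⟩)
    have h2 := hw (e, c) (E22b_mem_links.2 ⟨he, hc'⟩)
    simp only at h2
    omega
  · have hsub : supp (J p.1 p.2 j ∪ J' p.1 p.2 j) ⊆ p.2 ∪ w p.1 p.2 := by
      intro x hx
      obtain ⟨T, hT, hx⟩ := Finset.mem_biUnion.1 hx
      exact (hL.mem p hp j hj T hT).2.2.2.1 hx
    have := (Finset.card_le_card hsub).trans (hw p hp)
    omega

/-- the pieces with a member containing `q` -/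
private theorem E22b_count {r : ℕ} (h45 : 45 ≤ r) {n M : ℕ} {G X : Finset (Finset (Fin n))}
    (hX3 : Triples X) {w J J'} (hL : Links r M G X w J J') (q : Finset (Fin n))
    (P : Finset (Finset (Finset (Fin n)))) (hP : P ⊆ allPieces r X J J')
    (hq : ∀ H ∈ P, ∃ T ∈ H, q ⊆ T) :
    P.card ≤ (4 * r ^ 8 + 8 * r) * ((X.filter (fun e => q ⊆ e)).card +
      ((linksOf X).filter (fun p => q ⊆ p.2 ∪ w p.1 p.2)).card) := by
  set E1 := X.filter (fun e => q ⊆ e) with hE1
  set PL := (linksOf X).filter (fun p => q ⊆ p.2 ∪ w p.1 p.2) with hPL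
  have hPLm : ∀ e c, (e, c) ∈ linksOf X → q ⊆ c ∪ w e c → (e, c) ∈ PL := fun e c h1 h2 =>
    Finset.mem_filter.2 ⟨h1, h2⟩
  set E2 := PL.image Prod.fst with hE2
  set E3 := PL.biUnion (fun p => X.filter (fun e => p.2 ⊆ e ∧ p.1 ∈ prevs X p.2 e)) with hE3
  have hc2 : E2.card ≤ PL.card := Finset.card_image_le
  have hc3 : E3.card ≤ PL.card := by
    refine (Finset.card_biUnion_le_card_mul _ _ 1 ?_).trans (by omega)
    intro p _
    exact E22b_succ_card X p.2 p.1
  have hEX : ∀ e ∈ E1 ∪ (E2 ∪ E3), e ∈ X := by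
    intro e he
    rcases Finset.mem_union.1 he with he | he
    · exact (Finset.mem_filter.1 he).1
    rcases Finset.mem_union.1 he with he | he
    · obtain ⟨p, hp, rfl⟩ := Finset.mem_image.1 he
      have h1 : (p.1, p.2) ∈ linksOf X := (Finset.mem_filter.1 hp).1
      exact (E22b_mem_links.1 h1).1
    · obtain ⟨p, hp, he⟩ := Finset.mem_biUnion.1 he
      exact (Finset.mem_filter.1 he).1
  have hsub : P ⊆ ((E1 ∪ (E2 ∪ E3)).biUnion (fun e => (states r X e).image
      (fun σ => piece r X J J' e σ.1 σ.2))) ∪ (PL.biUnion (fun p => ((range (Mo r p.2.card)).image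
        (fun j => J p.1 p.2 j ∪ J' p.1 p.2 j)))) := by
    intro H hH
    obtain ⟨T, hT, hqT⟩ := hq H hH
    rcases E22b_mem_all (hP hH) with ⟨e, he, σ, hσ, rfl⟩ | ⟨p, hp, j, hj, rfl⟩
    · refine Finset.mem_union_left _ (Finset.mem_biUnion.2 ⟨e, ?_,
        Finset.mem_image.2 ⟨σ, hσ, rfl⟩⟩)
      rcases E22b_mem_piece h45 he hσ hT with rfl | ⟨c, hc, e', he', hl, hlt, hTJ⟩ |
        ⟨c, hc, hl, hlt, hTJ⟩
      · exact Finset.mem_union_left _ (Finset.mem_filter.2 ⟨he, hqT⟩)
      · have h1 := (hL.mem (e', c) hl _ hlt T (Finset.mem_union_left _ hTJ)).2.2.2.1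
        refine Finset.mem_union_right _ (Finset.mem_union_right _ (Finset.mem_biUnion.2
          ⟨(e', c), hPLm e' c hl (hqT.trans h1), ?_⟩))
        exact Finset.mem_filter.2 ⟨he, (E22b_mem_chains.1 hc).1, he'⟩
      · have h1 := (hL.mem (e, c) hl _ hlt T (Finset.mem_union_right _ hTJ)).2.2.2.1
        exact Finset.mem_union_right _ (Finset.mem_union_left _ (Finset.mem_image.2
          ⟨(e, c), hPLm e c hl (hqT.trans h1), rfl⟩))
    · have h1 := (hL.mem p hp j hj T hT).2.2.2.1
      exact Finset.mem_union_right _ (Finset.mem_biUnion.2 ⟨p, hPLm p.1 p.2 hp (hqT.trans h1),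
        Finset.mem_image.2 ⟨j, Finset.mem_range.2 hj, rfl⟩⟩)
  have hA : ((E1 ∪ (E2 ∪ E3)).biUnion (fun e => (states r X e).image
      (fun σ => piece r X J J' e σ.1 σ.2))).card ≤ (E1.card + 2 * PL.card) * (2 * r ^ 8) := by
    refine (Finset.card_biUnion_le_card_mul _ _ (2 * r ^ 8) ?_).trans (Nat.mul_le_mul_right _ ?_)
    · intro e he
      exact Finset.card_image_le.trans (E22b_states_card h45 X (hX3 e (hEX e he)))
    · have h1 := Finset.card_union_le E1 (E2 ∪ E3)
      have h2 := Finset.card_union_le E2 E3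
      omega
  have hB : (PL.biUnion (fun p => ((range (Mo r p.2.card)).image
      (fun j => J p.1 p.2 j ∪ J' p.1 p.2 j)))).card ≤ PL.card * r := by
    refine Finset.card_biUnion_le_card_mul _ _ r ?_
    intro p _
    refine Finset.card_image_le.trans ?_
    rw [Finset.card_range]
    exact E22b_Mo_le _
  refine (Finset.card_le_card hsub).trans ((Finset.card_union_le _ _).trans
    ((Nat.add_le_add hA hB).trans ?_))
  have e1 : (4 * r ^ 8 + 8 * r) * (E1.card + PL.card) = (E1.card + 2 * PL.card) * (2 * r ^ 8) +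
      PL.card * r + (2 * r ^ 8 * E1.card + 8 * r * E1.card + 7 * r * PL.card) := by ring
  rw [e1]
  exact Nat.le_add_right _ _

/-- E22b: sizes and counts. -/
theorem allPieces_count {r : ℕ} (hr : r % 6 = 3) (h45 : 45 ≤ r) (M : ℕ) :
    ∃ s K : ℕ, ∀ n : ℕ, ∀ G X : Finset (Finset (Fin n)), Triples G → X ⊆ G → ∀ w J J',
      Links r M G X w J J' →
        (∀ H ∈ allPieces r X J J', H ⊆ X ∪ allJ r X J J' ∧ (supp H).card ≤ s) ∧
        (allPieces r X J J').card ≤ K * X.card ∧
        (∀ v : Fin n, ((allPieces r X J J').filter (fun H => v ∈ supp H)).card ≤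
          K * ((X.filter (fun e => v ∈ e)).card +
            ((linksOf X).filter (fun p => v ∈ p.2 ∪ w p.1 p.2)).card)) ∧
        (∀ q : Finset (Fin n), q.card = 2 →
          ((allPieces r X J J').filter (fun H => q ∈ pairsOf H)).card ≤
          K * ((X.filter (fun e => q ⊆ e)).card +
            ((linksOf X).filter (fun p => q ⊆ p.2 ∪ w p.1 p.2)).card)) := by
  refine ⟨3 + 8 * (2 * (M + 2)), 4 * r ^ 8 + 8 * r, ?_⟩
  intro n G X hG hXG w J J' hL
  have hX3 : Triples X := fun e he => hG e (hXG he)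
  refine ⟨?_, ?_, ?_, ?_⟩
  · intro H hH
    refine ⟨?_, E22b_supp h45 hX3 hL hH⟩
    intro T hT
    rcases E22b_mem_all hH with ⟨e, he, σ, hσ, rfl⟩ | ⟨p, hp, j, hj, rfl⟩
    · rcases E22b_mem_piece h45 he hσ hT with rfl | ⟨c, hc, e', he', hl, hlt, hTJ⟩ |
        ⟨c, hc, hl, hlt, hTJ⟩
      · exact Finset.mem_union_left _ he
      · exact Finset.mem_union_right _ (E22b_mem_allJ (p := (e', c)) hl hlt
          (Finset.mem_union_left _ hTJ))
      · exact Finset.mem_union_right _ (E22b_mem_allJ (p := (e, c)) hl hlt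
          (Finset.mem_union_right _ hTJ))
    · exact Finset.mem_union_right _ (E22b_mem_allJ hp hj hT)
  · have hA : (X.biUnion (fun e => (states r X e).image
        (fun σ => piece r X J J' e σ.1 σ.2))).card ≤ X.card * (2 * r ^ 8) := by
      refine Finset.card_biUnion_le_card_mul _ _ (2 * r ^ 8) ?_
      intro e he
      exact Finset.card_image_le.trans (E22b_states_card h45 X (hX3 e he))
    have hB : ((linksOf X).biUnion (fun p => ((range (Mo r p.2.card)).image
        (fun j => J p.1 p.2 j ∪ J' p.1 p.2 j)))).card ≤ 8 * X.card * r := by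
      refine (Finset.card_biUnion_le_card_mul _ _ r ?_).trans
        (Nat.mul_le_mul_right _ (E22b_links_card hX3))
      intro p _
      refine Finset.card_image_le.trans ?_
      rw [Finset.card_range]
      exact E22b_Mo_le _
    unfold allPieces
    refine (Finset.card_union_le _ _).trans ((Nat.add_le_add hA hB).trans ?_)
    have e1 : (4 * r ^ 8 + 8 * r) * X.card = X.card * (2 * r ^ 8) + 8 * X.card * r +
        2 * r ^ 8 * X.card := by ring
    rw [e1]
    exact Nat.le_add_right _ _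
  · intro v
    have h := E22b_count h45 hX3 hL {v} ((allPieces r X J J').filter (fun H => v ∈ supp H))
      (Finset.filter_subset _ _) (by
        intro H hH
        obtain ⟨T, hT, hv⟩ := Finset.mem_biUnion.1 (Finset.mem_filter.1 hH).2
        exact ⟨T, hT, Finset.singleton_subset_iff.2 hv⟩)
    simpa only [Finset.singleton_subset_iff] using h
  · intro q hq2
    refine E22b_count h45 hX3 hL q _ (Finset.filter_subset _ _) ?_
    intro H hH
    obtain ⟨T, hT, hq'⟩ := Finset.mem_biUnion.1 (Finset.mem_filter.1 hH).2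
    exact ⟨T, hT, (Finset.mem_powersetCard.1 hq').1⟩

end Pool.Agent.Lib.MP_5c685b_co.E
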