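import Pool.Agent.Lib.MP_5c685b_co.E.E22c

set_option autoImplicit false

namespace Pool.Agent.Lib.MP_5c685b_co.E

open Finset

theorem allPieces_partition {r : ℕ} (hr : r % 6 = 3) (h45 : 45 ≤ r) {n M : ℕ}
    {G X : Finset (Finset (Fin n))} (hG : Triples G) (hX : X ⊆ G) {w J J'}
    (hL : Links r M G X w J J') (L : Finset (Finset (Fin n))) (hLX : L ⊆ X) (hLB : Balanced r L) :
    ∃ PL ⊆ allPieces r X J J', (∀ H ∈ PL, ∀ H' ∈ PL, H ≠ H' → Disjoint H H') ∧
      PL.biUnion id = L ∪ allJ r X J J' :=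
  E22c.allPieces_partition hr h45 hG hX hL L hLX hLB

end Pool.Agent.Lib.MP_5c685b_co.E
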