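import Pool.Agent.Lib.MP_5c685b_co.E.Defs2
import Pool.Agent.Lib.MP_5c685b_co.E.Basic

set_option autoImplicit false

/-! # Rows E22a, E22b, E22c, E22d: links and pieces

A link is a pair `(e, c)` with `e ∈ X`, `c ⊆ e`, `|c| ≤ 2`. It carries sets of triples `J e c j` (residue
`j` at `c`) and `J' e c j` (residue `-j` at `c`), `j < Mo r |c|`, on `c ∪ w e c`. The members of `X` are
ordered by `rk`. -/

namespace Pool.Agent.Lib.MP_5c685b_co.E

open Finset

/-- All links of `X`. -/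
def linksOf {n : ℕ} (X : Finset (Finset (Fin n))) : Finset (Finset (Fin n) × Finset (Fin n)) :=
  (X ×ˢ univ).filter (fun p => p.2 ⊆ p.1 ∧ p.2.card ≤ 2)

/-- The union of all the sets `J` and `J'`. -/
def allJ {n : ℕ} (r : ℕ) (X : Finset (Finset (Fin n)))
    (J J' : Finset (Fin n) → Finset (Fin n) → ℕ → Finset (Finset (Fin n))) :
    Finset (Finset (Fin n)) :=
  (linksOf X).biUnion (fun p => (range (Mo r p.2.card)).biUnion (fun j => J p.1 p.2 j ∪ J' p.1 p.2 j))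

/-- The system of links. -/
structure Links {n : ℕ} (r M : ℕ) (G X : Finset (Finset (Fin n)))
    (w : Finset (Fin n) → Finset (Fin n) → Finset (Fin n))
    (J J' : Finset (Fin n) → Finset (Fin n) → ℕ → Finset (Finset (Fin n))) : Prop where
  card_le : ∀ p ∈ linksOf X, (w p.1 p.2).card ≤ M
  disj : ∀ p ∈ linksOf X, Disjoint (w p.1 p.2) p.2
  zero : ∀ p ∈ linksOf X, J p.1 p.2 0 = ∅ ∧ J' p.1 p.2 0 = ∅
  res : ∀ p ∈ linksOf X, ∀ j < Mo r p.2.card,
    Res r (J p.1 p.2 j) p.2 j ∧ Res r (J' p.1 p.2 j) p.2 (-j)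
  mem : ∀ p ∈ linksOf X, ∀ j < Mo r p.2.card, ∀ T ∈ J p.1 p.2 j ∪ J' p.1 p.2 j,
    T.card = 3 ∧ T ∈ G ∧ T ∉ X ∧ T ⊆ p.2 ∪ w p.1 p.2 ∧ ¬ T ⊆ p.2
  dJJ' : ∀ p ∈ linksOf X, ∀ p' ∈ linksOf X, ∀ j < Mo r p.2.card, ∀ j' < Mo r p'.2.card,
    Disjoint (J p.1 p.2 j) (J' p'.1 p'.2 j')
  dJJ : ∀ p ∈ linksOf X, ∀ p' ∈ linksOf X, ∀ j < Mo r p.2.card, ∀ j' < Mo r p'.2.card,
    (p, j) ≠ (p', j') → Disjoint (J p.1 p.2 j) (J p'.1 p'.2 j')
  dJ'J' : ∀ p ∈ linksOf X, ∀ p' ∈ linksOf X, ∀ j < Mo r p.2.card, ∀ j' < Mo r p'.2.card,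
    (p, j) ≠ (p', j') → Disjoint (J' p.1 p.2 j) (J' p'.1 p'.2 j')

/-- Binary code of a set: a linear order on sets (see `Finset.geomSum_injective`). -/
def rk {n : ℕ} (e : Finset (Fin n)) : ℕ := ∑ i ∈ e, 2 ^ (i : ℕ)

/-- The chain roots inside `e`. -/
def chains {n : ℕ} (e : Finset (Fin n)) : Finset (Finset (Fin n)) := e.powerset.filter (fun c => c.card ≤ 2)

/-- The incoming residue of `e` in the chain `c` for the set `L`. -/
def kin {n : ℕ} (r : ℕ) (L : Finset (Finset (Fin n))) (c e : Finset (Fin n)) : ℕ :=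
  (L.filter (fun e' => c ⊆ e' ∧ rk e' < rk e)).card % Mo r c.card

/-- The predecessor of `e` in the chain `c` (a set with at most one element). -/
def prevs {n : ℕ} (X : Finset (Finset (Fin n))) (c e : Finset (Fin n)) : Finset (Finset (Fin n)) :=
  X.filter (fun e' => c ⊆ e' ∧ rk e' < rk e ∧ ∀ e'' ∈ X, c ⊆ e'' → rk e'' < rk e → rk e'' ≤ rk e')

/-- The incoming set of `e` in the chain `c` in state `j`. -/
def inc {n : ℕ} (X : Finset (Finset (Fin n)))
    (J : Finset (Fin n) → Finset (Fin n) → ℕ → Finset (Finset (Fin n))) (c e : Finset (Fin n)) (j : ℕ) :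
    Finset (Finset (Fin n)) :=
  (prevs X c e).biUnion (fun e' => J e' c j)

/-- The piece of `e` in state `(b, f)`: `b = 1` if `e` is present, `f c` the incoming residues. -/
def piece {n : ℕ} (r : ℕ) (X : Finset (Finset (Fin n)))
    (J J' : Finset (Fin n) → Finset (Fin n) → ℕ → Finset (Finset (Fin n))) (e : Finset (Fin n)) (b : ℕ)
    (f : Finset (Fin n) → ℕ) : Finset (Finset (Fin n)) :=
  (if b = 1 then {e} else ∅) ∪
    (chains e).biUnion (fun c => inc X J c e (f c) ∪ J' e c ((f c + b) % Mo r c.card))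

/-- All states of `e`. -/
def states {n : ℕ} (r : ℕ) (X : Finset (Finset (Fin n))) (e : Finset (Fin n)) :
    Finset (ℕ × (Finset (Fin n) → ℕ)) :=
  (range 2) ×ˢ Fintype.piFinset (fun c : Finset (Fin n) =>
    if c ∈ chains e ∧ (prevs X c e).Nonempty then range (Mo r c.card) else {0})

/-- The family of all pieces. -/
def allPieces {n : ℕ} (r : ℕ) (X : Finset (Finset (Fin n)))
    (J J' : Finset (Fin n) → Finset (Fin n) → ℕ → Finset (Finset (Fin n))) :
    Finset (Finset (Finset (Fin n))) :=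
  (X.biUnion (fun e => (states r X e).image (fun σ => piece r X J J' e σ.1 σ.2))) ∪
  ((linksOf X).biUnion (fun p => ((range (Mo r p.2.card)).image
    (fun j => J p.1 p.2 j ∪ J' p.1 p.2 j))))

end Pool.Agent.Lib.MP_5c685b_co.E
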