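import Pool.Agent.Lib.MP_5c685b_co.E.Final

/-! Section 11: the negation of the conjecture from the exact decomposition theorem. -/

set_option autoImplicit false
set_option linter.all false

namespace Pool.Agent.Lib.MP_5c685b_co.E

open Finset

/-- the three r-dependent ingredients, for all `r = 3 mod 6` large and codegree deficits up to
`c log r / r^2` -/
def Ingredients : Prop :=
  ∃ c : ℝ, 0 < c ∧ ∃ r1 : ℕ, ∀ r : ℕ, r1 ≤ r → r % 6 = 3 →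
    ∀ ρ : ℝ, 0 < ρ → ρ ≤ c * Real.log r / (r : ℝ) ^ 2 →
      OmniStmt r ρ ∧ ResStmt r ρ ∧ NibStmt r (2 * ρ)

theorem top (hE : EmbStmt) (hI : Ingredients) :
    ¬ (∀ k : ℕ, 2 ≤ k → ∃ c C : ℝ, 0 < c ∧ 0 < C ∧ ∃ r0 : ℕ, ∀ r : ℕ, r0 ≤ r → k < r →
    sInf {δ : ℝ | 0 ≤ δ ∧ δ ≤ 1 ∧ ∃ n0 : ℕ, ∀ n : ℕ, n0 ≤ n →
      ∀ G : Finset (Finset (Fin n)),
        (∀ e ∈ G, e.card = k) →
        (∀ A : Finset (Fin n), A.card < k →
          Nat.choose (r - A.card) (k - A.card) ∣ (G.filter (fun e => A ⊆ e)).card) →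
        (∀ A : Finset (Fin n), A.card = k - 1 →
          δ * (n : ℝ) ≤ ((G.filter (fun e => A ⊆ e)).card : ℝ)) →
        ∃ 𝒮 : Finset (Finset (Fin n)),
          (∀ S ∈ 𝒮, S.card = r ∧ ∀ e : Finset (Fin n), e ⊆ S → e.card = k → e ∈ G) ∧
          ∀ e ∈ G, ∃! S : Finset (Fin n), S ∈ 𝒮 ∧ e ⊆ S}
      ∈ Set.Icc (1 - C / (r : ℝ) ^ (k - 1)) (1 - c / (r : ℝ) ^ (k - 1))) := by
  intro h
  obtain ⟨c, C, hc, hC, r0, h⟩ := h 3 (by norm_num)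
  obtain ⟨c1, hc1, r1, hI⟩ := hI
  -- choose r = 6 s + 3
  obtain ⟨N, hN⟩ := exists_nat_gt (Real.exp (2 * C / c1))
  obtain ⟨N', hN'⟩ := exists_nat_gt (2 * C)
  set s := r0 + r1 + N + N' + 1 with hs
  set r := 6 * s + 3 with hrdef
  have hr0 : r0 ≤ r := by omega
  have hr1 : r1 ≤ r := by omega
  have hr3 : 3 < r := by omega
  have hmod : r % 6 = 3 := by omega
  have hrpos : (0 : ℝ) < r := by exact_mod_cast (by omega : 0 < r)
  have hr2 : (0 : ℝ) < (r : ℝ) ^ 2 := by positivity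
  have hNr : (N : ℝ) ≤ r := by exact_mod_cast (by omega : N ≤ r)
  have hN'r : (N' : ℝ) ≤ r := by exact_mod_cast (by omega : N' ≤ r)
  have hlog : 2 * C ≤ c1 * Real.log r := by
    have h1 : 2 * C / c1 ≤ Real.log r := by
      rw [Real.le_log_iff_exp_le hrpos]
      exact hN.le.trans hNr
    rw [div_le_iff₀ hc1] at h1
    linarith
  have hρ0 : 0 < 2 * C / (r : ℝ) ^ 2 := by positivity
  have hρ1 : 2 * C / (r : ℝ) ^ 2 ≤ 1 := by
    rw [div_le_one hr2]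
    have h1 : (1 : ℝ) ≤ r := by exact_mod_cast (by omega : 1 ≤ r)
    nlinarith
  have hρ2 : 2 * C / (r : ℝ) ^ 2 ≤ c1 * Real.log r / (r : ℝ) ^ 2 := by gcongr
  obtain ⟨hO, hR, hNb⟩ := hI r hr1 hmod _ hρ0 hρ2
  have hadm := exact_of hmod hρ0 hρ1 hO hR hNb hE
  have hmem := (h r hr0 hr3).1
  have hle : sInf (AdmI r) ≤ 1 - 2 * C / (r : ℝ) ^ 2 := csInf_le ⟨0, fun δ hδ => hδ.1⟩ hadm
  have e2 : (r : ℝ) ^ (3 - 1) = (r : ℝ) ^ 2 := by norm_num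
  rw [e2] at hmem
  have h4 : (1 : ℝ) - C / (r : ℝ) ^ 2 ≤ 1 - 2 * C / (r : ℝ) ^ 2 := hmem.trans hle
  have h5 : 0 < C / (r : ℝ) ^ 2 := by positivity
  have h6 : 2 * C / (r : ℝ) ^ 2 = 2 * (C / (r : ℝ) ^ 2) := by ring
  rw [h6] at h4
  linarith

end Pool.Agent.Lib.MP_5c685b_co.E
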