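import Pool.Agent.Lib.MP_5c685b_co.E.Ingr
import Pool.Agent.Lib.MP_5c685b_co.E.OmniStmtThm
import Pool.Agent.Lib.MP_5c685b_co.E.Frac29b
import Pool.Agent.Lib.MP_5c685b_co.N.NB

/-! The upper bound for the decomposition threshold, `k = 3`, `r = 3 mod 6`. -/

set_option autoImplicit false

namespace Pool.Agent.Lib.MP_5c685b_co.E

open Finset

theorem nibRes : ∃ c2 : ℝ, 0 < c2 ∧ ∃ r2 : ℕ, ∀ r : ℕ, r2 ≤ r →
      NibStmt r (c2 * Real.log r / (r : ℝ) ^ 2 / 10) ∧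
      ResStmt r (c2 * Real.log r / (r : ℝ) ^ 2 / 10) := by
  obtain ⟨c, hc, r₀, _, h⟩ := MP5cN.nib_res MP5cA.finThm
  exact ⟨c, hc, r₀, fun r hr => (h r hr).2⟩

theorem omniRes : ∃ c1 : ℝ, 0 < c1 ∧ ∃ r1 : ℕ, ∀ r : ℕ, r1 ≤ r → r % 6 = 3 →
      OmniStmt r (c1 * Real.log r / (r : ℝ) ^ 2) := by
  obtain ⟨cb, hcb, hF⟩ := fracThm
  exact omniStmt hcb hF

/-- There is `c > 0` such that for all large `r = 3 mod 6` the decomposition threshold of the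
complete `3`-graph on `r` vertices is at most `1 - c log r / r^2`. -/
theorem upper_three : ∃ c : ℝ, 0 < c ∧ ∃ r₁ : ℕ, ∀ r : ℕ, r₁ ≤ r → r % 6 = 3 →
    1 - c * Real.log r / (r : ℝ) ^ 2 ∈ AdmI r := by
  obtain ⟨c1, hc1, r1, hI⟩ := ingredients_of omniRes nibRes
  refine ⟨min c1 1, lt_min hc1 one_pos, max r1 4, fun r hr hmod => ?_⟩
  have hr1 : r1 ≤ r := (le_max_left _ _).trans hr
  have hr4 : 4 ≤ r := (le_max_right _ _).trans hr
  have hR4 : (4 : ℝ) ≤ r := by exact_mod_cast hr4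
  have hr0 : (0 : ℝ) < r := by linarith
  have hlog : 0 < Real.log r := Real.log_pos (by linarith)
  have hlogle : Real.log r ≤ r := (Real.log_le_sub_one_of_pos hr0).trans (by linarith)
  have hr2 : (0 : ℝ) < (r : ℝ) ^ 2 := by positivity
  have hm0 : 0 < min c1 1 := lt_min hc1 one_pos
  have hρ0 : 0 < min c1 1 * Real.log r / (r : ℝ) ^ 2 := by positivity
  have hρ1 : min c1 1 * Real.log r / (r : ℝ) ^ 2 ≤ 1 := by
    rw [div_le_one hr2]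
    calc min c1 1 * Real.log r ≤ 1 * Real.log r :=
          mul_le_mul_of_nonneg_right (min_le_right _ _) hlog.le
      _ ≤ r := by linarith
      _ ≤ (r : ℝ) ^ 2 := by nlinarith
  have hρ2 : min c1 1 * Real.log r / (r : ℝ) ^ 2 ≤ c1 * Real.log r / (r : ℝ) ^ 2 := by
    have := min_le_left c1 1
    gcongr
  obtain ⟨hO, hRs, hNb⟩ := hI r hr1 hmod _ hρ0 hρ2
  exact exact_of hmod hρ0 hρ1 hO hRs hNb embStmt

theorem upper_three_sInf : ∃ c : ℝ, 0 < c ∧ ∃ r₁ : ℕ, ∀ r : ℕ, r₁ ≤ r → r % 6 = 3 →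
    sInf (AdmI r) ≤ 1 - c * Real.log r / (r : ℝ) ^ 2 := by
  obtain ⟨c, hc, r₁, h⟩ := upper_three
  exact ⟨c, hc, r₁, fun r hr hmod => csInf_le ⟨0, fun δ hδ => hδ.1⟩ (h r hr hmod)⟩

end Pool.Agent.Lib.MP_5c685b_co.E
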