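import Pool.Agent.Lib.MP_5c685b_co.E.Exch

/-! MP_5c685b_co: section 1.4, the transformer `Z` of one clique, helper98 -/

set_option autoImplicit false
set_option linter.all false

namespace Pool.Agent.Lib.MP_5c685b_co.E

open Finset

section zlem

variable {U : Type*} [DecidableEq U]

lemma exists_enum {r : ℕ} (c : Fin r → U) {J : Finset (Fin r)} (hJ : J.card = 3)
    {P : Finset U} (hP : P.card = r - 3) :
    ∃ b : Fin r → U, (∀ i ∈ J, b i = c i) ∧ (∀ i, i ∉ J → b i ∈ P) ∧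
      (∀ i, i ∉ J → ∀ j, j ∉ J → b i = b j → i = j) ∧ (∀ x ∈ P, ∃ i, i ∉ J ∧ b i = x) := by
  classical
  have hc : (Jᶜ).card = P.card := by
    rw [Finset.card_compl, Fintype.card_fin, hJ, hP]
  let e := Finset.equivOfCardEq hc
  refine ⟨fun i => if h : i ∈ Jᶜ then (e ⟨i, h⟩).1 else c i, ?_, ?_, ?_, ?_⟩
  · intro i hi
    have : i ∉ Jᶜ := by simpa using hi
    simp only [this, dif_neg, not_false_iff]
  · intro i hi
    have : i ∈ Jᶜ := by simpa using hi
    simp only [this, dif_pos]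
    exact (e ⟨i, this⟩).2
  · intro i hi j hj h
    have h1 : i ∈ Jᶜ := by simpa using hi
    have h2 : j ∈ Jᶜ := by simpa using hj
    simp only [h1, h2, dif_pos] at h
    have := e.injective (Subtype.ext h)
    exact congrArg Subtype.val this
  · intro x hx
    obtain ⟨⟨i, hi⟩, he⟩ := e.surjective ⟨x, hx⟩
    refine ⟨i, by simpa using hi, ?_⟩
    simp only [hi, dif_pos]
    rw [he]

/-- the transformer of one clique -/
theorem zlem {r : ℕ} (c : Fin r → U) (hc : Function.Injective c)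
    (P : Finset (Fin r) → Finset U)
    (hP : ∀ J : Finset (Fin r), J.card = 3 → (P J).card = r - 3)
    (hPc : ∀ J : Finset (Fin r), J.card = 3 → ∀ i, c i ∉ P J)
    (hPP : ∀ J J' : Finset (Fin r), J.card = 3 → J'.card = 3 → J ≠ J' → Disjoint (P J) (P J'))
    (fr : Fin r → ℕ → U) (hfr : ∀ i n j m, fr i n = fr j m → i = j ∧ n = m)
    (hfc : ∀ i n j, fr i n ≠ c j)
    (hfP : ∀ J : Finset (Fin r), J.card = 3 → ∀ i n, fr i n ∉ P J)
    (Good : U → U → Prop) (gsymm : ∀ x y, Good x y → Good y x)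
    (g1 : ∀ i j, i ≠ j → Good (c i) (c j))
    (g2 : ∀ i n j, i ≠ j → Good (fr i n) (c j))
    (g3 : ∀ i n j m, i ≠ j → Good (fr i n) (fr j m))
    (g4 : ∀ J : Finset (Fin r), J.card = 3 → ∀ p ∈ P J, ∀ i, Good p (c i))
    (g5 : ∀ J : Finset (Fin r), J.card = 3 → ∀ p ∈ P J, ∀ i n, Good p (fr i n))
    (g6 : ∀ J : Finset (Fin r), J.card = 3 → ∀ p ∈ P J, ∀ p' ∈ P J, p ≠ p' → Good p p') :
    ∃ Z : Finset (Finset U), Dec r Z ∧
      Dec r (Z ∪ (univ.powersetCard 3).biUnion fun J =>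
        (tri (J.image c ∪ P J)).erase (J.image c)) ∧
      ∀ t ∈ Z, t.card = 3 ∧ (∀ x ∈ t, ∀ y ∈ t, x ≠ y → Good x y) ∧ (∃ i n, fr i n ∈ t) ∧
        ∀ x ∈ t, (∃ i, x = c i) ∨ (∃ J : Finset (Fin r), J.card = 3 ∧ x ∈ P J) ∨
          ∃ i n, x = fr i n := by
  classical
  set frY : Fin r → ℕ → U := fun i n => fr i (Nat.pair 0 n) with hfrY
  set frT : Finset (Fin r) → Fin r → ℕ → U :=
    fun J i n => fr i (Nat.pair (Encodable.encode J + 1) n) with hfrT
  have hTT : ∀ J i n J' j m, frT J i n = frT J' j m → J = J' ∧ i = j ∧ n = m := by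
    intro J i n J' j m h
    obtain ⟨e1, e2⟩ := hfr _ _ _ _ h
    rw [Nat.pair_eq_pair] at e2
    exact ⟨Encodable.encode_injective (by omega), e1, e2.2⟩
  have hTY : ∀ J i n j m, frT J i n ≠ frY j m := by
    intro J i n j m h
    obtain ⟨e1, e2⟩ := hfr _ _ _ _ h
    rw [Nat.pair_eq_pair] at e2
    omega
  obtain ⟨Y, R, d, hY, hR, hd, hYR, hRd, hdd, hYt⟩ := flip c hc frY
    (fun i n j m h => by
      obtain ⟨e1, e2⟩ := hfr _ _ _ _ h
      rw [Nat.pair_eq_pair] at e2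
      exact ⟨e1, e2.2⟩)
    (fun i n j => hfc _ _ _) Good gsymm g1 (fun i n j h => g2 _ _ _ h)
    (fun i n j m h => g3 _ _ _ _ h)
  have hb : ∀ J : Finset (Fin r), ∃ b : Fin r → U, J.card = 3 → (∀ i ∈ J, b i = c i) ∧
      (∀ i, i ∉ J → b i ∈ P J) ∧
      (∀ i, i ∉ J → ∀ j, j ∉ J → b i = b j → i = j) ∧ (∀ x ∈ P J, ∃ i, i ∉ J ∧ b i = x) := by
    intro J
    by_cases hJ : J.card = 3
    · obtain ⟨b, hb⟩ := exists_enum c hJ (hP J hJ)
      exact ⟨b, fun _ => hb⟩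
    · exact ⟨c, fun h => absurd h hJ⟩
  choose b hb using hb
  have hdim : ∀ J : Finset (Fin r), J.card = 3 → J.image (d J) = J.image c := by
    intro J hJ
    exact Finset.image_congr fun i hi => (hd J hJ).1 i hi
  have hbim : ∀ J : Finset (Fin r), J.card = 3 → univ.image (b J) = J.image c ∪ P J := by
    intro J hJ
    obtain ⟨h1, h2, h3, h4⟩ := hb J hJ
    ext x
    simp only [mem_image, mem_univ, true_and, mem_union]
    constructor
    · rintro ⟨i, rfl⟩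
      by_cases hi : i ∈ J
      · exact Or.inl ⟨i, hi, (h1 i hi).symm⟩
      · exact Or.inr (h2 i hi)
    · rintro (⟨i, hi, rfl⟩ | hx)
      · exact ⟨i, h1 i hi⟩
      · obtain ⟨i, -, hi⟩ := h4 x hx
        exact ⟨i, hi⟩
  -- the exchanges
  have hT : ∀ J : Finset (Fin r), ∃ T : Finset (Finset U), J.card = 3 →
      Dec r (T ∪ (tri (univ.image (d J))).erase (J.image c)) ∧
      Dec r (T ∪ (tri (J.image c ∪ P J)).erase (J.image c)) ∧
      ∀ t ∈ T, t.card = 3 ∧ (∀ x ∈ t, ∀ y ∈ t, x ≠ y → Good x y) ∧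
        (∀ x ∈ t, (∃ i, x = d J i) ∨ (∃ i, x = b J i) ∨ ∃ i n, x = frT J i n) ∧
        ((∃ i n, frT J i n ∈ t) ∨ ((∃ i, i ∉ J ∧ d J i ∈ t) ∧ ∃ i, i ∉ J ∧ b J i ∈ t)) := by
    intro J
    by_cases hJ : J.card = 3
    · obtain ⟨d1, d2, d3⟩ := hd J hJ
      obtain ⟨b1, b2, b3, b4⟩ := hb J hJ
      have hdc : ∀ i, (d J i = c i ∧ i ∈ J) ∨ (∃ n, d J i = fr i n) := by
        intro i
        by_cases hi : i ∈ J
        · exact Or.inl ⟨d1 i hi, hi⟩
        · obtain ⟨n, hn⟩ := d2 i hi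
          exact Or.inr ⟨_, hn⟩
      have hbc : ∀ i, (b J i = c i ∧ i ∈ J) ∨ (b J i ∈ P J ∧ i ∉ J) := by
        intro i
        by_cases hi : i ∈ J
        · exact Or.inl ⟨b1 i hi, hi⟩
        · exact Or.inr ⟨b2 i hi, hi⟩
      have hbinj : Function.Injective (b J) := by
        intro i j h
        rcases hbc i with ⟨hi, hi'⟩ | ⟨hi, hi'⟩ <;> rcases hbc j with ⟨hj, hj'⟩ | ⟨hj, hj'⟩
        · exact hc (by rw [← hi, ← hj, h])
        · exact absurd (h ▸ hj) (by rw [← h, hi] at hj; exact absurd hj (hPc J hJ i))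
        · exact absurd (h ▸ hi) (by rw [h, hj] at hi; exact absurd hi (hPc J hJ j))
        · exact b3 i hi' j hj' h
      have hab : ∀ i j, d J i = b J j → i = j ∧ i ∈ J := by
        intro i j h
        rcases hdc i with ⟨hi, hi'⟩ | ⟨n, hn⟩ <;> rcases hbc j with ⟨hj, hj'⟩ | ⟨hj, hj'⟩
        · have := hc (by rw [← hi, ← hj, h] : c i = c j)
          exact ⟨this, hi'⟩
        · rw [← h, hi] at hj
          exact absurd hj (hPc J hJ i)
        · rw [hn, hj] at h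
          exact absurd h (hfc _ _ _)
        · rw [← h, hn] at hj
          exact absurd hj (hfP J hJ _ _)
      obtain ⟨T, t1, t2, t3, t4, t5⟩ := exchange (d J) (b J) J hJ d3 hbinj hab
        (fun i hi => (d1 i hi).trans (b1 i hi).symm) (frT J)
        (fun i n j m h => (hTT _ _ _ _ _ _ h).2)
        (fun i n j h => by
          by_cases hj : j ∈ J
          · rw [d1 j hj] at h
            exact hfc _ _ _ h
          · obtain ⟨m, hm⟩ := d2 j hj
            rw [hm] at h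
            exact hTY _ _ _ _ _ h)
        (fun i n j h => by
          rcases hbc j with ⟨hj, hj'⟩ | ⟨hj, hj'⟩
          · rw [hj] at h
            exact hfc _ _ _ h
          · rw [← h] at hj
            exact hfP J hJ _ _ hj)
        Good gsymm
        (fun i j hij => by
          rcases hdc i with ⟨hi, hi'⟩ | ⟨n, hn⟩ <;> rcases hdc j with ⟨hj, hj'⟩ | ⟨m, hm⟩
          · rw [hi, hj]; exact g1 _ _ hij
          · rw [hi, hm]; exact gsymm _ _ (g2 _ _ _ hij.symm)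
          · rw [hn, hj]; exact g2 _ _ _ hij
          · rw [hn, hm]; exact g3 _ _ _ _ hij)
        (fun i j hij => by
          rcases hdc i with ⟨hi, hi'⟩ | ⟨n, hn⟩ <;> rcases hbc j with ⟨hj, hj'⟩ | ⟨hj, hj'⟩
          · rw [hi, hj]; exact g1 _ _ hij
          · rw [hi]; exact gsymm _ _ (g4 J hJ _ hj _)
          · rw [hn, hj]; exact g2 _ _ _ hij
          · rw [hn]; exact gsymm _ _ (g5 J hJ _ hj _ _))
        (fun i j hij => by
          rcases hbc i with ⟨hi, hi'⟩ | ⟨hi, hi'⟩ <;> rcases hbc j with ⟨hj, hj'⟩ | ⟨hj, hj'⟩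
          · rw [hi, hj]; exact g1 _ _ hij
          · rw [hi]; exact gsymm _ _ (g4 J hJ _ hj _)
          · rw [hj]; exact g4 J hJ _ hi _
          · exact g6 J hJ _ hi _ hj (fun h => hij (hbinj h)))
        (fun i n j hij => by
          rcases hdc j with ⟨hj, hj'⟩ | ⟨m, hm⟩
          · rw [hj]; exact g2 _ _ _ hij
          · rw [hm]; exact g3 _ _ _ _ hij)
        (fun i n j hij => by
          rcases hbc j with ⟨hj, hj'⟩ | ⟨hj, hj'⟩
          · rw [hj]; exact g2 _ _ _ hij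
          · exact gsymm _ _ (g5 J hJ _ hj _ _))
        (fun i n j m hij => g3 _ _ _ _ hij)
      rw [hdim J hJ] at t1 t2
      rw [hbim J hJ] at t2
      exact ⟨T, fun _ => ⟨t1, t2, t5⟩⟩
    · exact ⟨∅, fun h => absurd h hJ⟩
  choose T hT using hT
  set N : Finset (Fin r) → Finset (Finset U) :=
    fun J => (tri (J.image c ∪ P J)).erase (J.image c) with hN
  set 𝒥 : Finset (Finset (Fin r)) := univ.powersetCard 3 with h𝒥
  have m𝒥 : ∀ J, J ∈ 𝒥 ↔ J.card = 3 := by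
    intro J; simp [h𝒥, mem_powersetCard]
  -- points of the different parts
  have pY : ∀ t ∈ Y, ∀ x ∈ t, (∃ i, x = c i) ∨ ∃ i n, x = frY i n := fun t ht => (hYt t ht).2.2.2
  have pT : ∀ J, J.card = 3 → ∀ t ∈ T J, ∀ x ∈ t, (∃ i, x = c i) ∨ (x ∈ P J) ∨
      (∃ i n, x = frY i n) ∨ ∃ i n, x = frT J i n := by
    intro J hJ t ht x hx
    obtain ⟨d1, d2, d3⟩ := hd J hJ
    obtain ⟨b1, b2, b3, b4⟩ := hb J hJ
    rcases ((hT J hJ).2.2 t ht).2.2.1 x hx with ⟨i, rfl⟩ | ⟨i, rfl⟩ | ⟨i, n, rfl⟩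
    · by_cases hi : i ∈ J
      · exact Or.inl ⟨i, d1 i hi⟩
      · obtain ⟨n, hn⟩ := d2 i hi
        exact Or.inr (Or.inr (Or.inl ⟨i, n, hn⟩))
    · by_cases hi : i ∈ J
      · exact Or.inl ⟨i, b1 i hi⟩
      · exact Or.inr (Or.inl (b2 i hi))
    · exact Or.inr (Or.inr (Or.inr ⟨i, n, rfl⟩))
  -- special points of T J
  have sT : ∀ J, J.card = 3 → ∀ t ∈ T J, (∃ i n, frT J i n ∈ t) ∨
      ((∃ i n, frY i n ∈ t) ∧ ∃ x ∈ P J, x ∈ t) := by
    intro J hJ t ht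
    obtain ⟨d1, d2, d3⟩ := hd J hJ
    obtain ⟨b1, b2, b3, b4⟩ := hb J hJ
    rcases ((hT J hJ).2.2 t ht).2.2.2 with h | ⟨⟨i, hi, hit⟩, ⟨j, hj, hjt⟩⟩
    · exact Or.inl h
    · right
      obtain ⟨n, hn⟩ := d2 i hi
      exact ⟨⟨i, n, hn ▸ hit⟩, _, b2 j hj, hjt⟩
  have pN : ∀ J, J.card = 3 → ∀ t ∈ N J, (∀ x ∈ t, (∃ i, x = c i) ∨ x ∈ P J) ∧
      ∃ x ∈ P J, x ∈ t := by
    intro J hJ t ht
    obtain ⟨h1, h2⟩ := mem_erase.1 ht
    obtain ⟨h3, h4⟩ := mem_tri.1 h2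
    constructor
    · intro x hx
      rcases mem_union.1 (h3 hx) with h | h
      · obtain ⟨i, -, rfl⟩ := mem_image.1 h
        exact Or.inl ⟨i, rfl⟩
      · exact Or.inr h
    · by_contra hcon
      push Not at hcon
      apply h1
      apply Finset.eq_of_subset_of_card_le
      · intro x hx
        rcases mem_union.1 (h3 hx) with h | h
        · exact h
        · exact absurd hx (hcon x h)
      · rw [Finset.card_image_of_injective _ hc, hJ, h4]
  -- separation of the points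
  have nPc : ∀ J, J.card = 3 → ∀ x ∈ P J, (∀ i, x ≠ c i) ∧ (∀ i n, x ≠ fr i n) := by
    intro J hJ x hx
    exact ⟨fun i h => hPc J hJ i (h ▸ hx), fun i n h => hfP J hJ i n (h ▸ hx)⟩
  have D1 : ∀ J, J.card = 3 → Disjoint Y (T J) := by
    intro J hJ
    refine Finset.disjoint_left.2 fun t hy ht => ?_
    rcases sT J hJ t ht with ⟨i, n, h⟩ | ⟨-, x, hx, h⟩
    · rcases pY t hy _ h with ⟨j, hj⟩ | ⟨j, m, hj⟩
      · exact hfc _ _ _ hj
      · exact hTY _ _ _ _ _ hj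
    · rcases pY t hy _ h with ⟨j, hj⟩ | ⟨j, m, hj⟩
      · exact (nPc J hJ x hx).1 j hj
      · exact (nPc J hJ x hx).2 _ _ hj
  have D2 : ∀ J J', J.card = 3 → J'.card = 3 → J ≠ J' → Disjoint (T J) (T J') := by
    intro J J' hJ hJ' hne
    refine Finset.disjoint_left.2 fun t ht ht' => ?_
    rcases sT J hJ t ht with ⟨i, n, h⟩ | ⟨-, x, hx, h⟩
    · rcases pT J' hJ' t ht' _ h with ⟨j, hj⟩ | hj | ⟨j, m, hj⟩ | ⟨j, m, hj⟩
      · exact hfc _ _ _ hj
      · exact hfP J' hJ' _ _ hj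
      · exact hTY _ _ _ _ _ hj
      · exact hne (hTT _ _ _ _ _ _ hj).1
    · rcases pT J' hJ' t ht' _ h with ⟨j, hj⟩ | hj | ⟨j, m, hj⟩ | ⟨j, m, hj⟩
      · exact (nPc J hJ x hx).1 j hj
      · exact Finset.disjoint_left.1 (hPP J J' hJ hJ' hne) hx hj
      · exact (nPc J hJ x hx).2 _ _ hj
      · exact (nPc J hJ x hx).2 _ _ hj
  have D3 : ∀ J J', J.card = 3 → J'.card = 3 → Disjoint (T J) (N J') := by
    intro J J' hJ hJ'
    refine Finset.disjoint_left.2 fun t ht ht' => ?_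
    obtain ⟨hn, -⟩ := pN J' hJ' t ht'
    rcases sT J hJ t ht with ⟨i, n, h⟩ | ⟨⟨i, n, h⟩, -⟩
    · rcases hn _ h with ⟨j, hj⟩ | hj
      · exact hfc _ _ _ hj
      · exact hfP J' hJ' _ _ hj
    · rcases hn _ h with ⟨j, hj⟩ | hj
      · exact hfc _ _ _ hj
      · exact hfP J' hJ' _ _ hj
  have D4 : ∀ J', J'.card = 3 → Disjoint Y (N J') := by
    intro J' hJ'
    refine Finset.disjoint_left.2 fun t ht ht' => ?_
    obtain ⟨hn, -⟩ := pN J' hJ' t ht'
    obtain ⟨i, n, h⟩ := (hYt t ht).2.2.1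
    rcases hn _ h with ⟨j, hj⟩ | hj
    · exact hfc _ _ _ hj
    · exact hfP J' hJ' _ _ hj
  have D5 : ∀ J J', J.card = 3 → J'.card = 3 → J ≠ J' → Disjoint (N J) (N J') := by
    intro J J' hJ hJ' hne
    refine Finset.disjoint_left.2 fun t ht ht' => ?_
    obtain ⟨-, x, hx, h⟩ := pN J hJ t ht
    rcases (pN J' hJ' t ht').1 x h with ⟨j, hj⟩ | hj
    · exact (nPc J hJ x hx).1 j hj
    · exact Finset.disjoint_left.1 (hPP J J' hJ hJ' hne) hx hj
  set K : Finset (Fin r) → Finset (Finset U) :=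
    fun J => (tri (univ.image (d J))).erase (J.image c) with hK
  have KY : ∀ J, J.card = 3 → K J ⊆ Y := by
    intro J hJ
    rw [hYR]
    exact (Finset.subset_biUnion_of_mem (s := 𝒥) (fun J => K J) ((m𝒥 J).2 hJ)).trans
      subset_union_right
  have RY : R ⊆ Y := by rw [hYR]; exact subset_union_left
  refine ⟨Y ∪ 𝒥.biUnion T, ?_, ?_, ?_⟩
  · have e : Y ∪ 𝒥.biUnion T = R ∪ 𝒥.biUnion fun J => T J ∪ K J := by
      rw [hYR]
      ext t
      simp only [mem_union, mem_biUnion]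
      constructor
      · rintro ((h | ⟨J, hJ, h⟩) | ⟨J, hJ, h⟩)
        · exact Or.inl h
        · exact Or.inr ⟨J, hJ, Or.inr h⟩
        · exact Or.inr ⟨J, hJ, Or.inl h⟩
      · rintro (h | ⟨J, hJ, h | h⟩)
        · exact Or.inl (Or.inl h)
        · exact Or.inr ⟨J, hJ, h⟩
        · exact Or.inl (Or.inr ⟨J, hJ, h⟩)
    rw [e]
    refine Dec.union ?_ hR (Dec.bUnionM _ _ (fun J hJ => (hT J ((m𝒥 J).1 hJ)).1) ?_)
    · rw [Finset.disjoint_biUnion_right]
      intro J hJ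
      rw [m𝒥] at hJ
      rw [Finset.disjoint_union_right]
      exact ⟨(D1 J hJ).mono_left RY, (hRd J hJ).mono_right (Finset.erase_subset _ _)⟩
    · intro J hJ J' hJ' hne
      rw [m𝒥] at hJ hJ'
      rw [Finset.disjoint_union_right, Finset.disjoint_union_left, Finset.disjoint_union_left]
      exact ⟨⟨D2 J J' hJ hJ' hne, ((D1 J' hJ').mono_left (KY J hJ))⟩,
        ((D1 J hJ).mono_left (KY J' hJ')).symm,
        ((hdd J J' hJ hJ' hne).mono_left (Finset.erase_subset _ _)).mono_right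
          (Finset.erase_subset _ _)⟩
  · have e : Y ∪ 𝒥.biUnion T ∪ 𝒥.biUnion N = Y ∪ 𝒥.biUnion fun J => T J ∪ N J := by
      ext t
      simp only [mem_union, mem_biUnion]
      constructor
      · rintro ((h | ⟨J, hJ, h⟩) | ⟨J, hJ, h⟩)
        · exact Or.inl h
        · exact Or.inr ⟨J, hJ, Or.inl h⟩
        · exact Or.inr ⟨J, hJ, Or.inr h⟩
      · rintro (h | ⟨J, hJ, h | h⟩)
        · exact Or.inl (Or.inl h)
        · exact Or.inl (Or.inr ⟨J, hJ, h⟩)
        · exact Or.inr ⟨J, hJ, h⟩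
    rw [e]
    refine Dec.union ?_ hY (Dec.bUnionM _ _ (fun J hJ => (hT J ((m𝒥 J).1 hJ)).2.1) ?_)
    · rw [Finset.disjoint_biUnion_right]
      intro J hJ
      rw [m𝒥] at hJ
      rw [Finset.disjoint_union_right]
      exact ⟨D1 J hJ, D4 J hJ⟩
    · intro J hJ J' hJ' hne
      rw [m𝒥] at hJ hJ'
      rw [Finset.disjoint_union_right, Finset.disjoint_union_left, Finset.disjoint_union_left]
      exact ⟨⟨D2 J J' hJ hJ' hne, (D3 J' J hJ' hJ).symm⟩, D3 J J' hJ hJ', D5 J J' hJ hJ' hne⟩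
  · intro t ht
    rcases mem_union.1 ht with ht | ht
    · obtain ⟨h1, h2, ⟨i, n, h3⟩, h4⟩ := hYt t ht
      refine ⟨h1, h2, ⟨i, _, h3⟩, ?_⟩
      intro x hx
      rcases h4 x hx with h | ⟨i, n, h⟩
      · exact Or.inl h
      · exact Or.inr (Or.inr ⟨i, _, h⟩)
    · obtain ⟨J, hJ, ht⟩ := mem_biUnion.1 ht
      rw [m𝒥] at hJ
      obtain ⟨h1, h2, -, -⟩ := (hT J hJ).2.2 t ht
      refine ⟨h1, h2, ?_, ?_⟩
      · rcases sT J hJ t ht with ⟨i, n, h⟩ | ⟨⟨i, n, h⟩, -⟩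
        · exact ⟨i, _, h⟩
        · exact ⟨i, _, h⟩
      · intro x hx
        rcases pT J hJ t ht x hx with h | h | ⟨i, n, h⟩ | ⟨i, n, h⟩
        · exact Or.inl h
        · exact Or.inr (Or.inl ⟨J, hJ, h⟩)
        · exact Or.inr (Or.inr ⟨i, _, h⟩)
        · exact Or.inr (Or.inr ⟨i, _, h⟩)

end zlem

end Pool.Agent.Lib.MP_5c685b_co.E
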